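import Pool.Agent.Nan.Cp

/-! The subgroups `A R` and the gluing lemma: modules `ra` .. `rz`. -/

set_option autoImplicit false

namespace Pool.Agent.Nan

variable {H : Type} [Group H] [Finite H]

/-- (ra, size 2) PROOF. `A ⊔ R` is normal, so it contains all Sylow `r`-subgroups; `R'` and `R` are
Sylow subgroups of `A ⊔ R`, so conjugate in `A ⊔ R` by an element `a * s` (`a ∈ A`, `s ∈ R`;
`Subgroup.mul_normal`, `A` normal), `s` normalizes `R`. -/
theorem ar_conj {A : Subgroup H} (hA : Ab A) {r : ℕ} (h : AR A r) (R R' : Sylow r H) :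
    ∃ a ∈ A, ∀ x : H, x ∈ (R' : Subgroup H) ↔ a⁻¹ * x * a ∈ (R : Subgroup H) := by
  have := Fact.mk h.prime
  have hN : (A ⊔ (R : Subgroup H)).Normal := h.nor R
  have hAn : A.Normal := hA.nor
  have hR : (R : Subgroup H) ≤ A ⊔ (R : Subgroup H) := le_sup_right
  have hR' : (R' : Subgroup H) ≤ A ⊔ (R : Subgroup H) := by
    obtain ⟨g, hg⟩ := MulAction.exists_smul_eq H R R'
    intro x hx
    rw [← hg, Sylow.coe_subgroup_smul, Subgroup.mem_pointwise_smul_iff_inv_smul_mem] at hx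
    have h1 := hN.conj_mem _ (hR hx) g
    have h2 : g * ((MulAut.conj g)⁻¹ • x) * g⁻¹ = x := by
      rw [← map_inv, MulAut.smul_def, MulAut.conj_apply]
      group
    rwa [h2] at h1
  obtain ⟨g, hg⟩ := MulAction.exists_smul_eq (A ⊔ (R : Subgroup H) : Subgroup H)
    (R.subtype hR) (R'.subtype hR')
  have hmem : ∀ x : H, x ∈ (R' : Subgroup H) ↔ (g : H)⁻¹ * x * g ∈ (R : Subgroup H) := by
    intro x
    constructor
    · intro hx
      have h1 : (⟨x, hR' hx⟩ : (A ⊔ (R : Subgroup H) : Subgroup H)) ∈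
          ((R'.subtype hR' : Sylow r (A ⊔ (R : Subgroup H) : Subgroup H)) :
            Subgroup (A ⊔ (R : Subgroup H) : Subgroup H)) := by
        rw [Sylow.coe_subtype, Subgroup.mem_subgroupOf]
        exact hx
      rw [← hg, Sylow.coe_subgroup_smul, Subgroup.mem_pointwise_smul_iff_inv_smul_mem,
        Sylow.coe_subtype, Subgroup.mem_subgroupOf, ← map_inv, MulAut.smul_def,
        MulAut.conj_apply] at h1
      simpa using h1
    · intro hx
      have hxK : x ∈ A ⊔ (R : Subgroup H) := by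
        have := hN.conj_mem _ (hR hx) (g : H)
        have h2 : (g : H) * ((g : H)⁻¹ * x * g) * (g : H)⁻¹ = x := by group
        rwa [h2] at this
      have h1 : (⟨x, hxK⟩ : (A ⊔ (R : Subgroup H) : Subgroup H)) ∈
          ((R'.subtype hR' : Sylow r (A ⊔ (R : Subgroup H) : Subgroup H)) :
            Subgroup (A ⊔ (R : Subgroup H) : Subgroup H)) := by
        rw [← hg, Sylow.coe_subgroup_smul, Subgroup.mem_pointwise_smul_iff_inv_smul_mem,
          Sylow.coe_subtype, Subgroup.mem_subgroupOf, ← map_inv, MulAut.smul_def,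
          MulAut.conj_apply]
        simpa using hx
      rw [Sylow.coe_subtype, Subgroup.mem_subgroupOf] at h1
      exact h1
  have hg2 : (g : H) ∈ ((A ⊔ (R : Subgroup H) : Subgroup H) : Set H) := g.2
  rw [Subgroup.normal_mul] at hg2
  obtain ⟨a, ha, s, hs, has⟩ := Set.mem_mul.1 hg2
  refine ⟨a, ha, fun x => ?_⟩
  rw [hmem x, ← has]
  have h3 : (a * s)⁻¹ * x * (a * s) = s⁻¹ * (a⁻¹ * x * a) * s := by group
  rw [h3]
  have hs' : s ∈ (R : Subgroup H) := hs
  constructor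
  · intro h4
    have h5 := mul_mem (mul_mem hs' h4) (inv_mem hs')
    have h6 : s * (s⁻¹ * (a⁻¹ * x * a) * s) * s⁻¹ = a⁻¹ * x * a := by group
    rwa [h6] at h5
  · intro h4
    exact mul_mem (mul_mem (inv_mem hs') h4) hs'

/-- (ra, size 1) The Sylow `r`-subgroups act in the same way on `A`. PROOF. `ar_conj`:
`s = a⁻¹ * s' * a`; `a` commutes with `A`. -/
theorem ar_act {A : Subgroup H} (hA : Ab A) {r : ℕ} (h : AR A r) (R R' : Sylow r H) (s' : H)
    (hs : s' ∈ (R' : Subgroup H)) :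
    ∃ s ∈ (R : Subgroup H), ∀ x ∈ A, s' * x * s'⁻¹ = s * x * s⁻¹ := by
  obtain ⟨a, ha, hx⟩ := ar_conj hA h R R'
  refine ⟨a⁻¹ * s' * a, (hx s').1 hs, fun x hxA => ?_⟩
  have h1 : x * a = a * x := hA.com x hxA a ha
  have h2 : s' * x * s'⁻¹ ∈ A := hA.nor.conj_mem x hxA s'
  have h3 := hA.com a ha _ h2
  calc s' * x * s'⁻¹ = a⁻¹ * (a * (s' * x * s'⁻¹)) := by group
    _ = a⁻¹ * (s' * x * s'⁻¹ * a) := by rw [h3]
    _ = a⁻¹ * s' * (x * a) * a⁻¹ * s'⁻¹ * a := by group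
    _ = a⁻¹ * s' * (a * x) * a⁻¹ * s'⁻¹ * a := by rw [h1]
    _ = a⁻¹ * s' * a * x * (a⁻¹ * s' * a)⁻¹ := by group

open scoped commutatorElement in
private theorem rb_gen {A : Subgroup H} (hA : Ab A) {r : ℕ} (h : AR A r) (R R' : Sylow r H)
    (a : H) (ha : a ∈ A) (s' : H) (hs : s' ∈ (R' : Subgroup H)) :
    ⁅a, s'⁆ ∈ ⁅A, (R : Subgroup H)⁆ := by
  obtain ⟨s, hsR, hx⟩ := ar_act hA h R R' s' hs
  have h1 : ⁅a, s'⁆ = ⁅a, s⁆ := by
    rw [commutatorElement_def, commutatorElement_def]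
    have := hx a⁻¹ (inv_mem ha)
    calc a * s' * a⁻¹ * s'⁻¹ = a * (s' * a⁻¹ * s'⁻¹) := by group
      _ = a * (s * a⁻¹ * s⁻¹) := by rw [this]
      _ = a * s * a⁻¹ * s⁻¹ := by group
  rw [h1]
  exact Subgroup.commutator_mem_commutator ha hsR

private theorem rb_conj {r : ℕ} (R : Sylow r H) (g x : H) (hx : x ∈ (R : Subgroup H)) :
    g * x * g⁻¹ ∈ ((g • R : Sylow r H) : Subgroup H) := by
  rw [Sylow.coe_subgroup_smul, Subgroup.mem_pointwise_smul_iff_inv_smul_mem, ← map_inv,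
    MulAut.smul_def, MulAut.conj_apply]
  have : g⁻¹ * (g * x * g⁻¹) * g⁻¹⁻¹ = x := by group
  rw [this]
  exact hx

open scoped commutatorElement in
private theorem rb_nor {A : Subgroup H} (hA : Ab A) {r : ℕ} (h : AR A r) (R : Sylow r H) :
    (⁅A, (R : Subgroup H)⁆).Normal := by
  have key : ∀ g : H, ⁅A, (R : Subgroup H)⁆ ≤
      (⁅A, (R : Subgroup H)⁆).comap (MulAut.conj g).toMonoidHom := by
    intro g
    rw [Subgroup.commutator_le]
    intro a ha s hs
    rw [Subgroup.mem_comap]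
    have h1 : (MulAut.conj g).toMonoidHom ⁅a, s⁆ = ⁅g * a * g⁻¹, g * s * g⁻¹⁆ := by
      rw [map_commutatorElement]
      rfl
    rw [h1]
    exact rb_gen hA h R (g • R) _ (hA.nor.conj_mem a ha g) _ (rb_conj R g s hs)
  exact ⟨fun n hn g => key g hn⟩

open scoped commutatorElement in
/-- (rb, size 2) PROOF. `⁅A, R'⁆ = ⁅A, R⁆` by `ar_act` (compare the generators `a (s a⁻¹ s⁻¹)`), and
`⁅A, ⨆ R⁆` is the join of the `⁅A, R⁆` (these are in the abelian group `A`; `⁅A, R⁆` is normal in `H`: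
conjugation by `h` maps it to `⁅A, h R h⁻¹⁆ = ⁅A, R⁆`; modulo `⁅A, R⁆` all Sylow `r`-subgroups commute
with `A`, so their join does). -/
theorem ar_cm {A : Subgroup H} (hA : Ab A) {r : ℕ} (h : AR A r) (R : Sylow r H) :
    cm A r = ⁅A, (R : Subgroup H)⁆ := by
  have hN := rb_nor hA h R
  apply le_antisymm
  · let K : Subgroup H :=
      { carrier := {g | ∀ a ∈ A, ⁅a, g⁆ ∈ ⁅A, (R : Subgroup H)⁆}
        one_mem' := by
          intro a ha
          rw [commutatorElement_one_right]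
          exact one_mem _
        mul_mem' := by
          intro g k hg hk a ha
          have h1 : ⁅a, g * k⁆ = ⁅a, g⁆ * (g * ⁅a, k⁆ * g⁻¹) := by
            simp only [commutatorElement_def]
            group
          rw [h1]
          exact mul_mem (hg a ha) (hN.conj_mem _ (hk a ha) g)
        inv_mem' := by
          intro g hg a ha
          have h1 : ⁅a, g⁻¹⁆ = g⁻¹ * ⁅a, g⁆⁻¹ * g⁻¹⁻¹ := by
            simp only [commutatorElement_def]
            group
          rw [h1]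
          exact hN.conj_mem _ (inv_mem (hg a ha)) g⁻¹ }
    have hK : (⨆ R' : Sylow r H, (R' : Subgroup H)) ≤ K := by
      refine iSup_le fun R' s hs a ha => ?_
      exact rb_gen hA h R R' a ha s hs
    rw [cm, Subgroup.commutator_le]
    intro a ha g hg
    exact hK hg a ha
  · exact Subgroup.commutator_mono le_rfl (le_iSup (fun R' : Sylow r H => (R' : Subgroup H)) R)

/-- (rb, size 1) No hypothesis on `r` is needed: `A` is normal. -/
theorem cm_le {A : Subgroup H} (hA : Ab A) (r : ℕ) : cm A r ≤ A := by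
  have := hA.nor
  exact Subgroup.commutator_le_left _ _

/-- (rb, size 1) PROOF. The join of the Sylow `r`-subgroups is normal; `Subgroup.commutator_normal`. -/
theorem cm_nor {A : Subgroup H} (hA : Ab A) (r : ℕ) : (cm A r).Normal := by
  have := hA.nor
  have : (⨆ R : Sylow r H, (R : Subgroup H)).Normal := by
    have key : ∀ g : H, (⨆ R : Sylow r H, (R : Subgroup H)) ≤
        (⨆ R : Sylow r H, (R : Subgroup H)).comap (MulAut.conj g).toMonoidHom := by
      intro g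
      refine iSup_le fun R s hs => ?_
      rw [Subgroup.mem_comap]
      have := rb_conj R g s hs
      exact (le_iSup (fun R' : Sylow r H => (R' : Subgroup H)) (g • R)) this
    exact ⟨fun n hn g => key g hn⟩
  exact Subgroup.commutator_normal _ _

/-- (rb, size 1) PROOF. `|R|` is a power of `r` (`AR.ndvd`). -/
theorem ar_cop {A : Subgroup H} {r : ℕ} (h : AR A r) (R : Sylow r H) :
    (Nat.card (R : Subgroup H)).Coprime (Nat.card A) := by
  have := Fact.mk h.prime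
  obtain ⟨n, hn⟩ := IsPGroup.iff_card.1 R.isPGroup'
  rw [hn]
  exact Nat.Coprime.pow_left n ((Nat.Prime.coprime_iff_not_dvd h.prime).2 h.ndvd)

private theorem rc_pow {A : Subgroup H} (hA : Ab A) {r : ℕ} (h : AR A r) (R : Sylow r H) (z : H)
    (hz : z ∈ A ⊔ (R : Subgroup H)) : ∃ k : ℕ, z ^ r ^ k ∈ A := by
  haveI := hA.nor
  have h1 : z ∈ (↑(A ⊔ (R : Subgroup H)) : Set H) := hz
  rw [Subgroup.normal_mul] at h1
  obtain ⟨a, ha, s, hs, rfl⟩ := Set.mem_mul.1 h1
  obtain ⟨k, hk⟩ := R.isPGroup' ⟨s, hs⟩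
  have hk' : s ^ r ^ k = 1 := by
    have := congrArg Subtype.val hk
    simpa using this
  refine ⟨k, ?_⟩
  rw [← QuotientGroup.eq_one_iff (N := A), QuotientGroup.mk_pow, QuotientGroup.mk_mul,
    (QuotientGroup.eq_one_iff (N := A) a).2 ha, one_mul, ← QuotientGroup.mk_pow, hk']
  rfl

/-- (rc, size 2) PROOF. `A ⊔ R` and `A ⊔ R'` are normal, so the commutator is in
`(A ⊔ R) ⊓ (A ⊔ R')`. An element `z` of this intersection is in `A`: in the group `H ⧸ A` its image is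
in the image of `R` and in the image of `R'`, so its order is a power of `r` and a power of `r'`. -/
theorem ar_two {A : Subgroup H} (hA : Ab A) {r r' : ℕ} (h : AR A r) (h' : AR A r') (hne : r ≠ r')
    (R : Sylow r H) (R' : Sylow r' H) (x y : H) (hx : x ∈ (R : Subgroup H))
    (hy : y ∈ (R' : Subgroup H)) : x * y * x⁻¹ * y⁻¹ ∈ A := by
  haveI := hA.nor
  haveI h1 := h.nor R
  haveI h2 := h'.nor R'
  have hx1 : x ∈ A ⊔ (R : Subgroup H) := (le_sup_right : (R : Subgroup H) ≤ _) hx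
  have hy1 : y ∈ A ⊔ (R' : Subgroup H) := (le_sup_right : (R' : Subgroup H) ≤ _) hy
  have m1 : x * y * x⁻¹ * y⁻¹ ∈ A ⊔ (R : Subgroup H) := by
    have : x * y * x⁻¹ * y⁻¹ = x * (y * x⁻¹ * y⁻¹) := by group
    rw [this]
    exact mul_mem hx1 (h1.conj_mem _ (inv_mem hx1) y)
  have m2 : x * y * x⁻¹ * y⁻¹ ∈ A ⊔ (R' : Subgroup H) :=
    mul_mem (h2.conj_mem _ hy1 x) (inv_mem hy1)
  obtain ⟨k, hk⟩ := rc_pow hA h R _ m1
  obtain ⟨l, hl⟩ := rc_pow hA h' R' _ m2
  rw [← QuotientGroup.eq_one_iff (N := A), QuotientGroup.mk_pow] at hk hl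
  rw [← QuotientGroup.eq_one_iff (N := A), ← orderOf_eq_one_iff]
  exact Nat.eq_one_of_dvd_coprimes (Nat.Coprime.pow k l ((Nat.coprime_primes h.prime h'.prime).2 hne))
    (orderOf_dvd_of_pow_eq_one hk) (orderOf_dvd_of_pow_eq_one hl)

private theorem rd_sy (r : ℕ) (P : Sylow r H) (g : H) :
    ∃ P' : Sylow r H, ∀ x : H, x ∈ (P' : Subgroup H) ↔ g⁻¹ * x * g ∈ (P : Subgroup H) := by
  refine ⟨g • P, fun x => ?_⟩
  rw [Sylow.coe_subgroup_smul, Subgroup.mem_pointwise_smul_iff_inv_smul_mem]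
  have : (MulAut.conj g)⁻¹ • x = g⁻¹ * x * g := by
    rw [← map_inv, MulAut.smul_def, MulAut.conj_apply, inv_inv]
  rw [this]

private theorem rd_inf {A : Subgroup H} {r : ℕ} (h : AR A r) (R : Sylow r H) (x : H)
    (hx : x ∈ A) (hx' : x ∈ (R : Subgroup H)) : x = 1 := by
  have h1 := Subgroup.inf_eq_bot_of_coprime (ar_cop h R).symm
  have h2 : x ∈ A ⊓ (R : Subgroup H) := ⟨hx, hx'⟩
  rw [h1] at h2
  exact Subgroup.mem_bot.1 h2

/-- The elements of `A` which normalize one Sylow subgroup commute with all of them. -/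
private theorem rd_cen {A : Subgroup H} (hA : Ab A) {r : ℕ} (h : AR A r) (R R' : Sylow r H) (x : H)
    (hx : x ∈ A) (hx' : x ∈ Subgroup.normalizer ((R : Subgroup H) : Set H)) (u : H)
    (hu : u ∈ (R' : Subgroup H)) : u * x * u⁻¹ = x := by
  obtain ⟨s, hs, hsx⟩ := ar_act hA h R R' u hu
  rw [hsx x hx]
  have h1 : x * s * x⁻¹ ∈ (R : Subgroup H) := (Subgroup.mem_normalizer_iff.1 hx' s).1 hs
  have h2 : x * s * x⁻¹ * s⁻¹ = 1 := by
    apply rd_inf h R
    · have : x * s * x⁻¹ * s⁻¹ = x * (s * x⁻¹ * s⁻¹) := by group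
      rw [this]
      exact mul_mem hx (hA.nor.conj_mem _ (inv_mem hx) s)
    · exact mul_mem h1 (inv_mem hs)
  have h3 : x * s = s * x := by
    have := mul_inv_eq_one.1 h2
    exact mul_inv_eq_iff_eq_mul.1 this
  rw [← h3]
  group

private theorem rd_step {A : Subgroup H} (hA : Ab A) (S : Finset ℕ) (hS : ∀ r ∈ S, AR A r)
    (R : ∀ r : ℕ, Sylow r H) (hR : ∀ r ∈ S, ∀ r' ∈ S, r ≠ r' →
      ∀ x ∈ (R r : Subgroup H), ∀ y ∈ (R r' : Subgroup H), x * y = y * x) (r0 : ℕ)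
    (h0 : AR A r0) (hr0 : r0 ∉ S) :
    ∃ P : Sylow r0 H, ∀ r ∈ S, ∀ x ∈ (R r : Subgroup H), ∀ y ∈ (P : Subgroup H),
      x * y = y * x := by
  classical
  have hT : (Nat.card (⨆ r ∈ S, (R r : Subgroup H) : Subgroup H)).Coprime (Nat.card A) :=
    csup_cop S (fun r => (R r : Subgroup H)) (fun r hr => (hS r hr).prime)
      (fun r _ => (R r).isPGroup') hR (Nat.card A) (fun r hr => (hS r hr).ndvd)
  obtain ⟨R0⟩ : Nonempty (Sylow r0 H) := inferInstance
  obtain ⟨a, ha, hN⟩ := tors hA (⨆ r ∈ S, (R r : Subgroup H) : Subgroup H)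
    (Subgroup.normalizer ((R0 : Subgroup H) : Set H)) hT
    (by
      intro s _ x hx hx'
      rw [Subgroup.mem_normalizer_iff]
      intro u
      obtain ⟨P', hP'⟩ := rd_sy r0 R0 s⁻¹
      have key : ∀ v ∈ (R0 : Subgroup H), s * x * s⁻¹ * v * (s * x * s⁻¹)⁻¹ = v := by
        intro v hv
        have hv' : s⁻¹ * v * s ∈ (P' : Subgroup H) := by
          rw [hP']
          have : s⁻¹⁻¹ * (s⁻¹ * v * s) * s⁻¹ = v := by group
          rw [this]
          exact hv
        have h1 := rd_cen hA h0 R0 P' x hx hx' _ hv'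
        have h2 : x * (s⁻¹ * v * s) * x⁻¹ = s⁻¹ * v * s := by
          have h3 := mul_inv_eq_iff_eq_mul.1 h1
          rw [← h3]
          group
        calc s * x * s⁻¹ * v * (s * x * s⁻¹)⁻¹ = s * (x * (s⁻¹ * v * s) * x⁻¹) * s⁻¹ := by group
          _ = s * (s⁻¹ * v * s) * s⁻¹ := by rw [h2]
          _ = v := by group
      constructor
      · intro hu
        rw [key u hu]
        exact hu
      · intro hu
        have h1 := key _ hu
        have h2 : u = s * x * s⁻¹ * u * (s * x * s⁻¹)⁻¹ := by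
          have h3 : s * x * s⁻¹ * u * (s * x * s⁻¹)⁻¹ =
            (s * x * s⁻¹)⁻¹ * (s * x * s⁻¹ * (s * x * s⁻¹ * u * (s * x * s⁻¹)⁻¹) *
              (s * x * s⁻¹)⁻¹) * (s * x * s⁻¹) := by group
          rw [h1] at h3
          rw [h3]
          group
        rw [h2]
        exact hu)
    (by
      intro s _
      obtain ⟨P', hP'⟩ := rd_sy r0 R0 s
      obtain ⟨b, hb, hbP⟩ := ar_conj hA h0 R0 P'
      refine ⟨b⁻¹, inv_mem hb, ?_⟩
      rw [Subgroup.mem_normalizer_iff]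
      intro u
      have h1 := hbP (s * u * s⁻¹)
      have h2 := hP' (s * u * s⁻¹)
      have e1 : s⁻¹ * (s * u * s⁻¹) * s = u := by group
      have e2 : b⁻¹ * s * u * (b⁻¹ * s)⁻¹ = b⁻¹ * (s * u * s⁻¹) * b := by group
      rw [e1] at h2
      rw [e2, ← h1, h2])
  obtain ⟨P, hP⟩ := rd_sy r0 R0 a⁻¹
  refine ⟨P, fun r hr x hx y hy => ?_⟩
  have hxT : x ∈ (⨆ r ∈ S, (R r : Subgroup H) : Subgroup H) :=
    (le_iSup₂_of_le r hr le_rfl : (R r : Subgroup H) ≤ _) hx
  have h1 := (Subgroup.mem_normalizer_iff.1 (hN x hxT) (a * y * a⁻¹)).1 (by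
    have := (hP y).1 hy
    rwa [inv_inv] at this)
  have h2 : x * y * x⁻¹ ∈ (P : Subgroup H) := by
    rw [hP, inv_inv]
    have : a * (x * y * x⁻¹) * a⁻¹ = a * x * a⁻¹ * (a * y * a⁻¹) * (a * x * a⁻¹)⁻¹ := by group
    rw [this]
    exact h1
  have h3 : x * y * x⁻¹ * y⁻¹ = 1 := by
    apply rd_inf h0 P
    · exact ar_two hA (hS r hr) h0 (fun e => hr0 (e ▸ hr)) (R r) P x y hx hy
    · exact mul_mem h2 (inv_mem hy)
  have h4 := mul_inv_eq_one.1 h3
  exact mul_inv_eq_iff_eq_mul.1 h4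

/-- (rd, size 4) There are Sylow subgroups `R r`, `r ∈ S`, which commute elementwise. PROOF.
Let `M = A ⊔ ⨆ r ∈ S, (a Sylow r-subgroup)`, a normal subgroup of `H`; `|M : A|` divides the product of
the orders of these Sylow subgroups (in `H ⧸ A` they are normal; induction on `S`), so it is prime to
`|A|`. `Subgroup.exists_right_complement'_of_coprime` in the group `M` gives `T ≤ M` with `A ⊔ T = M`,
`A ⊓ T = ⊥`. For `r ∈ S` and a Sylow subgroup `P` put `R r = T ⊓ (A ⊔ P)`. Dedekind: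
`A ⊔ R r = A ⊔ P`, so `|R r| = |P|` (`A ⊓ R r = ⊥ = A ⊓ P`), so `R r` is a Sylow `r`-subgroup
(`Sylow.ofCard` or `IsPGroup` of the same order). `ar_two`: for `x ∈ R r`, `y ∈ R r'` the commutator is in
`A ⊓ T = ⊥`. (Another proof: induction on `S` with fixed points of coprime actions.) -/
theorem cmpl {A : Subgroup H} (hA : Ab A) (S : Finset ℕ) (hS : ∀ r ∈ S, AR A r) :
    ∃ R : ∀ r : ℕ, Sylow r H, ∀ r ∈ S, ∀ r' ∈ S, r ≠ r' →
      ∀ x ∈ (R r : Subgroup H), ∀ y ∈ (R r' : Subgroup H), x * y = y * x := by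
  classical
  induction S using Finset.induction_on with
  | empty =>
    exact ⟨fun r => Classical.choice inferInstance, fun r hr => absurd hr (Finset.notMem_empty r)⟩
  | insert r0 S hr0 ih =>
    obtain ⟨R, hR⟩ := ih fun r hr => hS r (Finset.mem_insert_of_mem hr)
    obtain ⟨P, hP⟩ := rd_step hA S (fun r hr => hS r (Finset.mem_insert_of_mem hr)) R hR r0
      (hS r0 (Finset.mem_insert_self r0 S)) hr0
    refine ⟨Function.update R r0 P, fun r hr r' hr' hne x hx y hy => ?_⟩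
    rcases Finset.mem_insert.1 hr with rfl | hr1
    · rcases Finset.mem_insert.1 hr' with rfl | hr1'
      · exact absurd rfl hne
      · rw [Function.update_self] at hx
        rw [Function.update_of_ne hne.symm] at hy
        exact (hP r' hr1' y hy x hx).symm
    · have hrr : r ≠ r0 := fun e => hr0 (e ▸ hr1)
      rw [Function.update_of_ne hrr] at hx
      rcases Finset.mem_insert.1 hr' with rfl | hr1'
      · rw [Function.update_self] at hy
        exact hP r hr1 x hx y hy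
      · have hrr' : r' ≠ r0 := fun e => hr0 (e ▸ hr1')
        rw [Function.update_of_ne hrr'] at hy
        exact hR r hr1 r' hr1' hne x hx y hy

section

variable {A : Subgroup H}

/-- Conjugation on `A` by an element. -/
private def re_cj (hA : Ab A) (h : H) (a : A) : A :=
  ⟨h * a * h⁻¹, hA.nor.conj_mem _ a.2 h⟩

private theorem re_cj_mul (hA : Ab A) (h : H) (a b : A) :
    re_cj hA h (a * b) = re_cj hA h a * re_cj hA h b := by
  apply Subtype.ext
  change h * ((a : H) * b) * h⁻¹ = h * a * h⁻¹ * (h * b * h⁻¹)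
  group

private theorem re_cj_cj (hA : Ab A) (g h : H) (a : A) :
    re_cj hA (g * h) a = re_cj hA g (re_cj hA h a) := by
  apply Subtype.ext
  change g * h * (a : H) * (g * h)⁻¹ = g * (h * a * h⁻¹) * g⁻¹
  group

private theorem re_cj_one (hA : Ab A) (a : A) : re_cj hA 1 a = a := by
  apply Subtype.ext
  change 1 * (a : H) * 1⁻¹ = a
  group

/-- The abelian group `A`. -/
private abbrev re_grp (hA : Ab A) : CommGroup A :=
  { (inferInstance : Group A) with mul_comm := fun a b => Subtype.ext (hA.com a a.2 b b.2) }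

private theorem re_core {J : Type} [Finite J] (hA : Ab A) (Bt : Finset ℕ)
    (hB : ∀ r ∈ Bt, AR A r) (R : ∀ r : ℕ, Sylow r H)
    (hcom : ∀ r ∈ Bt, ∀ r' ∈ Bt, r ≠ r' →
      ∀ x ∈ (R r : Subgroup H), ∀ y ∈ (R r' : Subgroup H), x * y = y * x)
    (S : J → Subgroup H) (hS : ∀ r ∈ Bt, ∀ j, ∀ x ∈ (R r : Subgroup H), x ∈ S j) :
    ∃ k : J → A, ∀ r ∈ Bt,
      (∀ s ∈ (R r : Subgroup H), ∃ a ∈ A, ∀ j, s * (k j : H) * s⁻¹ * (k j : H)⁻¹ * a⁻¹ ∈ S j) →
      ∀ c : J → A, ∀ s ∈ (R r : Subgroup H),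
        ∃ a ∈ A, ∀ j, s * (c j : H) * s⁻¹ * (c j : H)⁻¹ * a⁻¹ ∈ S j := by
  classical
  letI : CommGroup A := re_grp hA
  let W : Subgroup (J → A) :=
    { carrier := {k | ∃ a ∈ A, ∀ j, (k j : H) * a⁻¹ ∈ S j}
      one_mem' := ⟨1, one_mem A, fun j => by
        have : (((1 : J → A) j : A) : H) * 1⁻¹ = 1 := by
          change (1 : H) * 1⁻¹ = 1
          group
        rw [this]
        exact one_mem _⟩
      mul_mem' := by
        rintro x y ⟨a, ha, hx⟩ ⟨b, hb, hy⟩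
        refine ⟨a * b, mul_mem ha hb, fun j => ?_⟩
        have e : (((x * y) j : A) : H) * (a * b)⁻¹ = ((x j : H) * a⁻¹) * ((y j : H) * b⁻¹) := by
          change (x j : H) * (y j : H) * (a * b)⁻¹ = _
          have e1 := hA.com _ (y j).2 _ (inv_mem ha)
          have e2 := hA.com _ (inv_mem ha) _ (inv_mem hb)
          calc (x j : H) * (y j : H) * (a * b)⁻¹ = (x j : H) * (y j : H) * (b⁻¹ * a⁻¹) := by group
            _ = (x j : H) * (y j * a⁻¹) * b⁻¹ := by rw [← e2]; group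
            _ = (x j : H) * (a⁻¹ * y j) * b⁻¹ := by rw [e1]
            _ = _ := by group
        rw [e]
        exact mul_mem (hx j) (hy j)
      inv_mem' := by
        rintro x ⟨a, ha, hx⟩
        refine ⟨a⁻¹, inv_mem ha, fun j => ?_⟩
        have e : (((x⁻¹) j : A) : H) * a⁻¹⁻¹ = ((x j : H) * a⁻¹)⁻¹ := by
          change (x j : H)⁻¹ * a⁻¹⁻¹ = _
          have e1 := hA.com _ (inv_mem (x j).2) _ ha
          rw [inv_inv, e1]
          group
        rw [e]
        exact inv_mem (hx j) }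
  have hWmem : ∀ k : J → A, k ∈ W ↔ ∃ a ∈ A, ∀ j, (k j : H) * a⁻¹ ∈ S j := fun k => Iff.rfl
  let E : Subgroup H := ⨅ j, S j
  have hE : ∀ h : E, ∀ j, (h : H) ∈ S j := fun h j => Subgroup.mem_iInf.1 h.2 j
  let f : E → (J → A) →* (J → A) := fun h =>
    { toFun := fun k j => re_cj hA h (k j)
      map_one' := by
        funext j
        apply Subtype.ext
        change (h : H) * 1 * (h : H)⁻¹ = 1
        group
      map_mul' := fun x y => by
        funext j
        exact re_cj_mul hA h (x j) (y j) }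
  have hf : ∀ h : E, W ≤ W.comap (f h) := by
    rintro h k ⟨a, ha, hk⟩
    refine ⟨h * a * (h : H)⁻¹, hA.nor.conj_mem _ ha h, fun j => ?_⟩
    have e : ((f h k j : A) : H) * ((h : H) * a * (h : H)⁻¹)⁻¹ =
        (h : H) * ((k j : H) * a⁻¹) * (h : H)⁻¹ := by
      change (h : H) * (k j : H) * (h : H)⁻¹ * ((h : H) * a * (h : H)⁻¹)⁻¹ = _
      group
    rw [e]
    exact mul_mem (mul_mem (hE h j) (hk j)) (inv_mem (hE h j))
  letI act : MulDistribMulAction E ((J → A) ⧸ W) :=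
    { smul := fun h => QuotientGroup.map W W (f h) (hf h)
      one_smul := by
        rintro ⟨k⟩
        change QuotientGroup.mk (f 1 k) = QuotientGroup.mk k
        congr 1
        funext j
        exact re_cj_one hA (k j)
      mul_smul := by
        rintro g h ⟨k⟩
        change QuotientGroup.mk (f (g * h) k) = QuotientGroup.mk (f g (f h k))
        congr 1
        funext j
        exact re_cj_cj hA g h (k j)
      smul_mul := fun h x y => map_mul (QuotientGroup.map W W (f h) (hf h)) x y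
      smul_one := fun h => map_one (QuotientGroup.map W W (f h) (hf h)) }
  have hsm : ∀ (h : E) (k : J → A), h • (QuotientGroup.mk k : (J → A) ⧸ W) =
      QuotientGroup.mk (f h k) := fun h k => rfl
  have hfix : ∀ (h : E) (k : J → A), h • (QuotientGroup.mk k : (J → A) ⧸ W) = QuotientGroup.mk k ↔
      ∃ a ∈ A, ∀ j, (h : H) * (k j : H) * (h : H)⁻¹ * (k j : H)⁻¹ * a⁻¹ ∈ S j := by
    intro h k
    rw [hsm, QuotientGroup.eq, ← inv_mem_iff, hWmem]
    refine exists_congr fun a => and_congr_right fun _ => forall_congr' fun j => ?_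
    have e : ((((f h k)⁻¹ * k)⁻¹ j : A) : H) =
        (h : H) * (k j : H) * (h : H)⁻¹ * (k j : H)⁻¹ := by
      change (((h : H) * (k j : H) * (h : H)⁻¹)⁻¹ * (k j : H))⁻¹ = _
      have e1 := hA.com _ (hA.nor.conj_mem _ (k j).2 (h : H)) _ (inv_mem (k j).2)
      rw [mul_inv_rev, inv_inv, ← e1]
    rw [e]
  have hRE : ∀ r ∈ Bt, (R r : Subgroup H) ≤ E := fun r hr x hx =>
    Subgroup.mem_iInf.2 fun j => hS r hr j x hx
  have hcard : ∀ r ∈ Bt, Nat.card ((R r : Subgroup H).subgroupOf E) =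
      Nat.card (R r : Subgroup H) := fun r hr =>
    Nat.card_congr (Subgroup.subgroupOfEquivOfLe (hRE r hr)).toEquiv
  let ι : Type := {r : ℕ // r ∈ Bt ∧ ∃ x ∈ (R r : Subgroup H).subgroupOf E,
    ∃ d : (J → A) ⧸ W, x • d ≠ d}
  haveI : Finite ι := by
    have : Set.Finite {r : ℕ | r ∈ Bt ∧ ∃ x ∈ (R r : Subgroup H).subgroupOf E,
        ∃ d : (J → A) ⧸ W, x • d ≠ d} := Bt.finite_toSet.subset fun r hr => hr.1
    exact this.to_subtype
  obtain ⟨d, hd⟩ := sel (Γ := E) (D := (J → A) ⧸ W)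
    (fun i : ι => (R i.1 : Subgroup H).subgroupOf E)
    (by
      intro i
      rw [hcard i.1 i.2.1]
      have h1 := ar_cop (hB i.1 i.2.1) (R i.1)
      have h2 : Nat.card ((J → A) ⧸ W) ∣ Nat.card A ^ Nat.card J := by
        rw [← Nat.card_fun]
        exact Subgroup.card_quotient_dvd_card W
      exact Nat.Coprime.coprime_dvd_right h2 (Nat.Coprime.pow_right _ h1))
    (by
      intro i j hij x hx y hy d
      rw [← mul_smul, ← mul_smul]
      congr 1
      apply Subtype.ext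
      exact hcom i.1 i.2.1 j.1 j.2.1 (fun e => hij (Subtype.ext e)) x hx y hy)
    (fun i => i.2.2)
  obtain ⟨k, rfl⟩ := QuotientGroup.mk_surjective d
  refine ⟨k, fun r hr hk c s hs => ?_⟩
  by_contra hcon
  have hi : ∃ x ∈ (R r : Subgroup H).subgroupOf E, ∃ d : (J → A) ⧸ W, x • d ≠ d := by
    refine ⟨⟨s, hRE r hr hs⟩, hs, QuotientGroup.mk c, fun h => hcon ?_⟩
    exact (hfix ⟨s, hRE r hr hs⟩ c).1 h
  obtain ⟨x, hx, hxd⟩ := hd ⟨r, hr, hi⟩
  exact hxd ((hfix x k).2 (hk x hx))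

private theorem re_mem {J : Type} [Finite J] (hA : Ab A) (S : J → Subgroup H) {r : ℕ}
    (h : AR A r) (R : Sylow r H)
    (hc : ∀ c : J → A, ∀ s ∈ (R : Subgroup H),
        ∃ a ∈ A, ∀ j, s * (c j : H) * s⁻¹ * (c j : H)⁻¹ * a⁻¹ ∈ S j) (x : J → H)
    (hx : ∀ j, x j ∈ cm A r) : ∃ a ∈ A, ∀ j, x j * a⁻¹ ∈ S j := by
  classical
  haveI := Fintype.ofFinite J
  -- subgroups of the good values at one place
  have one : ∀ (j0 : J) (c : H), c ∈ cm A r →
      ∃ a ∈ A, c * a⁻¹ ∈ S j0 ∧ ∀ j, j ≠ j0 → a ∈ S j := by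
    intro j0 c hcm
    let V : Subgroup H :=
      { carrier := {c | c ∈ A ∧ ∃ a ∈ A, c * a⁻¹ ∈ S j0 ∧ ∀ j, j ≠ j0 → a ∈ S j}
        one_mem' := ⟨one_mem A, 1, one_mem A, by
          rw [inv_one, one_mul]
          exact one_mem _, fun j _ => one_mem _⟩
        mul_mem' := by
          rintro x y ⟨hx, a, ha, h1, h2⟩ ⟨hy, b, hb, h3, h4⟩
          refine ⟨mul_mem hx hy, a * b, mul_mem ha hb, ?_, fun j hj => mul_mem (h2 j hj) (h4 j hj)⟩
          have e1 := hA.com _ hy _ (inv_mem ha)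
          have e2 := hA.com _ (inv_mem ha) _ (inv_mem hb)
          have e : x * y * (a * b)⁻¹ = (x * a⁻¹) * (y * b⁻¹) := by
            calc x * y * (a * b)⁻¹ = x * y * (b⁻¹ * a⁻¹) := by group
              _ = x * (y * a⁻¹) * b⁻¹ := by rw [← e2]; group
              _ = x * (a⁻¹ * y) * b⁻¹ := by rw [e1]
              _ = _ := by group
          rw [e]
          exact mul_mem h1 h3
        inv_mem' := by
          rintro x ⟨hx, a, ha, h1, h2⟩
          refine ⟨inv_mem hx, a⁻¹, inv_mem ha, ?_, fun j hj => inv_mem (h2 j hj)⟩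
          have e1 := hA.com _ (inv_mem hx) _ ha
          have e : x⁻¹ * a⁻¹⁻¹ = (x * a⁻¹)⁻¹ := by
            rw [inv_inv, e1]
            group
          rw [e]
          exact inv_mem h1 }
    have hV : ⁅A, (R : Subgroup H)⁆ ≤ V := by
      rw [Subgroup.commutator_le]
      intro c hc' s hs
      change c * s * c⁻¹ * s⁻¹ ∈ V
      have hcs : c * s * c⁻¹ * s⁻¹ ∈ A := by
        have : c * s * c⁻¹ * s⁻¹ = c * (s * c⁻¹ * s⁻¹) := by group
        rw [this]
        exact mul_mem hc' (hA.nor.conj_mem _ (inv_mem hc') s)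
      refine ⟨hcs, ?_⟩
      obtain ⟨a, ha, h1⟩ := hc (fun j => if j = j0 then ⟨c, hc'⟩ else 1) s hs
      refine ⟨a⁻¹, inv_mem ha, ?_, fun j hj => ?_⟩
      · have h2 := h1 j0
        simp only [if_true] at h2
        have e1 := hA.com _ (hA.nor.conj_mem _ hc' s) _ (inv_mem hc')
        have e2 : c * s * c⁻¹ * s⁻¹ * a⁻¹⁻¹ = (s * c * s⁻¹ * c⁻¹ * a⁻¹)⁻¹ := by
          have e3 : (s * c * s⁻¹ * c⁻¹ * a⁻¹)⁻¹ = a * (c * s * c⁻¹ * s⁻¹) := by group
          rw [e3, inv_inv]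
          exact hA.com _ hcs _ ha
        rw [e2]
        exact inv_mem h2
      · have h2 := h1 j
        rw [if_neg hj] at h2
        have e : s * (((1 : A) : H)) * s⁻¹ * ((1 : A) : H)⁻¹ * a⁻¹ = a⁻¹ := by
          rw [Subgroup.coe_one]
          group
        rw [e] at h2
        exact h2
    rw [ar_cm hA h R] at hcm
    exact (hV hcm).2
  choose a ha h1 h2 using fun j => one j (x j) (hx j)
  letI : CommGroup A := re_grp hA
  let p : A := ∏ j, (⟨a j, ha j⟩ : A)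
  refine ⟨p, p.2, fun j => ?_⟩
  have e1 : p = ⟨a j, ha j⟩ * ∏ i ∈ Finset.univ.erase j, (⟨a i, ha i⟩ : A) :=
    (Finset.mul_prod_erase Finset.univ (fun i => (⟨a i, ha i⟩ : A)) (Finset.mem_univ j)).symm
  have e2 : ((∏ i ∈ Finset.univ.erase j, (⟨a i, ha i⟩ : A) : A) : H) ∈ S j := by
    have : (∏ i ∈ Finset.univ.erase j, (⟨a i, ha i⟩ : A) : A) ∈ (S j).subgroupOf A := by
      apply prod_mem
      intro i hi
      exact h2 i j (Finset.ne_of_mem_erase hi).symm
    exact this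
  have e3 : (p : H) = a j * ((∏ i ∈ Finset.univ.erase j, (⟨a i, ha i⟩ : A) : A) : H) := by
    rw [e1]
    rfl
  have e4 : x j * (p : H)⁻¹ =
      ((∏ i ∈ Finset.univ.erase j, (⟨a i, ha i⟩ : A) : A) : H)⁻¹ * (x j * (a j)⁻¹) := by
    have hxA : x j ∈ A := cm_le hA r (hx j)
    have c1 := hA.com _ (mul_mem hxA (inv_mem (ha j))) _
      (inv_mem (∏ i ∈ Finset.univ.erase j, (⟨a i, ha i⟩ : A) : A).2)
    rw [← c1, e3]
    have c2 := hA.com _ (inv_mem (ha j)) _
      (inv_mem (∏ i ∈ Finset.univ.erase j, (⟨a i, ha i⟩ : A) : A).2)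
    rw [mul_inv_rev, ← c2]
    group
  rw [e4]
  exact mul_mem (inv_mem e2) (h1 j)

end

/-- (re, size 5) The linear case of the gluing lemma. PROOF. `Q = J → A` (an abelian group),
`W = {k | ∃ a ∈ A, ∀ j, k j * a⁻¹ ∈ S j}` a subgroup (it contains the constant functions),
`Γ = Q ⧸ W`. `T = ⨆ r ∈ Bt, R r` acts on `A` by conjugation, on `Q`, and it maps `W` to itself
(`T ≤ S j`), so it acts on `Γ`. `|R r|` is prime to `|Γ|`. The `R r` commute. `sel` for the subgroups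
`R r` for those `r ∈ Bt` for which `R r` acts non-trivially on `Γ` gives `k`. Let `r ∈ Bt`, `R'` a Sylow
`r`-subgroup with `(k j)⁻¹ x k j ∈ S j`; `ar_conj`: `R' = a (R r) a⁻¹`, `a ∈ A`. For `s ∈ R r`:
`(k j)⁻¹ a s a⁻¹ k j ∈ S j` and `s ∈ S j`, so with `b = k j * a⁻¹ ∈ A`: `b⁻¹ * (s b s⁻¹) ∈ S j`; hence
`s • k * k⁻¹ ∈ W` (with the element `(s a s⁻¹) a⁻¹` of `A`). So `R r` fixes the class of `k`, so `R r` is
trivial on `Γ`: for `c ∈ A`, `s ∈ R r` and `j` the function with the value `c * (s c s⁻¹)⁻¹` at `j` and 1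
elsewhere is in `W`. `cm A r = ⁅A, R r⁆` is generated by these values (`ar_cm`), so every
`x : J → cm A r` is in `W`: there is `a ∈ A` with `x j * a⁻¹ ∈ S j` for all `j`. `cp_dec`: `a = c * y`,
`y ∈ cm A r`, `c` fixed by `R r`. `(x j * y⁻¹) * c⁻¹ ∈ A ⊓ S j`, so `x j * y⁻¹ ∈ S j` by `cp_sub`
(`R r ≤ S j` normalizes `A ⊓ S j`), so `(x j)⁻¹ * y ∈ S j`. -/
theorem glue_lin {J : Type} [Finite J] {A : Subgroup H} (hA : Ab A) (Bt : Finset ℕ)
    (hB : ∀ r ∈ Bt, AR A r) (R : ∀ r : ℕ, Sylow r H)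
    (hcom : ∀ r ∈ Bt, ∀ r' ∈ Bt, r ≠ r' →
      ∀ x ∈ (R r : Subgroup H), ∀ y ∈ (R r' : Subgroup H), x * y = y * x)
    (S : J → Subgroup H) (hS : ∀ r ∈ Bt, ∀ j, ∀ x ∈ (R r : Subgroup H), x ∈ S j) :
    ∃ k : J → H, (∀ j, k j ∈ A) ∧ ∀ r ∈ Bt,
      (∃ R' : Sylow r H, ∀ j, ∀ x ∈ (R' : Subgroup H), (k j)⁻¹ * x * k j ∈ S j) → Srj A r S := by
  obtain ⟨k, hk⟩ := re_core hA Bt hB R hcom S hS
  refine ⟨fun j => k j, fun j => (k j).2, fun r hr => ?_⟩
  rintro ⟨R', hR'⟩ x hx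
  have hAR := hB r hr
  obtain ⟨a, ha, haR⟩ := ar_conj hA hAR (R r) R'
  have h1 : ∀ s ∈ (R r : Subgroup H),
      ∃ b ∈ A, ∀ j, s * (k j : H) * s⁻¹ * (k j : H)⁻¹ * b⁻¹ ∈ S j := by
    intro s hs
    refine ⟨s * a * s⁻¹ * a⁻¹, mul_mem (hA.nor.conj_mem _ ha s) (inv_mem ha), fun j => ?_⟩
    have h2 : (k j : H)⁻¹ * (a * s * a⁻¹) * (k j : H) ∈ S j := by
      apply hR' j
      rw [haR]
      have : a⁻¹ * (a * s * a⁻¹) * a = s := by group
      rw [this]
      exact hs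
    have h3 := mul_mem h2 (inv_mem (hS r hr j s hs))
    have hk1 := (k j).2
    have c1 : s * (k j : H) * s⁻¹ * (k j : H)⁻¹ = (k j : H)⁻¹ * (s * (k j : H) * s⁻¹) :=
      hA.com _ (hA.nor.conj_mem _ hk1 s) _ (inv_mem hk1)
    have c2 : (k j : H)⁻¹ * (s * (k j : H) * s⁻¹) * (s * a * s⁻¹ * a⁻¹)⁻¹ =
        (k j : H)⁻¹ * (a * s * a⁻¹) * (k j : H) * s⁻¹ := by
      have d1 : (s * a * s⁻¹ * a⁻¹)⁻¹ = a * (s * a⁻¹ * s⁻¹) := by group
      have d2 : s * (k j : H) * s⁻¹ * (a * (s * a⁻¹ * s⁻¹)) =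
          a * (s * a⁻¹ * s⁻¹) * (s * (k j : H) * s⁻¹) :=
        hA.com _ (hA.nor.conj_mem _ hk1 s) _
          (mul_mem ha (hA.nor.conj_mem _ (inv_mem ha) s))
      rw [d1, mul_assoc ((k j : H)⁻¹), d2]
      group
    rw [c1, c2]
    exact h3
  obtain ⟨b, hb, hbx⟩ := re_mem hA S hAR (R r) (hk r hr h1) x hx
  obtain ⟨c, hc, y, hy, hcy, hcf⟩ := cp_dec hA (R r : Subgroup H) (ar_cop hAR (R r)) b hb
  have hy' : y ∈ cm A r := by
    rw [ar_cm hA hAR (R r)]
    exact hy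
  refine ⟨y, hy', fun j => ?_⟩
  have hxA : x j ∈ A := cm_le hA r (hx j)
  have hyA : y ∈ A := cm_le hA r hy'
  have e1 : x j * y⁻¹ * c⁻¹ = x j * b⁻¹ := by
    rw [hcy]
    group
  have h2 : x j * y⁻¹ ∈ A ⊓ S j := by
    refine cp_sub hA (R r : Subgroup H) (ar_cop hAR (R r)) (A ⊓ S j) inf_le_left ?_
      (x j * y⁻¹) c⁻¹ ?_ (inv_mem hc) ?_ ?_
    · intro s hs z hz
      have hz1 : z ∈ A := hz.1
      have hz2 : z ∈ S j := hz.2
      have hs' : s ∈ S j := hS r hr j s hs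
      have hz3 : s * z * s⁻¹ ∈ S j := mul_mem (mul_mem hs' hz2) (inv_mem hs')
      exact ⟨hA.nor.conj_mem _ hz1 s, hz3⟩
    · rw [← ar_cm hA hAR (R r)]
      exact mul_mem (hx j) (inv_mem hy')
    · intro s hs
      have h3 := hcf s hs
      have h4 : s * c⁻¹ * s⁻¹ = (s * c * s⁻¹)⁻¹ := by group
      rw [h4, h3]
    · rw [e1]
      have h5 : x j * b⁻¹ ∈ A := mul_mem hxA (inv_mem hb)
      exact ⟨h5, hbx j⟩
  have h3 : (x j * y⁻¹)⁻¹ ∈ S j := inv_mem (show x j * y⁻¹ ∈ S j from h2.2)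
  have h4 : (x j * y⁻¹)⁻¹ = (x j)⁻¹ * y := by
    rw [mul_inv_rev, inv_inv]
    exact hA.com _ hyA _ (inv_mem hxA)
  rw [h4] at h3
  exact h3

/-- (rf, size 4) PROOF. Let `Bt` be the set of the primes `r ∈ B` which divide `|H|` and for which
every `S j` contains a Sylow `r`-subgroup (finite). If `r ∈ B` does not divide `|H|` then the Sylow
`r`-subgroups are trivial and `cm A r = ⊥`: `Srj` is clear. If some `S j` contains no Sylow
`r`-subgroup then the hypothesis of the implication is false (`(k j)⁻¹ R' (k j)` is one). `cmpl` gives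
`R r`, `T = ⨆ r ∈ Bt, R r`, `|T|` is prime to `|A|` (`csup_cop`). For every `j` apply `tors` to `T`, `S j`:
hypothesis `hS`: `T ≤ A ⊔ S j` because `S j` contains a Sylow `r`-subgroup `R'`, `A ⊔ R' = A ⊔ R r`
(`ar_conj`), so `R r ≤ A ⊔ S j`; hypothesis `hN`: enough for the generators in `R r` (by induction on the
closure), where `s x s⁻¹ = s' x s'⁻¹` with `s'` in a Sylow subgroup which is in `S j` (`ar_act`). So
`a j * s * (a j)⁻¹ ∈ S j` for `s ∈ T`. Apply `glue_lin` to `S' j = (a j)⁻¹ (S j) (a j)`, which contains the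
`R r`; take `k j * (a j)⁻¹`. `Srj A r S'` gives `Srj A r S` because the elements are in `A`, which is
abelian. -/
theorem glue {J : Type} [Finite J] {A : Subgroup H} (hA : Ab A) (B : Set ℕ)
    (hB : ∀ r ∈ B, AR A r) (S : J → Subgroup H) :
    ∃ k : J → H, (∀ j, k j ∈ A) ∧ ∀ r ∈ B,
      (∃ R' : Sylow r H, ∀ j, ∀ x ∈ (R' : Subgroup H), (k j)⁻¹ * x * k j ∈ S j) → Srj A r S := by
  classical
  let Bt : Finset ℕ := (Nat.card H).primeFactors.filter fun r =>
    r ∈ B ∧ ∀ j, ∃ P : Sylow r H, (P : Subgroup H) ≤ S j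
  have hBt : ∀ r ∈ Bt, r ∈ B ∧ ∀ j, ∃ P : Sylow r H, (P : Subgroup H) ≤ S j := fun r hr =>
    (Finset.mem_filter.1 hr).2
  have hAR : ∀ r ∈ Bt, AR A r := fun r hr => hB r (hBt r hr).1
  obtain ⟨R, hR⟩ := cmpl hA Bt hAR
  have hT : (Nat.card (⨆ r ∈ Bt, (R r : Subgroup H) : Subgroup H)).Coprime (Nat.card A) :=
    csup_cop Bt (fun r => (R r : Subgroup H)) (fun r hr => (hAR r hr).prime)
      (fun r _ => (R r).isPGroup') hR (Nat.card A) (fun r hr => (hAR r hr).ndvd)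
  have hTj : ∀ j, ∃ a ∈ A, ∀ s ∈ (⨆ r ∈ Bt, (R r : Subgroup H) : Subgroup H),
      a * s * a⁻¹ ∈ S j := by
    intro j
    apply tors hA _ (S j) hT
    · have hle : (⨆ r ∈ Bt, (R r : Subgroup H) : Subgroup H) ≤
          Subgroup.normalizer ((A ⊓ S j : Subgroup H) : Set H) := by
        apply iSup₂_le
        intro r hr s hs
        obtain ⟨P, hP⟩ := (hBt r hr).2 j
        obtain ⟨s', hs', hss⟩ := ar_act hA (hAR r hr) P (R r) s hs
        rw [Subgroup.mem_normalizer_iff]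
        intro x
        constructor
        · intro h0
          have h1 : x ∈ A := h0.1
          have h2 : x ∈ S j := h0.2
          refine ⟨hA.nor.conj_mem _ h1 s, ?_⟩
          change s * x * s⁻¹ ∈ S j
          rw [hss x h1]
          exact mul_mem (mul_mem (hP hs') h2) (inv_mem (hP hs'))
        · intro h0
          have h1 : s * x * s⁻¹ ∈ A := h0.1
          have h2 : s * x * s⁻¹ ∈ S j := h0.2
          have h3 : x ∈ A := by
            have h4 := hA.nor.conj_mem _ h1 s⁻¹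
            have h5 : s⁻¹ * (s * x * s⁻¹) * s⁻¹⁻¹ = x := by group
            rw [h5] at h4
            exact h4
          refine ⟨h3, ?_⟩
          change x ∈ S j
          rw [hss x h3] at h2
          have h6 : x = s'⁻¹ * (s' * x * s'⁻¹) * s' := by group
          rw [h6]
          exact mul_mem (mul_mem (inv_mem (hP hs')) h2) (hP hs')
      intro s hs x hx hx'
      exact ((Subgroup.mem_normalizer_iff.1 (hle hs) x).1 ⟨hx, hx'⟩).2
    · haveI := hA.nor
      have hle : (⨆ r ∈ Bt, (R r : Subgroup H) : Subgroup H) ≤ A ⊔ S j := by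
        apply iSup₂_le
        intro r hr s hs
        obtain ⟨P, hP⟩ := (hBt r hr).2 j
        obtain ⟨a, ha, haP⟩ := ar_conj hA (hAR r hr) P (R r)
        have h1 := (haP s).1 hs
        have h2 : s = a * (a⁻¹ * s * a) * a⁻¹ := by group
        rw [h2]
        have h3 : a ∈ A ⊔ S j := (le_sup_left : A ≤ _) ha
        exact mul_mem (mul_mem h3 ((le_sup_right : S j ≤ _) (hP h1))) (inv_mem h3)
      intro s hs
      have h1 : s ∈ (↑(A ⊔ S j) : Set H) := hle hs
      rw [Subgroup.normal_mul] at h1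
      obtain ⟨a, ha, u, hu, rfl⟩ := Set.mem_mul.1 h1
      refine ⟨a⁻¹, inv_mem ha, ?_⟩
      rw [inv_mul_cancel_left]
      exact hu
  choose a ha haS using hTj
  let S' : J → Subgroup H := fun j => (S j).comap (MulAut.conj (a j)).toMonoidHom
  have hS' : ∀ j x, x ∈ S' j ↔ a j * x * (a j)⁻¹ ∈ S j := fun j x => Iff.rfl
  obtain ⟨k, hkA, hk⟩ := glue_lin hA Bt hAR R hR S' (by
    intro r hr j x hx
    rw [hS']
    exact haS j x ((le_iSup₂_of_le r hr le_rfl : (R r : Subgroup H) ≤ _) hx))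
  refine ⟨fun j => k j * (a j)⁻¹, fun j => mul_mem (hkA j) (inv_mem (ha j)), ?_⟩
  rintro r hr ⟨R', hR'⟩
  have hARr := hB r hr
  by_cases hd : r ∣ Nat.card H
  · have hrB : r ∈ Bt := by
      refine Finset.mem_filter.2 ⟨Nat.mem_primeFactors.2 ⟨hARr.prime, hd, Nat.card_pos.ne'⟩, hr,
        fun j => ?_⟩
      obtain ⟨P, hP⟩ := rd_sy r R' (k j * (a j)⁻¹)⁻¹
      refine ⟨P, fun x hx => ?_⟩
      have h1 := (hP x).1 hx
      rw [inv_inv] at h1
      have h2 := hR' j _ h1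
      have h3 : (k j * (a j)⁻¹)⁻¹ * (k j * (a j)⁻¹ * x * (k j * (a j)⁻¹)⁻¹) *
        (k j * (a j)⁻¹) = x := by group
      rw [h3] at h2
      exact h2
    have h1 := hk r hrB ⟨R', fun j x hx => by
      rw [hS']
      have h2 := hR' j x hx
      have h3 : a j * ((k j)⁻¹ * x * k j) * (a j)⁻¹ =
        (k j * (a j)⁻¹)⁻¹ * x * (k j * (a j)⁻¹) := by group
      rw [h3]
      exact h2⟩
    intro x hx
    obtain ⟨y, hy, hxy⟩ := h1 x hx
    refine ⟨y, hy, fun j => ?_⟩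
    have h2 := (hS' j _).1 (hxy j)
    have h3 : a j * ((x j)⁻¹ * y) * (a j)⁻¹ = (x j)⁻¹ * y := by
      have h4 := hA.com _ (ha j) _ (mul_mem (inv_mem (cm_le hA r (hx j))) (cm_le hA r hy))
      rw [h4]
      group
    rw [h3] at h2
    exact h2
  · have h1 : (R' : Subgroup H) = ⊥ := by
      haveI : Fact r.Prime := ⟨hARr.prime⟩
      obtain ⟨n, hn⟩ := IsPGroup.iff_card.1 R'.isPGroup'
      have h2 : n = 0 := by
        by_contra h3
        apply hd
        have h4 : r ∣ Nat.card (R' : Subgroup H) := by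
          rw [hn]
          exact dvd_pow_self r h3
        exact h4.trans (Subgroup.card_subgroup_dvd_card _)
      rw [h2, pow_zero] at hn
      exact Subgroup.card_eq_one.1 hn
    have h2 : cm A r = ⊥ := by
      rw [ar_cm hA hARr R', h1, Subgroup.commutator_bot_right]
    intro x hx
    refine ⟨1, one_mem _, fun j => ?_⟩
    have h3 := hx j
    rw [h2] at h3
    rw [Subgroup.mem_bot.1 h3, mul_one, inv_one]
    exact one_mem _

private theorem rg_conj {r : ℕ} (R : Sylow r H) (S : Subgroup H) (g : H)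
    (h : ∀ x ∈ (R : Subgroup H), g⁻¹ * x * g ∈ S) :
    ∃ R'' : Sylow r H, (R'' : Subgroup H) ≤ S := by
  refine ⟨g⁻¹ • R, fun x hx => ?_⟩
  rw [Sylow.coe_subgroup_smul, Subgroup.mem_pointwise_smul_iff_inv_smul_mem, ← map_inv,
    MulAut.smul_def, MulAut.conj_apply] at hx
  have h1 := h _ hx
  have h2 : g⁻¹ * (g⁻¹⁻¹ * x * g⁻¹⁻¹⁻¹) * g = x := by group
  rwa [h2] at h1

private theorem rg_ext {ι : Type} {n : ι → ℕ} (i : ι) (C : Subgroup H) (x : Fin (n i) → H)
    (hx : ∀ j, x j ∈ C) :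
    ∃ X : (Σ i, Fin (n i)) → H, (∀ J, X J ∈ C) ∧ (∀ j, X ⟨i, j⟩ = x j) ∧
      ∀ i' j', i' ≠ i → X ⟨i', j'⟩ = 1 := by
  classical
  refine ⟨fun J => if h : ∃ j, J = ⟨i, j⟩ then x h.choose else 1, fun J => ?_, fun j => ?_,
    fun i' j' hi => ?_⟩
  · by_cases h : ∃ j, J = ⟨i, j⟩
    · simp only [h, dite_true]
      exact hx _
    · simp only [h, dite_false]
      exact one_mem _
  · have h : ∃ j', (⟨i, j⟩ : Σ i, Fin (n i)) = ⟨i, j'⟩ := ⟨j, rfl⟩
    have h1 : h.choose = j := by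
      have := h.choose_spec
      exact (eq_of_heq (Sigma.mk.inj this).2).symm
    show (if h : ∃ j', (⟨i, j⟩ : Σ i, Fin (n i)) = ⟨i, j'⟩ then x h.choose else 1) = x j
    rw [dif_pos h, h1]
  · have h : ¬ ∃ j, (⟨i', j'⟩ : Σ i, Fin (n i)) = ⟨i, j⟩ := by
      rintro ⟨j, hj⟩
      exact hi (congrArg Sigma.fst hj)
    show (if h : ∃ j, (⟨i', j'⟩ : Σ i, Fin (n i)) = ⟨i, j⟩ then x h.choose else 1) = 1
    rw [dif_neg h]

/-- (rg, size 4) The end of the proof. PROOF. `glue` for `J = Σ i, Fin (n i)`.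
First statement: `omq` gives `D ≤ A`, `hf` gives `i` with `p i ≠ q`, `nt i D`, `Blk.b2` gives `j` with
`¬ D ≤ St i j`. If `q` does not divide the index of `Z` then `D ≤ Z` (`syl_in`, `nor_syl`), and
`(k i j)⁻¹ * d * k i j = d ∈ St i j` for `d ∈ D` (`A` abelian), a contradiction.
Second statement: suppose some `Z` has index prime to `r` (so it contains a Sylow `r`-subgroup `R'`,
`syl_in`) and there is `R` with the property. `glue` gives the surjectivity for all `(i, j)`.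
`cm A r ≠ ⊥` is abelian and normal (`cm_le`, `cm_nor`); `omq` for a prime `q ∣ |cm A r|` gives
`D ≤ cm A r`; `hf` gives `i`. In `Blk.c` for `i`, `r` the statements: `R ≤ Ss i`; `(k i j)⁻¹ R' (k i j)` is a
Sylow subgroup in `St i j`; the surjectivity for the `j : Fin (n i)` follows from the one for all
(take 1 at the other places). So the third statement is false: there is `c ∈ cm A r`, `c ∈ Ss i`,
`c ∉ St i j` for some `j`. The surjectivity for `x = c` at the places `(i, j)` and 1 elsewhere gives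
`y ∈ cm A r` with `c⁻¹ * y ∈ St i j` for all `j` and `y ∈ St i' j` for `i' ≠ i`. `Blk.b1`: `c⁻¹ * y ∈ Ss i`, so
`y ∈ Ss i`, and `y ∈ Ss i'`. So `y = 1`, so `c ∈ St i j` for all `j`, a contradiction. -/
theorem fin_glue {ι : Type} [Finite ι] {A : Subgroup H} (hA : Ab A) (B : Set ℕ)
    (hB : ∀ r ∈ B, AR A r) (hne : ∀ r ∈ B, cm A r ≠ ⊥) (p : ι → ℕ) (nt : ι → Subgroup H → Prop)
    (Ss : ι → Subgroup H) (n : ι → ℕ) (St : ∀ i, Fin (n i) → Subgroup H)
    (hblk : ∀ i, Blk A B (p i) (nt i) (Ss i) (n i) (St i))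
    (hf : ∀ q : ℕ, q.Prime → ∀ D : Subgroup H, D.Normal → IsPGroup q D → D ≠ ⊥ →
      ∃ i, p i ≠ q ∧ nt i D) :
    ∃ k : ∀ i, Fin (n i) → H, (∀ i j, k i j ∈ A) ∧
      (∀ q : ℕ, q.Prime → q ∣ Nat.card A → ∀ Z : Subgroup H,
        (∀ z ∈ Z, ∀ i j, (k i j)⁻¹ * z * k i j ∈ St i j) → q ∣ Z.index) ∧
      ∀ r ∈ B, (∀ Z : Subgroup H, (∀ z ∈ Z, ∀ i j, (k i j)⁻¹ * z * k i j ∈ St i j) →
          r ∣ Z.index) ∨
        ¬ ∃ R : Sylow r H, (∀ i, (R : Subgroup H) ≤ Ss i) ∧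
          ∀ c ∈ cm A r, (∀ i, c ∈ Ss i) → c = 1 := by
  obtain ⟨k, hkA, hk⟩ := glue (J := Σ i, Fin (n i)) hA B hB (fun J => St J.1 J.2)
  refine ⟨fun i j => k ⟨i, j⟩, fun i j => hkA _, ?_, ?_⟩
  · intro q hq hd Z hZ
    by_contra hcon
    obtain ⟨D, hD, hDA, hDp, hD1⟩ := omq hA q hq hd
    obtain ⟨i, hpi, hnt⟩ := hf q hq D hD hDp hD1
    obtain ⟨j, hj⟩ := (hblk i).b2 q hq (Ne.symm hpi) D hD hDA hDp hnt
    obtain ⟨Q, hQ⟩ := syl_in q hq Z hcon
    apply hj
    intro d hd'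
    have h1 := hZ d (hQ (nor_syl q hq D hD hDp Q hd')) i j
    have h2 : (k ⟨i, j⟩)⁻¹ * d * k ⟨i, j⟩ = d := by
      rw [mul_assoc, hA.com d (hDA hd') _ (hkA _), ← mul_assoc, inv_mul_cancel, one_mul]
    rwa [h2] at h1
  · intro r hr
    by_cases hZZ : ∀ Z : Subgroup H, (∀ z ∈ Z, ∀ i j, (k ⟨i, j⟩)⁻¹ * z * k ⟨i, j⟩ ∈ St i j) →
        r ∣ Z.index
    · exact Or.inl hZZ
    · right
      push Not at hZZ
      obtain ⟨Z, hZ, hZr⟩ := hZZ
      rintro ⟨R, hR1, hR2⟩
      obtain ⟨R', hR'⟩ := syl_in r (hB r hr).prime Z hZr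
      have hS := hk r hr ⟨R', fun J x hx => hZ x (hR' hx) J.1 J.2⟩
      have hAc : Ab (cm A r) := ⟨cm_nor hA r, fun a ha b hb =>
        hA.com a (cm_le hA r ha) b (cm_le hA r hb)⟩
      have hcard : Nat.card (cm A r) ≠ 1 := fun h => hne r hr (Subgroup.card_eq_one.1 h)
      obtain ⟨q, hq, hqd⟩ := Nat.exists_prime_and_dvd hcard
      obtain ⟨D, hD, hDA, hDp, hD1⟩ := omq hAc q hq hqd
      obtain ⟨i, hpi, hnt⟩ := hf q hq D hD hDp hD1
      have hc := (hblk i).c r hr ⟨q, hq, Ne.symm hpi, D, hD, hDA, hDp, hnt⟩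
      have hd : Srj A r (St i) := by
        intro x hx
        obtain ⟨X, hX1, hX2, -⟩ := rg_ext i (cm A r) x hx
        obtain ⟨y, hy, hy2⟩ := hS X hX1
        refine ⟨y, hy, fun j => ?_⟩
        have := hy2 ⟨i, j⟩
        rwa [hX2 j] at this
      have hc3 : ¬ ∀ c ∈ cm A r, c ∈ Ss i → ∀ j, c ∈ St i j := fun h3 =>
        hc ⟨⟨R, hR1 i⟩, fun j => rg_conj R' (St i j) (k ⟨i, j⟩) fun x hx =>
          hZ x (hR' hx) i j, h3, hd⟩
      push Not at hc3
      obtain ⟨c, hcA, hcS, j, hcj⟩ := hc3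
      obtain ⟨X, hX1, hX2, hX3⟩ := rg_ext i (cm A r) (fun _ => c) (fun _ => hcA)
      obtain ⟨y, hy, hy2⟩ := hS X hX1
      have hyi : ∀ j, c⁻¹ * y ∈ St i j := by
        intro j
        have := hy2 ⟨i, j⟩
        rwa [hX2 j] at this
      have hyS : ∀ i', y ∈ Ss i' := by
        intro i'
        by_cases hi : i' = i
        · subst hi
          have h1 : c⁻¹ * y ∈ Ss i' := (hblk i').b1 _
            (mul_mem (inv_mem (cm_le hA r hcA)) (cm_le hA r hy)) hyi
          have h2 := mul_mem hcS h1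
          rwa [mul_inv_cancel_left] at h2
        · refine (hblk i').b1 y (cm_le hA r hy) fun j' => ?_
          have := hy2 ⟨i', j'⟩
          rwa [hX3 i' j' hi, inv_one, one_mul] at this
      have hy1 := hR2 y hy hyS
      apply hcj
      have h1 := hyi j
      rw [hy1, mul_one] at h1
      exact inv_mem_iff.1 h1

end Pool.Agent.Nan
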