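import Pool.Agent.Nan.Itw

/-! Characters of a group with a normal Hall subgroup: modules `ha` .. `hz`. -/

set_option autoImplicit false

namespace Pool.Agent.Nan

open Classical

open Pool.Agent.KB Pool.Agent.KB.ContrAux Pool.Agent.KBL Pool.Agent.KBZ Pool.Agent.KBU
  Pool.Agent.KBQ Pool.Agent.KBY

/-- The stabilizer in `G` of the function `χ` on the normal subgroup `P`. -/
def fxG {G : Type} [Group G] (P : Subgroup G) (hP : P.Normal) (χ : P → ℂ) : Subgroup G where
  carrier := {g | ∀ x y : P, (y : G) = g * x * g⁻¹ → χ y = χ x}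
  one_mem' := by
    intro x y hxy
    have h1 : y = x := Subtype.ext (by rw [hxy]; group)
    rw [h1]
  mul_mem' := by
    intro g k hg hk x y hxy
    obtain ⟨z, hz⟩ : ∃ z : P, (z : G) = k * x * k⁻¹ := ⟨⟨_, hP.conj_mem x x.2 k⟩, rfl⟩
    rw [hg z y (by rw [hxy, hz]; group), hk x z hz]
  inv_mem' := by
    intro g hg x y hxy
    exact (hg y x (by rw [hxy]; group)).symm

theorem mem_fxG {G : Type} [Group G] (P : Subgroup G) (hP : P.Normal) (χ : P → ℂ) (g : G) :
    g ∈ fxG P hP χ ↔ ∀ x y : P, (y : G) = g * x * g⁻¹ → χ y = χ x := Iff.rfl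

/-- The image of the stabilizer in `G / F`. -/
def fxH {G : Type} [Group G] (F : Subgroup G) [F.Normal] (P : Subgroup G) (hP : P.Normal)
    (χ : P → ℂ) : Subgroup (G ⧸ F) := (fxG P hP χ).map (QuotientGroup.mk' F)

/-- (ha, size 1) The connection with `tw`. -/
theorem fxG_tw {G : Type} [Group G] (P : Subgroup G) (hP : P.Normal) (χ : P → ℂ) (g : G) :
    g ∈ fxG P hP χ ↔ tw (Nrm.subtype P) g χ = χ := by
  rw [mem_fxG]
  constructor
  · intro h
    funext x
    exact h x _ (Nrm.cg_spec (Nrm.subtype P) g x)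
  · intro h x y hxy
    have h1 : y = (Nrm.subtype P).cg g x :=
      (Nrm.subtype P).inj (by rw [Nrm.cg_spec]; exact hxy)
    rw [h1]
    exact congrFun h x

/-- (ha, size 2) Every irreducible character of a subgroup has an irreducible character over it.
PROOF. Suppose `mlt ι χ θ = 0` for all `χ`; compare the proof of `IndIB_irr` (the induced character is
not 0: `Frb_sum`, `Frb_one`), for the subgroup `ι.range`. -/
theorem ex_over {A G : Type} [Group A] [Fintype A] [Group G] [Fintype G] (ι : A →* G)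
    (hι : Function.Injective ι) (θ : A → ℂ) (hθ : θ ∈ Irr A) : ∃ χ ∈ Irr G, Over ι χ θ := by
  have hf : Fintype ι.range := Fintype.ofFinite _
  let e : A ≃* ι.range := MonoidHom.ofInjective hι
  have hi : (fun y => θ (e.symm y)) ∈ Irr ι.range := UOne_irr e.symm hθ
  by_contra hc
  push Not at hc
  have h1 := Frb_sum ι.range (fun y => θ (e.symm y)) hi 1
  rw [Frb_one] at h1
  have h3 : ∑ χ ∈ irrF G, (mlt ι.range.subtype χ (fun y => θ (e.symm y)) : ℂ) * χ 1 = 0 := by
    refine Finset.sum_eq_zero fun χ hχ => ?_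
    have hχ' := mem_irrF.1 hχ
    have h4 : ¬ Over ι.range.subtype χ (fun y => θ (e.symm y)) := by
      intro h5
      apply hc χ hχ'
      unfold Over at h5 ⊢
      rw [← e.toEquiv.sum_comp] at h5
      refine fun h6 => h5 ?_
      rw [← h6]
      refine Finset.sum_congr rfl fun a _ => ?_
      have h1 : ((e.toEquiv a : ι.range) : G) = ι a := rfl
      have h2 : e.symm (e.toEquiv a)⁻¹ = a⁻¹ := by
        rw [map_inv]
        congr 1
        exact e.symm_apply_apply a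
      show χ ((e.toEquiv a : ι.range) : G) * θ (e.symm (e.toEquiv a)⁻¹) = _
      rw [h1, h2]
    rw [ClA_over ι.range.subtype (Subgroup.subtype_injective _) χ hχ' _ hi, not_not] at h4
    rw [h4]
    simp
  rw [h3] at h1
  rcases mul_eq_zero.1 h1 with h4 | h4
  · have h5 : ι.range.index = 0 := by exact_mod_cast h4
    exact Subgroup.index_ne_zero_of_finite h5
  · exact Alg_ne hi h4

/-- (ha, size 2) PROOF. `ClC_main`, `ClC_card`: `O.card` is the index of the stabilizer. -/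
theorem clif_deg {G : Type} [Group G] [Fintype G] (P : Subgroup G) [Fintype P] (hP : P.Normal)
    (χ : G → ℂ) (hχ : χ ∈ Irr G) (θ : P → ℂ) (hθ : θ ∈ Irr P) (hov : Over P.subtype χ θ) :
    ∃ m : ℕ, χ 1 = (m : ℂ) * ((fxG P hP θ).index : ℂ) * θ 1 := by
  obtain ⟨O, hO, -, hO3⟩ := ClC_main (Nrm.subtype P) χ hχ θ hθ hov
  have h1 := ClC_card (Nrm.subtype P) θ O hO
  have h2 : Nat.card {g : G // tw (Nrm.subtype P) g θ = θ} = Nat.card (fxG P hP θ) :=
    Nat.card_congr (Equiv.subtypeEquivRight fun g => (fxG_tw P hP θ g).symm)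
  rw [h2, ← (fxG P hP θ).index_mul_card] at h1
  have h3 : O.card = (fxG P hP θ).index := Nat.eq_of_mul_eq_mul_right Nat.card_pos h1
  exact ⟨_, by rw [hO3, h3]⟩

/-- (ha, size 1) PROOF. `ex_over`, `clif_deg`. -/
theorem clif {G : Type} [Group G] [Finite G] (P : Subgroup G) (hP : P.Normal) (θ : P → ℂ)
    (hθ : θ ∈ Irr P) :
    ∃ χ ∈ Irr G, ∃ m : ℕ, χ 1 = (m : ℂ) * ((fxG P hP θ).index : ℂ) * θ 1 := by
  have : Fintype G := Fintype.ofFinite G
  have : Fintype P := Fintype.ofFinite P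
  obtain ⟨χ, hχ, hov⟩ := ex_over P.subtype (Subgroup.subtype_injective P) θ hθ
  obtain ⟨m, hm⟩ := clif_deg P hP χ hχ θ hθ hov
  exact ⟨χ, hχ, m, hm⟩

private theorem hb_nt {A : Type} [Group A] {n : ℕ} (ρ : Representation ℂ A (Fin n → ℂ))
    (hρ : ρ.IsIrreducible) : Nontrivial (Fin n → ℂ) := by
  have hρ' : IsSimpleOrder (Subrepresentation ρ) := hρ
  obtain ⟨M, M', hM⟩ := hρ'.exists_pair_ne
  by_contra h
  rw [not_nontrivial_iff_subsingleton] at h
  apply hM
  apply Subrepresentation.toSubmodule_injective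
  exact Subsingleton.elim _ _

private theorem hb_pos {A : Type} [Group A] {n : ℕ} (ρ : Representation ℂ A (Fin n → ℂ))
    (hρ : ρ.IsIrreducible) : 0 < n := by
  have h1 := hb_nt ρ hρ
  rcases Nat.eq_zero_or_pos n with rfl | h2
  · exact absurd h1 (by
      rw [not_nontrivial_iff_subsingleton]
      infer_instance)
  · exact h2

private theorem hb_deg {A : Type} [Group A] {n : ℕ} (ρ : Representation ℂ A (Fin n → ℂ)) :
    ρ.character 1 = (n : ℂ) := by
  rw [Representation.char_one, Module.finrank_fin_fun]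

private theorem hb_inv {N G : Type} [Group N] [Group G] {ι : N →* G} (h : Nrm ι) {n : ℕ}
    (ρ : Representation ℂ N (Fin n → ℂ)) (g : G) (U : (Module.End ℂ (Fin n → ℂ))ˣ)
    (hU : IT h ρ g (U : Module.End ℂ (Fin n → ℂ))) :
    IT h ρ g⁻¹ ((U⁻¹ : (Module.End ℂ (Fin n → ℂ))ˣ) : Module.End ℂ (Fin n → ℂ)) := by
  refine ⟨Units.isUnit _, fun a => ?_⟩
  have h1 := hU.2 (h.cg g⁻¹ a)
  rw [h.cg_inv'] at h1
  rw [Units.inv_mul_eq_iff_eq_mul, ← mul_assoc, h1, mul_assoc, Units.mul_inv, mul_one]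

/-- The group of the pairs. -/
private def hbG {N G : Type} [Group N] [Group G] {ι : N →* G} (h : Nrm ι) (K : Subgroup G) {n : ℕ}
    (ρ : Representation ℂ N (Fin n → ℂ)) : Subgroup (K × (Module.End ℂ (Fin n → ℂ))ˣ) where
  carrier := {x | IT h ρ (x.1 : G) (x.2 : Module.End ℂ (Fin n → ℂ)) ∧
    LinearMap.det (x.2 : Module.End ℂ (Fin n → ℂ)) = 1}
  one_mem' := ⟨IT_one h ρ, by
    show LinearMap.det (1 : Module.End ℂ (Fin n → ℂ)) = 1
    exact map_one _⟩
  mul_mem' := by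
    intro x y hx hy
    refine ⟨IT_mul h ρ hx.1 hy.1, ?_⟩
    show LinearMap.det ((x.2 : Module.End ℂ (Fin n → ℂ)) * (y.2 : Module.End ℂ (Fin n → ℂ))) = 1
    rw [map_mul, hx.2, hy.2, mul_one]
  inv_mem' := by
    intro x hx
    refine ⟨hb_inv h ρ _ _ hx.1, ?_⟩
    have h1 : LinearMap.det ((x.2 : Module.End ℂ (Fin n → ℂ)) *
        ((x.2⁻¹ : (Module.End ℂ (Fin n → ℂ))ˣ) : Module.End ℂ (Fin n → ℂ))) = 1 := by
      rw [Units.mul_inv]
      exact map_one _
    rw [map_mul, hx.2, one_mul] at h1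
    exact h1

/-- (hb, size 5) PROOF. Let `n` be the degree, `d ∣ |N|` (`Cdeg_dvd`), `d = n`. `Γ` = the set of the pairs
`(k, U)`, `k ∈ K`, `U` an invertible operator with `IT h ρ k U` and `det U = 1`, a subgroup of
`K × (Module.End ℂ (Fin n → ℂ))ˣ`. The projection `Γ → K` is surjective (`IT_ex`; `IT_smul` with an
`n`-th root of `det U`), its kernel `Z` consists of the scalars `c` with `c ^ n = 1` (`IT_uni`), so it has `n`
elements; `Γ` is finite. `|Z| = n` is prime to `|Γ : Z| = |K| = ι.range.index`. So `Z` has a complement in `Γ`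
(`Subgroup.exists_right_complement'_of_coprime`), which is mapped isomorphically onto `K`; `σ` is the
second component of the inverse. -/
theorem cext_hom {N G : Type} [Group N] [Fintype N] [Group G] [Fintype G] {ι : N →* G}
    (h : Nrm ι) (K : Subgroup G) (hK : Subgroup.IsComplement' ι.range K)
    (hc : (Nat.card N).Coprime ι.range.index) {n : ℕ} (ρ : Representation ℂ N (Fin n → ℂ))
    (hρ : ρ.IsIrreducible) (hinv : ∀ g, tw h g ρ.character = ρ.character) :
    ∃ σ : K →* (Module.End ℂ (Fin n → ℂ))ˣ, ∀ k : K,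
      IT h ρ (k : G) ((σ k : (Module.End ℂ (Fin n → ℂ))ˣ) : Module.End ℂ (Fin n → ℂ)) := by
  have hn : 0 < n := hb_pos ρ hρ
  have hnt := hb_nt ρ hρ
  have hdvd : n ∣ Nat.card N := Cdeg_dvd ρ.character ⟨n, ρ, hρ, rfl⟩ n (hb_deg ρ)
  have hKc : Nat.card K = ι.range.index := hK.symm.index_eq_card.symm
  have hnK : n.Coprime (Nat.card K) := by
    rw [hKc]
    exact hc.coprime_dvd_left hdvd
  let π : hbG h K ρ →* K := (MonoidHom.fst K (Module.End ℂ (Fin n → ℂ))ˣ).comp
    (hbG h K ρ).subtype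
  have hπ : Function.Surjective π := by
    intro k
    obtain ⟨U, hU⟩ := IT_ex h ρ hρ (k : G) (hinv k)
    have hdet : LinearMap.det U ≠ 0 := (LinearMap.isUnit_det U hU.1).ne_zero
    obtain ⟨c, hc1⟩ := IsAlgClosed.exists_pow_nat_eq (LinearMap.det U)⁻¹ hn
    have hc0 : c ≠ 0 := by
      rintro rfl
      rw [zero_pow hn.ne'] at hc1
      exact inv_ne_zero hdet hc1.symm
    have hU' := IT_smul h ρ hU hc0
    obtain ⟨u, hu⟩ := hU'.1
    refine ⟨⟨(k, u), ⟨?_, ?_⟩⟩, rfl⟩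
    · show IT h ρ (k : G) (u : Module.End ℂ (Fin n → ℂ))
      rw [hu]
      exact hU'
    · show LinearMap.det (u : Module.End ℂ (Fin n → ℂ)) = 1
      rw [hu, LinearMap.det_smul, Module.finrank_fin_fun, hc1, inv_mul_cancel₀ hdet]
  -- the kernel
  have : NeZero n := ⟨hn.ne'⟩
  let f : rootsOfUnity n ℂ →* hbG h K ρ :=
    { toFun := fun c => ⟨(1, Units.map (algebraMap ℂ (Module.End ℂ (Fin n → ℂ))).toMonoidHom c),
        ⟨by
          show IT h ρ (1 : G) (algebraMap ℂ (Module.End ℂ (Fin n → ℂ)) ((c : ℂˣ) : ℂ))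
          rw [Algebra.algebraMap_eq_smul_one]
          exact IT_smul h ρ (IT_one h ρ) (Units.ne_zero _), by
          show LinearMap.det (algebraMap ℂ (Module.End ℂ (Fin n → ℂ)) ((c : ℂˣ) : ℂ)) = 1
          rw [Algebra.algebraMap_eq_smul_one, LinearMap.det_smul, Module.finrank_fin_fun,
            map_one, mul_one]
          have h1 := (mem_rootsOfUnity n (c : ℂˣ)).1 c.2
          rw [← Units.val_pow_eq_pow_val, h1, Units.val_one]⟩⟩
      map_one' := by
        apply Subtype.ext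
        rw [Prod.ext_iff]
        exact ⟨rfl, map_one _⟩
      map_mul' := fun a b => by
        apply Subtype.ext
        rw [Prod.ext_iff]
        exact ⟨(mul_one _).symm, map_mul _ _ _⟩ }
  have hf : f.range = π.ker := by
    ext x
    constructor
    · rintro ⟨c, rfl⟩
      rfl
    · intro hx
      have hx1 : (x.1.1 : G) = 1 := congrArg Subtype.val (MonoidHom.mem_ker.1 hx)
      obtain ⟨hx2, hx3⟩ := x.2
      rw [hx1] at hx2
      obtain ⟨c, hc0, hcU⟩ := IT_uni h ρ hρ (IT_one h ρ) hx2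
      rw [hcU, LinearMap.det_smul, Module.finrank_fin_fun, map_one, mul_one] at hx3
      refine ⟨⟨Units.mk0 c hc0, ?_⟩, ?_⟩
      · rw [mem_rootsOfUnity]
        apply Units.ext
        rw [Units.val_pow_eq_pow_val, Units.val_mk0, hx3, Units.val_one]
      · apply Subtype.ext
        rw [Prod.ext_iff]
        refine ⟨?_, ?_⟩
        · exact Subtype.ext hx1.symm
        · apply Units.ext
          show algebraMap ℂ (Module.End ℂ (Fin n → ℂ)) c = _
          rw [Algebra.algebraMap_eq_smul_one, hcU]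
  have hkc : Nat.card π.ker ∣ n := by
    rw [← hf]
    have h1 : Nat.card f.range ∣ Nat.card (rootsOfUnity n ℂ) :=
      Subgroup.card_dvd_of_surjective f.rangeRestrict f.rangeRestrict_surjective
    rwa [Complex.card_rootsOfUnity] at h1
  have hidx : π.ker.index = Nat.card K := by
    rw [Subgroup.index_ker, MonoidHom.range_eq_top.2 hπ]
    exact Subgroup.card_top
  obtain ⟨L, hL⟩ := Subgroup.exists_right_complement'_of_coprime (N := π.ker) (by
    rw [hidx]
    exact hnK.coprime_dvd_left hkc)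
  have hbij : Function.Bijective (π.comp L.subtype) := by
    constructor
    · rw [injective_iff_map_eq_one]
      intro x hx
      have h1 : (x : hbG h K ρ) ∈ π.ker := hx
      have h2 : (x : hbG h K ρ) ∈ (⊥ : Subgroup (hbG h K ρ)) := by
        rw [← hL.disjoint.eq_bot]
        exact ⟨h1, x.2⟩
      exact Subtype.ext (Subgroup.mem_bot.1 h2)
    · intro k
      obtain ⟨x, hx⟩ := hπ k
      obtain ⟨⟨z, y⟩, hzy⟩ := hL.2 x
      refine ⟨y, ?_⟩
      have h1 : π (z * y : hbG h K ρ) = k := by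
        rw [← hx]
        exact congrArg π hzy
      rw [map_mul, MonoidHom.mem_ker.1 z.2, one_mul] at h1
      exact h1
  let e : L ≃* K := MulEquiv.ofBijective (π.comp L.subtype) hbij
  refine ⟨(MonoidHom.snd K (Module.End ℂ (Fin n → ℂ))ˣ).comp ((hbG h K ρ).subtype.comp
    (L.subtype.comp e.symm.toMonoidHom)), fun k => ?_⟩
  have h1 : ((e.symm k : L) : hbG h K ρ).1.1 = k := e.apply_symm_apply k
  have h2 := ((e.symm k : L) : hbG h K ρ).2.1
  rw [h1] at h2
  exact h2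

private theorem hb_sub {A G : Type} [Group A] [Group G] (ι : A →* G) {n : ℕ}
    (σ : Representation ℂ G (Fin n → ℂ)) (ρ : Representation ℂ A (Fin n → ℂ))
    (h : ∀ a, σ (ι a) = ρ a) (hρ : ρ.IsIrreducible) : σ.IsIrreducible := by
  have hnt := hb_nt ρ hρ
  have hρ' : IsSimpleOrder (Subrepresentation ρ) := hρ
  let f : Subrepresentation σ → Subrepresentation ρ := fun M =>
    { toSubmodule := M.toSubmodule
      apply_mem_toSubmodule := fun a v hv => by
        rw [← h a]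
        exact M.apply_mem_toSubmodule (ι a) hv }
  have h3 : IsSimpleOrder (Subrepresentation σ) :=
    { exists_pair_ne := ⟨⊥, ⊤, fun h0 => by
        have h1 : (⊥ : Submodule ℂ (Fin n → ℂ)) = ⊤ :=
          congrArg Subrepresentation.toSubmodule h0
        exact bot_ne_top h1⟩
      eq_bot_or_eq_top := fun M => by
        rcases eq_bot_or_eq_top (f M) with h1 | h1
        · left
          have h2 : M.toSubmodule = (⊥ : Submodule ℂ (Fin n → ℂ)) :=
            congrArg Subrepresentation.toSubmodule h1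
          exact Subrepresentation.toSubmodule_injective h2
        · right
          have h2 : M.toSubmodule = (⊤ : Submodule ℂ (Fin n → ℂ)) :=
            congrArg Subrepresentation.toSubmodule h1
          exact Subrepresentation.toSubmodule_injective h2 }
  exact h3

/-- (hb, size 3) The extension of an invariant character of a normal Hall subgroup. PROOF. `K` =
a complement of `ι.range` (Schur-Zassenhaus), `σ` from `cext_hom`. Every element of `G` is uniquely
`ι x * k`; `ρ' (ι x * k) = ρ x * σ k` is a representation (`σ k * ρ x = ρ (h.cg k x) * σ k`), irreducible because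
its restriction to `N` is. -/
theorem cext {N G : Type} [Group N] [Fintype N] [Group G] [Fintype G] {ι : N →* G} (h : Nrm ι)
    (hc : (Nat.card N).Coprime ι.range.index) (θ : N → ℂ) (hθ : θ ∈ Irr N)
    (hinv : ∀ g, tw h g θ = θ) : ∃ χ ∈ Irr G, ∀ x, χ (ι x) = θ x := by
  obtain ⟨n, ρ, hρ, rfl⟩ := hθ
  haveI := h.normal
  have hcr : Nat.card ι.range = Nat.card N :=
    (Nat.card_congr (MonoidHom.ofInjective h.inj).toEquiv).symm
  obtain ⟨K, hK⟩ := Subgroup.exists_right_complement'_of_coprime (N := ι.range) (by rwa [hcr])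
  obtain ⟨σ, hσ⟩ := cext_hom h K hK hc ρ hρ hinv
  have huni : ∀ (x x' : N) (k k' : K), ι x * k = ι x' * k' → x = x' ∧ k = k' := by
    intro x x' k k' he
    have h1 : ((⟨⟨ι x, x, rfl⟩, k⟩ : ι.range × K)) = ⟨⟨ι x', x', rfl⟩, k'⟩ := hK.1 he
    exact ⟨h.inj (congrArg (fun y : ι.range × K => (y.1 : G)) h1),
      congrArg (fun y : ι.range × K => y.2) h1⟩
  have hex : ∀ g : G, ∃ (x : N) (k : K), g = ι x * k := by
    intro g
    obtain ⟨⟨⟨_, x, rfl⟩, k⟩, hg⟩ := hK.2 g
    exact ⟨x, k, hg.symm⟩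
  choose X Kk hX using hex
  have hval : ∀ (x : N) (k : K), X (ι x * k) = x ∧ Kk (ι x * k) = k := fun x k =>
    ⟨(huni _ _ _ _ (hX (ι x * k))).1.symm, (huni _ _ _ _ (hX (ι x * k))).2.symm⟩
  let F : G → Module.End ℂ (Fin n → ℂ) := fun g => ρ (X g) *
    ((σ (Kk g) : (Module.End ℂ (Fin n → ℂ))ˣ) : Module.End ℂ (Fin n → ℂ))
  have hF : ∀ (x : N) (k : K), F (ι x * k) = ρ x *
      ((σ k : (Module.End ℂ (Fin n → ℂ))ˣ) : Module.End ℂ (Fin n → ℂ)) := by
    intro x k
    show ρ (X (ι x * k)) * ((σ (Kk (ι x * k)) : (Module.End ℂ (Fin n → ℂ))ˣ) :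
      Module.End ℂ (Fin n → ℂ)) = _
    rw [(hval x k).1, (hval x k).2]
  have hN : ∀ x, F (ι x) = ρ x := by
    intro x
    have h1 := hF x 1
    rw [map_one, Units.val_one, mul_one, Subgroup.coe_one, mul_one] at h1
    exact h1
  let R : Representation ℂ G (Fin n → ℂ) :=
    { toFun := F
      map_one' := by
        have h1 := hN 1
        rw [map_one, map_one] at h1
        exact h1
      map_mul' := by
        intro g g'
        obtain ⟨x, k, rfl⟩ : ∃ (x : N) (k : K), g = ι x * k := ⟨X g, Kk g, hX g⟩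
        obtain ⟨x', k', rfl⟩ : ∃ (x : N) (k : K), g' = ι x * k := ⟨X g', Kk g', hX g'⟩
        have h1 : ι x * k * (ι x' * k') = ι (x * h.cg (k : G) x') * ((k * k' : K) : G) := by
          rw [map_mul, h.cg_spec, Subgroup.coe_mul]
          group
        rw [h1, hF, hF, hF, map_mul, map_mul, Units.val_mul, mul_assoc, mul_assoc,
          ← mul_assoc (ρ (h.cg (k : G) x')), ← (hσ k).2, mul_assoc] }
  refine ⟨R.character, ⟨n, R, hb_sub ι R ρ hN hρ, rfl⟩, fun x => ?_⟩
  show LinearMap.trace ℂ _ (R (ι x)) = LinearMap.trace ℂ _ (ρ x)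
  rw [show R (ι x) = ρ x from hN x]

/-- (hc, size 3) PROOF. Let `χ` be the character of `ρ`; `μ ρ` and `μ' ρ` are irreducible with the same
character, so isomorphic: there is an invertible `T` with `T (μ t) ρ t = (μ' t) ρ t T` (as in the proof of
`IT_ex`). For `t = κ x`: `T` commutes with `ρ (κ x)`, and the restriction of `ρ` to `N` is irreducible (its
character is; if a representation has an irreducible character then it is irreducible - or directly: the
commutant of `ρ ∘ κ` has dimension 1 by `Representation.card_inv_mul_sum_char_mul_char_eq_finrank`), so `T`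
is a scalar, so `μ t ρ t = μ' t ρ t`, `μ t = μ' t`. -/
theorem cancel {N T : Type} [Group N] [Fintype N] [Group T] [Fintype T] (κ : N →* T)
    (χ : T → ℂ) (hχ : χ ∈ Irr T) (hres : (fun x => χ (κ x)) ∈ Irr N) (μ μ' : T →* ℂˣ)
    (hμ : ∀ x, μ (κ x) = 1) (hμ' : ∀ x, μ' (κ x) = 1)
    (he : ∀ t, ((μ t : ℂˣ) : ℂ) * χ t = ((μ' t : ℂˣ) : ℂ) * χ t) (t : T) : μ t = μ' t := by
  have hirr : (fun t => ((μ t : ℂˣ) : ℂ) * χ t) ∈ Irr T := LinB_irr μ χ hχ
  obtain ⟨n, ρ, hρ, hch⟩ := hχ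
  have hTC : (Nat.card T : ℂ) ≠ 0 := by exact_mod_cast Nat.card_pos.ne'
  have hNC : (Nat.card N : ℂ) ≠ 0 := by exact_mod_cast Nat.card_pos.ne'
  let ρ₁ : Representation ℂ T (Fin n → ℂ) :=
    { toFun := fun b => ((μ b : ℂˣ) : ℂ) • ρ b
      map_one' := by rw [map_one, map_one, Units.val_one, one_smul]
      map_mul' := fun a b => by
        rw [map_mul, map_mul, Units.val_mul, smul_mul_smul_comm] }
  have hρ₁ : ∀ b, ρ₁ b = ((μ b : ℂˣ) : ℂ) • ρ b := fun _ => rfl
  let ρ₂ : Representation ℂ T (Fin n → ℂ) :=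
    { toFun := fun b => ((μ' b : ℂˣ) : ℂ) • ρ b
      map_one' := by rw [map_one, map_one, Units.val_one, one_smul]
      map_mul' := fun a b => by
        rw [map_mul, map_mul, Units.val_mul, smul_mul_smul_comm] }
  have hρ₂ : ∀ b, ρ₂ b = ((μ' b : ℂˣ) : ℂ) • ρ b := fun _ => rfl
  have h1 : ρ₁.character = fun t => ((μ t : ℂˣ) : ℂ) * χ t := by
    funext b
    change LinearMap.trace ℂ _ (ρ₁ b) = _
    rw [hρ₁, map_smul, smul_eq_mul, ← hch]
    rfl
  have h2 : ρ₂.character = fun t => ((μ t : ℂˣ) : ℂ) * χ t := by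
    funext b
    change LinearMap.trace ℂ _ (ρ₂ b) = _
    rw [hρ₂, map_smul, smul_eq_mul, he, ← hch]
    rfl
  have e1 := Representation.card_inv_mul_sum_char_mul_char_eq_finrank ρ₁ ρ₂
  rw [h1, h2, (Col_row _ _ hirr hirr).1 rfl, inv_mul_cancel₀ hTC] at e1
  have e1' : Module.finrank ℂ (Representation.IntertwiningMap ρ₁ ρ₂) = 1 := by
    exact_mod_cast e1.symm
  have h4 : Nontrivial (Representation.IntertwiningMap ρ₁ ρ₂) :=
    Module.nontrivial_of_finrank_pos (R := ℂ) (by rw [e1']; exact one_pos)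
  obtain ⟨f, hf⟩ := exists_ne (0 : Representation.IntertwiningMap ρ₁ ρ₂)
  have hf0 : f.toLinearMap ≠ 0 := fun h =>
    hf (Representation.IntertwiningMap.toLinearMap_injective ρ₁ ρ₂ h)
  have hfi : ∀ b, f.toLinearMap * ρ₁ b = ρ₂ b * f.toLinearMap := fun b => f.isIntertwining' b
  -- the restriction
  let σ : Representation ℂ N (Fin n → ℂ) := MonoidHom.comp ρ κ
  have hσ : ∀ a, σ a = ρ (κ a) := fun _ => rfl
  have h3 : σ.character = fun x => χ (κ x) := by
    funext a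
    rw [← hch]
    rfl
  have e2 := Representation.card_inv_mul_sum_char_mul_char_eq_finrank σ σ
  rw [h3, (Col_row _ _ hres hres).1 rfl, inv_mul_cancel₀ hNC] at e2
  have e2' : Module.finrank ℂ (Representation.IntertwiningMap σ σ) = 1 := by
    exact_mod_cast e2.symm
  let g : Representation.IntertwiningMap σ σ :=
    { toLinearMap := f.toLinearMap
      isIntertwining' := fun a => by
        have h5 := hfi (κ a)
        rw [hρ₁, hρ₂, hμ, hμ', Units.val_one, one_smul] at h5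
        exact h5 }
  let i : Representation.IntertwiningMap σ σ := Representation.IntertwiningMap.id σ
  have hi : i.toLinearMap = 1 := rfl
  have hi0 : i ≠ 0 := by
    intro h
    have h5 : (1 : Module.End ℂ (Fin n → ℂ)) = 0 := by
      rw [← hi, h]
      rfl
    apply hf0
    have h6 : f.toLinearMap = f.toLinearMap * (1 : Module.End ℂ (Fin n → ℂ)) := (mul_one _).symm
    rw [h6, h5, mul_zero]
  obtain ⟨c, hc⟩ := (finrank_eq_one_iff_of_nonzero' i hi0).1 e2' g
  have hc' : f.toLinearMap = c • (1 : Module.End ℂ (Fin n → ℂ)) := by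
    have h5 := congrArg (fun s : Representation.IntertwiningMap σ σ => s.toLinearMap) hc
    exact h5.symm
  have hc0 : c ≠ 0 := by
    rintro rfl
    rw [zero_smul] at hc'
    exact hf0 hc'
  have h6 := hfi t
  rw [hc', hρ₁, hρ₂, smul_one_mul, mul_smul_comm, mul_one, smul_smul, smul_smul] at h6
  -- `ρ t ≠ 0`
  have hρt : ρ t ≠ 0 := by
    intro h
    have h7 : ρ t * ρ t⁻¹ = 1 := by rw [← map_mul, mul_inv_cancel, map_one]
    rw [h, zero_mul] at h7
    apply hi0
    apply Representation.IntertwiningMap.toLinearMap_injective σ σ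
    change i.toLinearMap = 0
    rw [hi, ← h7]
  have h8 : c * ((μ t : ℂˣ) : ℂ) = c * ((μ' t : ℂˣ) : ℂ) :=
    smul_left_injective ℂ (M := (Fin n → ℂ) →ₗ[ℂ] (Fin n → ℂ)) hρt h6
  exact Units.ext (mul_left_cancel₀ hc0 h8)

/-- The linear characters of `A ⊓ K`. -/
def HdD {H : Type} [Group H] (A K : Subgroup H) : Type := (A ⊓ K : Subgroup H) →* ℂˣ

noncomputable instance {H : Type} [Group H] (A K : Subgroup H) : CommGroup (HdD A K) :=
  inferInstanceAs (CommGroup ((A ⊓ K : Subgroup H) →* ℂˣ))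

/-- The value of the character. -/
def hdE {H : Type} [Group H] {A K : Subgroup H} (μ : HdD A K) (x : (A ⊓ K : Subgroup H)) : ℂˣ :=
  (show (A ⊓ K : Subgroup H) →* ℂˣ from μ) x

private theorem hdE_ext {H : Type} [Group H] {A K : Subgroup H} {μ ν : HdD A K}
    (h : ∀ x, hdE μ x = hdE ν x) : μ = ν := MonoidHom.ext h

/-- Conjugation with `s⁻¹` on `A ⊓ K`. -/
def hdC {H : Type} [Group H] {A : Subgroup H} (hA : Ab A) (K : Subgroup H) (s : K) :
    (A ⊓ K : Subgroup H) →* (A ⊓ K : Subgroup H) where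
  toFun x := ⟨(s : H)⁻¹ * x * s, by
    have := hA.nor.conj_mem x x.2.1 (s : H)⁻¹
    rwa [inv_inv] at this, K.mul_mem (K.mul_mem (K.inv_mem s.2) x.2.2) s.2⟩
  map_one' := Subtype.ext (by simp)
  map_mul' x y := Subtype.ext (by
    show (s : H)⁻¹ * (x * y) * s = ((s : H)⁻¹ * x * s) * ((s : H)⁻¹ * y * s)
    group)

/-- The action of `K` on the linear characters of `A ⊓ K`. -/
@[reducible] noncomputable def hdAct {H : Type} [Group H] {A : Subgroup H} (hA : Ab A)
    (K : Subgroup H) : MulDistribMulAction K (HdD A K) where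
  smul s μ := MonoidHom.comp (show (A ⊓ K : Subgroup H) →* ℂˣ from μ) (hdC hA K s)
  one_smul μ := by
    refine hdE_ext fun x => ?_
    show hdE μ (hdC hA K 1 x) = hdE μ x
    congr 1
    apply Subtype.ext
    show ((1 : K) : H)⁻¹ * x * (1 : K) = x
    simp
  mul_smul s t μ := by
    refine hdE_ext fun x => ?_
    show hdE μ (hdC hA K (s * t) x) = hdE μ (hdC hA K t (hdC hA K s x))
    congr 1
    apply Subtype.ext
    show ((s * t : K) : H)⁻¹ * x * (s * t : K) = (t : H)⁻¹ * ((s : H)⁻¹ * x * s) * t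
    rw [Subgroup.coe_mul]
    group
  smul_mul s μ ν := rfl
  smul_one s := rfl

private theorem hd_smul {H : Type} [Group H] {A : Subgroup H} (hA : Ab A) (K : Subgroup H)
    (s : K) (μ : HdD A K) (x : (A ⊓ K : Subgroup H)) :
    hdE (letI := hdAct hA K; s • μ) x = hdE μ (hdC hA K s x) := rfl

private theorem hd_com {H : Type} [Group H] (x y t : H)
    (h : x * y * x⁻¹ * y⁻¹ * t = t * (x * y * x⁻¹ * y⁻¹)) :
    y⁻¹ * (x⁻¹ * t * x) * y = x⁻¹ * (y⁻¹ * t * y) * x := by
  have h1 : (x * y * x⁻¹ * y⁻¹)⁻¹ * t * (x * y * x⁻¹ * y⁻¹) = t := by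
    rw [mul_assoc, ← h, inv_mul_cancel_left]
  calc _ = (y * x)⁻¹ * ((x * y * x⁻¹ * y⁻¹)⁻¹ * t * (x * y * x⁻¹ * y⁻¹)) * (y * x) := by group
    _ = _ := by rw [h1]; group

private theorem hd_dvd {H : Type} [Group H] [Finite H] {r : ℕ} (hr : r.Prime) (R : Sylow r H)
    (s : H) (hs : s ∈ (R : Subgroup H)) (h1 : s ≠ 1) : r ∣ Nat.card H := by
  obtain ⟨k, hk⟩ := R.2 ⟨s, hs⟩
  have h2 : s ^ r ^ k = 1 := congrArg (fun z : (R : Subgroup H) => (z : H)) hk
  have h3 := orderOf_dvd_of_pow_eq_one h2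
  obtain ⟨j, -, hj⟩ := (Nat.dvd_prime_pow hr).1 h3
  have h4 : j ≠ 0 := by
    rintro rfl
    rw [pow_zero, orderOf_eq_one_iff] at hj
    exact h1 hj
  exact ((dvd_pow_self r h4).trans (hj ▸ dvd_rfl)).trans (orderOf_dvd_natCard s)

/-- The group `A ⊓ K` as a commutative group. -/
private abbrev hdCG {H : Type} [Group H] {A : Subgroup H} (hA : Ab A) (K : Subgroup H) :
    CommGroup (A ⊓ K : Subgroup H) :=
  { (inferInstance : Group (A ⊓ K : Subgroup H)) with
    mul_comm := fun x y => Subtype.ext (hA.com x x.2.1 y y.2.1) }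

private theorem hd_card {H : Type} [Group H] [Finite H] {A : Subgroup H} (hA : Ab A)
    (K : Subgroup H) : Nat.card (HdD A K) = Nat.card (A ⊓ K : Subgroup H) := by
  let _ := hdCG hA K
  exact CommGroup.card_monoidHom_of_hasEnoughRootsOfUnity (A ⊓ K : Subgroup H) ℂ

private theorem hd_fin {H : Type} [Group H] [Finite H] {A : Subgroup H} (hA : Ab A)
    (K : Subgroup H) : Finite (HdD A K) := by
  have h := hd_card hA K
  have h1 : 0 < Nat.card (HdD A K) := by
    rw [h]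
    exact Nat.card_pos
  exact (Nat.card_pos_iff.1 h1).2

private theorem hd_sep {H : Type} [Group H] [Finite H] {A : Subgroup H} (hA : Ab A)
    (K : Subgroup H) (a : (A ⊓ K : Subgroup H)) (ha : a ≠ 1) :
    ∃ d : (A ⊓ K : Subgroup H) →* ℂˣ, d a ≠ 1 := by
  let _ := hdCG hA K
  exact CommGroup.exists_apply_ne_one_of_hasEnoughRootsOfUnity (A ⊓ K : Subgroup H) ℂ ha

/-- (hd, size 4) The choice of `μ`. PROOF. `Γ = K` acts on `D = (A ⊓ K →* ℂˣ)` (a finite abelian group of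
the order `|A ⊓ K|`) by `(s • μ) x = μ (s⁻¹ x s)`. For the primes `r ∈ B` which divide `|H|` and for which there
is a Sylow `r`-subgroup `R r ≤ K` which does not centralize `A ⊓ K` (a finite set): `R r` acts non-trivially on
`D` (the characters of a finite abelian group separate the elements), `|R r|` is prime to `|D|`, and the
actions of `R r` and `R r'` on `D` commute, because the commutators are in `A ⊓ K` (`ar_two`), which acts
trivially on `D`. `sel` gives `μ`. Let `R ≤ K` be any Sylow `r`-subgroup which fixes `μ`. If it does not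
centralize `A ⊓ K` then (`ar_act`) `R` and `R r` induce the same automorphisms on `A`, so `R r` fixes `μ`,
a contradiction (`R r` does not centralize `A ⊓ K` by `ar_act` either). -/
theorem mu_sel {H : Type} [Group H] [Finite H] {A : Subgroup H} (hA : Ab A) (K : Subgroup H)
    (B : Set ℕ) (hB : ∀ r ∈ B, AR A r) :
    ∃ μ : (A ⊓ K : Subgroup H) →* ℂˣ, ∀ r ∈ B, ∀ R : Sylow r H, (R : Subgroup H) ≤ K →
      (∀ s ∈ (R : Subgroup H), ∀ x y : (A ⊓ K : Subgroup H), (y : H) = s * x * s⁻¹ → μ y = μ x) →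
      ∀ s ∈ (R : Subgroup H), ∀ x ∈ A, x ∈ K → s * x * s⁻¹ = x := by
  have hDc : Nat.card (HdD A K) = Nat.card (A ⊓ K : Subgroup H) := hd_card hA K
  have hfD : Finite (HdD A K) := hd_fin hA K
  obtain ⟨Q, hQ⟩ : ∃ Q : ℕ → Prop, ∀ r, Q r ↔ (r ∈ B ∧ ∃ R : Sylow r H, (R : Subgroup H) ≤ K ∧
      ∃ s ∈ (R : Subgroup H), ∃ x ∈ A, x ∈ K ∧ s * x * s⁻¹ ≠ x) := ⟨_, fun _ => Iff.rfl⟩
  have hfin : Finite {r : ℕ // Q r} := by
    refine Set.Finite.subset (Set.finite_Iic (Nat.card H)) (t := {r | Q r}) ?_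
    intro r hr
    obtain ⟨hrB, R, hRK, s, hs, x, hx, hxK, hne⟩ := (hQ r).1 hr
    have hs1 : s ≠ 1 := by
      rintro rfl
      apply hne
      simp
    exact Nat.le_of_dvd Nat.card_pos (hd_dvd (hB r hrB).prime R s hs hs1)
  have hch : ∀ i : {r : ℕ // Q r}, ∃ R : Sylow i.1 H, (R : Subgroup H) ≤ K ∧
      ∃ s ∈ (R : Subgroup H), ∃ x ∈ A, x ∈ K ∧ s * x * s⁻¹ ≠ x := by
    intro i
    exact ((hQ i.1).1 i.2).2
  have hQB : ∀ i : {r : ℕ // Q r}, i.1 ∈ B := by
    intro i
    exact ((hQ i.1).1 i.2).1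
  choose R hRK hR using hch
  let _ := hdAct hA K
  obtain ⟨μ, hμ⟩ := sel (Γ := K) (D := HdD A K) (fun i => (R i : Subgroup H).subgroupOf K) (by
    intro i
    rw [hDc, Nat.card_congr (Subgroup.subgroupOfEquivOfLe (hRK i)).toEquiv]
    exact (ar_cop (hB i.1 (hQB i)) (R i)).coprime_dvd_right (Subgroup.card_dvd_of_le inf_le_left)) (by
    intro i j hij x hx y hy d
    rw [Subgroup.mem_subgroupOf] at hx hy
    have h1 := ar_two hA (hB i.1 (hQB i)) (hB j.1 (hQB j))
      (fun h => hij (Subtype.ext h)) (R i) (R j) x y hx hy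
    refine hdE_ext fun t => ?_
    rw [hd_smul, hd_smul, hd_smul, hd_smul]
    congr 1
    apply Subtype.ext
    have h2 := hA.com _ h1 _ t.2.1
    exact hd_com (x : H) y t h2) (by
    intro i
    obtain ⟨s, hs, x, hx, hxK, hne⟩ := hR i
    have hsK : s ∈ K := hRK i hs
    have hm1 : s * x * s⁻¹ ∈ A ⊓ K := Subgroup.mem_inf.2 ⟨hA.nor.conj_mem x hx s,
      K.mul_mem (K.mul_mem hsK hxK) (K.inv_mem hsK)⟩
    have hm2 : x ∈ A ⊓ K := Subgroup.mem_inf.2 ⟨hx, hxK⟩
    have hne' : (⟨s * x * s⁻¹, hm1⟩ : (A ⊓ K : Subgroup H)) *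
        (⟨x, hm2⟩ : (A ⊓ K : Subgroup H))⁻¹ ≠ 1 := by
      intro h
      apply hne
      have h1 := congrArg (fun z : (A ⊓ K : Subgroup H) => (z : H)) h
      simp only [Subgroup.coe_mul, Subgroup.coe_inv, Subgroup.coe_one] at h1
      exact mul_inv_eq_one.1 h1
    obtain ⟨d, hd⟩ := hd_sep hA K _ hne'
    refine ⟨⟨s, hsK⟩⁻¹, ?_, d, ?_⟩
    · rw [Subgroup.mem_subgroupOf]
      exact (R i : Subgroup H).inv_mem hs
    · intro h
      apply hd
      rw [map_mul, map_inv, mul_inv_eq_one]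
      have h1 := congrArg (fun z : HdD A K => hdE z ⟨x, hm2⟩) h
      refine Eq.trans ?_ h1
      refine Eq.trans ?_ (hd_smul hA K _ d ⟨x, hm2⟩).symm
      show d _ = d _
      congr 1
      apply Subtype.ext
      show s * x * s⁻¹ = (s⁻¹)⁻¹ * x * s⁻¹
      rw [inv_inv])
  refine ⟨μ, ?_⟩
  intro r hr P hPK hfix s hs x hx hxK
  by_contra hne
  have hQr : Q r := by
    rw [hQ]
    exact ⟨hr, P, hPK, s, hs, x, hx, hxK, hne⟩
  obtain ⟨k, hk, hk'⟩ := hμ ⟨r, hQr⟩
  apply hk'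
  rw [Subgroup.mem_subgroupOf] at hk
  refine hdE_ext fun t => ?_
  rw [hd_smul]
  obtain ⟨s', hs', h1⟩ := ar_act hA (hB r hr) P (R ⟨r, hQr⟩) (k : H)⁻¹
    (Subgroup.inv_mem _ hk)
  refine hfix s' hs' t _ ?_
  show (k : H)⁻¹ * t * k = s' * t * s'⁻¹
  rw [← h1 t t.2.1, inv_inv]

private theorem he_over {A G : Type} [Group A] [Fintype A] [Group G] (κ : A →* G) (ζ : G → ℂ)
    (θ : A → ℂ) (hθ : θ ∈ Irr A) (h : ∀ a, ζ (κ a) = θ a) : Over κ ζ θ := by
  unfold Over
  have h1 : ∑ a : A, ζ (κ a) * θ a⁻¹ = ∑ a : A, θ a * θ a⁻¹ :=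
    Finset.sum_congr rfl fun a _ => by rw [h a]
  rw [h1, (Col_row θ θ hθ hθ).1 rfl]
  exact_mod_cast (Nat.card_pos (α := A)).ne'

/-- The automorphism of `T` induced by conjugation with `g` does not change `Over`. -/
private theorem he_sub {A G : Type} [Group A] [Fintype A] [Group G] (κ : A →* G) (ψ : G → ℂ)
    (ζ : A → ℂ) (f : A →* A) (hf : Function.Bijective f) (hψ : ∀ a, ψ (κ (f a)) = ψ (κ a))
    (ho : Over κ ψ ζ) : Over κ ψ (fun a => ζ (f a)) := by
  unfold Over at ho ⊢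
  have h1 : ∑ a : A, ψ (κ a) * ζ (f a⁻¹) = ∑ a : A, ψ (κ a) * ζ a⁻¹ := by
    rw [← hf.sum_comp (fun a => ψ (κ a) * ζ a⁻¹)]
    exact Finset.sum_congr rfl fun a _ => by rw [hψ a, map_inv]
  rw [h1]
  exact ho

/-- Conjugation by `g` on a subgroup `T` of `L`. -/
private theorem he_cj {G : Type} [Group G] (L : Subgroup G) (hL : L.Normal) (I : Subgroup G)
    (g : G) (hg : g ∈ I) : ∃ f : (I.subgroupOf L) →* (I.subgroupOf L), Function.Bijective f ∧
      ∀ t, ((f t : L) : G) = g * ((t : L) : G) * g⁻¹ := by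
  have hm : ∀ (k : G) (_ : k ∈ I) (t : I.subgroupOf L),
      (⟨k * ((t : L) : G) * k⁻¹, hL.conj_mem _ (t : L).2 k⟩ : L) ∈ I.subgroupOf L := by
    intro k hk t
    exact I.mul_mem (I.mul_mem hk t.2) (I.inv_mem hk)
  have hex : ∀ (k : G) (_ : k ∈ I), ∃ f : (I.subgroupOf L) →* (I.subgroupOf L),
      ∀ t, ((f t : L) : G) = k * ((t : L) : G) * k⁻¹ := by
    intro k hk
    exact ⟨{ toFun := fun t => ⟨_, hm k hk t⟩
             map_one' := Subtype.ext (Subtype.ext (by simp))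
             map_mul' := fun s t => Subtype.ext (Subtype.ext (by simp)) }, fun t => rfl⟩
  obtain ⟨f, hf⟩ := hex g hg
  obtain ⟨f', hf'⟩ := hex g⁻¹ (I.inv_mem hg)
  refine ⟨f, ⟨fun s t hst => ?_, fun t => ⟨f' t, ?_⟩⟩, hf⟩
  · have h1 := congrArg (fun u : I.subgroupOf L => ((u : L) : G)) hst
    simp only [hf] at h1
    exact Subtype.ext (Subtype.ext (by simpa using h1))
  · refine Subtype.ext (Subtype.ext ?_)
    rw [hf, hf']
    group

private theorem he_main {G : Type} [Group G] [Fintype G] (L N : Subgroup G) [Fintype L]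
    [Fintype N] (hL : L.Normal)
    (hN : N.Normal) (hNL : N ≤ L) (θ : N → ℂ) (hθ : θ ∈ Irr N)
    [Fintype ((fxG N hN θ).subgroupOf L)]
    (ζ : ((fxG N hN θ).subgroupOf L) → ℂ) (hζ : ζ ∈ Irr ((fxG N hN θ).subgroupOf L))
    (hres : ∀ (t : (fxG N hN θ).subgroupOf L) (x : N), ((t : L) : G) = x → ζ t = θ x) :
    ∃ ψ ∈ Irr L, (∃ m : ℕ, ψ 1 = (m : ℂ) * θ 1) ∧
      (∀ g ∈ fxG L hL ψ, ∃ l ∈ L, g * l ∈ fxG N hN θ) ∧
      ∀ g ∈ fxG L hL ψ, g ∈ fxG N hN θ → ∀ t t' : (fxG N hN θ).subgroupOf L,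
        ((t' : L) : G) = g * ((t : L) : G) * g⁻¹ → ζ t' = ζ t := by
  have hNI : N ≤ fxG N hN θ := by
    intro n hn x y hxy
    have h1 : y = ⟨n, hn⟩ * x * (⟨n, hn⟩ : N)⁻¹ := Subtype.ext hxy
    rw [h1]
    exact (Col_class hθ (isConj_iff.2 ⟨⟨n, hn⟩, rfl⟩)).symm
  obtain ⟨κ, hκ⟩ : ∃ κ : N →* (fxG N hN θ).subgroupOf L, ∀ x, ((κ x : L) : G) = x :=
    ⟨{ toFun := fun x => ⟨⟨x, hNL x.2⟩, hNI x.2⟩
       map_one' := rfl
       map_mul' := fun _ _ => rfl }, fun _ => rfl⟩
  have hι : Nrm (Subgroup.inclusion hNL) :=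
    ⟨Subgroup.inclusion_injective hNL, fun g x =>
      ⟨⟨(g : G) * x * (g : G)⁻¹, hN.conj_mem x x.2 g⟩, Subtype.ext rfl⟩⟩
  have hcg : ∀ (g : L) (x : N), ((hι.cg g x : N) : G) = g * x * (g : G)⁻¹ := by
    intro g x
    exact congrArg (fun u : L => (u : G)) (hι.cg_spec g x)
  have hfix : ∀ g : L, (g : G) ∈ fxG N hN θ ↔ tw hι g θ = θ := by
    intro g
    constructor
    · intro hg
      funext x
      rw [tw_apply]
      exact hg x _ (hcg g x)
    · intro hg x y hxy
      have h1 : y = hι.cg g x := Subtype.ext (by rw [hcg]; exact hxy)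
      rw [h1]
      exact congrFun hg x
  have hctx : Ctx hι ((fxG N hN θ).subgroupOf L) κ {θ} := by
    refine ⟨⟨fun a b hab => ?_, fun g x => ?_⟩, fun a => ?_, fun φ hφ => ?_, fun t φ hφ => ?_,
      fun g hg φ hφ h1 => ?_⟩
    · have h1 := congrArg (fun u : (fxG N hN θ).subgroupOf L => ((u : L) : G)) hab
      simp only [hκ] at h1
      exact Subtype.ext h1
    · refine ⟨⟨((g : L) : G) * x * ((g : L) : G)⁻¹, hN.conj_mem x x.2 _⟩, ?_⟩
      refine Subtype.ext (Subtype.ext ?_)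
      rw [hκ]
      show _ = ((g : L) : G) * ((κ x : L) : G) * ((g : L) : G)⁻¹
      rw [hκ]
    · exact Subtype.ext (hκ a)
    · rw [Set.mem_singleton_iff.1 hφ]
      exact hθ
    · rw [Set.mem_singleton_iff.1 hφ]
      exact Set.mem_singleton_iff.2 ((hfix t).1 t.2)
    · rw [Set.mem_singleton_iff.1 hφ, Set.mem_singleton_iff] at h1
      exact hg ((hfix g).2 h1)
  have hov : Over κ ζ θ := he_over κ ζ θ hθ fun a => hres (κ a) a (hκ a)
  obtain ⟨hψ, hψζ⟩ := IndIB_irr hctx ζ hζ θ rfl hov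
  have hψθ : Over (Subgroup.inclusion hNL) (indc ((fxG N hN θ).subgroupOf L) ζ) θ := by
    have h1 : Subgroup.inclusion hNL = ((fxG N hN θ).subgroupOf L).subtype.comp κ :=
      MonoidHom.ext fun a => (hctx.kap a).symm
    rw [h1]
    exact (ClA_trans κ hctx.nk.inj _ (Subgroup.subtype_injective _) _ hψ θ hθ).2
      ⟨ζ, hζ, hψζ, hov⟩
  refine ⟨indc ((fxG N hN θ).subgroupOf L) ζ, hψ, ⟨((fxG N hN θ).subgroupOf L).index, ?_⟩, ?_, ?_⟩
  · rw [Frb_one, hres 1 1 rfl]
  · intro g hg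
    have hN' : Nrm N.subtype := Nrm.subtype N
    have hcg' : ∀ x : N, ((hN'.cg g x : N) : G) = g * x * g⁻¹ := fun x => hN'.cg_spec g x
    have h2 : Over (Subgroup.inclusion hNL) (indc ((fxG N hN θ).subgroupOf L) ζ)
        (fun a => θ ((hN'.cg g).toMonoidHom a)) := by
      refine he_sub _ _ θ (hN'.cg g).toMonoidHom (hN'.cg g).bijective (fun a => ?_) hψθ
      exact hg _ _ (hcg' a)
    obtain ⟨l, hl⟩ := ClB_conj hι _ hψ θ _ hθ (tw_irr hN' g hθ) hψθ h2
    refine ⟨(l : G)⁻¹, L.inv_mem l.2, fun x y hxy => ?_⟩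
    have h3 := congrFun hl (hι.cg l⁻¹ x)
    rw [tw_apply, hι.cg_inv'] at h3
    rw [h3]
    congr 1
    refine Subtype.ext ?_
    show (y : G) = ((hN'.cg g (hι.cg l⁻¹ x) : N) : G)
    rw [hcg', hcg, hxy]
    push_cast
    group
  · intro g hg hgI t t' htt
    obtain ⟨f, hfb, hf⟩ := he_cj L hL (fxG N hN θ) g hgI
    have h1 : (fun t => ζ (f t)) ∈ Irr ((fxG N hN θ).subgroupOf L) :=
      Inf_irr f hfb.2 ζ hζ
    have h2 : Over ((fxG N hN θ).subgroupOf L).subtype (indc ((fxG N hN θ).subgroupOf L) ζ)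
        (fun t => ζ (f t)) :=
      he_sub _ _ ζ f hfb (fun a => hg _ _ (hf a)) hψζ
    have h3 : Over κ (fun t => ζ (f t)) θ := by
      refine he_over κ _ θ hθ fun a => ?_
      have h4 : ((f (κ a) : L) : G) = g * a * g⁻¹ := by rw [hf, hκ]
      rw [hres (f (κ a)) ⟨g * a * g⁻¹, hN.conj_mem a a.2 g⟩ h4]
      exact hgI a _ rfl
    have h4 := IndIB_uniq hctx _ hψ ζ (fun t => ζ (f t)) hζ h1 θ θ rfl rfl hψζ h2 hov h3
    have h5 : t' = f t := Subtype.ext (Subtype.ext (by rw [hf, htt]))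
    rw [h5]
    exact congrFun h4 t

/-- (he, size 4) The Clifford correspondence. `I` is the stabilizer of `θ` in `G`, `T = L ∩ I`. PROOF.
`IndIB_irr`, `IndIB_uniq`, `Frb_one` for the group `L`, the normal subgroup `N → L`, the subgroup
`T` of `L` and `Y = {θ}` (`Ctx`: an element of `L` outside `T` does not fix `θ`). `ψ = indc T ζ`.
Let `g ∈ G` fix `ψ`. `ψ` lies over `θ`, so also over the conjugate `x ↦ θ (g x g⁻¹)`; by `ClB_conj` this is
`x ↦ θ (l x l⁻¹)` for some `l ∈ L`, so `g * l⁻¹ ∈ I`. If moreover `g ∈ I` then `t ↦ ζ (g t g⁻¹)` is an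
irreducible character of `T` (`I` normalizes `T`) over `θ`, and `ψ` lies over it, so it is `ζ` (`IndIB_uniq`). -/
theorem low_a {G : Type} [Group G] [Finite G] (L N : Subgroup G) (hL : L.Normal)
    (hN : N.Normal) (hNL : N ≤ L) (θ : N → ℂ) (hθ : θ ∈ Irr N)
    (ζ : ((fxG N hN θ).subgroupOf L) → ℂ) (hζ : ζ ∈ Irr ((fxG N hN θ).subgroupOf L))
    (hres : ∀ (t : (fxG N hN θ).subgroupOf L) (x : N), ((t : L) : G) = x → ζ t = θ x) :
    ∃ ψ ∈ Irr L, (∃ m : ℕ, ψ 1 = (m : ℂ) * θ 1) ∧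
      (∀ g ∈ fxG L hL ψ, ∃ l ∈ L, g * l ∈ fxG N hN θ) ∧
      ∀ g ∈ fxG L hL ψ, g ∈ fxG N hN θ → ∀ t t' : (fxG N hN θ).subgroupOf L,
        ((t' : L) : G) = g * ((t : L) : G) * g⁻¹ → ζ t' = ζ t := by
  have h1 := Fintype.ofFinite G
  have h2 := Fintype.ofFinite L
  have h3 := Fintype.ofFinite N
  have h4 := Fintype.ofFinite ((fxG N hN θ).subgroupOf L)
  exact he_main L N hL hN hNL θ hθ ζ hζ hres

private theorem hf_res {N T I : Type} [Group N] [Fintype N] [Group T] [Fintype T] [Group I]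
    [Fintype I] {κ : N →* T} (hκ : Nrm κ) {ι : T →* I} (hι : Nrm ι) (η : I → ℂ) (hη : η ∈ Irr I)
    (θ : N → ℂ) (hθ : θ ∈ Irr N) (h : ∀ x, η (ι (κ x)) = θ x) : (fun t => η (ι t)) ∈ Irr T := by
  have hov : Over (ι.comp κ) η θ := he_over (ι.comp κ) η θ hθ h
  obtain ⟨φ, hφ, h1, h2⟩ := (ClA_trans κ hκ.inj ι hι.inj η hη θ hθ).1 hov
  obtain ⟨O, hO, hO1, hO2⟩ := ClC_main hι η hη φ hφ h1
  obtain ⟨O', hO', hO'1, hO'2⟩ := ClC_main hκ φ hφ θ hθ h2
  obtain ⟨d, hd, hdθ⟩ := irr_deg hθ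
  have h3 : η 1 = θ 1 := by
    rw [← h 1, map_one, map_one]
  rw [hO'2, h3, hdθ] at hO2
  have h4 : d = mlt ι η φ * O.card * (mlt κ φ θ * O'.card * d) := by exact_mod_cast hO2
  have h5 : (mlt ι η φ * O.card) * (mlt κ φ θ * O'.card) = 1 := by
    refine Nat.eq_of_mul_eq_mul_right hd ?_
    rw [one_mul, mul_assoc]
    exact h4.symm
  have h6 : mlt ι η φ * O.card = 1 := Nat.eq_one_of_mul_eq_one_right h5
  have h7 : mlt ι η φ = 1 := Nat.eq_one_of_mul_eq_one_right h6
  have h8 : O.card = 1 := Nat.eq_one_of_mul_eq_one_left h6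
  have h9 : O = {φ} := by
    obtain ⟨φ', hφ'⟩ := Finset.card_eq_one.1 h8
    have h10 : φ ∈ O := (hO φ).2 ⟨1, tw_one hι φ⟩
    rw [hφ'] at h10 ⊢
    rw [Finset.mem_singleton.1 h10]
  have h10 : (fun t => η (ι t)) = φ := by
    funext t
    rw [hO1 t, h7, h9, Finset.sum_singleton, Nat.cast_one, one_mul]
  rw [h10]
  exact hφ

/-- The extension to the stabilizer, multiplied by a linear character. -/
private theorem hf_zeta {G : Type} [Group G] [Finite G] (L N : Subgroup G) (hL : L.Normal)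
    (hN : N.Normal) (hNL : N ≤ L) (hcop : (Nat.card N).Coprime N.index) (θ : N → ℂ)
    (hθ : θ ∈ Irr N) (hNI : N ≤ fxG N hN θ) :
    ∃ η : (fxG N hN θ).subgroupOf L → ℂ, η ∈ Irr ((fxG N hN θ).subgroupOf L) ∧
      (∀ (t : (fxG N hN θ).subgroupOf L) (x : N), ((t : L) : G) = x → η t = θ x) ∧
      ∀ g ∈ fxG N hN θ, ∀ t t' : (fxG N hN θ).subgroupOf L,
        ((t' : L) : G) = g * ((t : L) : G) * g⁻¹ → η t' = η t := by
  have h1 := Fintype.ofFinite G
  have h2 := Fintype.ofFinite L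
  have h3 := Fintype.ofFinite N
  have h4 := Fintype.ofFinite ((fxG N hN θ).subgroupOf L)
  have h5 := Fintype.ofFinite (fxG N hN θ)
  -- the homomorphisms
  have hι : Nrm (Subgroup.inclusion hNI) :=
    ⟨Subgroup.inclusion_injective hNI, fun g x =>
      ⟨⟨(g : G) * x * (g : G)⁻¹, hN.conj_mem x x.2 g⟩, Subtype.ext rfl⟩⟩
  have hidx : (Subgroup.inclusion hNI).range.index ∣ N.index := by
    rw [Subgroup.inclusion_range]
    exact Dvd.intro _ (Subgroup.relIndex_mul_index hNI)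
  obtain ⟨η, hη, hηθ⟩ := cext hι (Nat.Coprime.coprime_dvd_right hidx hcop) θ hθ (by
    intro g
    funext x
    rw [tw_apply]
    exact g.2 x _ (congrArg (fun u : fxG N hN θ => (u : G)) (hι.cg_spec g x)))
  obtain ⟨κ, hκ⟩ : ∃ κ : N →* (fxG N hN θ).subgroupOf L, ∀ x, ((κ x : L) : G) = x :=
    ⟨{ toFun := fun x => ⟨⟨x, hNL x.2⟩, hNI x.2⟩
       map_one' := rfl
       map_mul' := fun _ _ => rfl }, fun _ => rfl⟩
  obtain ⟨j, hj⟩ : ∃ j : (fxG N hN θ).subgroupOf L →* fxG N hN θ,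
      ∀ t, ((j t : fxG N hN θ) : G) = ((t : L) : G) :=
    ⟨{ toFun := fun t => ⟨((t : L) : G), t.2⟩
       map_one' := rfl
       map_mul' := fun _ _ => rfl }, fun _ => rfl⟩
  have hκn : Nrm κ := by
    refine ⟨fun a b hab => ?_, fun g x => ?_⟩
    · have h1 := congrArg (fun u : (fxG N hN θ).subgroupOf L => ((u : L) : G)) hab
      simp only [hκ] at h1
      exact Subtype.ext h1
    · refine ⟨⟨((g : L) : G) * x * ((g : L) : G)⁻¹, hN.conj_mem x x.2 _⟩, ?_⟩
      refine Subtype.ext (Subtype.ext ?_)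
      rw [hκ]
      show _ = ((g : L) : G) * ((κ x : L) : G) * ((g : L) : G)⁻¹
      rw [hκ]
  have hjn : Nrm j := by
    refine ⟨fun a b hab => ?_, fun g x => ?_⟩
    · have h1 := congrArg (fun u : fxG N hN θ => (u : G)) hab
      simp only [hj] at h1
      exact Subtype.ext (Subtype.ext h1)
    · obtain ⟨f, _, hf⟩ := he_cj L hL (fxG N hN θ) g g.2
      refine ⟨f x, Subtype.ext ?_⟩
      rw [hj, hf]
      show _ = (g : G) * (j x : G) * (g : G)⁻¹
      rw [hj]
  refine ⟨fun t => η (j t), ?_, ?_, ?_⟩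
  · refine hf_res hκn hjn η hη θ hθ fun x => ?_
    have h6 : j (κ x) = Subgroup.inclusion hNI x := Subtype.ext (by rw [hj, hκ]; rfl)
    rw [h6, hηθ]
  · intro t x htx
    have h6 : j t = Subgroup.inclusion hNI x := Subtype.ext (by rw [hj, htx]; rfl)
    show η (j t) = θ x
    rw [h6, hηθ]
  · intro g hg t t' htt
    show η (j t') = η (j t)
    have h6 : j t' = ⟨g, hg⟩ * j t * (⟨g, hg⟩ : fxG N hN θ)⁻¹ := by
      refine Subtype.ext ?_
      rw [hj, htt]
      show _ = g * (j t : G) * g⁻¹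
      rw [hj]
    rw [h6]
    exact (Col_class hη (isConj_iff.2 ⟨_, rfl⟩)).symm

/-- (hf, size 4) PROOF. `I = fxG N hN θ`. `cext` for `N → I` (the index of `N` in `I` divides the index in
`G`) gives `η ∈ Irr I` which extends `θ`. `K = fxH F N hN θ = I / F`; `mu_sel` gives `μ`. `L` = the preimage of
`A`, `T = L ⊓ I`; for `t ∈ T` the class `t F` is in `A ⊓ K`: `μ' t = μ (t F)`, a homomorphism `T → ℂˣ`, trivial on
`N ≤ F`. `ζ t = μ' t * η t` is irreducible (its restriction to `N` is `θ`) and `low_a` gives `ψ`.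
Let `r ∈ B`, `R` a Sylow `r`-subgroup with all preimages in `fxG L hL ψ`. For `s ∈ R`, `s = g F`: `g l ∈ I`, so
`s * a ∈ K` with `a = l F ∈ A`. `tors` for `T = R`, `S = K` gives `a ∈ A` with `a s a⁻¹ ∈ K` for all `s ∈ R`
(`hN` there: for `x ∈ A ⊓ K`, `s a' ∈ K`: `s x s⁻¹ = (s a') x (s a')⁻¹ ∈ K`). `R' = a R a⁻¹` is a Sylow
`r`-subgroup, `R' ≤ K`, and its preimages are in `fxG L hL ψ` too (`L ≤ fxG L hL ψ`). `low_a`: for a preimage
`g` of an element `s` of `R'` (`g ∈ I`, because `F ≤ I`): `ζ (g t g⁻¹) = ζ t`, and `η (g t g⁻¹) = η t` (`g ∈ I`),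
so by `cancel` `μ' (g t g⁻¹) = μ' t`, so `μ (s x s⁻¹) = μ x` for `x ∈ A ⊓ K`. By the choice of `μ` `R'`
centralizes `A ⊓ K`. So `c ∈ cm A r`, `c ∈ K` is fixed by `R'`, so `c = 1` (`ar_cm`, `cp_fix`). -/
theorem low_psi {G : Type} [Group G] [Finite G] (F : Subgroup G) [F.Normal]
    {A : Subgroup (G ⧸ F)} (hA : Ab A) (N : Subgroup G) (hN : N.Normal) (hNF : N ≤ F)
    (hcop : (Nat.card N).Coprime N.index) (θ : N → ℂ) (hθ : θ ∈ Irr N)
    (hF : F ≤ fxG N hN θ) (B : Set ℕ) (hB : ∀ r ∈ B, AR A r) (L : Subgroup G) (hL : L.Normal)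
    (hLA : L = A.comap (QuotientGroup.mk' F)) :
    ∃ ψ ∈ Irr L, (∃ m : ℕ, ψ 1 = (m : ℂ) * θ 1) ∧ ∀ r ∈ B,
      (∃ R : Sylow r (G ⧸ F), ∀ g : G, (g : G ⧸ F) ∈ (R : Subgroup (G ⧸ F)) →
        g ∈ fxG L hL ψ) →
      ∃ R : Sylow r (G ⧸ F), (R : Subgroup (G ⧸ F)) ≤ fxH F N hN θ ∧
        ∀ c ∈ cm A r, c ∈ fxH F N hN θ → c = 1 := by
  have hmK : ∀ g : G, (g : G ⧸ F) ∈ fxH F N hN θ ↔ g ∈ fxG N hN θ := by
    intro g
    constructor
    · rintro ⟨k, hk, hkg⟩
      have h1 : k⁻¹ * g ∈ F := QuotientGroup.eq.1 hkg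
      have h2 := (fxG N hN θ).mul_mem hk (hF h1)
      rwa [mul_inv_cancel_left] at h2
    · exact fun hg => ⟨g, hg, rfl⟩
  have hmL : ∀ g : G, g ∈ L ↔ (g : G ⧸ F) ∈ A := by
    intro g
    rw [hLA]
    exact Iff.rfl
  have hFL : F ≤ L := by
    intro x hx
    rw [hmL, (QuotientGroup.eq_one_iff x).2 hx]
    exact A.one_mem
  have hNL : N ≤ L := hNF.trans hFL
  obtain ⟨η, hη, hηθ, hηc⟩ := hf_zeta L N hL hN hNL hcop θ hθ (hNF.trans hF)
  obtain ⟨μ, hμ⟩ := mu_sel hA (fxH F N hN θ) B hB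
  obtain ⟨w, hw⟩ : ∃ w : (fxG N hN θ).subgroupOf L →* ℂˣ,
      ∀ (t : (fxG N hN θ).subgroupOf L) (x : (A ⊓ fxH F N hN θ : Subgroup (G ⧸ F))),
      (x : G ⧸ F) = (((t : L) : G) : G ⧸ F) → w t = μ x := by
    refine ⟨μ.comp
      { toFun := fun t => ⟨(((t : L) : G) : G ⧸ F), (hmL _).1 (t : L).2, (hmK _).2 t.2⟩
        map_one' := rfl
        map_mul' := fun _ _ => rfl }, fun t x hx => ?_⟩
    show μ _ = μ x
    congr 1
    exact Subtype.ext hx.symm
  have hw1 : ∀ (t : (fxG N hN θ).subgroupOf L) (x : N), ((t : L) : G) = x → w t = 1 := by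
    intro t x htx
    rw [hw t 1 (by rw [htx, (QuotientGroup.eq_one_iff (x : G)).2 (hNF x.2)]; rfl), map_one]
  obtain ⟨ψ, hψ, hψd, hψ1, hψ2⟩ := low_a L N hL hN hNL θ hθ
    (fun t => ((w t : ℂˣ) : ℂ) * η t) (LinB_irr w η hη) (fun t x htx => by
      show ((w t : ℂˣ) : ℂ) * η t = θ x
      rw [hw1 t x htx, hηθ t x htx, Units.val_one, one_mul])
  refine ⟨ψ, hψ, hψd, fun r hr ⟨R, hR⟩ => ?_⟩
  have hAR := hB r hr
  obtain ⟨a, ha, haK⟩ := tors hA (R : Subgroup (G ⧸ F)) (fxH F N hN θ) (ar_cop hAR R) (by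
      intro s hs x hxA hxK
      obtain ⟨g, rfl⟩ := QuotientGroup.mk_surjective s
      obtain ⟨l, hl, hgl⟩ := hψ1 g (hR g hs)
      have h1 := (hmK _).2 hgl
      have h2 := (hmL _).1 hl
      have h3 := (fxH F N hN θ).mul_mem ((fxH F N hN θ).mul_mem h1 hxK)
        ((fxH F N hN θ).inv_mem h1)
      have h4 : ((g * l : G) : G ⧸ F) * x * ((g * l : G) : G ⧸ F)⁻¹ =
          (g : G ⧸ F) * x * (g : G ⧸ F)⁻¹ := by
        rw [QuotientGroup.mk_mul, mul_assoc (g : G ⧸ F) (l : G ⧸ F) x, hA.com _ h2 _ hxA]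
        group
      rwa [h4] at h3) (by
      intro s hs
      obtain ⟨g, rfl⟩ := QuotientGroup.mk_surjective s
      obtain ⟨l, hl, hgl⟩ := hψ1 g (hR g hs)
      refine ⟨(g : G ⧸ F) * l * (g : G ⧸ F)⁻¹, hA.nor.conj_mem _ ((hmL _).1 hl) _, ?_⟩
      rw [inv_mul_cancel_right, ← QuotientGroup.mk_mul]
      exact (hmK _).2 hgl)
  obtain ⟨l, rfl⟩ := QuotientGroup.mk_surjective a
  have hlL : l ∈ L := (hmL l).2 ha
  have hLfx : L ≤ fxG L hL ψ := by
    intro n hn x y hxy
    have h1 : y = ⟨n, hn⟩ * x * (⟨n, hn⟩ : L)⁻¹ := Subtype.ext hxy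
    rw [h1]
    exact (Col_class hψ (isConj_iff.2 ⟨⟨n, hn⟩, rfl⟩)).symm
  have hmem : ∀ x : G ⧸ F, x ∈ ((l : G ⧸ F) • R : Sylow r (G ⧸ F)).toSubgroup ↔
      (l : G ⧸ F)⁻¹ * x * l ∈ (R : Subgroup (G ⧸ F)) := by
    intro x
    rw [Sylow.coe_subgroup_smul, Subgroup.mem_pointwise_smul_iff_inv_smul_mem, ← map_inv,
      MulAut.smul_def, MulAut.conj_apply, inv_inv]
  have hR'K : ((l : G ⧸ F) • R : Sylow r (G ⧸ F)).toSubgroup ≤ fxH F N hN θ := by
    intro x hx
    have h1 := haK _ ((hmem x).1 hx)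
    have h2 : (l : G ⧸ F) * ((l : G ⧸ F)⁻¹ * x * l) * (l : G ⧸ F)⁻¹ = x := by group
    rwa [h2] at h1
  have hR'ψ : ∀ g : G, (g : G ⧸ F) ∈ ((l : G ⧸ F) • R : Sylow r (G ⧸ F)).toSubgroup →
      g ∈ fxG L hL ψ := by
    intro g hg
    have h1 : l⁻¹ * g * l ∈ fxG L hL ψ := hR _ ((hmem _).1 hg)
    have h2 := (fxG L hL ψ).mul_mem ((fxG L hL ψ).mul_mem (hLfx hlL) h1)
      ((fxG L hL ψ).inv_mem (hLfx hlL))
    have h3 : l * (l⁻¹ * g * l) * l⁻¹ = g := by group
    rwa [h3] at h2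
  have hμ' : ∀ s ∈ ((l : G ⧸ F) • R : Sylow r (G ⧸ F)).toSubgroup,
      ∀ x y : (A ⊓ fxH F N hN θ : Subgroup (G ⧸ F)), (y : G ⧸ F) = s * x * s⁻¹ → μ y = μ x := by
    intro s hs x y hxy
    obtain ⟨g, rfl⟩ := QuotientGroup.mk_surjective s
    have hgI : g ∈ fxG N hN θ := (hmK g).1 (hR'K hs)
    obtain ⟨f, hfb, hf⟩ := he_cj L hL (fxG N hN θ) g hgI
    obtain ⟨k, hk⟩ := QuotientGroup.mk_surjective (x : G ⧸ F)
    have hkL : k ∈ L := (hmL k).2 (by rw [hk]; exact x.2.1)
    have hkI : k ∈ fxG N hN θ := (hmK k).1 (by rw [hk]; exact x.2.2)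
    have h0 := Fintype.ofFinite ((fxG N hN θ).subgroupOf L)
    have h0' := Fintype.ofFinite N
    obtain ⟨κ, hκ⟩ : ∃ κ : N →* (fxG N hN θ).subgroupOf L, ∀ x, ((κ x : L) : G) = x :=
      ⟨{ toFun := fun x => ⟨⟨x, hNL x.2⟩, hF (hNF x.2)⟩
         map_one' := rfl
         map_mul' := fun _ _ => rfl }, fun _ => rfl⟩
    have h1 : w.comp f ⟨⟨k, hkL⟩, hkI⟩ = w ⟨⟨k, hkL⟩, hkI⟩ := by
      refine cancel κ η hη ?_ (w.comp f) w (fun x => ?_) (fun x => hw1 (κ x) x (hκ x))
        (fun t => ?_) _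
      · have h2 : (fun x => η (κ x)) = θ := by
          funext x
          exact hηθ (κ x) x (hκ x)
        rw [h2]
        exact hθ
      · exact hw1 (f (κ x)) ⟨g * x * g⁻¹, hN.conj_mem x x.2 g⟩ (by rw [hf, hκ])
      · have h2 := hψ2 g (hR'ψ g hs) hgI t (f t) (hf t)
        rw [hηc g hgI t (f t) (hf t)] at h2
        exact h2
    have h2 : w ⟨⟨k, hkL⟩, hkI⟩ = μ x := hw ⟨⟨k, hkL⟩, hkI⟩ x hk.symm
    have h3 : w (f ⟨⟨k, hkL⟩, hkI⟩) = μ y := by
      refine hw (f ⟨⟨k, hkL⟩, hkI⟩) y ?_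
      rw [hf, hxy, ← hk]
      rfl
    rw [← h2, ← h3]
    exact h1
  refine ⟨(l : G ⧸ F) • R, hR'K, fun c hc hcK => ?_⟩
  have h1 := hμ r hr ((l : G ⧸ F) • R) hR'K hμ'
  refine cp_fix hA ((l : G ⧸ F) • R : Sylow r (G ⧸ F)).toSubgroup (ar_cop hAR _) c ?_ ?_
  · rw [← ar_cm hA hAR]
    exact hc
  · intro s hs
    exact h1 s hs c (cm_le hA r hc) hcK

/-- (hg, size 3) The low character. PROOF. `ψ` from `low_psi`, `χ` from `clif`. If `r` does not divide `χ 1`
then it does not divide the index of `fxG L hL ψ ≥ L ≥ F`, so the image of this group in `G ⧸ F` has an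
index prime to `r` and contains a Sylow `r`-subgroup (`syl_in`). -/
theorem lowchar {G : Type} [Group G] [Finite G] (F : Subgroup G) [F.Normal]
    {A : Subgroup (G ⧸ F)} (hA : Ab A) (N : Subgroup G) (hN : N.Normal) (hNF : N ≤ F)
    (hcop : (Nat.card N).Coprime N.index) (θ : N → ℂ) (hθ : θ ∈ Irr N)
    (hF : F ≤ fxG N hN θ) (B : Set ℕ) (hB : ∀ r ∈ B, AR A r) :
    ∃ χ ∈ Irr G, ∃ d : ℕ, χ 1 = d ∧ (∃ m : ℕ, (d : ℂ) = (m : ℂ) * θ 1) ∧ ∀ r ∈ B, r ∣ d ∨
      ∃ R : Sylow r (G ⧸ F), (R : Subgroup (G ⧸ F)) ≤ fxH F N hN θ ∧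
        ∀ c ∈ cm A r, c ∈ fxH F N hN θ → c = 1 := by
  have hfin : Fintype G := Fintype.ofFinite G
  have hLn : (A.comap (QuotientGroup.mk' F)).Normal := hA.nor.comap _
  obtain ⟨ψ, hψ, ⟨m1, hm1⟩, hR⟩ := low_psi F hA N hN hNF hcop θ hθ hF B hB
    (A.comap (QuotientGroup.mk' F)) hLn rfl
  obtain ⟨χ, hχ, m2, hm2⟩ := clif (A.comap (QuotientGroup.mk' F)) hLn ψ hψ
  obtain ⟨d, hd0, hd⟩ := irr_deg hχ
  obtain ⟨e, he0, he⟩ := irr_deg hψ
  refine ⟨χ, hχ, d, hd, ⟨m2 * (fxG (A.comap (QuotientGroup.mk' F)) hLn ψ).index * m1, ?_⟩, ?_⟩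
  · rw [← hd, hm2, hm1]
    push_cast
    ring
  · intro r hr
    by_cases hrd : r ∣ d
    · exact Or.inl hrd
    right
    apply hR r hr
    have hdvd : (fxG (A.comap (QuotientGroup.mk' F)) hLn ψ).index ∣ d := by
      refine ⟨m2 * e, ?_⟩
      have h1 : (d : ℂ) = ((fxG (A.comap (QuotientGroup.mk' F)) hLn ψ).index : ℂ) *
          ((m2 : ℂ) * (e : ℂ)) := by
        rw [← hd, hm2, he]
        ring
      exact_mod_cast h1
    have hfL : ∀ l ∈ A.comap (QuotientGroup.mk' F), l ∈ fxG (A.comap (QuotientGroup.mk' F)) hLn ψ := by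
      intro l hl x y hxy
      apply irr_conj hψ
      refine (isConj_iff.2 ⟨⟨l, hl⟩, ?_⟩).symm
      apply Subtype.ext
      exact hxy.symm
    have hFL : F ≤ fxG (A.comap (QuotientGroup.mk' F)) hLn ψ := by
      intro g hg
      apply hfL
      rw [Subgroup.mem_comap]
      have : (QuotientGroup.mk' F) g = 1 := (QuotientGroup.eq_one_iff g).2 hg
      rw [this]
      exact A.one_mem
    have hidx : ((fxG (A.comap (QuotientGroup.mk' F)) hLn ψ).map (QuotientGroup.mk' F)).index ∣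
        (fxG (A.comap (QuotientGroup.mk' F)) hLn ψ).index :=
      Subgroup.index_map_dvd _ (QuotientGroup.mk'_surjective F)
    obtain ⟨R, hRle⟩ := syl_in r (hB r hr).prime
      ((fxG (A.comap (QuotientGroup.mk' F)) hLn ψ).map (QuotientGroup.mk' F))
      (fun h => hrd (h.trans (hidx.trans hdvd)))
    refine ⟨R, fun g hg => ?_⟩
    obtain ⟨g', hg', hgg⟩ := hRle hg
    have h2 : g'⁻¹ * g ∈ F := QuotientGroup.eq.1 hgg
    have h3 : g = g' * (g'⁻¹ * g) := by group
    rw [h3]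
    exact mul_mem hg' (hFL h2)

/-- A character of norm one is irreducible. -/
private theorem hh_irr {G V : Type} [Group G] [Fintype G] [AddCommGroup V] [Module ℂ V]
    [FiniteDimensional ℂ V] (σ : Representation ℂ G V)
    (h : ∑ g, σ.character g * σ.character g⁻¹ = (Nat.card G : ℂ)) : σ.character ∈ Irr G := by
  have hN : (Nat.card G : ℂ) ≠ 0 := by
    exact_mod_cast Nat.card_pos.ne'
  have : Invertible (Nat.card G : ℂ) := invertibleOfNonzero hN
  have hk : ∀ θ ∈ Irr G, ∃ k : ℕ, ∑ g, σ.character g * θ g⁻¹ = (Nat.card G : ℂ) * k := by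
    rintro θ ⟨n, ρ, hρ, rfl⟩
    refine ⟨Module.finrank ℂ (Representation.IntertwiningMap ρ σ), ?_⟩
    rw [← Representation.card_inv_mul_sum_char_mul_char_eq_finrank ρ σ, mul_inv_cancel_left₀ hN]
  choose! k hk using hk
  have hinv : ∀ f f' : G → ℂ, ∑ g, f g⁻¹ * f' g = ∑ g, f' g * f g⁻¹ := fun f f' =>
    Finset.sum_congr rfl fun g _ => mul_comm _ _
  have hinv2 : ∀ f f' : G → ℂ, ∑ g, f g⁻¹ * f' g = ∑ g, f g * f' g⁻¹ := fun f f' => by
    rw [← Equiv.sum_comp (Equiv.inv G)]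
    simp
  have h0 := ColA_main (fun g => σ.character g - ∑ θ ∈ irrF G, (k θ : ℂ) * θ g) (by
    intro g g' hgg
    obtain ⟨c, rfl⟩ := isConj_iff.1 hgg
    rw [Representation.char_conj]
    congr 1
    refine Finset.sum_congr rfl fun θ hθ => ?_
    rw [Col_class (mem_irrF.1 hθ) hgg]) (by
    intro ψ hψ
    have h1 : ∑ g, (σ.character g⁻¹ - ∑ θ ∈ irrF G, (k θ : ℂ) * θ g⁻¹) * ψ g =
        ∑ g, σ.character g⁻¹ * ψ g - ∑ θ ∈ irrF G, (k θ : ℂ) * ∑ g, θ g⁻¹ * ψ g := by
      simp only [sub_mul, Finset.sum_sub_distrib, Finset.sum_mul, Finset.mul_sum]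
      rw [Finset.sum_comm]
      congr 1
      refine Finset.sum_congr rfl fun θ _ => Finset.sum_congr rfl fun g _ => by ring
    rw [h1, hinv2, hk ψ hψ]
    have h2 : ∑ θ ∈ irrF G, (k θ : ℂ) * ∑ g, θ g⁻¹ * ψ g = (k ψ : ℂ) * (Nat.card G : ℂ) := by
      rw [Finset.sum_eq_single_of_mem ψ (mem_irrF.2 hψ)]
      · rw [hinv2, (Col_row ψ ψ hψ hψ).1 rfl]
      · intro θ hθ hne
        rw [hinv2, (Col_row θ ψ (mem_irrF.1 hθ) hψ).2 hne, mul_zero]
    rw [h2]
    ring)
  have h1 : ∀ g, σ.character g = ∑ θ ∈ irrF G, (k θ : ℂ) * θ g := fun g =>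
    sub_eq_zero.1 (congrFun h0 g)
  have h2 : (Nat.card G : ℂ) * ((∑ θ ∈ irrF G, k θ * k θ : ℕ) : ℂ) = (Nat.card G : ℂ) := by
    have h3 : ∑ g, σ.character g * σ.character g⁻¹ =
        ∑ θ ∈ irrF G, (k θ : ℂ) * ∑ g, σ.character g * θ g⁻¹ := by
      calc ∑ g, σ.character g * σ.character g⁻¹ =
          ∑ g, ∑ θ ∈ irrF G, (k θ : ℂ) * (σ.character g * θ g⁻¹) :=
            Finset.sum_congr rfl fun g _ => by
              rw [h1 g⁻¹, Finset.mul_sum]
              exact Finset.sum_congr rfl fun θ _ => by ring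
        _ = ∑ θ ∈ irrF G, ∑ g, (k θ : ℂ) * (σ.character g * θ g⁻¹) := Finset.sum_comm
        _ = _ := Finset.sum_congr rfl fun θ _ => (Finset.mul_sum _ _ _).symm
    have h4 : (Nat.card G : ℂ) * ((∑ θ ∈ irrF G, k θ * k θ : ℕ) : ℂ) =
        ∑ θ ∈ irrF G, (k θ : ℂ) * ∑ g, σ.character g * θ g⁻¹ := by
      push_cast
      rw [Finset.mul_sum]
      refine Finset.sum_congr rfl fun θ hθ => ?_
      rw [hk θ (mem_irrF.1 hθ)]
      ring
    rw [h4, ← h3, h]
  have h3 : ∑ θ ∈ irrF G, k θ * k θ = 1 := by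
    have h4 := mul_left_cancel₀ hN (h2.trans (mul_one _).symm)
    exact_mod_cast h4
  obtain ⟨θ0, hθ0, hk0⟩ : ∃ θ ∈ irrF G, k θ ≠ 0 := by
    by_contra hno
    push Not at hno
    rw [Finset.sum_eq_zero fun θ hθ => by rw [hno θ hθ, mul_zero]] at h3
    exact zero_ne_one h3
  have h5 := Finset.add_sum_erase (irrF G) (fun θ => k θ * k θ) hθ0
  rw [h3] at h5
  have h6 : 0 < k θ0 * k θ0 := Nat.mul_pos (Nat.pos_of_ne_zero hk0) (Nat.pos_of_ne_zero hk0)
  have h7 : k θ0 * k θ0 = 1 := by omega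
  have h8 : ∑ θ ∈ (irrF G).erase θ0, k θ * k θ = 0 := by omega
  have h9 : k θ0 = 1 := Nat.eq_one_of_mul_eq_one_left h7
  have h10 : ∀ θ ∈ (irrF G).erase θ0, k θ = 0 := fun θ hθ => by
    have := (Finset.sum_eq_zero_iff.1 h8) θ hθ
    exact mul_self_eq_zero.1 this
  have h11 : σ.character = θ0 := by
    funext g
    rw [h1 g, Finset.sum_eq_single_of_mem θ0 hθ0]
    · rw [h9]
      simp
    · intro θ hθ hne
      rw [h10 θ (Finset.mem_erase.2 ⟨hne, hθ⟩)]
      simp
  rw [h11]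
  exact mem_irrF.1 hθ0

/-- Products of characters are characters. -/
private theorem hh_char {M ι : Type} [Group M] (T : Finset ι) (P : ι → Type)
    [∀ i, Group (P i)] (s : ∀ i, P i → ℂ) (hs : ∀ i, s i ∈ Irr (P i)) (p : ∀ i, M →* P i) :
    ∃ (V : Type) (_ : AddCommGroup V) (_ : Module ℂ V) (_ : FiniteDimensional ℂ V)
      (σ : Representation ℂ M V), ∀ x, σ.character x = ∏ i ∈ T, s i (p i x) := by
  induction T using Finset.induction with
  | empty =>
    refine ⟨ℂ, inferInstance, inferInstance, inferInstance, Representation.trivial ℂ M ℂ,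
      fun x => ?_⟩
    rw [Finset.prod_empty]
    show LinearMap.trace ℂ ℂ ((Representation.trivial ℂ M ℂ) x) = 1
    have h1 : (Representation.trivial ℂ M ℂ) x = (1 : Module.End ℂ ℂ) := rfl
    rw [h1, LinearMap.trace_one, Module.finrank_self, Nat.cast_one]
  | insert j T hj ih =>
    obtain ⟨V, i1, i2, i3, σ, hσ⟩ := ih
    obtain ⟨n, ρ, -, hρ⟩ := hs j
    have h1 := Representation.char_tensor (MonoidHom.comp ρ (p j) : Representation ℂ M (Fin n → ℂ)) σ
    refine ⟨TensorProduct ℂ (Fin n → ℂ) V, inferInstance, inferInstance, inferInstance,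
      Representation.tprod (MonoidHom.comp ρ (p j) : Representation ℂ M (Fin n → ℂ)) σ,
      fun x => ?_⟩
    rw [h1, Pi.mul_apply, hσ, Finset.prod_insert hj]
    congr 1
    exact congrFun hρ (p j x)

/-- (hh, size 5) Product characters. PROOF. The `P i` commute elementwise and
`Subgroup.noncommPiCoprod` is an isomorphism of `∀ i, P i` onto `⨆ i, P i` (independence:
`Subgroup.independent_of_coprime_order`). `θ x = ∏ i, s i (x i)` where `x i` is the component. This is the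
character of a representation: induction on the number of the factors, or: the product of the characters
`s i ∘ (projection)` is a character (tensor product of representations; `Representation.tprod`), and its norm
`∑ x, θ x θ x⁻¹ = ∏ i, ∑ (y : P i), s i y s i y⁻¹ = |⨆ P i|` (`Col_row`), so it is irreducible. (With two factors:
`H₁ × H₂`, induction on `Finset`.) `θ 1 = ∏ i, s i 1`. If `g` fixes all `s i` then it fixes `θ`
(conjugation by `g` maps the component of `x` in `P i` to the component of `g x g⁻¹`). If `g` fixes `θ`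
then it fixes `s i`: for `x ∈ P i` `θ x = s i x * ∏ j ≠ i, s j 1`. -/
theorem prodchar {G : Type} [Group G] [Finite G] {ι : Type} [Finite ι] (P : ι → Subgroup G)
    (hn : ∀ i, (P i).Normal) (hc : ∀ i j, i ≠ j → (Nat.card (P i)).Coprime (Nat.card (P j)))
    (s : ∀ i, P i → ℂ) (hs : ∀ i, s i ∈ Irr (P i)) (hN : (⨆ i, P i).Normal) :
    ∃ θ ∈ Irr (⨆ i, P i : Subgroup G), (∀ i, ∃ m : ℕ, θ 1 = (m : ℂ) * s i 1) ∧
      ∀ g : G, g ∈ fxG (⨆ i, P i) hN θ ↔ ∀ i, g ∈ fxG (P i) (hn i) (s i) := by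
  have := Fintype.ofFinite ι
  have := Fintype.ofFinite G
  have hcomm : Pairwise fun i j : ι => ∀ x y : G, x ∈ P i → y ∈ P j → Commute x y := by
    intro i j hij x y hx hy
    have h1 : Disjoint (P i) (P j) := Subgroup.disjoint_of_coprime_natCard (hc i j hij)
    exact Subgroup.commute_of_normal_of_disjoint (P i) (P j) (hn i) (hn j) h1 x y hx hy
  have hind : iSupIndep P := Subgroup.independent_of_coprime_order hcomm fun i j hij => by
    have h1 := hc i j hij
    rwa [Nat.card_eq_fintype_card, Nat.card_eq_fintype_card] at h1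
  let f : (∀ i, P i) →* G := Subgroup.noncommPiCoprod hcomm
  have hfinj : Function.Injective f := Subgroup.injective_noncommPiCoprod_of_iSupIndep hind
  have hfr : f.range = ⨆ i, P i := Subgroup.noncommPiCoprod_range
  let F : (∀ i, P i) →* (⨆ i, P i : Subgroup G) := f.codRestrict _ fun y => by
    rw [← hfr]
    exact ⟨y, rfl⟩
  have hFv : ∀ y, ((F y : (⨆ i, P i : Subgroup G)) : G) = f y := fun _ => rfl
  have hFbij : Function.Bijective F := by
    constructor
    · intro y y' h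
      exact hfinj (congrArg Subtype.val h)
    · rintro ⟨x, hx⟩
      rw [← hfr] at hx
      obtain ⟨y, rfl⟩ := hx
      exact ⟨y, rfl⟩
  let e : (∀ i, P i) ≃* (⨆ i, P i : Subgroup G) := MulEquiv.ofBijective F hFbij
  have hev : ∀ y, ((e y : (⨆ i, P i : Subgroup G)) : G) = f y := fun _ => rfl
  have hsingle : ∀ i (x : P i), f (Pi.mulSingle i x) = x := fun i x =>
    Subgroup.noncommPiCoprod_mulSingle i x
  let p : ∀ i, (⨆ i, P i : Subgroup G) →* P i := fun i =>
    (Pi.evalMonoidHom (fun i => P i) i).comp e.symm.toMonoidHom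
  have hp : ∀ y i, p i (e y) = y i := fun y i => by
    show (e.symm (e y)) i = y i
    rw [e.symm_apply_apply]
  obtain ⟨V, i1, i2, i3, σ, hσ⟩ := hh_char Finset.univ (fun i => P i) s hs p
  have hσe : ∀ y, σ.character (e y) = ∏ i, s i (y i) := fun y => by
    rw [hσ]
    exact Finset.prod_congr rfl fun i _ => by rw [hp]
  have hirr : σ.character ∈ Irr (⨆ i, P i : Subgroup G) := by
    apply hh_irr
    rw [← Equiv.sum_comp e.toEquiv, ← Nat.card_congr e.toEquiv, Nat.card_pi]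
    have h1 : ∀ y : (∀ i, P i), σ.character (e.toEquiv y) * σ.character (e.toEquiv y)⁻¹ =
        ∏ i, s i (y i) * s i (y i)⁻¹ := by
      intro y
      have h2 : (e.toEquiv y)⁻¹ = e y⁻¹ := (map_inv e y).symm
      rw [h2, Finset.prod_mul_distrib]
      exact congrArg₂ (· * ·) (hσe y) (hσe y⁻¹)
    have h5 := Finset.prod_univ_sum (fun i => (Finset.univ : Finset (P i)))
      (fun i (y : P i) => s i y * s i y⁻¹)
    rw [Fintype.piFinset_univ] at h5
    rw [Finset.sum_congr rfl fun y _ => h1 y, Nat.cast_prod]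
    refine h5.symm.trans ?_
    exact Finset.prod_congr rfl fun i _ => (Col_row (s i) (s i) (hs i) (hs i)).1 rfl
  have hdeg : ∀ i, ∃ n : ℕ, 0 < n ∧ s i 1 = n := fun i => irr_deg (hs i)
  choose d hd0 hd using hdeg
  have hrest : ∀ i (x : P i), ∏ j, s j ((Pi.mulSingle i x : ∀ i, P i) j) =
      s i x * ∏ j ∈ Finset.univ.erase i, (d j : ℂ) := by
    intro i x
    rw [← Finset.mul_prod_erase _ _ (Finset.mem_univ i), Pi.mulSingle_eq_same]
    congr 1
    refine Finset.prod_congr rfl fun j hj => ?_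
    rw [Pi.mulSingle_eq_of_ne (Finset.ne_of_mem_erase hj), hd]
  refine ⟨σ.character, hirr, fun i => ⟨∏ j ∈ Finset.univ.erase i, d j, ?_⟩, fun g => ⟨?_, ?_⟩⟩
  · have h1 := hσe 1
    rw [map_one] at h1
    rw [h1]
    have h2 := hrest i 1
    rw [Pi.mulSingle_one] at h2
    rw [h2, mul_comm]
    push_cast
    rfl
  · intro hg i x y hxy
    have hmem : ∀ x : P i, ((e (Pi.mulSingle i x) : (⨆ i, P i : Subgroup G)) : G) = x := fun x => by
      rw [hev, hsingle]
    have h1 := hg (e (Pi.mulSingle i x)) (e (Pi.mulSingle i y)) (by rw [hmem, hmem, hxy])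
    rw [hσe, hσe, hrest, hrest] at h1
    refine mul_right_cancel₀ ?_ h1
    exact Finset.prod_ne_zero_iff.2 fun j _ => Nat.cast_ne_zero.2 (hd0 j).ne'
  · intro hg x y hxy
    obtain ⟨u, rfl⟩ := e.surjective x
    obtain ⟨v, rfl⟩ := e.surjective y
    rw [hσe, hσe]
    let c : (∀ i, P i) →* (∀ i, P i) :=
      { toFun := fun w i => ⟨g * w i * g⁻¹, (hn i).conj_mem _ (w i).2 g⟩
        map_one' := by
          funext i
          apply Subtype.ext
          show g * 1 * g⁻¹ = 1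
          group
        map_mul' := fun w w' => by
          funext i
          apply Subtype.ext
          show g * (w i * w' i) * g⁻¹ = g * w i * g⁻¹ * (g * w' i * g⁻¹)
          group }
    have hc : f.comp c = (MulAut.conj g).toMonoidHom.comp f := by
      apply MonoidHom.pi_ext
      intro i x
      have h1 : c (Pi.mulSingle i x) = Pi.mulSingle i ⟨g * x * g⁻¹, (hn i).conj_mem _ x.2 g⟩ := by
        funext j
        by_cases hj : j = i
        · subst hj
          rw [Pi.mulSingle_eq_same]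
          apply Subtype.ext
          show g * ((Pi.mulSingle j x : ∀ i, P i) j : G) * g⁻¹ = g * x * g⁻¹
          rw [Pi.mulSingle_eq_same]
        · rw [Pi.mulSingle_eq_of_ne hj]
          apply Subtype.ext
          show g * ((Pi.mulSingle i x : ∀ i, P i) j : G) * g⁻¹ = 1
          rw [Pi.mulSingle_eq_of_ne hj]
          show g * 1 * g⁻¹ = 1
          group
      show f (c (Pi.mulSingle i x)) = g * f (Pi.mulSingle i x) * g⁻¹
      rw [h1, hsingle, hsingle]
    have h2 : f v = f (c u) := by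
      have h3 : f (c u) = g * f u * g⁻¹ := DFunLike.congr_fun hc u
      rw [h3]
      exact hxy
    have h4 : v = c u := hfinj h2
    rw [h4]
    exact Finset.prod_congr rfl fun i _ => hg i (u i) _ rfl

/-- an endomorphism of finite order with the trace of the identity is the identity -/
private theorem hi_tr {V : Type} [AddCommGroup V] [Module ℂ V] [FiniteDimensional ℂ V]
    (f : Module.End ℂ V) (n : ℕ) (hn : 0 < n) (hf : f ^ n = 1)
    (ht : LinearMap.trace ℂ V f = LinearMap.trace ℂ V 1) : f = 1 := by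
  classical
  have hn0 : (n : ℂ) ≠ 0 := by exact_mod_cast hn.ne'
  have hss : f.IsSemisimple := by
    apply Module.End.isSemisimple_of_squarefree_aeval_eq_zero
      (p := (Polynomial.X ^ n - 1 : Polynomial ℂ))
    · exact (Polynomial.X_pow_sub_one_separable_iff.2 hn0).squarefree
    · simp [hf]
  have htop := hss.iSup_eigenspace_eq_top
  have hind := f.eigenspaces_iSupIndep
  have hint : DirectSum.IsInternal (fun μ : ℂ => f.eigenspace μ) :=
    (DirectSum.isInternal_submodule_iff_iSupIndep_and_iSup_eq_top _).2 ⟨hind, htop⟩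
  have hN : {μ : ℂ | f.eigenspace μ ≠ ⊥}.Finite :=
    WellFoundedGT.finite_ne_bot_of_iSupIndep hind
  have hmf : ∀ μ : ℂ, Set.MapsTo f (f.eigenspace μ) (f.eigenspace μ) := by
    intro μ v hv
    rw [SetLike.mem_coe, Module.End.mem_eigenspace_iff] at hv ⊢
    rw [hv, map_smul, hv]
  have hm1 : ∀ μ : ℂ, Set.MapsTo (1 : Module.End ℂ V) (f.eigenspace μ) (f.eigenspace μ) := by
    intro μ v hv
    exact hv
  rw [LinearMap.trace_eq_sum_trace_restrict' hint hN hmf,
    LinearMap.trace_eq_sum_trace_restrict' hint hN hm1] at ht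
  have hroot : ∀ μ : ℂ, f.eigenspace μ ≠ ⊥ → ‖μ‖ = 1 := by
    intro μ hμ
    obtain ⟨v, hv, hv0⟩ := Submodule.exists_mem_ne_zero_of_ne_bot hμ
    rw [Module.End.mem_eigenspace_iff] at hv
    have hpow : ∀ k : ℕ, (f ^ k) v = μ ^ k • v := by
      intro k
      induction k with
      | zero => simp
      | succ k ih => rw [pow_succ', Module.End.mul_apply, ih, map_smul, hv, smul_smul, pow_succ]
    have hμn : μ ^ n = 1 := by
      have h1 := hpow n
      rw [hf] at h1
      have h2 : (μ ^ n - 1) • v = 0 := by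
        rw [sub_smul, ← h1]; simp
      rcases smul_eq_zero.1 h2 with h3 | h3
      · exact sub_eq_zero.1 h3
      · exact absurd h3 hv0
    exact Complex.norm_eq_one_of_pow_eq_one hμn hn.ne'
  have e1 : ∀ μ, LinearMap.trace ℂ (f.eigenspace μ) (f.restrict (hmf μ)) =
      μ * (Module.finrank ℂ (f.eigenspace μ) : ℂ) := by
    intro μ
    have h1 : f.restrict (hmf μ) = μ • LinearMap.id := by
      ext ⟨w, hw⟩
      rw [Module.End.mem_eigenspace_iff] at hw
      exact hw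
    rw [h1, map_smul, LinearMap.trace_id, smul_eq_mul]
  have e2 : ∀ μ, LinearMap.trace ℂ (f.eigenspace μ)
      ((1 : Module.End ℂ V).restrict (hm1 μ)) = (Module.finrank ℂ (f.eigenspace μ) : ℂ) := by
    intro μ
    have h1 : (1 : Module.End ℂ V).restrict (hm1 μ) = LinearMap.id := by
      ext ⟨w, hw⟩
      rfl
    rw [h1, LinearMap.trace_id]
  simp only [e1, e2] at ht
  have h3 : ∑ μ ∈ hN.toFinset, (1 - μ.re) * (Module.finrank ℂ (f.eigenspace μ) : ℝ) = 0 := by
    have h4 := congrArg Complex.re ht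
    rw [Complex.re_sum, Complex.re_sum] at h4
    simp only [Complex.mul_re, Complex.natCast_re, Complex.natCast_im, mul_zero, sub_zero] at h4
    simp only [sub_mul, one_mul, Finset.sum_sub_distrib]
    linarith
  have hle : ∀ μ : ℂ, ‖μ‖ = 1 → 0 ≤ 1 - μ.re := by
    intro μ h4
    have := Complex.re_le_norm μ
    rw [h4] at this
    linarith
  have h5 : ∀ μ ∈ hN.toFinset, μ = 1 := by
    intro μ hμ
    have h6 := (Finset.sum_eq_zero_iff_of_nonneg (fun ν hν => ?_)).1 h3 μ hμ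
    · rw [Set.Finite.mem_toFinset] at hμ
      have h7 : (Module.finrank ℂ (f.eigenspace μ) : ℝ) ≠ 0 := by
        have : 0 < Module.finrank ℂ (f.eigenspace μ) := by
          have := (Submodule.nontrivial_iff_ne_bot (p := f.eigenspace μ)).2 hμ
          exact Module.finrank_pos
        exact_mod_cast this.ne'
      have h8 : μ.re = 1 := by
        rcases mul_eq_zero.1 h6 with h | h
        · linarith
        · exact absurd h h7
      have h9 := hroot μ hμ
      have h10 : μ.im = 0 := by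
        have h11 := Complex.sq_norm μ
        rw [h9, Complex.normSq_apply, h8] at h11
        have : μ.im * μ.im = 0 := by linarith
        exact mul_self_eq_zero.1 this
      exact Complex.ext (by rw [h8]; simp) (by rw [h10]; simp)
    · rw [Set.Finite.mem_toFinset] at hν
      exact mul_nonneg (hle ν (hroot ν hν)) (Nat.cast_nonneg _)
  have h6 : f.eigenspace 1 = ⊤ := by
    rw [eq_top_iff, ← htop]
    refine iSup_le fun μ => ?_
    by_cases hμ : f.eigenspace μ = ⊥
    · rw [hμ]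
      exact bot_le
    · rw [h5 μ (by rw [Set.Finite.mem_toFinset]; exact hμ)]
  ext v
  have h7 : v ∈ f.eigenspace 1 := by rw [h6]; exact Submodule.mem_top
  rw [Module.End.mem_eigenspace_iff, one_smul] at h7
  rw [h7]
  rfl

/-- (hi, size 2) PROOF. `N` acts trivially in the representation (the kernel of the character, compare
`Char_ker` in `Zst/CharB.lean`), so the representation factors through `T ⧸ N`, and it is irreducible there;
`Cdeg_dvd`. -/
theorem defl {T : Type} [Group T] [Finite T] (N : Subgroup T) [N.Normal] (χ : T → ℂ)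
    (hχ : χ ∈ Irr T) (h : ∀ x ∈ N, χ x = χ 1) (d : ℕ) (hd : χ 1 = d) : d ∣ N.index := by
  obtain ⟨n, ρ, hρ, rfl⟩ := hχ
  have hN : ∀ x ∈ N, ρ x = 1 := by
    intro x hx
    refine hi_tr (ρ x) (Nat.card T) Nat.card_pos ?_ ?_
    · rw [← map_pow, pow_card_eq_one', map_one]
    · have h2 : LinearMap.trace ℂ (Fin n → ℂ) (ρ x) = LinearMap.trace ℂ (Fin n → ℂ) (ρ 1) :=
        h x hx
      rw [h2, map_one ρ]
  let ρ' : Representation ℂ (T ⧸ N) (Fin n → ℂ) :=
    QuotientGroup.lift N (ρ : T →* Module.End ℂ (Fin n → ℂ)) hN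
  have hc : (ρ'.comp (QuotientGroup.mk' N) : Representation ℂ T (Fin n → ℂ)) = ρ := by
    ext x : 1
    rfl
  have hirr : ρ'.IsIrreducible :=
    (OrderIso.isSimpleOrder_iff (Inf_iso (QuotientGroup.mk' N)
      (QuotientGroup.mk'_surjective N) ρ')).1 (by rw [hc]; exact hρ)
  have hI : ρ'.character ∈ Irr (T ⧸ N) := ⟨n, ρ', hirr, rfl⟩
  have h1 : ρ'.character 1 = (d : ℂ) := by
    rw [← hd, Representation.char_one, Representation.char_one]
  have := Fintype.ofFinite (T ⧸ N)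
  exact Cdeg_dvd _ hI d h1

private theorem hj_lin {B : Type} [Group B] (η : B → ℂ) (hη : η ∈ Irr B) (h1 : η 1 = 1) :
    ∃ w : B →* ℂˣ, ∀ b, η b = ((w b : ℂˣ) : ℂ) := by
  obtain ⟨n, ρ, -, rfl⟩ := hη
  have hn : n = 1 := by
    rw [Representation.char_one] at h1
    simpa using h1
  subst hn
  let f : B →* ℂ := (LinearMap.det : Module.End ℂ (Fin 1 → ℂ) →* ℂ).comp ρ
  refine ⟨f.toHomUnits, fun b => ?_⟩
  rw [MonoidHom.coe_toHomUnits]
  change LinearMap.trace ℂ (Fin 1 → ℂ) (ρ b) = LinearMap.det (ρ b)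
  rw [← LinearMap.det_toMatrix', LinearMap.trace_eq_matrix_trace ℂ (Pi.basisFun ℂ (Fin 1))]
  rw [Matrix.trace_fin_one, Matrix.det_fin_one]
  rfl

private theorem hj_ab {B : Type} [Group B] (hc : ∀ x y : B, x * y = y * x) (θ : B → ℂ)
    (hθ : θ ∈ Irr B) : θ 1 = 1 := by
  obtain ⟨n, ρ, hρ, rfl⟩ := hθ
  have hs : ∀ b, ∃ c : ℂ, ρ b = c • (1 : Module.End ℂ (Fin n → ℂ)) := fun b =>
    schur ρ hρ (ρ b) fun a => by rw [← map_mul, ← map_mul, hc]
  have hnt := hρ.1
  obtain ⟨v, hv⟩ : ∃ v : Fin n → ℂ, v ≠ 0 := by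
    by_contra hcon
    push Not at hcon
    obtain ⟨a, b, hab⟩ := hnt
    apply hab
    apply Subrepresentation.toSubmodule_injective
    ext w
    rw [hcon w]
    simp
  let S : Subrepresentation ρ := ⟨Submodule.span ℂ {v}, fun b w hw => by
    obtain ⟨c, hc⟩ := hs b
    rw [hc]
    exact Submodule.smul_mem _ c hw⟩
  have hS : S = ⊤ := by
    rcases hρ.2 S with h | h
    · exfalso
      have h1 : v ∈ S.toSubmodule := Submodule.mem_span_singleton_self v
      rw [h] at h1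
      exact hv ((Submodule.mem_bot ℂ).1 h1)
    · exact h
  have h1 : Submodule.span ℂ {v} = ⊤ := congrArg Subrepresentation.toSubmodule hS
  have h2 := finrank_span_singleton (K := ℂ) hv
  rw [h1, finrank_top] at h2
  rw [Representation.char_one, h2, Nat.cast_one]

/-- (hj, size 4) A case of Ito's theorem. PROOF. `θ` = a constituent of the restriction to `P`
(`ClA_ex`), linear (`P` is abelian). `I = fxG P hP θ`, `χ = indc I ψ` for some `ψ ∈ Irr I` over `θ`
(`IndIB_ex` with `Y = {θ}`), `χ 1 = |G : I| ψ 1` (`Frb_one`), and `|G : I|` divides `|G : P|`. `cext` gives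
`η ∈ Irr I` which extends `θ`; `η 1 = 1`, so `η` is (the coercion of) a homomorphism `I → ℂˣ`. `η⁻¹ ψ` is
irreducible (`LinB_irr`), and it is constant on `P` (`ψ` restricted to `P` is `ψ 1 * θ`, `ClC_main`), so by `defl`
its degree `ψ 1` divides `|I : P|`, which is prime to `p`. -/
theorem ito {G : Type} [Group G] [Finite G] (p : ℕ) (hp : p.Prime) (P : Subgroup G)
    (hP : P.Normal) (hpg : IsPGroup p P) (hab : ∀ x ∈ P, ∀ y ∈ P, x * y = y * x)
    (hidx : ¬ p ∣ P.index) (χ : G → ℂ) (hχ : χ ∈ Irr G) (d : ℕ) (hd : χ 1 = d) : ¬ p ∣ d := by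
  let := Fintype.ofFinite G
  let := Fintype.ofFinite P
  have := Fact.mk hp
  obtain ⟨θ, hθ, hov⟩ := ClA_ex P.subtype (Subgroup.subtype_injective P) χ hχ
  have hθ1 : θ 1 = 1 := hj_ab (fun x y => Subtype.ext (hab x x.2 y y.2)) θ hθ
  obtain ⟨I, hI⟩ : ∃ I, I = fxG P hP θ := ⟨_, rfl⟩
  have hPI : P ≤ I := by
    rw [hI]
    intro g hg
    rw [mem_fxG]
    intro x y hxy
    have : y = x := by
      apply Subtype.ext
      rw [hxy, hab g hg x x.2, mul_inv_cancel_right]
    rw [this]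
  let := Fintype.ofFinite I
  let κ : P →* I := Subgroup.inclusion hPI
  have hκi : Function.Injective κ := Subgroup.inclusion_injective hPI
  have hκ : Nrm κ := by
    refine ⟨hκi, fun g x => ?_⟩
    refine ⟨⟨(g : G) * x * (g : G)⁻¹, hP.conj_mem x x.2 g⟩, ?_⟩
    apply Subtype.ext
    rfl
  have hmem : ∀ g, g ∈ I ↔ tw (Nrm.subtype P) g θ = θ := by
    intro g
    rw [hI]
    exact fxG_tw P hP θ g
  have hctx : Ctx (Nrm.subtype P) I κ {θ} := by
    refine ⟨hκ, fun a => rfl, ?_, ?_, ?_⟩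
    · rintro φ rfl
      exact hθ
    · rintro t φ rfl
      exact (hmem t).1 t.2
    · rintro g hg φ rfl h
      exact hg ((hmem g).2 h)
  obtain ⟨ψ, hψ, hψo, -, hψi⟩ := IndIB_ex hctx χ hχ θ rfl hov
  have hχ1 : χ 1 = (I.index : ℂ) * ψ 1 := by rw [← hψi, Frb_one]
  have hinv : ∀ g : I, tw hκ g θ = θ := by
    intro g
    have h1 := hctx.tw_eq g θ
    rw [(hmem g).1 g.2] at h1
    exact h1
  have hrel : κ.range.index ∣ P.index := by
    have h1 : κ.range = P.subgroupOf I := by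
      ext x
      constructor
      · rintro ⟨y, rfl⟩
        exact y.2
      · intro hx
        exact ⟨⟨x, hx⟩, rfl⟩
    rw [h1]
    exact Dvd.intro _ (Subgroup.relIndex_mul_index hPI)
  have hcop : (Nat.card P).Coprime κ.range.index := by
    obtain ⟨k, hk⟩ := IsPGroup.iff_card.1 hpg
    rw [hk]
    exact Nat.Coprime.pow_left k ((hp.coprime_iff_not_dvd).2 fun h => hidx (h.trans hrel))
  obtain ⟨η, hη, hηθ⟩ := cext hκ hcop θ hθ hinv
  have hη1 : η 1 = 1 := by
    have := hηθ 1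
    rw [map_one] at this
    rw [this, hθ1]
  obtain ⟨w, hw⟩ := hj_lin η hη hη1
  obtain ⟨O, hO, hO1, hO2⟩ := ClC_main hκ ψ hψ θ hθ hψo
  have hOθ : O = {θ} := by
    ext θ'
    rw [hO, Finset.mem_singleton]
    constructor
    · rintro ⟨g, rfl⟩
      exact hinv g
    · rintro rfl
      exact ⟨1, hinv 1⟩
  have hres : ∀ x : P, ψ (κ x) = ψ 1 * θ x := by
    intro x
    rw [hO1, hO2, hOθ]
    simp [hθ1]
  have hψ' := LinB_irr w⁻¹ ψ hψ
  have := hκ.normal
  obtain ⟨e, he⟩ : ∃ e : ℕ, ψ 1 = e := by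
    obtain ⟨n, ρ, -, rfl⟩ := hψ
    exact ⟨n, by rw [Representation.char_one]; simp⟩
  have hdiv : e ∣ κ.range.index := by
    refine defl κ.range _ hψ' ?_ e ?_
    · rintro _ ⟨x, rfl⟩
      have h1 : ((w (κ x) : ℂˣ) : ℂ) = θ x := by rw [← hw, hηθ]
      rw [hres, ← h1]
      simp only [map_one, Units.val_one, one_mul, MonoidHom.inv_apply, Units.val_inv_eq_inv_val]
      have := Units.ne_zero (w (κ x))
      field_simp
    · simp [he]
  have hde : d = I.index * e := by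
    have : (d : ℂ) = (I.index : ℂ) * e := by rw [← hd, hχ1, he]
    exact_mod_cast this
  intro hpd
  rw [hde] at hpd
  rcases (hp.dvd_mul).1 hpd with h | h
  · exact hidx (h.trans (Dvd.intro_left _ (Subgroup.relIndex_mul_index hPI)))
  · exact hidx ((h.trans hdiv).trans hrel)

end Pool.Agent.Nan
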