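import Pool.Agent.Nan.Defs

/-! Coprime action: modules `ca` .. `cz`. -/

set_option autoImplicit false

namespace Pool.Agent.Nan

/-- (ca, size 1) An element which is fixed by all of `K` and whose norm is 1 is 1. PROOF. The norm of
a fixed element `d` is `d ^ |K|`; so `d ^ |K| = 1`, and `d ^ |D| = 1`, coprime. -/
theorem cp_one {K D : Type} [Group K] [Fintype K] [CommGroup D] [Finite D]
    [MulDistribMulAction K D] (hc : (Nat.card K).Coprime (Nat.card D)) (d : D)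
    (h1 : ∀ k : K, k • d = d) (h2 : ∏ k : K, k • d = 1) : d = 1 := by
  have h3 : d ^ Nat.card K = 1 := by
    rw [← h2, Finset.prod_congr rfl (fun k _ => h1 k), Finset.prod_const, Finset.card_univ,
      Nat.card_eq_fintype_card]
  have h4 : d ^ Nat.card D = 1 := pow_card_eq_one'
  have h5 := pow_gcd_eq_one.2 ⟨h3, h4⟩
  rwa [Nat.Coprime.gcd_eq_one hc, pow_one] at h5

/-- (ca, size 2) Every element is the product of a fixed element and an element of norm 1. PROOF.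
`N d = ∏ k, k • d` is fixed by `K` (reindex), `N` is a homomorphism. `m` with `m |K| = 1` modulo
`|D|`: `c = (N d) ^ m` is fixed, `e = c⁻¹ * d`, `N e = (N d) * (c ^ |K|)⁻¹ = 1`. -/
theorem cp_split {K D : Type} [Group K] [Fintype K] [CommGroup D] [Finite D]
    [MulDistribMulAction K D] (hc : (Nat.card K).Coprime (Nat.card D)) (d : D) :
    ∃ c e : D, d = c * e ∧ (∀ k : K, k • c = c) ∧ ∏ k : K, k • e = 1 := by
  have hN : ∀ k : K, k • (∏ k : K, k • d) = ∏ k : K, k • d := by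
    intro k
    have h1 := map_prod (MulDistribMulAction.toMonoidHom D k) (fun k : K => k • d) Finset.univ
    rw [MulDistribMulAction.toMonoidHom_apply] at h1
    rw [h1]
    refine Fintype.prod_equiv (Equiv.mulLeft k) _ _ fun x => ?_
    rw [MulDistribMulAction.toMonoidHom_apply, Equiv.coe_mulLeft, mul_smul]
  obtain ⟨c, hcN⟩ := (powCoprime hc.symm).surjective (∏ k : K, k • d)
  have hcN' : c ^ Nat.card K = ∏ k : K, k • d := hcN
  have hfix : ∀ k : K, k • c = c := by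
    intro k
    apply (powCoprime hc.symm).injective
    show (k • c) ^ Nat.card K = c ^ Nat.card K
    rw [← smul_pow', hcN', hN]
  refine ⟨c, c⁻¹ * d, by rw [mul_inv_cancel_left], hfix, ?_⟩
  have h2 : ∀ k : K, k • (c⁻¹ * d) = c⁻¹ * k • d := by
    intro k
    rw [smul_mul', smul_inv', hfix]
  rw [Finset.prod_congr rfl fun k _ => h2 k, Finset.prod_mul_distrib, Finset.prod_const,
    Finset.card_univ, ← Nat.card_eq_fintype_card, ← hcN', inv_pow, inv_mul_cancel]

private theorem cb_key {Γ D : Type} [Group Γ] [CommGroup D] [Finite D]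
    [MulDistribMulAction Γ D] (E : Subgroup Γ) [Fintype E]
    (hcop : (Nat.card E).Coprime (Nat.card D)) (d e : D) (hd : ∀ x ∈ E, x • d = d)
    (he : ∏ k : E, k • e = 1) (y : Γ) (hy : ∀ x ∈ E, ∀ z : D, x • y • z = y • x • z)
    (h : y • (d * e) = d * e) : y • d = d := by
  have h1 : ∏ k : E, k • (d * e) = d ^ Nat.card E := by
    have h2 : ∀ k : E, k • (d * e) = d * k • e := by
      intro k
      rw [smul_mul']
      congr 1
      exact hd k k.2
    rw [Finset.prod_congr rfl fun k _ => h2 k, Finset.prod_mul_distrib, he, mul_one,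
      Finset.prod_const, Finset.card_univ, Nat.card_eq_fintype_card]
  have h2 : y • ∏ k : E, k • (d * e) = ∏ k : E, k • (d * e) := by
    have h3 := map_prod (MulDistribMulAction.toMonoidHom D y) (fun k : E => k • (d * e)) Finset.univ
    rw [MulDistribMulAction.toMonoidHom_apply] at h3
    rw [h3]
    refine Finset.prod_congr rfl fun k _ => ?_
    rw [MulDistribMulAction.toMonoidHom_apply]
    show y • (k : Γ) • (d * e) = (k : Γ) • (d * e)
    rw [← hy k k.2, h]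
  rw [h1, smul_pow'] at h2
  exact (powCoprime hcop.symm).injective h2

/-- (cb, size 3) The selection lemma. PROOF. Take `d` for which the number of the `i` such that `K i`
moves `d` is maximal (finite: `Finset.exists_max_image` or induction). Suppose `K i` fixes `d`. By
`hnt` some `d'` is moved by `K i`; `d' = c * e` (`cp_split` for the group `K i`), `c` fixed by `K i`, `e`
of norm 1 (for `K i`); `e` is not fixed by `K i` (otherwise `d'` would be). Then `d * e` is moved by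
`K i`. If `K j` moves `d` (so `j ≠ i`) but fixes `d * e`: let `N` be the norm of `K i`; `N` commutes
with the action of `y ∈ K j` (`hcom`), so `y • N (d * e) = N (d * e)`, and
`N (d * e) = N d = d ^ |K i|`; so `(y • d) ^ |K i| = d ^ |K i|`, so `y • d = d` (coprime). -/
theorem sel {ι Γ D : Type} [Finite ι] [Group Γ] [Finite Γ] [CommGroup D] [Finite D]
    [MulDistribMulAction Γ D] (K : ι → Subgroup Γ)
    (hcop : ∀ i, (Nat.card (K i)).Coprime (Nat.card D))
    (hcom : ∀ i j, i ≠ j → ∀ x ∈ K i, ∀ y ∈ K j, ∀ d : D, x • y • d = y • x • d)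
    (hnt : ∀ i, ∃ x ∈ K i, ∃ d : D, x • d ≠ d) : ∃ d : D, ∀ i, ∃ x ∈ K i, x • d ≠ d := by
  classical
  set F : D → Set ι := fun d => {i | ∃ x ∈ K i, x • d ≠ d} with hF
  obtain ⟨d, hd⟩ := Finite.exists_max (fun d : D => (F d).ncard)
  refine ⟨d, fun i => ?_⟩
  by_contra hi
  push Not at hi
  obtain ⟨x0, hx0, d', hd'⟩ := hnt i
  haveI : Fintype (K i) := Fintype.ofFinite _
  obtain ⟨c, e, hce, hc, he⟩ := cp_split (K := K i) (hcop i) d'
  have he0 : x0 • e ≠ e := by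
    intro h
    apply hd'
    have h1 : x0 • c = c := hc ⟨x0, hx0⟩
    rw [hce, smul_mul', h1, h]
  have h1 : i ∈ F (d * e) := by
    refine ⟨x0, hx0, fun h => he0 ?_⟩
    rw [smul_mul', hi x0 hx0] at h
    exact mul_left_cancel h
  have h2 : F d ⊆ F (d * e) := by
    intro j hj
    by_contra h
    have h3 : ∀ y ∈ K j, y • (d * e) = d * e := by
      intro y hy
      by_contra h4
      exact h ⟨y, hy, h4⟩
    have hij : i ≠ j := by
      rintro rfl
      obtain ⟨x, hx, hx'⟩ := hj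
      exact hx' (hi x hx)
    obtain ⟨y, hy, hy'⟩ := hj
    exact hy' (cb_key (K i) (hcop i) d e hi he y (fun x hx z => hcom i j hij x hx y hy z) (h3 y hy))
  have h5 : (F d).ncard < (F (d * e)).ncard := by
    refine Set.ncard_lt_ncard ⟨h2, fun h => ?_⟩ (Set.toFinite _)
    obtain ⟨x, hx, hx'⟩ := h h1
    exact hx' (hi x hx)
  exact absurd (hd (d * e)) (not_le.2 h5)

/-- (cc, size 2) A group which acts as an abelian group, coprime: some element has the smallest
possible stabilizer. PROOF. Take `d` with the smallest number of `x` with `x • d = d`. Let `E` be the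
stabilizer of `d` (a subgroup). If some `x ∈ E` moves some `d'`: `d' = c * e` by `cp_split` for `E`,
`e` has norm 1 (for `E`) and is moved by some element of `E`. If `y` fixes `d * e` then `y` commutes
with the norm `N` of `E` (`hcomm`), `N (d * e) = N d = d ^ |E|`, so `y • d = d` (as in `sel`), so
`y ∈ E` and `y • e = e`. So the stabilizer of `d * e` is properly smaller. -/
theorem gen {Γ D : Type} [Group Γ] [Finite Γ] [CommGroup D] [Finite D] [MulDistribMulAction Γ D]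
    (hcop : (Nat.card Γ).Coprime (Nat.card D))
    (hcomm : ∀ x y : Γ, ∀ d : D, x • y • d = y • x • d) :
    ∃ d : D, ∀ x : Γ, x • d = d → ∀ e : D, x • e = e := by
  classical
  obtain ⟨d, hd⟩ := Finite.exists_min (fun d : D => {x : Γ | x • d = d}.ncard)
  refine ⟨d, ?_⟩
  by_contra hcon
  push Not at hcon
  obtain ⟨x0, hx0, d', hd'⟩ := hcon
  set E : Subgroup Γ := MulAction.stabilizer Γ d with hE
  haveI : Fintype E := Fintype.ofFinite _
  have hcopE : (Nat.card E).Coprime (Nat.card D) :=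
    Nat.Coprime.coprime_dvd_left (Subgroup.card_subgroup_dvd_card E) hcop
  obtain ⟨c, e, hce, hc, he⟩ := cp_split (K := E) hcopE d'
  have hx0E : x0 ∈ E := hx0
  have he0 : x0 • e ≠ e := by
    intro h
    apply hd'
    have h1 : x0 • c = c := hc ⟨x0, hx0E⟩
    rw [hce, smul_mul', h1, h]
  have h1 : {x : Γ | x • (d * e) = d * e} ⊆ {x : Γ | x • d = d} := by
    intro y hy
    exact cb_key E hcopE d e (fun x hx => hx) he y (fun x _ z => hcomm x y z) hy
  have h2 : {x : Γ | x • (d * e) = d * e}.ncard < {x : Γ | x • d = d}.ncard := by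
    refine Set.ncard_lt_ncard ⟨h1, fun h => he0 ?_⟩ (Set.toFinite _)
    have h3 : x0 • (d * e) = d * e := h hx0
    rw [smul_mul', hx0] at h3
    exact mul_left_cancel h3
  exact absurd (hd (d * e)) (not_le.2 h2)

section

variable {H : Type} [Group H] [Finite H]

private theorem cd_comm_le {A : Subgroup H} (hA : Ab A) (K : Subgroup H) : ⁅A, K⁆ ≤ A := by
  haveI := hA.nor
  exact Subgroup.commutator_le_left A K

private theorem cd_pow {A : Subgroup H} {n : ℕ} (hn : n.Coprime (Nat.card A)) {W : Subgroup H}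
    {c : H} (hc : c ∈ A) (h : c ^ n ∈ W) : c ∈ W := by
  have h1 : c ^ Nat.card A = 1 := by
    have h2 : (⟨c, hc⟩ : A) ^ Nat.card A = 1 := pow_card_eq_one'
    have h3 : (((⟨c, hc⟩ : A) ^ Nat.card A : A) : H) = 1 := by
      rw [h2]
      rfl
    rwa [Subgroup.coe_pow] at h3
  have h2 : c = (c ^ n) ^ (Nat.gcdA n (Nat.card A)) := by
    have h3 := Nat.gcd_eq_gcd_ab n (Nat.card A)
    rw [Nat.Coprime.gcd_eq_one hn] at h3
    calc c = c ^ ((1 : ℕ) : ℤ) := by simp
      _ = _ := by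
        rw [h3, zpow_add, zpow_mul, zpow_mul, zpow_natCast, zpow_natCast, h1, one_zpow, mul_one]
  rw [h2]
  exact W.zpow_mem h _

private theorem cd_root {A : Subgroup H} {n : ℕ} (hn : n.Coprime (Nat.card A)) {c : H}
    (hc : c ∈ A) : ∃ x : ℤ, (c ^ x) ^ n = c := by
  have h1 : c ^ Nat.card A = 1 := by
    have h2 : (⟨c, hc⟩ : A) ^ Nat.card A = 1 := pow_card_eq_one'
    have h3 : (((⟨c, hc⟩ : A) ^ Nat.card A : A) : H) = 1 := by
      rw [h2]
      rfl
    rwa [Subgroup.coe_pow] at h3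
  refine ⟨Nat.gcdA n (Nat.card A), ?_⟩
  have h3 := Nat.gcd_eq_gcd_ab n (Nat.card A)
  rw [Nat.Coprime.gcd_eq_one hn] at h3
  rw [← zpow_natCast, ← zpow_mul, mul_comm]
  calc c ^ ((n : ℤ) * Nat.gcdA n (Nat.card A))
      = c ^ ((n : ℤ) * Nat.gcdA n (Nat.card A) + (Nat.card A : ℤ) * Nat.gcdB n (Nat.card A)) := by
        rw [zpow_add, zpow_mul c (Nat.card A : ℤ), zpow_natCast, h1, one_zpow, mul_one]
    _ = c := by rw [← h3]; simp

open scoped commutatorElement in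
private theorem cd_norm {A : Subgroup H} (hA : Ab A) (K : Subgroup H) : ∃ N : H → H,
    (∀ a ∈ A, N a ∈ A) ∧ (∀ a ∈ A, ∀ b ∈ A, N (a * b) = N a * N b) ∧
    (∀ c ∈ A, (∀ s ∈ K, s * c * s⁻¹ = c) → N c = c ^ Nat.card K) ∧
    (∀ a ∈ A, ∀ s ∈ K, s * N a * s⁻¹ = N a) ∧
    (∀ W : Subgroup H, ∀ a ∈ A, (∀ s ∈ K, s * a * s⁻¹ ∈ W) → N a ∈ W) ∧
    (∀ a ∈ A, a ^ Nat.card K * (N a)⁻¹ ∈ ⁅A, K⁆) ∧ (∀ b ∈ ⁅A, K⁆, N b = 1) := by
  classical
  haveI : Fintype K := Fintype.ofFinite _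
  letI : CommGroup A := { (inferInstance : Group A) with
    mul_comm := fun a b => Subtype.ext (hA.com a a.2 b b.2) }
  let f : K → A →* A := fun s =>
    { toFun := fun a => ⟨s * a * (s : H)⁻¹, hA.nor.conj_mem a a.2 s⟩
      map_one' := Subtype.ext (by simp)
      map_mul' := fun a b => Subtype.ext (by simp [mul_assoc]) }
  have hf : ∀ (s : K) (a : A), ((f s a : A) : H) = s * a * (s : H)⁻¹ := fun _ _ => rfl
  let N' : A → A := fun a => ∏ s : K, f s a
  have hN' : ∀ a, N' a = ∏ s : K, f s a := fun _ => rfl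
  let N : H → H := fun a => if h : a ∈ A then (N' ⟨a, h⟩ : H) else 1
  have hN : ∀ a (h : a ∈ A), N a = (N' ⟨a, h⟩ : H) := fun a h => dif_pos h
  have n1 : ∀ a ∈ A, N a ∈ A := by
    intro a ha
    rw [hN a ha]
    exact (N' ⟨a, ha⟩).2
  have n2 : ∀ a ∈ A, ∀ b ∈ A, N (a * b) = N a * N b := by
    intro a ha b hb
    rw [hN a ha, hN b hb, hN _ (A.mul_mem ha hb), ← Subgroup.coe_mul]
    congr 1
    have e : (⟨a * b, A.mul_mem ha hb⟩ : A) = ⟨a, ha⟩ * ⟨b, hb⟩ := rfl
    rw [hN', hN', hN', ← Finset.prod_mul_distrib, e]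
    exact Finset.prod_congr rfl fun s _ => map_mul _ _ _
  have n3 : ∀ a ∈ A, ∀ s ∈ K, N (s * a * s⁻¹) = N a := by
    intro a ha s hs
    have hs' : s * a * s⁻¹ ∈ A := hA.nor.conj_mem a ha s
    rw [hN a ha, hN _ hs', hN', hN']
    congr 1
    refine Fintype.prod_equiv (Equiv.mulRight (⟨s, hs⟩ : K)) _ _ fun u => Subtype.ext ?_
    rw [hf, hf, Equiv.coe_mulRight, Subgroup.coe_mul]
    simp [mul_assoc]
  have n4 : ∀ c ∈ A, (∀ s ∈ K, s * c * s⁻¹ = c) → N c = c ^ Nat.card K := by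
    intro c hc h
    rw [hN c hc, hN']
    have e : ∀ s : K, f s ⟨c, hc⟩ = ⟨c, hc⟩ := fun s => Subtype.ext (h s s.2)
    rw [Finset.prod_congr rfl fun s _ => e s, Finset.prod_const, Finset.card_univ,
      Nat.card_eq_fintype_card]
    rfl
  have n5 : ∀ a ∈ A, ∀ s ∈ K, s * N a * s⁻¹ = N a := by
    intro a ha s hs
    rw [hN a ha]
    have h1 : f ⟨s, hs⟩ (N' ⟨a, ha⟩) = N' ⟨a, ha⟩ := by
      rw [hN', map_prod]
      refine Fintype.prod_equiv (Equiv.mulLeft (⟨s, hs⟩ : K)) _ _ fun u => Subtype.ext ?_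
      rw [hf, hf, hf, Equiv.coe_mulLeft, Subgroup.coe_mul]
      simp [mul_assoc]
    exact congrArg Subtype.val h1
  have n6 : ∀ W : Subgroup H, ∀ a ∈ A, (∀ s ∈ K, s * a * s⁻¹ ∈ W) → N a ∈ W := by
    intro W a ha h
    rw [hN a ha]
    have h1 : N' ⟨a, ha⟩ ∈ W.subgroupOf A := by
      rw [hN']
      refine Subgroup.prod_mem _ fun s _ => ?_
      rw [Subgroup.mem_subgroupOf, hf]
      exact h s s.2
    rwa [Subgroup.mem_subgroupOf] at h1
  have n7 : ∀ a ∈ A, a ^ Nat.card K * (N a)⁻¹ ∈ ⁅A, K⁆ := by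
    intro a ha
    rw [hN a ha]
    have h1 : (⟨a, ha⟩ : A) ^ Nat.card K * (N' ⟨a, ha⟩)⁻¹ ∈ ⁅A, K⁆.subgroupOf A := by
      have e : (⟨a, ha⟩ : A) ^ Nat.card K * (N' ⟨a, ha⟩)⁻¹ =
          ∏ s : K, (⟨a, ha⟩ : A) * (f s ⟨a, ha⟩)⁻¹ := by
        rw [Finset.prod_mul_distrib, Finset.prod_const, Finset.card_univ,
          Nat.card_eq_fintype_card, Finset.prod_inv_distrib]
      rw [e]
      refine Subgroup.prod_mem _ fun s _ => ?_
      rw [Subgroup.mem_subgroupOf]
      have h2 : ((⟨a, ha⟩ * (f s ⟨a, ha⟩)⁻¹ : A) : H) = ⁅a, (s : H)⁆ := by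
        rw [Subgroup.coe_mul, Subgroup.coe_inv, hf, commutatorElement_def]
        simp [mul_assoc]
      rw [h2]
      exact Subgroup.commutator_mem_commutator ha s.2
    rw [Subgroup.mem_subgroupOf] at h1
    exact h1
  have n0 : N 1 = 1 := by
    have h := n2 1 A.one_mem 1 A.one_mem
    rw [mul_one] at h
    exact (mul_eq_left.1 h.symm)
  have n8 : ∀ b ∈ ⁅A, K⁆, N b = 1 := by
    let Q : Subgroup H :=
      { carrier := {x | x ∈ A ∧ N x = 1}
        one_mem' := ⟨A.one_mem, n0⟩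
        mul_mem' := fun {x y} hx hy => ⟨A.mul_mem hx.1 hy.1, by
          rw [n2 x hx.1 y hy.1, hx.2, hy.2, mul_one]⟩
        inv_mem' := fun {x} hx => ⟨A.inv_mem hx.1, by
          have h := n2 x hx.1 x⁻¹ (A.inv_mem hx.1)
          rw [mul_inv_cancel, n0, hx.2, one_mul] at h
          exact h.symm⟩ }
    have hQ : ⁅A, K⁆ ≤ Q := by
      rw [Subgroup.commutator_le]
      intro a ha s hs
      have ha' := A.inv_mem ha
      have hs' : s * a⁻¹ * s⁻¹ ∈ A := hA.nor.conj_mem _ ha' s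
      have e : ⁅a, s⁆ = a * (s * a⁻¹ * s⁻¹) := by
        rw [commutatorElement_def]
        simp [mul_assoc]
      refine ⟨?_, ?_⟩
      · rw [e]
        exact A.mul_mem ha hs'
      · rw [e, n2 a ha _ hs', n3 _ ha' s hs, ← n2 a ha _ ha', mul_inv_cancel, n0]
    exact fun b hb => (hQ hb).2
  exact ⟨N, n1, n2, n4, n5, n6, n7, n8⟩

/-- (cd, size 2) PROOF. `A` is an abelian group, `K` acts on it by conjugation; use the norm
`N a = ∏ s ∈ K, s a s⁻¹` (product in `A`, which is commutative by `hA.com`; e.g. make a `CommGroup`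
instance on `↥A`), a homomorphism. `N` is 1 on every `⁅a, s⁆ = a * (s a s⁻¹)⁻¹`, so on `⁅A, K⁆`
(`Subgroup.commutator_le` / closure induction). Then `cp_one`. -/
theorem cp_fix {A : Subgroup H} (hA : Ab A) (K : Subgroup H)
    (hK : (Nat.card K).Coprime (Nat.card A)) (c : H) (hc : c ∈ ⁅A, K⁆)
    (h : ∀ s ∈ K, s * c * s⁻¹ = c) : c = 1 := by
  obtain ⟨N, h1, h2, h4, h5, h6, h7, h8⟩ := cd_norm hA K
  have hcA : c ∈ A := cd_comm_le hA K hc
  have h9 := h4 c hcA h
  rw [h8 c hc] at h9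
  have h10 := cd_pow hK (W := ⊥) hcA (by rw [Subgroup.mem_bot]; exact h9.symm)
  rwa [Subgroup.mem_bot] at h10

/-- (cd, size 3) PROOF. `N` as in `cp_fix`, `n = |K|`, `n m = 1` modulo `|A|`. `a ^ n * (N a)⁻¹ =
∏ s, a * (s a s⁻¹)⁻¹ ∈ ⁅A, K⁆`. `c = (N a) ^ m`, `b = c⁻¹ * a = (a ^ n * (N a)⁻¹) ^ m`. -/
theorem cp_dec {A : Subgroup H} (hA : Ab A) (K : Subgroup H)
    (hK : (Nat.card K).Coprime (Nat.card A)) (a : H) (ha : a ∈ A) :
    ∃ c ∈ A, ∃ b ∈ ⁅A, K⁆, a = c * b ∧ ∀ s ∈ K, s * c * s⁻¹ = c := by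
  obtain ⟨N, h1, h2, h4, h5, h6, h7, h8⟩ := cd_norm hA K
  obtain ⟨x, hx⟩ := cd_root hK (h1 a ha)
  set c : H := N a ^ x with hc
  have hcA : c ∈ A := A.zpow_mem (h1 a ha) x
  have hcf : ∀ s ∈ K, s * c * s⁻¹ = c := by
    intro s hs
    rw [hc, ← conj_zpow, h5 a ha s hs]
  refine ⟨c, hcA, c⁻¹ * a, ?_, by rw [mul_inv_cancel_left], hcf⟩
  refine cd_pow hK (A.mul_mem (A.inv_mem hcA) ha) ?_
  have hcom : Commute c⁻¹ a := hA.com _ (A.inv_mem hcA) a ha
  have hcom2 : Commute (N a)⁻¹ (a ^ Nat.card K) :=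
    hA.com _ (A.inv_mem (h1 a ha)) _ (A.pow_mem ha _)
  rw [hcom.mul_pow, inv_pow, hx, hcom2.eq]
  exact h7 a ha

/-- (cd, size 2) PROOF. `N` as in `cp_fix`: `N (b * c) = N b * c ^ n = c ^ n` is in `W` (a product of
elements `s (b c) s⁻¹` of `W`), so `c ∈ W` (`c = (c ^ n) ^ m`), so `b ∈ W`. `N b = 1` for `b ∈ ⁅A, K⁆`. -/
theorem cp_sub {A : Subgroup H} (hA : Ab A) (K : Subgroup H)
    (hK : (Nat.card K).Coprime (Nat.card A)) (W : Subgroup H) (hW : W ≤ A)
    (hinv : ∀ s ∈ K, ∀ x ∈ W, s * x * s⁻¹ ∈ W) (b c : H) (hb : b ∈ ⁅A, K⁆) (hc : c ∈ A)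
    (hcf : ∀ s ∈ K, s * c * s⁻¹ = c) (hbc : b * c ∈ W) : b ∈ W := by
  obtain ⟨N, h1, h2, h4, h5, h6, h7, h8⟩ := cd_norm hA K
  have hbA : b ∈ A := cd_comm_le hA K hb
  have h9 : N (b * c) ∈ W := h6 W _ (A.mul_mem hbA hc) fun s hs => hinv s hs _ hbc
  rw [h2 b hbA c hc, h8 b hb, one_mul, h4 c hc hcf] at h9
  have h10 : c ∈ W := cd_pow hK hc h9
  have h11 := W.mul_mem hbc (W.inv_mem h10)
  rwa [mul_inv_cancel_right] at h11

/-- (ce, size 3) The averaging lemma. PROOF. For `s ∈ T` choose `c s ∈ A` with `c s * s ∈ S`. For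
`s, u ∈ T`: `(c s * s) * (c u * u) = c s * (s * c u * s⁻¹) * (s * u)` and `c (s * u) * (s * u)` are in `S`, so
`c s * (s * c u * s⁻¹) * (c (s * u))⁻¹` is in `W = A ⊓ S`. Let `Q = ∏ u ∈ T, c u ∈ A` (product in the
abelian group `A`), `n = |T|`. Product over `u`: `c s ^ n * (s Q s⁻¹) * Q⁻¹ ∈ W`. With `n m = 1` modulo
`|A|` and `a = Q ^ m`: `w = a * (s a⁻¹ s⁻¹) * (c s)⁻¹ ∈ W`, and `a s a⁻¹ = a (s a⁻¹ s⁻¹) s = w * (c s * s) ∈ S`. -/
theorem tors {A : Subgroup H} (hA : Ab A) (T S : Subgroup H)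
    (hT : (Nat.card T).Coprime (Nat.card A)) (hN : ∀ s ∈ T, ∀ x ∈ A, x ∈ S → s * x * s⁻¹ ∈ S)
    (hS : ∀ s ∈ T, ∃ a ∈ A, a * s ∈ S) : ∃ a ∈ A, ∀ s ∈ T, a * s * a⁻¹ ∈ S := by
  classical
  haveI : Fintype T := Fintype.ofFinite _
  letI : CommGroup A := { (inferInstance : Group A) with
    mul_comm := fun a b => Subtype.ext (hA.com a a.2 b b.2) }
  let f : T → A →* A := fun s =>
    { toFun := fun a => ⟨s * a * (s : H)⁻¹, hA.nor.conj_mem a a.2 s⟩
      map_one' := Subtype.ext (by simp)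
      map_mul' := fun a b => Subtype.ext (by simp [mul_assoc]) }
  have hf : ∀ (s : T) (a : A), ((f s a : A) : H) = s * a * (s : H)⁻¹ := fun _ _ => rfl
  have hS' : ∀ s : T, ∃ a : A, (a : H) * s ∈ S := by
    intro s
    obtain ⟨a, ha, h⟩ := hS s s.2
    exact ⟨⟨a, ha⟩, h⟩
  choose c hc using hS'
  set Q : A := ∏ u : T, c u with hQ
  obtain ⟨x, hx⟩ := cd_root hT Q.2
  set a : A := Q ^ x with ha
  have han : a ^ Nat.card T = Q := by
    apply Subtype.ext
    rw [Subgroup.coe_pow, ha, Subgroup.coe_zpow]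
    exact hx
  refine ⟨a, a.2, fun s hs => ?_⟩
  set s' : T := ⟨s, hs⟩ with hs'
  have h1 : ∀ u : T, c s' * f s' (c u) * (c (s' * u))⁻¹ ∈ S.subgroupOf A := by
    intro u
    rw [Subgroup.mem_subgroupOf, Subgroup.coe_mul, Subgroup.coe_mul, Subgroup.coe_inv, hf]
    have h2 := S.mul_mem (S.mul_mem (hc s') (hc u)) (S.inv_mem (hc (s' * u)))
    rw [Subgroup.coe_mul] at h2
    have e : (c s' : H) * s' * ((c u : H) * u) * ((c (s' * u) : H) * (s' * u))⁻¹ =
        (c s' : H) * ((s' : H) * c u * (s' : H)⁻¹) * (c (s' * u) : H)⁻¹ := by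
      group
    rwa [e] at h2
  have h2 : ∏ u : T, (c s' * f s' (c u) * (c (s' * u))⁻¹) ∈ S.subgroupOf A :=
    Subgroup.prod_mem _ fun u _ => h1 u
  have h3 : ∏ u : T, (c s' * f s' (c u) * (c (s' * u))⁻¹) =
      (c s' * f s' a * a⁻¹) ^ Nat.card T := by
    rw [Finset.prod_mul_distrib, Finset.prod_mul_distrib, Finset.prod_const, Finset.card_univ,
      Finset.prod_inv_distrib, ← map_prod, mul_pow, mul_pow, inv_pow, ← map_pow, han,
      Nat.card_eq_fintype_card]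
    congr 2
    exact Fintype.prod_equiv (Equiv.mulLeft s') _ _ fun u => rfl
  rw [h3, Subgroup.mem_subgroupOf, Subgroup.coe_pow] at h2
  have h4 := cd_pow hT (c s' * f s' a * a⁻¹).2 h2
  have h5 := S.mul_mem (S.inv_mem h4) (hc s')
  rw [Subgroup.coe_mul, Subgroup.coe_mul, Subgroup.coe_inv, hf] at h5
  have h6 : (a : H) * (c s' : H)⁻¹ = (c s' : H)⁻¹ * a := hA.com _ a.2 _ (A.inv_mem (c s').2)
  have h7 : ((s' : H) * a * (s' : H)⁻¹)⁻¹ * (c s' : H)⁻¹ =
      (c s' : H)⁻¹ * ((s' : H) * a * (s' : H)⁻¹)⁻¹ :=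
    hA.com _ (A.inv_mem (hA.nor.conj_mem _ a.2 _)) _ (A.inv_mem (c s').2)
  have e : ((c s' : H) * ((s' : H) * a * (s' : H)⁻¹) * (a : H)⁻¹)⁻¹ * ((c s' : H) * s') =
      a * s * (a : H)⁻¹ := by
    rw [mul_inv_rev, mul_inv_rev, inv_inv, h7]
    have h8 : (a : H) * ((c s' : H)⁻¹ * ((s' : H) * a * (s' : H)⁻¹)⁻¹) * ((c s' : H) * s') =
        (a * (c s' : H)⁻¹) * ((s' : H) * a * (s' : H)⁻¹)⁻¹ * (c s' : H) * s' := by group
    have h9 : ((s' : H) * a * (s' : H)⁻¹)⁻¹ * (c s' : H) =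
        (c s' : H) * ((s' : H) * a * (s' : H)⁻¹)⁻¹ :=
      hA.com _ (A.inv_mem (hA.nor.conj_mem _ a.2 _)) _ (c s').2
    rw [h8, mul_assoc (a * (c s' : H)⁻¹), h9]
    have h10 : (s' : H) = s := rfl
    rw [h10]
    group
  rwa [e] at h5

private theorem cf_com (S : Finset ℕ) (R : ℕ → Subgroup H) (r : ℕ)
    (hcom : ∀ r' ∈ S, ∀ x ∈ R r, ∀ y ∈ R r', x * y = y * x) :
    ∀ x ∈ R r, ∀ y ∈ (⨆ r ∈ S, R r : Subgroup H), x * y = y * x := by
  intro x hx y hy
  have h1 : (⨆ r ∈ S, R r : Subgroup H) ≤ Subgroup.centralizer (R r : Set H) := by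
    refine iSup₂_le fun r' hr' => ?_
    intro y hy
    rw [Subgroup.mem_centralizer_iff]
    intro x hx
    exact hcom r' hr' x hx y hy
  exact Subgroup.mem_centralizer_iff.1 (h1 hy) x hx

private theorem cf_pair (A B : Subgroup H) (hcom : ∀ x ∈ A, ∀ y ∈ B, x * y = y * x) :
    ∃ f : A × B →* H, f.range = A ⊔ B ∧ ∀ p, f p = p.1 * p.2 := by
  have hc : ∀ (x : A) (y : B), Commute (A.subtype x) (B.subtype y) :=
    fun x y => hcom x x.2 y y.2
  refine ⟨MonoidHom.noncommCoprod A.subtype B.subtype hc, ?_, ?_⟩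
  · rw [MonoidHom.noncommCoprod_range, Subgroup.range_subtype, Subgroup.range_subtype]
  · intro p
    rfl

private theorem cf_dvd (A B : Subgroup H) (hcom : ∀ x ∈ A, ∀ y ∈ B, x * y = y * x) :
    Nat.card (A ⊔ B : Subgroup H) ∣ Nat.card A * Nat.card B := by
  obtain ⟨f, hf, -⟩ := cf_pair A B hcom
  rw [← hf, ← Nat.card_prod]
  exact Subgroup.card_dvd_of_surjective f.rangeRestrict f.rangeRestrict_surjective

/-- (cf, size 2) Commuting `r`-groups for different primes `r`. PROOF. Induction on `S`; for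
`insert r S`: `⨆ = R r ⊔ T`, `T` and `R r` commute elementwise, so `|R r ⊔ T|` divides
`|R r| |T|` (the product map is surjective onto `R r ⊔ T`: `Subgroup.mul_normal` in the group
`R r ⊔ T`, or `Subgroup.card_mul...`; or the homomorphism `R r × T → H`). -/
theorem csup_card (S : Finset ℕ) (R : ℕ → Subgroup H)
    (hcom : ∀ r ∈ S, ∀ r' ∈ S, r ≠ r' → ∀ x ∈ R r, ∀ y ∈ R r', x * y = y * x) :
    Nat.card (⨆ r ∈ S, R r : Subgroup H) ∣ ∏ r ∈ S, Nat.card (R r) := by
  classical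
  induction S using Finset.induction_on with
  | empty => simp
  | insert r S hr ih =>
    rw [Finset.iSup_insert, Finset.prod_insert hr]
    have h1 := ih fun a ha b hb => hcom a (Finset.mem_insert_of_mem ha) b (Finset.mem_insert_of_mem hb)
    refine (cf_dvd (R r) _ ?_).trans (mul_dvd_mul_left _ h1)
    exact cf_com S R r fun r' hr' x hx y hy => hcom r (Finset.mem_insert_self _ _) r'
      (Finset.mem_insert_of_mem hr') (by rintro rfl; exact hr hr') x hx y hy

/-- (cf, size 1) PROOF. `csup_card`; `|R r|` is a power of `r` (`IsPGroup.iff_card`), coprime to `n`. -/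
theorem csup_cop (S : Finset ℕ) (R : ℕ → Subgroup H) (hp : ∀ r ∈ S, r.Prime)
    (hR : ∀ r ∈ S, IsPGroup r (R r))
    (hcom : ∀ r ∈ S, ∀ r' ∈ S, r ≠ r' → ∀ x ∈ R r, ∀ y ∈ R r', x * y = y * x) (n : ℕ)
    (hn : ∀ r ∈ S, ¬ r ∣ n) : (Nat.card (⨆ r ∈ S, R r : Subgroup H)).Coprime n := by
  refine Nat.Coprime.coprime_dvd_left (csup_card S R hcom) (Nat.Coprime.prod_left fun r hr => ?_)
  haveI : Fact r.Prime := ⟨hp r hr⟩
  obtain ⟨k, hk⟩ := IsPGroup.iff_card.1 (hR r hr)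
  rw [hk]
  exact Nat.Coprime.pow_left k (((hp r hr).coprime_iff_not_dvd).2 (hn r hr))

/-- (cf, size 3) The `r`-parts of an element of `⨆ R r` are powers of this element. PROOF. Induction
on `S`: `x ∈ R r ⊔ T`, `T = ⨆ r' ∈ S, R r'`, so `x = y z = z y` with `y ∈ R r`, `z ∈ T` (commuting
elementwise). `|T|` is prime to `r` (`csup_cop`), so `y` and `z` are powers of `x` (coprime orders,
e.g. `x ^ (|T| m)` with `|T| m = 1` modulo the order of `y`). `y ∈ R r ⊓ zpowers x`, and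
`z ∈ ⨆ r' ∈ S, (R r' ⊓ zpowers z) ≤ ⨆ r' ∈ S, (R r' ⊓ zpowers x)`. -/
theorem csup_dec (S : Finset ℕ) (R : ℕ → Subgroup H) (hp : ∀ r ∈ S, r.Prime)
    (hR : ∀ r ∈ S, IsPGroup r (R r))
    (hcom : ∀ r ∈ S, ∀ r' ∈ S, r ≠ r' → ∀ x ∈ R r, ∀ y ∈ R r', x * y = y * x) (x : H)
    (hx : x ∈ (⨆ r ∈ S, R r : Subgroup H)) :
    x ∈ (⨆ r ∈ S, (R r ⊓ Subgroup.zpowers x) : Subgroup H) := by
  classical
  induction S using Finset.induction_on generalizing x with
  | empty => simpa using hx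
  | insert r S hr ih =>
    rw [Finset.iSup_insert] at hx ⊢
    have hcomS : ∀ a ∈ S, ∀ b ∈ S, a ≠ b → ∀ x ∈ R a, ∀ y ∈ R b, x * y = y * x :=
      fun a ha b hb => hcom a (Finset.mem_insert_of_mem ha) b (Finset.mem_insert_of_mem hb)
    have hpS : ∀ a ∈ S, a.Prime := fun a ha => hp a (Finset.mem_insert_of_mem ha)
    have hRS : ∀ a ∈ S, IsPGroup a (R a) := fun a ha => hR a (Finset.mem_insert_of_mem ha)
    have hrp := hp r (Finset.mem_insert_self _ _)
    haveI : Fact r.Prime := ⟨hrp⟩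
    set T : Subgroup H := ⨆ r ∈ S, R r with hT
    have hcomT : ∀ x ∈ R r, ∀ y ∈ T, x * y = y * x :=
      cf_com S R r fun r' hr' x hx y hy => hcom r (Finset.mem_insert_self _ _) r'
        (Finset.mem_insert_of_mem hr') (by rintro rfl; exact hr hr') x hx y hy
    obtain ⟨f, hf, hf'⟩ := cf_pair (R r) T hcomT
    rw [← hf] at hx
    obtain ⟨⟨y, z⟩, hyz⟩ := hx
    rw [hf'] at hyz
    simp only at hyz
    have hcop : (Nat.card T).Coprime (Nat.card (R r)) := by
      refine csup_cop S R hpS hRS hcomS _ fun r' hr' hd => ?_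
      obtain ⟨k, hk⟩ := IsPGroup.iff_card.1 (hR r (Finset.mem_insert_self _ _))
      rw [hk] at hd
      have h1 := (hpS r' hr').dvd_of_dvd_pow hd
      have h2 := (Nat.prime_dvd_prime_iff_eq (hpS r' hr') hrp).1 h1
      rw [h2] at hr'
      exact hr hr'
    have hyz' : Commute (y : H) (z : H) := hcomT y y.2 z z.2
    have hyc : (y : H) ^ Nat.card (R r) = 1 := by
      have h2 : y ^ Nat.card (R r) = 1 := pow_card_eq_one'
      have h3 : ((y ^ Nat.card (R r) : R r) : H) = 1 := by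
        rw [h2]
        rfl
      rwa [Subgroup.coe_pow] at h3
    have hzc : (z : H) ^ Nat.card T = 1 := by
      have h2 : z ^ Nat.card T = 1 := pow_card_eq_one'
      have h3 : ((z ^ Nat.card T : T) : H) = 1 := by
        rw [h2]
        rfl
      rwa [Subgroup.coe_pow] at h3
    have hyx : (y : H) ∈ Subgroup.zpowers x := by
      refine cd_pow (A := R r) hcop y.2 ?_
      have h3 : (y : H) ^ Nat.card T = x ^ Nat.card T := by
        rw [← hyz, hyz'.mul_pow, hzc, mul_one]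
      rw [h3]
      exact Subgroup.pow_mem _ (Subgroup.mem_zpowers x) _
    have hzx : (z : H) ∈ Subgroup.zpowers x := by
      refine cd_pow (A := T) hcop.symm z.2 ?_
      have h3 : (z : H) ^ Nat.card (R r) = x ^ Nat.card (R r) := by
        rw [← hyz, hyz'.mul_pow, hyc, one_mul]
      rw [h3]
      exact Subgroup.pow_mem _ (Subgroup.mem_zpowers x) _
    have h4 := ih hpS hRS hcomS z z.2
    have h5 : (⨆ r ∈ S, (R r ⊓ Subgroup.zpowers (z : H)) : Subgroup H) ≤
        ⨆ r ∈ S, (R r ⊓ Subgroup.zpowers x) :=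
      iSup₂_mono fun r' _ => inf_le_inf_left _ ((Subgroup.zpowers_le).2 hzx)
    have h6 : (y : H) * z ∈ ((R r ⊓ Subgroup.zpowers x) ⊔ ⨆ r ∈ S, (R r ⊓ Subgroup.zpowers x) : Subgroup H) :=
      Subgroup.mul_mem _ (Subgroup.mem_sup_left ⟨y.2, hyx⟩) (Subgroup.mem_sup_right (h5 h4))
    rwa [hyz] at h6

/-- (cg, size 1) For a normal abelian subgroup `A` and a prime `q ∣ |A|` there is a normal
`q`-subgroup `D ≠ 1` of `H` in `A`. PROOF. `D = {a ∈ A | a ^ q = 1}`, Cauchy. -/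
theorem omq {A : Subgroup H} (hA : Ab A) (q : ℕ) (hq : q.Prime) (hd : q ∣ Nat.card A) :
    ∃ D : Subgroup H, D.Normal ∧ D ≤ A ∧ IsPGroup q D ∧ D ≠ ⊥ := by
  haveI : Fact q.Prime := ⟨hq⟩
  obtain ⟨a, ha⟩ := exists_prime_orderOf_dvd_card' (G := A) q hd
  refine ⟨
    { carrier := {x | x ∈ A ∧ x ^ q = 1}
      one_mem' := ⟨A.one_mem, one_pow _⟩
      mul_mem' := fun {x y} hx hy => ⟨A.mul_mem hx.1 hy.1, by
        have h : Commute x y := hA.com x hx.1 y hy.1
        rw [h.mul_pow, hx.2, hy.2, mul_one]⟩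
      inv_mem' := fun {x} hx => ⟨A.inv_mem hx.1, by rw [inv_pow, hx.2, inv_one]⟩ },
    ⟨fun x hx g => ⟨hA.nor.conj_mem x hx.1 g, by rw [conj_pow, hx.2, mul_one, mul_inv_cancel]⟩⟩,
    fun x hx => hx.1, ?_, ?_⟩
  · rintro ⟨x, hx⟩
    exact ⟨1, Subtype.ext (by rw [pow_one]; exact hx.2)⟩
  · intro h
    have h1 : (a : H) ^ q = 1 := by
      have h2 : a ^ q = 1 := by
        rw [← ha]
        exact pow_orderOf_eq_one a
      have h3 := congrArg Subtype.val h2
      simpa using h3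
    have h2 : (a : H) ∈ (⊥ : Subgroup H) := by
      rw [← h]
      exact ⟨a.2, h1⟩
    rw [Subgroup.mem_bot] at h2
    have h3 : a = 1 := Subtype.ext h2
    rw [h3, orderOf_one] at ha
    exact hq.one_lt.ne ha

/-- (cg, size 1) A subgroup of index prime to `q` contains a Sylow `q`-subgroup of `H`. -/
theorem syl_in (q : ℕ) (hq : q.Prime) (Z : Subgroup H) (hZ : ¬ q ∣ Z.index) :
    ∃ Q : Sylow q H, (Q : Subgroup H) ≤ Z := by
  haveI : Fact q.Prime := ⟨hq⟩
  obtain ⟨P⟩ : Nonempty (Sylow q Z) := inferInstance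
  have hcard : Nat.card ((P : Subgroup Z).map Z.subtype) = q ^ (Nat.card H).factorization q := by
    have h1 : Nat.card ((P : Subgroup Z).map Z.subtype) = Nat.card P :=
      Nat.card_congr (((P : Subgroup Z).equivMapOfInjective _ Z.subtype_injective).symm.toEquiv)
    rw [h1, P.card_eq_multiplicity, ← Z.card_mul_index,
      Nat.factorization_mul Nat.card_pos.ne' Subgroup.index_ne_zero_of_finite, Finsupp.add_apply,
      Nat.factorization_eq_zero_of_not_dvd hZ, add_zero]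
  refine ⟨Sylow.ofCard _ hcard, ?_⟩
  rw [Sylow.coe_ofCard]
  exact Subgroup.map_subtype_le _

/-- (cg, size 1) A normal `q`-subgroup is contained in every Sylow `q`-subgroup. -/
theorem nor_syl (q : ℕ) (hq : q.Prime) (D : Subgroup H) (hD : D.Normal) (hD' : IsPGroup q D)
    (Q : Sylow q H) : D ≤ Q := by
  haveI : Fact q.Prime := ⟨hq⟩
  haveI := hD
  have h1 : IsPGroup q (D ⊔ (Q : Subgroup H) : Subgroup H) :=
    IsPGroup.to_sup_of_normal_left hD' Q.isPGroup'
  have h2 := Q.is_maximal' h1 le_sup_right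
  rw [← h2]
  exact le_sup_left

end

end Pool.Agent.Nan
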