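import Mathlib

/-! Definitions for the theorem about two characters which cover the primes of the character degrees. -/

set_option autoImplicit false

namespace Pool.Agent.Nan

section
variable {H : Type} [Group H]

/-- An abelian normal subgroup. -/
structure Ab (A : Subgroup H) : Prop where
  nor : A.Normal
  com : ∀ a ∈ A, ∀ b ∈ A, a * b = b * a

/-- `[A, R]` for all Sylow `r`-subgroups `R` together. -/
def cm (A : Subgroup H) (r : ℕ) : Subgroup H := ⁅A, ⨆ R : Sylow r H, (R : Subgroup H)⁆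

/-- The prime `r` does not divide the order of `A`, and `A R` is normal for the Sylow
`r`-subgroups `R`. -/
structure AR (A : Subgroup H) (r : ℕ) : Prop where
  prime : r.Prime
  ndvd : ¬ r ∣ Nat.card A
  nor : ∀ R : Sylow r H, (A ⊔ (R : Subgroup H)).Normal

/-- The map from `cm A r` to the product of the coset spaces of the `S j` is surjective. -/
def Srj {J : Type} (A : Subgroup H) (r : ℕ) (S : J → Subgroup H) : Prop :=
  ∀ x : J → H, (∀ j, x j ∈ cm A r) → ∃ y ∈ cm A r, ∀ j, (x j)⁻¹ * y ∈ S j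

/-- The properties of the data of a block: `Ss` is the stabilizer of the low point, `St j` are the
stabilizers of the high points. `nt D` says that `D` acts non-trivially on the block. -/
structure Blk (A : Subgroup H) (B : Set ℕ) (p : ℕ) (nt : Subgroup H → Prop) (Ss : Subgroup H)
    (n : ℕ) (St : Fin n → Subgroup H) : Prop where
  b1 : ∀ a ∈ A, (∀ j, a ∈ St j) → a ∈ Ss
  b2 : ∀ q : ℕ, q.Prime → q ≠ p → ∀ D : Subgroup H, D.Normal → D ≤ A → IsPGroup q D → nt D →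
    ∃ j, ¬ D ≤ St j
  c : ∀ r ∈ B, (∃ q : ℕ, q.Prime ∧ q ≠ p ∧ ∃ D : Subgroup H, D.Normal ∧ D ≤ cm A r ∧
      IsPGroup q D ∧ nt D) →
    ¬ ((∃ R : Sylow r H, (R : Subgroup H) ≤ Ss) ∧ (∀ j, ∃ R : Sylow r H, (R : Subgroup H) ≤ St j) ∧
      (∀ c ∈ cm A r, c ∈ Ss → ∀ j, c ∈ St j) ∧ Srj A r St)

end

section
variable {p : ℕ} {H X : Type} [Group H] [AddCommGroup X] [Module (ZMod p) X]

/-- The subgroup `N` has no invariant subspace except zero and everything. -/
def Irrd (ρ : Representation (ZMod p) H X) (N : Subgroup H) : Prop :=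
  ∀ W : Submodule (ZMod p) X, (∀ n ∈ N, ∀ w ∈ W, ρ n w ∈ W) → W = ⊥ ∨ W = ⊤

/-- `N` is irreducible on `X`, `X` has `q ^ t` elements, `t ≥ 3`, `q = p ^ m`, and `N` acts as a
group of order `(q ^ t - 1) / (q - 1)`. -/
def Full (ρ : Representation (ZMod p) H X) (N : Subgroup H) : Prop :=
  Irrd ρ N ∧ ∃ m t : ℕ, 0 < m ∧ 3 ≤ t ∧ Nat.card X = p ^ (m * t) ∧
    Nat.card N * (p ^ m - 1) =
      Nat.card {c : N // ∀ x : X, ρ (c : H) x = x} * (p ^ (m * t) - 1)

/-- The subspace `W` is invariant under `N`. -/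
def Ivt (ρ : Representation (ZMod p) H X) (N : Subgroup H) (W : Submodule (ZMod p) X) : Prop :=
  ∀ n ∈ N, ∀ w ∈ W, ρ n w ∈ W

/-- The version of `Full` for a subspace `W`. -/
def FullS (ρ : Representation (ZMod p) H X) (W : Submodule (ZMod p) X) (N : Subgroup H) : Prop :=
  (∀ W' ≤ W, Ivt ρ N W' → W' = ⊥ ∨ W' = W) ∧ ∃ m t : ℕ, 0 < m ∧ 3 ≤ t ∧
    Nat.card W = p ^ (m * t) ∧ Nat.card N * (p ^ m - 1) =
      Nat.card {c : N // ∀ w ∈ W, ρ (c : H) w = w} * (p ^ (m * t) - 1)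

/-- The representation on an invariant subspace. -/
def rs (ρ : Representation (ZMod p) H X) (W : Submodule (ZMod p) X) (hW : Ivt ρ ⊤ W) :
    Representation (ZMod p) H W where
  toFun h := (ρ h).restrict fun w hw => hW h (Subgroup.mem_top h) w hw
  map_one' := by
    ext w
    rw [LinearMap.restrict_apply]
    simp
  map_mul' g h := by
    ext w
    rw [LinearMap.restrict_apply]
    simp [LinearMap.restrict_apply]

theorem rs_apply (ρ : Representation (ZMod p) H X) (W : Submodule (ZMod p) X) (hW : Ivt ρ ⊤ W)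
    (h : H) (w : W) : ((rs ρ W hW h w : W) : X) = ρ h w := rfl

/-- The algebra of endomorphisms generated by `A`. -/
def AA (ρ : Representation (ZMod p) H X) (A : Subgroup H) :
    Subalgebra (ZMod p) (Module.End (ZMod p) X) := Algebra.adjoin (ZMod p) (ρ '' (A : Set H))

/-- Conjugation by `h`. -/
def cj (ρ : Representation (ZMod p) H X) (h : H) (z : Module.End (ZMod p) X) :
    Module.End (ZMod p) X := ρ h * z * ρ h⁻¹

/-- A primitive idempotent of the algebra `AA ρ A`. -/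
structure Pid (ρ : Representation (ZMod p) H X) (A : Subgroup H) (e : Module.End (ZMod p) X) :
    Prop where
  mem : e ∈ AA ρ A
  idem : e * e = e
  ne : e ≠ 0
  inv : ∀ z ∈ AA ρ A, z * e ≠ 0 → ∃ w ∈ AA ρ A, w * z * e = e

/-- The hypotheses of the selection theorem. -/
structure TH (ρ : Representation (ZMod p) H X) (A C : Subgroup H) (S : Finset ℕ)
    (R : ℕ → Subgroup H) : Prop where
  ab : Ab A
  pH : ¬ p ∣ Nat.card H
  irr : Irrd ρ ⊤
  prime : ∀ r ∈ S, r.Prime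
  ndvd : ∀ r ∈ S, ¬ r ∣ Nat.card A
  pgr : ∀ r ∈ S, IsPGroup r (R r)
  com : ∀ r ∈ S, ∀ r' ∈ S, r ≠ r' → ∀ x ∈ R r, ∀ y ∈ R r', x * y = y * x
  Cn : C.Normal
  CA : C ≤ A
  AC : ∀ r ∈ S, ⁅A, R r⁆ ≤ C
  fpf : ∀ c ∈ C, ∀ x : X, x ≠ 0 → ρ c x = x → ∀ y, ρ c y = y

/-- `R r` is not trivial on `X`, and the elements of `R r` which commute with `A` on `X` act
trivially. -/
structure T3 (ρ : Representation (ZMod p) H X) (A : Subgroup H) (S : Finset ℕ)
    (R : ℕ → Subgroup H) : Prop where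
  h0 : ∀ r ∈ S, ∀ s ∈ R r, (∀ a ∈ A, ∀ x, ρ s (ρ a x) = ρ a (ρ s x)) → ∀ x, ρ s x = x
  nt : ∀ r ∈ S, ∃ s ∈ R r, ∃ x, ρ s x ≠ x

/-- What the selection theorem gives for the vector `x`. -/
def Sel (ρ : Representation (ZMod p) H X) (A : Subgroup H) (S : Finset ℕ) (R : ℕ → Subgroup H)
    (x : X) : Prop :=
  (∀ a ∈ A, ρ a x = x → ∀ y, ρ a y = y) ∧
    ∀ r ∈ S, (∃ a ∈ A, ∀ s ∈ R r, ρ (a * s * a⁻¹) x = x) →
      (∀ s ∈ R r, ∀ y, ρ s y = y) ∨ Full ρ ⁅A, R r⁆

end

/-- `h` fixes the linear form `l`. -/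
def FixL {p : ℕ} {H X : Type} [Group H] [AddCommGroup X] [Module (ZMod p) X]
    (ρ : Representation (ZMod p) H X) (l : Module.Dual (ZMod p) X) (h : H) : Prop :=
  ∀ x, l (ρ h x) = l x

/-- The radical of the form `l ∘ β`. -/
def Rad {p : ℕ} {V U : Type} [AddCommGroup V] [Module (ZMod p) V] [AddCommGroup U]
    [Module (ZMod p) U] (β : V →ₗ[ZMod p] V →ₗ[ZMod p] U) (l : Module.Dual (ZMod p) U) :
    Submodule (ZMod p) V where
  carrier := {v | ∀ w, l (β v w) = 0}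
  zero_mem' := by
    intro w
    rw [map_zero, LinearMap.zero_apply, map_zero]
  add_mem' := by
    intro x y hx hy w
    rw [map_add, LinearMap.add_apply, map_add, hx w, hy w, add_zero]
  smul_mem' := by
    intro c x hx w
    rw [map_smul, LinearMap.smul_apply, map_smul, hx w, smul_zero]

theorem mem_Rad {p : ℕ} {V U : Type} [AddCommGroup V] [Module (ZMod p) V] [AddCommGroup U]
    [Module (ZMod p) U] (β : V →ₗ[ZMod p] V →ₗ[ZMod p] U) (l : Module.Dual (ZMod p) U) (v : V) :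
    v ∈ Rad β l ↔ ∀ w, l (β v w) = 0 := Iff.rfl

/-- The setting of the linear algebra: a non-zero alternating equivariant map `V × V → U`, `U`
irreducible, `V` faithful. -/
structure Ltg (p : ℕ) {H V U : Type} [Group H] [AddCommGroup V] [Module (ZMod p) V]
    [AddCommGroup U] [Module (ZMod p) U] (ρV : Representation (ZMod p) H V)
    (ρU : Representation (ZMod p) H U) (β : V →ₗ[ZMod p] V →ₗ[ZMod p] U) : Prop where
  pH : ¬ p ∣ Nat.card H
  alt : ∀ v, β v v = 0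
  eqv : ∀ h v w, β (ρV h v) (ρV h w) = ρU h (β v w)
  ne : β ≠ 0
  irr : Irrd ρU ⊤
  fai : ∀ h, (∀ v, ρV h v = v) → h = 1

/-- Case Y: for the linear form `l` and `m` no normal subgroup in `A` fixes both. -/
def CaseY {p : ℕ} {H V U : Type} [Group H] [AddCommGroup V] [Module (ZMod p) V]
    [AddCommGroup U] [Module (ZMod p) U] (ρV : Representation (ZMod p) H V)
    (ρU : Representation (ZMod p) H U) (β : V →ₗ[ZMod p] V →ₗ[ZMod p] U) (A : Subgroup H) : Prop :=
  ∃ l : Module.Dual (ZMod p) U, l ≠ 0 ∧ ∃ m : Module.Dual (ZMod p) V,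
    ∀ D : Subgroup H, D.Normal → D ≤ A → D ≠ ⊥ →
      ∃ d ∈ D, ¬ (FixL ρU l d ∧ ∀ v ∈ Rad β l, m (ρV d v) = m v)

/-- Case X. -/
def CaseX {p : ℕ} {H V U : Type} [Group H] [AddCommGroup V] [Module (ZMod p) V]
    [AddCommGroup U] [Module (ZMod p) U] (ρV : Representation (ZMod p) H V)
    (ρU : Representation (ZMod p) H U) (A : Subgroup H) (B : Set ℕ) : Prop :=
  ∃ l : Module.Dual (ZMod p) U, l ≠ 0 ∧ ∃ (n : ℕ) (t : Fin n → Module.Dual (ZMod p) V),
    (∀ k : Fin n → H, (∀ j, k j ∈ A) → ∀ h : H,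
      (∀ v, ∑ j, t j (ρV (k j)⁻¹ (ρV h v)) = ∑ j, t j (ρV (k j)⁻¹ v)) →
        ∀ j, FixL ρV (t j) ((k j)⁻¹ * h * k j)) ∧
    (∀ a ∈ A, (∀ j, FixL ρV (t j) a) → a = 1) ∧
    ∀ r ∈ B, cm A r ≠ ⊥ →
      ¬ ((∃ R : Sylow r H, ∀ x ∈ (R : Subgroup H), FixL ρU l x) ∧
        (∀ j, ∃ R : Sylow r H, ∀ x ∈ (R : Subgroup H), FixL ρV (t j) x) ∧
        (∀ c ∈ cm A r, FixL ρU l c → c = 1) ∧
        ∀ x : Fin n → H, (∀ j, x j ∈ cm A r) →
          ∃ y ∈ cm A r, ∀ j, FixL ρV (t j) ((x j)⁻¹ * y))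

/-- For every `l ≠ 0` some normal subgroup `D ≠ 1` of `H` in `A` is trivial on `U` and on the
radical of `l`. -/
def NotY {p : ℕ} {H V U : Type} [Group H] [AddCommGroup V] [Module (ZMod p) V]
    [AddCommGroup U] [Module (ZMod p) U] (ρV : Representation (ZMod p) H V)
    (ρU : Representation (ZMod p) H U) (β : V →ₗ[ZMod p] V →ₗ[ZMod p] U) (A : Subgroup H) : Prop :=
  ∀ l : Module.Dual (ZMod p) U, l ≠ 0 → ∃ D : Subgroup H, D.Normal ∧ D ≤ A ∧ D ≠ ⊥ ∧
    (∀ d ∈ D, ∀ u, ρU d u = u) ∧ ∀ d ∈ D, ∀ v ∈ Rad β l, ρV d v = v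

/-- A `p`-group `P` of class two with the action `φ` of `H`: `q : P → V` is the map onto the
Frattini factor group, `κ` identifies `U` with the (central, elementary abelian) commutator
subgroup, `β` is the commutator map. -/
structure C2 (p : ℕ) {P H V U : Type} [Group P] [Group H] [AddCommGroup V] [Module (ZMod p) V]
    [AddCommGroup U] [Module (ZMod p) U] (φ : H →* MulAut P) (ρV : Representation (ZMod p) H V)
    (ρU : Representation (ZMod p) H U) (β : V →ₗ[ZMod p] V →ₗ[ZMod p] U) (q : P → V) (κ : U → P) :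
    Prop where
  pgr : IsPGroup p P
  q_mul : ∀ x y, q (x * y) = q x + q y
  q_surj : Function.Surjective q
  q_eq : ∀ h x, q (φ h x) = ρV h (q x)
  κ_add : ∀ u w, κ (u + w) = κ u * κ w
  κ_inj : ∀ u, κ u = 1 → u = 0
  κ_cen : ∀ u x, κ u * x = x * κ u
  κ_eq : ∀ h u, κ (ρU h u) = φ h (κ u)
  comm : ∀ x y, x * y * x⁻¹ * y⁻¹ = κ (β (q x) (q y))
  qκ : ∀ u, q (κ u) = 0

end Pool.Agent.Nan
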