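import Pool.Agent.Nan.Fv
import Pool.Agent.Nan.Ar

/-! The end of the linear algebra: modules `xa` .. `xz`. -/

set_option autoImplicit false

namespace Pool.Agent.Nan

/-- The span of the orbit of the linear form `l` under `N`. -/
def Orb {p : ℕ} {H U : Type} [Group H] [AddCommGroup U] [Module (ZMod p) U]
    (ρU : Representation (ZMod p) H U) (N : Subgroup H) (l : Module.Dual (ZMod p) U) :
    Submodule (ZMod p) (Module.Dual (ZMod p) U) :=
  Submodule.span (ZMod p) {f | ∃ n ∈ N, f = l ∘ₗ ρU n}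

section

variable {p : ℕ} [Fact p.Prime] {H V U : Type} [Group H] [Finite H] [AddCommGroup V]
  [Module (ZMod p) V] [Finite V] [AddCommGroup U] [Module (ZMod p) U] [Finite U]
  {ρV : Representation (ZMod p) H V} {ρU : Representation (ZMod p) H U}
  {β : V →ₗ[ZMod p] V →ₗ[ZMod p] U} {A : Subgroup H}

/-- (xa, size 1) In a cyclic normal subgroup every subgroup is normal. PROOF. `h c h⁻¹` has the same
order as `c` and is in the cyclic group `C`. -/
theorem cyc_nor (C : Subgroup H) (hC : C.Normal) (hcyc : IsCyclic C) (c : H) (hc : c ∈ C) :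
    (Subgroup.zpowers c).Normal := by
  refine ⟨fun n hn g => ?_⟩
  have hnC : n ∈ C := by
    have : Subgroup.zpowers c ≤ C := by
      rw [Subgroup.zpowers_le]
      exact hc
    exact this hn
  have := hC
  obtain ⟨m, hm⟩ := MonoidHom.map_cyclic (MulAut.conjNormal g : MulAut C).toMonoidHom
  have h1 := hm ⟨n, hnC⟩
  have h2 : g * n * g⁻¹ = n ^ m := by
    have h3 := congrArg (Subtype.val) h1
    simpa using h3
  rw [h2]
  exact Subgroup.zpow_mem _ hn m

/-- (xa, size 2) PROOF. `cyc_nor`: the fixed space of `c` in `W` is invariant under `H`. -/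
theorem cycfixS (ρ : Representation (ZMod p) H V) (W : Submodule (ZMod p) V) (hW : Ivt ρ ⊤ W)
    (hirr : ∀ W₁ ≤ W, Ivt ρ ⊤ W₁ → W₁ = ⊥ ∨ W₁ = W) (C : Subgroup H) (hC : C.Normal)
    (hcyc : IsCyclic C) (c : H) (hc : c ∈ C) (x : V) (hx : x ∈ W) (h0 : x ≠ 0)
    (hcx : ρ c x = x) : ∀ y ∈ W, ρ c y = y := by
  have hnor := cyc_nor C hC hcyc c hc
  set W₁ : Submodule (ZMod p) V := W ⊓ LinearMap.ker (ρ c - 1) with hW₁
  have hmem : ∀ y, y ∈ W₁ ↔ y ∈ W ∧ ρ c y = y := by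
    intro y
    rw [hW₁, Submodule.mem_inf, LinearMap.mem_ker, LinearMap.sub_apply, Module.End.one_apply,
      sub_eq_zero]
  have hpow : ∀ k : ℤ, ∀ y, ρ c y = y → ρ (c ^ k) y = y := by
    intro k y hy
    have h1 : ∀ n : ℕ, ρ (c ^ n) y = y := by
      intro n
      induction n with
      | zero => simp
      | succ n ih => rw [pow_succ, map_mul, Module.End.mul_apply, hy, ih]
    cases k with
    | ofNat n => simpa using h1 n
    | negSucc n =>
      have h2 := h1 (n + 1)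
      rw [zpow_negSucc]
      calc ρ ((c ^ (n + 1))⁻¹) y = ρ ((c ^ (n + 1))⁻¹) (ρ (c ^ (n + 1)) y) := by rw [h2]
        _ = y := by rw [← Module.End.mul_apply, ← map_mul]; simp
  have hinv : Ivt ρ ⊤ W₁ := by
    intro h _ w hw
    rw [hmem] at hw ⊢
    refine ⟨hW h (Subgroup.mem_top h) w hw.1, ?_⟩
    have h1 : h⁻¹ * c * h ∈ Subgroup.zpowers c := by
      have := hnor.conj_mem c (Subgroup.mem_zpowers c) h⁻¹
      simpa using this
    obtain ⟨k, hk⟩ := Subgroup.mem_zpowers_iff.mp h1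
    have h2 : c * h = h * c ^ k := by rw [hk]; group
    calc ρ c (ρ h w) = ρ (c * h) w := by rw [map_mul, Module.End.mul_apply]
      _ = ρ h (ρ (c ^ k) w) := by rw [h2, map_mul, Module.End.mul_apply]
      _ = ρ h w := by rw [hpow k w hw.2]
  rcases hirr W₁ inf_le_left hinv with h1 | h1
  · exfalso
    apply h0
    have : x ∈ W₁ := (hmem x).mpr ⟨hx, hcx⟩
    rw [h1] at this
    exact (Submodule.mem_bot _).mp this
  · intro y hy
    rw [← h1] at hy
    exact ((hmem y).mp hy).2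

/-- (xb, size 1) PROOF. The fixed space of `D` in `W` is invariant under `N` (`D, N ≤ A` abelian). -/
theorem fpf_of {D N : Subgroup H} (hA : Ab A) (hD : D ≤ A) (hN : N ≤ A)
    (W : Submodule (ZMod p) V) (hW : Ivt ρV N W)
    (hirr : ∀ W' ≤ W, Ivt ρV N W' → W' = ⊥ ∨ W' = W)
    (hne : ∃ d ∈ D, ∃ w ∈ W, ρV d w ≠ w) (w : V) (hw : w ∈ W) (hfix : ∀ d ∈ D, ρV d w = w) :
    w = 0 := by
  set W' : Submodule (ZMod p) V := W ⊓ ⨅ d ∈ D, LinearMap.ker (ρV d - 1) with hW'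
  have hmem : ∀ y, y ∈ W' ↔ y ∈ W ∧ ∀ d ∈ D, ρV d y = y := by
    intro y
    rw [hW', Submodule.mem_inf]
    simp only [Submodule.mem_iInf, LinearMap.mem_ker, LinearMap.sub_apply, Module.End.one_apply,
      sub_eq_zero]
  have hinv : Ivt ρV N W' := by
    intro n hn y hy
    rw [hmem] at hy ⊢
    refine ⟨hW n hn y hy.1, fun d hd => ?_⟩
    calc ρV d (ρV n y) = ρV (d * n) y := by rw [map_mul, Module.End.mul_apply]
      _ = ρV (n * d) y := by rw [hA.com d (hD hd) n (hN hn)]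
      _ = ρV n y := by rw [map_mul, Module.End.mul_apply, hy.2 d hd]
  rcases hirr W' inf_le_left hinv with h1 | h1
  · have : w ∈ W' := (hmem w).mpr ⟨hw, hfix⟩
    rw [h1] at this
    exact (Submodule.mem_bot _).mp this
  · exfalso
    obtain ⟨d, hd, y, hy, hne'⟩ := hne
    rw [← h1] at hy
    exact hne' (((hmem y).mp hy).2 d hd)

/-- (xb, size 1) The radical of `l` is invariant under the elements which fix `l`. -/
theorem rad_inv (h : Ltg p ρV ρU β) (l : Module.Dual (ZMod p) U) (g : H) (hg : FixL ρU l g) (v : V)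
    (hv : v ∈ Rad β l) : ρV g v ∈ Rad β l := by
  rw [mem_Rad] at hv ⊢
  intro w
  have h1 : ρV g (ρV g⁻¹ w) = w := by
    rw [← Module.End.mul_apply, ← map_mul]
    simp
  rw [← h1, h.eqv, hg]
  exact hv _

/-- (xb, size 1) PROOF. `d` has order `k` prime to `p`: `v = ρ (d ^ k) v = v + k (ρ d v - v)`. -/
theorem unip (ρ : Representation (ZMod p) H V) (hp : ¬ p ∣ Nat.card H) (d : H) (v : V)
    (h : ρ d (ρ d v - v) = ρ d v - v) : ρ d v = v := by
  have h1 : ∀ n : ℕ, ρ (d ^ n) v = v + n • (ρ d v - v) := by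
    intro n
    induction n with
    | zero => simp
    | succ n ih =>
      rw [pow_succ', map_mul, Module.End.mul_apply, ih, map_add, map_nsmul, h, succ_nsmul]
      abel
  have h2 := h1 (Nat.card H)
  rw [pow_card_eq_one', map_one, Module.End.one_apply] at h2
  have h3 : (Nat.card H) • (ρ d v - v) = 0 := by
    have h4 : v + 0 = v + (Nat.card H) • (ρ d v - v) := by rw [add_zero]; exact h2
    exact (add_left_cancel h4).symm
  have h5 : ((Nat.card H : ℕ) : ZMod p) • (ρ d v - v) = 0 := by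
    rw [Nat.cast_smul_eq_nsmul]
    exact h3
  rcases smul_eq_zero.mp h5 with h6 | h6
  · exact absurd ((ZMod.natCast_eq_zero_iff _ _).mp h6) hp
  · exact sub_eq_zero.mp h6

/-- (xc, size 1) PROOF. With `d = m t = m' t'`, `x = p ^ m`, `y = p ^ m'`: `x ^ 3 ≤ p ^ d`, `y ^ 3 ≤ p ^ d`;
`a * b` divides `p ^ d - 1` (coprime divisors), so `(p ^ d - 1) ^ 2 = a b (x - 1) (y - 1)` gives
`p ^ d - 1 ≤ (x - 1) (y - 1)`, impossible. -/
theorem num2 (a b m t m' t' : ℕ) (hm : 0 < m) (hm' : 0 < m') (ht : 3 ≤ t) (ht' : 3 ≤ t')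
    (he : m * t = m' * t') (hab : a.Coprime b) (h1 : a * (p ^ m - 1) = p ^ (m * t) - 1)
    (h2 : b * (p ^ m' - 1) = p ^ (m * t) - 1) : False := by
  have hp : 2 ≤ p := (Fact.out : p.Prime).two_le
  have hx : 2 ≤ p ^ m := le_trans hp (Nat.le_self_pow hm.ne' p)
  have hy : 2 ≤ p ^ m' := le_trans hp (Nat.le_self_pow hm'.ne' p)
  have hx3 : (p ^ m) ^ 3 ≤ p ^ (m * t) := by
    rw [← pow_mul]
    exact Nat.pow_le_pow_right (by omega) (Nat.mul_le_mul_left m ht)
  have hy3 : (p ^ m') ^ 3 ≤ p ^ (m * t) := by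
    rw [he, ← pow_mul]
    exact Nat.pow_le_pow_right (by omega) (Nat.mul_le_mul_left m' ht')
  generalize p ^ m = x at *
  generalize p ^ m' = y at *
  generalize p ^ (m * t) = P at *
  obtain ⟨x', rfl⟩ : ∃ x', x = x' + 1 := ⟨x - 1, by omega⟩
  obtain ⟨y', rfl⟩ : ∃ y', y = y' + 1 := ⟨y - 1, by omega⟩
  have hP : 8 ≤ P := by
    have : 2 ^ 3 ≤ (x' + 1) ^ 3 := Nat.pow_le_pow_left hx 3
    omega
  obtain ⟨P', rfl⟩ : ∃ P', P = P' + 1 := ⟨P - 1, by omega⟩
  simp only [Nat.add_sub_cancel] at h1 h2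
  have hdvd : a * b ∣ P' := hab.mul_dvd_of_dvd_of_dvd ⟨_, h1.symm⟩ ⟨_, h2.symm⟩
  have hle : a * b ≤ P' := Nat.le_of_dvd (by omega) hdvd
  have h3 : P' * P' ≤ P' * (x' * y') := by
    calc P' * P' = (a * x') * (b * y') := by rw [h1, h2]
      _ = (a * b) * (x' * y') := by ring
      _ ≤ P' * (x' * y') := Nat.mul_le_mul_right _ hle
  have h4 : P' ≤ x' * y' := Nat.le_of_mul_le_mul_left h3 (by omega)
  rcases le_total x' y' with h5 | h5
  · nlinarith [Nat.mul_le_mul_right y' h5, sq_nonneg (y' : ℤ)]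
  · nlinarith [Nat.mul_le_mul_left x' h5]

private theorem xd_half (h : Ltg p ρV ρU β) (D : Subgroup H) (hDU : ∀ d ∈ D, ∀ u, ρU d u = u)
    (N : Subgroup H) (Wa Wb : Submodule (ZMod p) V) (hWa : Ivt ρV N Wa)
    (hWb : Ivt ρV N Wb) (hWbD : Ivt ρV D Wb)
    (hirr : ∀ W' ≤ Wb, Ivt ρV N W' → W' = ⊥ ∨ W' = Wb)
    (hDa : ∀ d ∈ D, ∀ w ∈ Wa, ρV d w = w) (hDb : ∃ d ∈ D, ∃ w ∈ Wb, ρV d w ≠ w) :
    ∀ x ∈ Wa, ∀ y ∈ Wb, β x y = 0 := by
  let Y' : Submodule (ZMod p) V :=
    { carrier := {y | y ∈ Wb ∧ ∀ x ∈ Wa, β x y = 0}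
      zero_mem' := ⟨Wb.zero_mem, fun x _ => map_zero _⟩
      add_mem' := fun {a b} ha hb => ⟨Wb.add_mem ha.1 hb.1, fun x hx => by
        rw [map_add, ha.2 x hx, hb.2 x hx, add_zero]⟩
      smul_mem' := fun c a ha => ⟨Wb.smul_mem c ha.1, fun x hx => by
        rw [map_smul, ha.2 x hx, smul_zero]⟩ }
  have hmem : ∀ y, y ∈ Y' ↔ y ∈ Wb ∧ ∀ x ∈ Wa, β x y = 0 := fun y => Iff.rfl
  have hinv : Ivt ρV N Y' := by
    intro n hn y hy
    rw [hmem] at hy ⊢
    refine ⟨hWb n hn y hy.1, fun x hx => ?_⟩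
    have h1 : ρV n (ρV n⁻¹ x) = x := by
      rw [← Module.End.mul_apply, ← map_mul]
      simp
    rw [← h1, h.eqv, hy.2 _ (hWa n⁻¹ (N.inv_mem hn) x hx), map_zero]
  rcases hirr Y' (fun y hy => hy.1) hinv with h1 | h1
  · exfalso
    obtain ⟨d, hd, w, hw, hne⟩ := hDb
    have h2 : ρV d w - w ∈ Y' := by
      rw [hmem]
      refine ⟨Wb.sub_mem (hWbD d hd w hw) hw, fun x hx => ?_⟩
      have h3 : β x (ρV d w) = β x w := by
        calc β x (ρV d w) = β (ρV d x) (ρV d w) := by rw [hDa d hd x hx]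
          _ = β x w := by rw [h.eqv, hDU d hd]
      rw [map_sub, h3, sub_self]
    rw [h1, Submodule.mem_bot, sub_eq_zero] at h2
    exact hne h2
  · intro x hx y hy
    have : y ∈ Y' := by rw [h1]; exact hy
    exact this.2 x hx

omit [Group H] [Finite H] [Finite U] in
private theorem xd_rank (β : V →ₗ[ZMod p] V →ₗ[ZMod p] U) (l : Module.Dual (ZMod p) U)
    (Wa Wb : Submodule (ZMod p) V)
    (hz : ∀ w ∈ Wa, (∀ y ∈ Wb, l (β w y) = 0) → w = 0) :
    Module.finrank (ZMod p) Wa ≤ Module.finrank (ZMod p) Wb := by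
  let f : Wa →ₗ[ZMod p] Module.Dual (ZMod p) Wb :=
    { toFun := fun w => (l ∘ₗ β w) ∘ₗ Wb.subtype
      map_add' := fun a b => by
        ext y
        simp
      map_smul' := fun c a => by
        ext y
        simp }
  have hf : Function.Injective f := by
    rw [← LinearMap.ker_eq_bot, eq_bot_iff]
    intro w hw
    rw [LinearMap.mem_ker] at hw
    rw [Submodule.mem_bot]
    apply Subtype.ext
    apply hz w w.2
    intro y hy
    have := LinearMap.congr_fun hw ⟨y, hy⟩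
    exact this
  have h1 := LinearMap.finrank_le_finrank_of_injective hf
  rw [Subspace.dual_finrank_eq] at h1
  exact h1

private theorem xd_cyc {G : Type} [Group G] [Finite G] (hc : IsCyclic G) (K L : Subgroup G)
    (hd : ∀ x ∈ K, x ∈ L → x = 1) (hs : ∀ x : G, ∃ a ∈ K, ∃ b ∈ L, x = a * b) :
    Nat.card G = Nat.card K * Nat.card L ∧ (Nat.card K).Coprime (Nat.card L) := by
  have := hc
  have hcm : ∀ x y : G, x * y = y * x := by
    let _ := IsCyclic.commGroup (α := G)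
    exact mul_comm
  let f : K × L →* G :=
    { toFun := fun x => (x.1 : G) * (x.2 : G)
      map_one' := by simp
      map_mul' := fun x y => by
        change ((x.1 : G) * (y.1 : G)) * ((x.2 : G) * (y.2 : G)) =
          ((x.1 : G) * (x.2 : G)) * ((y.1 : G) * (y.2 : G))
        rw [mul_assoc, mul_assoc, ← mul_assoc (y.1 : G), hcm (y.1 : G) (x.2 : G), mul_assoc] }
  have hinj : Function.Injective f := by
    rw [injective_iff_map_eq_one]
    intro x hx
    have h1 : (x.1 : G) * (x.2 : G) = 1 := hx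
    have h2 : (x.1 : G) = ((x.2 : G))⁻¹ := eq_inv_of_mul_eq_one_left h1
    have h3 : (x.1 : G) = 1 := hd _ x.1.2 (by rw [h2]; exact L.inv_mem x.2.2)
    have h4 : (x.2 : G) = 1 := by rw [h3, one_mul] at h1; exact h1
    exact Prod.ext (Subtype.ext h3) (Subtype.ext h4)
  have hsurj : Function.Surjective f := by
    intro x
    obtain ⟨a, ha, b, hb, rfl⟩ := hs x
    exact ⟨(⟨a, ha⟩, ⟨b, hb⟩), rfl⟩
  have hcard : Nat.card (K × L) = Nat.card G := Nat.card_congr (Equiv.ofBijective f ⟨hinj, hsurj⟩)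
  have : IsCyclic (K × L) := isCyclic_of_injective f hinj
  refine ⟨by rw [← hcard, Nat.card_prod], coprime_card_of_isCyclic_prod K L⟩

/-- (xd, size 4) The case of two components. PROOF. `NotY` for `l` gives `D`; `V₀ ≤ Rad β l` (`h0`).
`D` is not trivial on `V` (`Ltg.fai`) and trivial on `V₀`, so it is not trivial on `Wa` or on `Wb`. Suppose it is
not trivial on `Wb` but trivial on `Wa`: for `x ∈ Wa`, `y ∈ Wb`: `β x (d y - y) = 0` (`D` is trivial on `U`);
the span of the `d y - y` is invariant under `N` and not 0, so it is `Wb`, so `β Wa Wb = 0`, so `β = 0`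
(`alt` gives `β Wb Wa = 0`), against `Ltg.ne`. The same with `Wa`, `Wb` exchanged. So `D` is not trivial on
both, and by `fpf_of` `Rad β l` meets `Wa` and `Wb` in 0. So `x ↦ (y ↦ l (β x y))` is injective from `Wa` to the
dual space of `Wb`, and from `Wb` to the dual of `Wa`: `|Wa| = |Wb|`. Let `Ka`, `Kb` be the subgroups of `N` which
are trivial on `Wa`, `Wb`. `Ka ⊓ Kb = ⊥` (trivial on `V`), and `N = Ka Kb` by `hs` (`x = (x z⁻¹) z` for `z`
from `hs x 1`). So `|N| = |Ka| |Kb|` and, as `N` is cyclic, `|Ka|` and `|Kb|` are coprime. `FullS`: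
`|Kb| (p ^ m - 1) = p ^ (m t) - 1`, `|Ka| (p ^ m' - 1) = p ^ (m' t') - 1`, `m t = m' t'`. `num2`. -/
theorem J2 (h : Ltg p ρV ρU β) (hA : Ab A) (hY : NotY ρV ρU β A) (N : Subgroup H)
    (hN : N.Normal) (hNA : N ≤ A) (hcyc : IsCyclic N) (l : Module.Dual (ZMod p) U) (hl : l ≠ 0)
    (V₀ Wa Wb : Submodule (ZMod p) V) (hV₀ : Ivt ρV ⊤ V₀) (hWa : Ivt ρV ⊤ Wa)
    (hWb : Ivt ρV ⊤ Wb) (hsup : V₀ ⊔ Wa ⊔ Wb = ⊤) (hane : Wa ≠ ⊥) (hbne : Wb ≠ ⊥)
    (hN0 : ∀ c ∈ N, ∀ v ∈ V₀, ρV c v = v) (h0 : ∀ x ∈ V₀, ∀ y, β x y = 0)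
    (haa : ∀ x ∈ Wa, ∀ y ∈ Wa, β x y = 0) (hbb : ∀ x ∈ Wb, ∀ y ∈ Wb, β x y = 0)
    (hfa : FullS ρV Wa N) (hfb : FullS ρV Wb N)
    (hs : ∀ x ∈ N, ∀ y ∈ N, ∃ z ∈ N, (∀ w ∈ Wa, ρV (x⁻¹ * z) w = w) ∧
      ∀ w ∈ Wb, ρV (y⁻¹ * z) w = w) : False := by
  have hAlt : ∀ x y, β y x = 0 → β x y = 0 := fun x y hxy => by
    have h1 := h.alt (x + y)
    simp only [map_add, LinearMap.add_apply, h.alt, hxy, zero_add, add_zero] at h1
    exact h1
  have hact : ∀ (g : H) (v : V), ρV g (ρV g⁻¹ v) = v := fun g v => by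
    rw [← Module.End.mul_apply, ← map_mul]
    simp
  obtain ⟨D, hDn, hDA, hDne, hDU, hDR⟩ := hY l hl
  have hdec : ∀ v : V, ∃ v₀ ∈ V₀, ∃ a ∈ Wa, ∃ b ∈ Wb, v = v₀ + a + b := fun v => by
    have hv : v ∈ V₀ ⊔ Wa ⊔ Wb := hsup ▸ Submodule.mem_top
    obtain ⟨y, hy, b, hb, rfl⟩ := Submodule.mem_sup.mp hv
    obtain ⟨v₀, hv₀, a, ha, rfl⟩ := Submodule.mem_sup.mp hy
    exact ⟨v₀, hv₀, a, ha, b, hb, rfl⟩
  have hV₀R : ∀ v ∈ V₀, v ∈ Rad β l := fun v hv w => by rw [h0 v hv w, map_zero]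
  have hD0 : ∀ d ∈ D, ∀ v ∈ V₀, ρV d v = v := fun d hd v hv => hDR d hd v (hV₀R v hv)
  have hnab : ¬ ∀ a ∈ Wa, ∀ b ∈ Wb, β a b = 0 := fun hab => by
    apply h.ne
    ext x y
    obtain ⟨x₀, hx₀, x₁, hx₁, x₂, hx₂, rfl⟩ := hdec x
    obtain ⟨y₀, hy₀, y₁, hy₁, y₂, hy₂, rfl⟩ := hdec y
    have e1 : β x₁ y₀ = 0 := hAlt _ _ (h0 y₀ hy₀ x₁)
    have e2 : β x₂ y₀ = 0 := hAlt _ _ (h0 y₀ hy₀ x₂)
    have e3 : β x₂ y₁ = 0 := hAlt _ _ (hab y₁ hy₁ x₂ hx₂)
    simp only [map_add, LinearMap.add_apply, h0 x₀ hx₀, e1, e2, e3, haa x₁ hx₁ y₁ hy₁,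
      hbb x₂ hx₂ y₂ hy₂, hab x₁ hx₁ y₂ hy₂, LinearMap.zero_apply, add_zero]
  have hDa : ∃ d ∈ D, ∃ w ∈ Wa, ρV d w ≠ w := by
    by_contra hcon
    push Not at hcon
    by_cases hDb : ∃ d ∈ D, ∃ w ∈ Wb, ρV d w ≠ w
    · exact hnab (xd_half h D hDU N Wa Wb (fun n _ w hw => hWa n (Subgroup.mem_top n) w hw)
        (fun n _ w hw => hWb n (Subgroup.mem_top n) w hw)
        (fun n _ w hw => hWb n (Subgroup.mem_top n) w hw) hfb.1 hcon hDb)
    · push Not at hDb
      apply hDne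
      rw [eq_bot_iff]
      intro d hd
      rw [Subgroup.mem_bot]
      apply h.fai
      intro v
      obtain ⟨x₀, hx₀, x₁, hx₁, x₂, hx₂, rfl⟩ := hdec v
      rw [map_add, map_add, hD0 d hd x₀ hx₀, hcon d hd x₁ hx₁, hDb d hd x₂ hx₂]
  have hDb : ∃ d ∈ D, ∃ w ∈ Wb, ρV d w ≠ w := by
    by_contra hcon
    push Not at hcon
    apply hnab
    intro a ha b hb
    exact hAlt _ _ (xd_half h D hDU N Wb Wa (fun n _ w hw => hWb n (Subgroup.mem_top n) w hw)
        (fun n _ w hw => hWa n (Subgroup.mem_top n) w hw)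
        (fun n _ w hw => hWa n (Subgroup.mem_top n) w hw) hfa.1 hcon hDa b hb a ha)
  have hRa : ∀ w ∈ Wa, w ∈ Rad β l → w = 0 := fun w hw hr =>
    fpf_of hA hDA hNA Wa (fun n _ w hw => hWa n (Subgroup.mem_top n) w hw) hfa.1 hDa w hw
      fun d hd => hDR d hd w hr
  have hRb : ∀ w ∈ Wb, w ∈ Rad β l → w = 0 := fun w hw hr =>
    fpf_of hA hDA hNA Wb (fun n _ w hw => hWb n (Subgroup.mem_top n) w hw) hfb.1 hDb w hw
      fun d hd => hDR d hd w hr
  have hfr1 : Module.finrank (ZMod p) Wa ≤ Module.finrank (ZMod p) Wb := by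
    have := xd_rank β l Wa Wb (fun w hw hz => hRa w hw fun v => by
      obtain ⟨x₀, hx₀, x₁, hx₁, x₂, hx₂, rfl⟩ := hdec v
      rw [(β w).map_add, (β w).map_add, hAlt _ _ (h0 x₀ hx₀ w), haa w hw x₁ hx₁, zero_add,
        zero_add]
      exact hz x₂ hx₂)
    exact this
  have hfr2 : Module.finrank (ZMod p) Wb ≤ Module.finrank (ZMod p) Wa := by
    have := xd_rank β l Wb Wa (fun w hw hz => hRb w hw fun v => by
      obtain ⟨x₀, hx₀, x₁, hx₁, x₂, hx₂, rfl⟩ := hdec v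
      rw [(β w).map_add, (β w).map_add, hAlt _ _ (h0 x₀ hx₀ w), hbb w hw x₂ hx₂, zero_add,
        add_zero]
      exact hz x₁ hx₁)
    exact this
  have hcard : Nat.card Wa = Nat.card Wb := by
    rw [Module.natCard_eq_pow_finrank (K := ZMod p), Module.natCard_eq_pow_finrank (K := ZMod p)
      (V := Wb), le_antisymm hfr1 hfr2]
  obtain ⟨m, t, hm, ht, hca, hna⟩ := hfa.2
  obtain ⟨m', t', hm', ht', hcb, hnb⟩ := hfb.2
  have hmt : m * t = m' * t' := by
    have : p ^ (m * t) = p ^ (m' * t') := by rw [← hca, ← hcb, hcard]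
    exact Nat.pow_right_injective (Fact.out : p.Prime).two_le this
  let Ka : Subgroup N :=
    { carrier := {c | ∀ w ∈ Wa, ρV (c : H) w = w}
      one_mem' := fun w _ => by simp
      mul_mem' := fun {a b} ha hb w hw => by
        rw [Subgroup.coe_mul, map_mul, Module.End.mul_apply, hb w hw, ha w hw]
      inv_mem' := fun {a} ha w hw => by
        have h1 := hact (a : H)⁻¹ w
        rw [inv_inv, ha w hw] at h1
        exact h1 }
  let Kb : Subgroup N :=
    { carrier := {c | ∀ w ∈ Wb, ρV (c : H) w = w}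
      one_mem' := fun w _ => by simp
      mul_mem' := fun {a b} ha hb w hw => by
        rw [Subgroup.coe_mul, map_mul, Module.End.mul_apply, hb w hw, ha w hw]
      inv_mem' := fun {a} ha w hw => by
        have h1 := hact (a : H)⁻¹ w
        rw [inv_inv, ha w hw] at h1
        exact h1 }
  have hcardKa : Nat.card {c : N // ∀ w ∈ Wa, ρV (c : H) w = w} = Nat.card Ka := rfl
  have hcardKb : Nat.card {c : N // ∀ w ∈ Wb, ρV (c : H) w = w} = Nat.card Kb := rfl
  rw [hcardKa] at hna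
  rw [hcardKb] at hnb
  obtain ⟨hprod, hcop⟩ := xd_cyc hcyc Ka Kb
    (fun x hx hx' => by
      apply Subtype.ext
      apply h.fai
      intro v
      obtain ⟨x₀, hx₀, x₁, hx₁, x₂, hx₂, rfl⟩ := hdec v
      rw [map_add, map_add, hN0 x x.2 x₀ hx₀, hx x₁ hx₁, hx' x₂ hx₂])
    (fun x => by
      obtain ⟨z, hz, hz1, hz2⟩ := hs x x.2 1 (one_mem N)
      refine ⟨(x⁻¹ * ⟨z, hz⟩)⁻¹, Ka.inv_mem fun w hw => hz1 w hw, ⟨z, hz⟩, fun w hw => ?_, ?_⟩
      · have := hz2 w hw
        simpa using this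
      · rw [mul_inv_rev, inv_inv]
        have := hcyc
        let _ := IsCyclic.commGroup (α := N)
        rw [mul_comm _ x, inv_mul_cancel_right])
  have hKa : 0 < Nat.card Ka := Nat.card_pos
  have hKb : 0 < Nat.card Kb := Nat.card_pos
  rw [hprod] at hna hnb
  have e1 : Nat.card Kb * (p ^ m - 1) = p ^ (m * t) - 1 := by
    apply Nat.eq_of_mul_eq_mul_left hKa
    rw [← mul_assoc]
    exact hna
  have e2 : Nat.card Ka * (p ^ m' - 1) = p ^ (m * t) - 1 := by
    apply Nat.eq_of_mul_eq_mul_left hKb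
    rw [← mul_assoc, mul_comm (Nat.card Kb), hmt]
    exact hnb
  exact num2 (Nat.card Kb) (Nat.card Ka) m t m' t' hm hm' ht ht' hmt hcop.symm e1 e2

/-- (xe, size 3) PROOF. For `v, v' ∈ V₀` `β v v'` is fixed by `N ≠ ⊥`, so it is 0 (`hfp`). `NotY` gives
`D`. If `D` is trivial on `W`: for `v ∈ V₀`, `d ∈ D` the vector `d v - v ∈ V₀` is in `Rad β l` (for `w ∈ W`:
`l (β (d v) w) = l (β (d v) (d w)) = l (d (β v w)) = l (β v w)`), so it is fixed by `d`, so `d v = v` by `unip`;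
so `D` is trivial on `V = V₀ + W`, against `Ltg.fai`. So `D` is not trivial on `W`, `fpf_of`. -/
theorem J1a (h : Ltg p ρV ρU β) (hA : Ab A) (hY : NotY ρV ρU β A) (N : Subgroup H)
    (hNA : N ≤ A) (hNne : N ≠ ⊥) (l : Module.Dual (ZMod p) U) (hl : l ≠ 0)
    (hfp : ∀ c ∈ N, ∀ u, u ≠ 0 → ρU c u = u → c = 1)
    (V₀ W : Submodule (ZMod p) V) (hV₀ : Ivt ρV ⊤ V₀) (hW : Ivt ρV ⊤ W) (hc : IsCompl V₀ W)
    (hN0 : ∀ c ∈ N, ∀ v ∈ V₀, ρV c v = v)
    (hirr : ∀ W' ≤ W, Ivt ρV N W' → W' = ⊥ ∨ W' = W) :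
    (∀ v ∈ V₀, ∀ v' ∈ V₀, β v v' = 0) ∧ ∀ w ∈ W, w ∈ Rad β l → w = 0 := by
  have hact : ∀ (g : H) (v : V), ρV g (ρV g⁻¹ v) = v := fun g v => by
    rw [← Module.End.mul_apply, ← map_mul]
    simp
  have h00 : ∀ v ∈ V₀, ∀ v' ∈ V₀, β v v' = 0 := by
    intro v hv v' hv'
    by_contra hne
    apply hNne
    rw [eq_bot_iff]
    intro c hc'
    rw [Subgroup.mem_bot]
    apply hfp c hc' _ hne
    rw [← h.eqv, hN0 c hc' v hv, hN0 c hc' v' hv']
  refine ⟨h00, ?_⟩
  have hdec : ∀ v : V, ∃ v₀ ∈ V₀, ∃ w ∈ W, v = v₀ + w := fun v => by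
    have hv : v ∈ V₀ ⊔ W := hc.sup_eq_top ▸ Submodule.mem_top
    obtain ⟨y, hy, b, hb, rfl⟩ := Submodule.mem_sup.mp hv
    exact ⟨y, hy, b, hb, rfl⟩
  obtain ⟨D, hDn, hDA, hDne, hDU, hDR⟩ := hY l hl
  have hDW : ∃ d ∈ D, ∃ w ∈ W, ρV d w ≠ w := by
    by_contra hcon
    push Not at hcon
    apply hDne
    rw [eq_bot_iff]
    intro d hd
    rw [Subgroup.mem_bot]
    apply h.fai
    have hv0 : ∀ v ∈ V₀, ρV d v = v := by
      intro v hv
      apply unip ρV h.pH d v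
      apply hDR d hd
      intro y
      obtain ⟨y₀, hy₀, w, hw, rfl⟩ := hdec y
      have h1 : l (β (ρV d v) w) = l (β v w) := by
        calc l (β (ρV d v) w) = l (β (ρV d v) (ρV d w)) := by rw [hcon d hd w hw]
          _ = l (β v w) := by rw [h.eqv, hDU d hd]
      rw [map_sub, LinearMap.sub_apply, map_add, map_add,
        h00 _ (hV₀ d (Subgroup.mem_top d) v hv) y₀ hy₀, h00 v hv y₀ hy₀, zero_add, zero_add,
        map_sub, h1, sub_self]
    intro v
    obtain ⟨v₀, hv₀, w, hw, rfl⟩ := hdec v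
    rw [map_add, hv0 v₀ hv₀, hcon d hd w hw]
  intro w hw hr
  exact fpf_of hA hDA hNA W (fun n _ w hw => hW n (Subgroup.mem_top n) w hw) hirr hDW w hw
    fun d hd => hDR d hd w hr

/-- (xe, size 2) PROOF. If `β W W = 0` then for `w ∈ W`, `s ∈ R` the vector `s w - w` is in `Rad β l` (for
`v ∈ V₀`: `l (β (s w) v) = l (β (s w) (s v)) = l (s (β w v)) = l (β w v)`), so it is 0 (`hrad`), against `hR1`. -/
theorem J1b (h : Ltg p ρV ρU β) (R : Subgroup H) (l : Module.Dual (ZMod p) U)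
    (hRl : ∀ s ∈ R, FixL ρU l s) (V₀ W : Submodule (ZMod p) V) (hW : Ivt ρV ⊤ W)
    (hc : IsCompl V₀ W) (hR0 : ∀ s ∈ R, ∀ v ∈ V₀, ρV s v = v)
    (hR1 : ∃ s ∈ R, ∃ w ∈ W, ρV s w ≠ w) (hrad : ∀ w ∈ W, w ∈ Rad β l → w = 0) :
    ∃ w ∈ W, ∃ w' ∈ W, β w w' ≠ 0 := by
  by_contra hcon
  push Not at hcon
  have hdec : ∀ v : V, ∃ v₀ ∈ V₀, ∃ w ∈ W, v = v₀ + w := fun v => by
    have hv : v ∈ V₀ ⊔ W := hc.sup_eq_top ▸ Submodule.mem_top
    obtain ⟨y, hy, b, hb, rfl⟩ := Submodule.mem_sup.mp hv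
    exact ⟨y, hy, b, hb, rfl⟩
  obtain ⟨s, hs, w, hw, hne⟩ := hR1
  have hsw : ρV s w ∈ W := hW s (Subgroup.mem_top s) w hw
  have h2 : ρV s w - w = 0 := by
    apply hrad _ (W.sub_mem hsw hw)
    intro y
    obtain ⟨v, hv, w', hw', rfl⟩ := hdec y
    have h1 : l (β (ρV s w) v) = l (β w v) := by
      calc l (β (ρV s w) v) = l (β (ρV s w) (ρV s v)) := by rw [hR0 s hs v hv]
        _ = l (β w v) := by rw [h.eqv, hRl s hs]
    rw [map_sub, LinearMap.sub_apply, map_add, map_add, hcon _ hsw w' hw', hcon w hw w' hw',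
      add_zero, add_zero, map_sub, h1, sub_self]
  exact hne (sub_eq_zero.mp h2)

/-- (xf, size 4) PROOF. Suppose `β w v ≠ 0` for some `w ∈ W`, `v ∈ V₀`. The span of these vectors is a
non-zero `H`-invariant subspace of `U`, so it is `U`. For `v ∈ V₀` the map `W → U`, `w ↦ β w v` is
equivariant under `N` (`N` is trivial on `V₀`). `fiveW` for the group `↥N`, the spaces `↥W` and `U` and `β` on
`W × W` gives `β w w' = 0` for all `w, w' ∈ W`. -/
theorem J1c (h : Ltg p ρV ρU β) (hA : Ab A) (N : Subgroup H) (hNA : N ≤ A)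
    (V₀ W : Submodule (ZMod p) V) (hV₀ : Ivt ρV ⊤ V₀) (hW : Ivt ρV ⊤ W) (hWne : W ≠ ⊥)
    (hN0 : ∀ c ∈ N, ∀ v ∈ V₀, ρV c v = v) (hfull : FullS ρV W N)
    (hne : ∃ w ∈ W, ∃ w' ∈ W, β w w' ≠ 0) : ∀ w ∈ W, ∀ v ∈ V₀, β w v = 0 := by
  intro w hw v hv
  by_contra hwv
  obtain ⟨w₁, hw₁, w₂, hw₂, h12⟩ := hne
  apply h12
  -- the span of the values is everything
  have hI : ∀ g ∈ (⊤ : Subgroup H), ∀ u ∈ Submodule.span (ZMod p)
      {u : U | ∃ w ∈ W, ∃ v ∈ V₀, β w v = u}, ρU g u ∈ Submodule.span (ZMod p)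
      {u : U | ∃ w ∈ W, ∃ v ∈ V₀, β w v = u} := by
    intro g _ u hu
    refine Submodule.span_induction (p := fun u _ => ρU g u ∈
      Submodule.span (ZMod p) {u : U | ∃ w ∈ W, ∃ v ∈ V₀, β w v = u}) ?_ ?_ ?_ ?_ hu
    · rintro u ⟨w, hw, v, hv, rfl⟩
      rw [← h.eqv]
      exact Submodule.subset_span ⟨_, hW g (Subgroup.mem_top g) w hw, _,
        hV₀ g (Subgroup.mem_top g) v hv, rfl⟩
    · rw [map_zero]
      exact Submodule.zero_mem _
    · intro x y _ _ hx hy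
      rw [map_add]
      exact Submodule.add_mem _ hx hy
    · intro a x _ hx
      rw [map_smul]
      exact Submodule.smul_mem _ _ hx
  have hS : Submodule.span (ZMod p) {u : U | ∃ w ∈ W, ∃ v ∈ V₀, β w v = u} = ⊤ := by
    rcases h.irr _ hI with h1 | h1
    · exfalso
      apply hwv
      have h2 : β w v ∈ Submodule.span (ZMod p) {u : U | ∃ w ∈ W, ∃ v ∈ V₀, β w v = u} :=
        Submodule.subset_span ⟨w, hw, v, hv, rfl⟩
      rw [h1] at h2
      exact (Submodule.mem_bot _).1 h2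
    · exact h1
  have : Nontrivial W := Submodule.nontrivial_iff_ne_bot.2 hWne
  obtain ⟨hirr, m, t, hm, ht, hcW, hcN⟩ := hfull
  have hpN : ¬ p ∣ Nat.card N := fun hd => h.pH (hd.trans (Subgroup.card_subgroup_dvd_card N))
  let ρW : Representation (ZMod p) N W := (rs ρV W hW).comp N.subtype
  let ρU' : Representation (ZMod p) N U := ρU.comp N.subtype
  have hρW : ∀ (g : N) (w : W), ((ρW g w : W) : V) = ρV (g : H) w := fun g w => rfl
  have key := fiveW (p := p) (G := N) (W := W) (U := U) hpN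
    (fun a b => Subtype.ext (hA.com a (hNA a.2) b (hNA b.2))) ρW ρU'
    (by
      intro W' hW'
      have h1 := hirr (W'.map W.subtype) (Submodule.map_subtype_le W W') (by
        intro g hg w hw
        obtain ⟨w', hw', rfl⟩ := Submodule.mem_map.1 hw
        exact Submodule.mem_map.2 ⟨ρW ⟨g, hg⟩ w', hW' _ (Subgroup.mem_top _) w' hw', rfl⟩)
      rcases h1 with h1 | h1
      · left
        rw [eq_bot_iff]
        intro x hx
        have h2 : (x : V) ∈ W'.map W.subtype := Submodule.mem_map.2 ⟨x, hx, rfl⟩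
        rw [h1] at h2
        exact (Submodule.mem_bot _).2 (Subtype.ext ((Submodule.mem_bot _).1 h2))
      · right
        rw [eq_top_iff]
        intro x _
        have h2 : (x : V) ∈ W'.map W.subtype := by
          rw [h1]
          exact x.2
        obtain ⟨y, hy, hyx⟩ := Submodule.mem_map.1 h2
        have : y = x := Subtype.ext hyx
        rw [← this]
        exact hy)
    m t hm ht hcW
    (by
      rw [hcN]
      congr 1
      apply Nat.card_congr
      refine Equiv.subtypeEquivRight fun c => ?_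
      constructor
      · intro hc w
        exact Subtype.ext (hc w w.2)
      · intro hc w hw
        exact congrArg Subtype.val (hc ⟨w, hw⟩))
    (β.domRestrict₁₂ W W)
    (fun x => h.alt x)
    (fun g x y => h.eqv g x y)
    (by
      rw [eq_top_iff, ← hS]
      apply Submodule.span_mono
      rintro u ⟨w, hw, v, hv, rfl⟩
      refine ⟨(β.flip v).comp W.subtype, ?_, ⟨w, hw⟩, rfl⟩
      intro g w'
      change β (ρV g w') v = ρU g (β w' v)
      rw [← h.eqv, hN0 g g.2 v hv])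
  exact key ⟨w₁, hw₁⟩ ⟨w₂, hw₂⟩

omit [Finite H] in
private theorem xg_size (hA : Ab A) (N : Subgroup H)
    (hNA : N ≤ A) (l : Module.Dual (ZMod p) U) (hl : l ≠ 0)
    (W : Submodule (ZMod p) V) (hW : Ivt ρV ⊤ W)
    (hWne : W ≠ ⊥) (hfull : ∀ W' ≤ W, Ivt ρV N W' → W' = ⊥ ∨ W' = W)
    (hsize : ∀ c ∈ N, c ^ Nat.card (Orb ρU N l) = c) :
    Module.finrank (ZMod p) W ≤ Module.finrank (ZMod p) (Orb ρU N l) := by
  have hdf : Finite (Module.Dual (ZMod p) U) :=
    Finite.of_injective (fun l : Module.Dual (ZMod p) U => (l : U → ZMod p))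
      DFunLike.coe_injective
  have hWn : Nontrivial W := Submodule.nontrivial_iff_ne_bot.2 hWne
  have hlM : l ∈ Orb ρU N l := Submodule.subset_span ⟨1, N.one_mem, by rw [map_one]; rfl⟩
  have hMn : Nontrivial (Orb ρU N l) :=
    ⟨⟨l, hlM⟩, 0, fun h1 => hl (congrArg Subtype.val h1)⟩
  have hc1 : Nat.card (Orb ρU N l) = p ^ Module.finrank (ZMod p) (Orb ρU N l) := by
    rw [Module.natCard_eq_pow_finrank (K := ZMod p), Nat.card_zmod]
  have hc2 : Nat.card W = p ^ Module.finrank (ZMod p) W := by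
    rw [Module.natCard_eq_pow_finrank (K := ZMod p), Nat.card_zmod]
  have hf : 0 < Module.finrank (ZMod p) (Orb ρU N l) := Module.finrank_pos
  have h1 : Nat.card W ≤ Nat.card (Orb ρU N l) := by
    refine sizeW (p := p) ((rs ρV W hW).comp N.subtype) ?_ ?_ _ _ hf hc1 ?_
    · intro a b y
      have h2 : (a : H) * b = b * a := hA.com a (hNA a.2) b (hNA b.2)
      refine Subtype.ext ?_
      show ρV (a : H) (ρV (b : H) (y : V)) = ρV (b : H) (ρV (a : H) (y : V))
      rw [← Module.End.mul_apply, ← map_mul, h2, map_mul, Module.End.mul_apply]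
    · intro W' hW'
      have h2 : W'.map W.subtype ≤ W := by
        rintro _ ⟨x, _, rfl⟩
        exact x.2
      have h3 : Ivt ρV N (W'.map W.subtype) := by
        rintro n hn _ ⟨x, hx, rfl⟩
        exact ⟨_, hW' ⟨n, hn⟩ (Subgroup.mem_top _) x hx, rfl⟩
      rcases hfull _ h2 h3 with h4 | h4
      · left
        refine (Submodule.eq_bot_iff W').2 fun x hx => Subtype.ext ?_
        have h5 : (x : V) ∈ W'.map W.subtype := ⟨x, hx, rfl⟩
        rw [h4] at h5
        exact h5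
      · right
        refine Submodule.eq_top_iff'.2 fun x => ?_
        have h5 : (x : V) ∈ W'.map W.subtype := by
          rw [h4]
          exact x.2
        obtain ⟨y, hy, hyx⟩ := h5
        have h6 : y = x := Subtype.ext hyx
        rw [← h6]
        exact hy
    · intro n w
      have h2 : n ^ Nat.card (Orb ρU N l) = n := Subtype.ext (hsize n n.2)
      rw [h2]
  rw [hc1, hc2] at h1
  exact (Nat.pow_le_pow_iff_right (Fact.out : p.Prime).one_lt).1 h1

private theorem xg_ker (β : V →ₗ[ZMod p] V →ₗ[ZMod p] U)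
    (M : Submodule (ZMod p) (Module.Dual (ZMod p) U))
    (W : Submodule (ZMod p) V) (w : V) (hw : w ∈ W) (hw0 : w ≠ 0) (halt : β w w = 0)
    (hle : Module.finrank (ZMod p) W ≤ Module.finrank (ZMod p) M) :
    ∃ m ∈ M, m ≠ 0 ∧ ∀ x ∈ W, m (β w x) = 0 := by
  have hdf : Finite (Module.Dual (ZMod p) U) :=
    Finite.of_injective (fun l : Module.Dual (ZMod p) U => (l : U → ZMod p))
      DFunLike.coe_injective
  let Φ : M →ₗ[ZMod p] Module.Dual (ZMod p) W :=
    { toFun := fun m => ((m : Module.Dual (ZMod p) U) ∘ₗ β w) ∘ₗ W.subtype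
      map_add' := fun a b => rfl
      map_smul' := fun a b => rfl }
  have hΦ : ∀ (m : M) (x : W), Φ m x = (m : Module.Dual (ZMod p) U) (β w x) := fun _ _ => rfl
  by_cases hinj : Function.Injective Φ
  · exfalso
    have h1 := LinearMap.finrank_range_of_inj hinj
    have h2 : LinearMap.range Φ ≠ ⊤ := by
      intro h3
      have h4 : (⟨w, hw⟩ : W) = 0 := by
        rw [← Module.forall_dual_apply_eq_zero_iff (ZMod p)]
        intro φ
        have h5 : φ ∈ LinearMap.range Φ := by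
          rw [h3]
          exact Submodule.mem_top
        obtain ⟨m, rfl⟩ := h5
        rw [hΦ, halt, map_zero]
      exact hw0 (congrArg Subtype.val h4)
    have h3 := Submodule.finrank_lt h2
    rw [h1, Subspace.dual_finrank_eq] at h3
    exact absurd hle (not_le.2 h3)
  · rw [injective_iff_map_eq_zero] at hinj
    push Not at hinj
    obtain ⟨m, hm, hm0⟩ := hinj
    refine ⟨m, m.2, fun h => hm0 (Subtype.ext h), fun x hx => ?_⟩
    have h1 := hΦ m ⟨x, hx⟩
    rw [hm] at h1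
    exact h1.symm

/-- (xg, size 4) The case of one component. PROOF. `J1a`, `J1b`, `J1c`: `β` vanishes on `V₀ × V₀` and
`W × V₀`. Fix `0 ≠ w ∈ W` and let `M = Orb ρU N l`. By `sizeW` for `↥N` on `↥W` with `E = |M|` (`hsize`;
`M ≠ 0`, so `E = p ^ f`, `f > 0`): `|W| ≤ |M|`. The linear map `M → (dual of W)`, `l'' ↦ l'' (β w ·)`, has its
image in the forms which vanish at `w` (`alt`), fewer than `|W|` elements; so it is not injective: there is
`0 ≠ l'' ∈ M` with `w ∈ Rad β l''` (also `β w v = 0` for `v ∈ V₀`). `NotY` for `l''` gives `D`. `V₀ ≤ Rad β l''`, so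
`D` is trivial on `V₀`; `D` fixes `w ≠ 0`, so it is trivial on `W` (`fpf_of`); so `D = ⊥` by `Ltg.fai`. -/
theorem J1 (h : Ltg p ρV ρU β) (hA : Ab A) (hY : NotY ρV ρU β A) (N R : Subgroup H)
    (hNA : N ≤ A) (hNne : N ≠ ⊥) (l : Module.Dual (ZMod p) U) (hl : l ≠ 0)
    (hRl : ∀ s ∈ R, FixL ρU l s) (hfp : ∀ c ∈ N, ∀ u, u ≠ 0 → ρU c u = u → c = 1)
    (V₀ W : Submodule (ZMod p) V) (hV₀ : Ivt ρV ⊤ V₀) (hW : Ivt ρV ⊤ W) (hc : IsCompl V₀ W)
    (hWne : W ≠ ⊥) (hN0 : ∀ c ∈ N, ∀ v ∈ V₀, ρV c v = v) (hR0 : ∀ s ∈ R, ∀ v ∈ V₀, ρV s v = v)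
    (hfull : FullS ρV W N) (hR1 : ∃ s ∈ R, ∃ w ∈ W, ρV s w ≠ w)
    (hsize : ∀ c ∈ N, c ^ Nat.card (Orb ρU N l) = c) : False := by
  obtain ⟨h00, hrad⟩ := J1a h hA hY N hNA hNne l hl hfp V₀ W hV₀ hW hc hN0 hfull.1
  have hne := J1b h R l hRl V₀ W hW hc hR0 hR1 hrad
  have hW0 := J1c h hA N hNA V₀ W hV₀ hW hWne hN0 hfull hne
  have hanti : ∀ x y, β x y = - β y x := by
    intro x y
    have h1 := h.alt (x + y)
    rw [map_add, map_add, LinearMap.add_apply, LinearMap.add_apply, h.alt, h.alt, zero_add,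
      add_zero] at h1
    exact eq_neg_of_add_eq_zero_right h1
  have hdec : ∀ v : V, ∃ a ∈ V₀, ∃ b ∈ W, a + b = v := by
    intro v
    have h1 : v ∈ V₀ ⊔ W := by
      rw [hc.sup_eq_top]
      exact Submodule.mem_top
    exact Submodule.mem_sup.1 h1
  obtain ⟨w, hw, hw0⟩ := W.ne_bot_iff.1 hWne
  obtain ⟨m, _, hm0, hmW⟩ := xg_ker β (Orb ρU N l) W w hw hw0 (h.alt w)
    (xg_size hA N hNA l hl W hW hWne hfull.1 hsize)
  obtain ⟨D, hDn, hDA, hDne, hDU, hDrad⟩ := hY m hm0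
  have hwrad : w ∈ Rad β m := by
    intro x
    obtain ⟨a, ha, b, hb, rfl⟩ := hdec x
    rw [map_add, hW0 w hw a ha, zero_add]
    exact hmW b hb
  have hV₀rad : ∀ v ∈ V₀, v ∈ Rad β m := by
    intro v hv x
    obtain ⟨a, ha, b, hb, rfl⟩ := hdec x
    rw [map_add, h00 v hv a ha, zero_add, hanti, hW0 b hb v hv, neg_zero, map_zero]
  have hDW : ∀ d ∈ D, ∀ x ∈ W, ρV d x = x := by
    by_contra hcon
    push Not at hcon
    exact hw0 (fpf_of hA hDA hNA W (fun n _ x hx => hW n (Subgroup.mem_top n) x hx) hfull.1 hcon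
      w hw (fun d hd => hDrad d hd w hwrad))
  refine hDne ((Subgroup.eq_bot_iff_forall D).2 fun d hd => h.fai d fun v => ?_)
  obtain ⟨a, ha, b, hb, rfl⟩ := hdec v
  rw [map_add, hDrad d hd a (hV₀rad a ha), hDW d hd b hb]

omit [Finite V] in
/-- A property which is closed under sums holds on a supremum of subspaces. -/
private theorem xh_sup {n : ℕ} (W : Fin n → Submodule (ZMod p) V) (P : Fin n → Prop)
    (S : Submodule (ZMod p) V) (h : ∀ i, P i → W i ≤ S) : ⨆ i, ⨆ _ : P i, W i ≤ S :=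
  iSup_le fun i => iSup_le fun hi => h i hi

/-- The vectors fixed by the element `c`. -/
private def xh_fix (ρ : Representation (ZMod p) H V) (c : H) : Submodule (ZMod p) V :=
  LinearMap.ker (ρ c - LinearMap.id)

omit [Finite H] [Finite V] in
private theorem xh_mem_fix (ρ : Representation (ZMod p) H V) (c : H) (v : V) :
    v ∈ xh_fix ρ c ↔ ρ c v = v := by
  rw [xh_fix, LinearMap.mem_ker, LinearMap.sub_apply, LinearMap.id_apply, sub_eq_zero]

omit [Finite H] [Finite V] in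
private theorem xh_ivt {n : ℕ} (W : Fin n → Submodule (ZMod p) V) (P : Fin n → Prop)
    (hWi : ∀ i, Ivt ρV ⊤ (W i)) : Ivt ρV ⊤ (⨆ i, ⨆ _ : P i, W i) := by
  intro g hg w hw
  have h : (⨆ i, ⨆ _ : P i, W i) ≤ (⨆ i, ⨆ _ : P i, W i).comap (ρV g) := by
    refine xh_sup W P _ fun i hi w hw => ?_
    rw [Submodule.mem_comap]
    exact (le_iSup_of_le i (le_iSup_of_le hi le_rfl) : W i ≤ ⨆ i, ⨆ _ : P i, W i)
      (hWi i g hg w hw)
  exact h hw

omit [Finite V] in
/-- If `FullS` holds, not all elements of `N` are trivial. -/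
private theorem xh_nt {W : Submodule (ZMod p) V} {N : Subgroup H} (h : FullS ρV W N) :
    ∃ c ∈ N, ∃ w ∈ W, ρV c w ≠ w := by
  by_contra hc
  push Not at hc
  obtain ⟨_, m, t, hm, ht, _, hcN⟩ := h
  have h1 : Nat.card {c : N // ∀ w ∈ W, ρV (c : H) w = w} = Nat.card N :=
    Nat.card_congr (Equiv.subtypeUnivEquiv fun c => hc c c.2)
  rw [h1] at hcN
  have h2 : 0 < Nat.card N := Nat.card_pos
  have h3 : p ^ m - 1 = p ^ (m * t) - 1 := Nat.eq_of_mul_eq_mul_left h2 hcN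
  have hp : 1 < p := (Fact.out : p.Prime).one_lt
  have h4 : 0 < p ^ m := Nat.pow_pos (by omega)
  have h5 : 0 < p ^ (m * t) := Nat.pow_pos (by omega)
  have h6 : p ^ m = p ^ (m * t) := by omega
  have h7 : m = m * t := Nat.pow_right_injective hp h6
  nlinarith

/-- (xh, size 4) PROOF. Let `J` be the set of the `i` in the second case of `hW`. For `i ∈ J` `N` acts
non-trivially on `W i` (`FullS`: the number of the elements of `N` which are trivial on `W i` is less than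
`|N|`), so `hs` (with `x i = c` non-trivial on `W i`, 1 elsewhere) gives `c i ∈ N`, `c i ≠ 1`, trivial on all
`W j`, `j ≠ i`. If `i ≠ a, b` then `β (W a) (W b)` is fixed by `c i`, so it is 0 (`hfp`). As `β ≠ 0` and the `W i` span
`V` there are `a`, `b` with `β (W a) (W b) ≠ 0`, so `J ⊆ {a, b}`. `J` is not empty (`N ≠ ⊥` is faithful on `V`).
If `J = {a}`: `J1` with `W = W a`, `V₀ = ⨆ j ≠ a, W j`. If `J = {a, b}`, `a ≠ b`: `J2` with
`V₀ = ⨆ j ≠ a, b, W j` (`β (W i) (W j) = 0` unless `{i, j} = {a, b}`). -/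
theorem endX (h : Ltg p ρV ρU β) (hA : Ab A) (hY : NotY ρV ρU β A) (N R : Subgroup H)
    (hN : N.Normal) (hNA : N ≤ A) (hNne : N ≠ ⊥) (hcyc : IsCyclic N)
    (l : Module.Dual (ZMod p) U) (hl : l ≠ 0) (hRl : ∀ s ∈ R, FixL ρU l s)
    (hfp : ∀ c ∈ N, ∀ u, u ≠ 0 → ρU c u = u → c = 1) (n : ℕ)
    (W : Fin n → Submodule (ZMod p) V) (hWi : ∀ i, Ivt ρV ⊤ (W i)) (hWne : ∀ i, W i ≠ ⊥)
    (hind : iSupIndep W) (hsup : ⨆ i, W i = ⊤)
    (hW : ∀ i, ((∀ c ∈ N, ∀ w ∈ W i, ρV c w = w) ∧ ∀ s ∈ R, ∀ w ∈ W i, ρV s w = w) ∨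
      (FullS ρV (W i) N ∧ ∃ s ∈ R, ∃ w ∈ W i, ρV s w ≠ w))
    (hs : ∀ x : Fin n → H, (∀ i, x i ∈ N) →
      ∃ y ∈ N, ∀ i, ∀ w ∈ W i, ρV ((x i)⁻¹ * y) w = w)
    (hsize : ∀ c ∈ N, c ^ Nat.card (Orb ρU N l) = c) : False := by
  classical
  -- `β` vanishes off the components in `J`
  have hc : ∀ i, FullS ρV (W i) N → ∀ a b, a ≠ i → b ≠ i → ∀ x ∈ W a, ∀ y ∈ W b,
      β x y = 0 := by
    intro i hi a b ha hb x hx y hy
    obtain ⟨c, hcN, w, hw, hcw⟩ := xh_nt hi
    obtain ⟨z, hzN, hz⟩ := hs (fun j => if j = i then c else 1) (fun j => by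
      by_cases hj : j = i
      · simp [hj, hcN]
      · simp [hj, N.one_mem])
    have hz1 : ∀ j, j ≠ i → ∀ w ∈ W j, ρV z w = w := by
      intro j hj w hw
      have := hz j w hw
      simpa [hj] using this
    have hz2 : z ≠ 1 := by
      intro h1
      have h2 := hz i w hw
      rw [if_pos rfl, h1, mul_one] at h2
      apply hcw
      have h3 : ρV c (ρV c⁻¹ w) = w := by
        rw [← Module.End.mul_apply, ← map_mul, mul_inv_cancel, map_one, Module.End.one_apply]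
      rw [h2] at h3
      exact h3
    by_contra hxy
    refine hz2 (hfp z hzN _ hxy ?_)
    rw [← h.eqv, hz1 a ha x hx, hz1 b hb y hy]
  -- some element of `J`
  obtain ⟨c₀, hc₀, hc₀1⟩ : ∃ c ∈ N, c ≠ 1 := by
    by_contra hcon
    push Not at hcon
    exact hNne ((Subgroup.eq_bot_iff_forall N).2 hcon)
  obtain ⟨a, haJ⟩ : ∃ a, FullS ρV (W a) N ∧ ∃ s ∈ R, ∃ w ∈ W a, ρV s w ≠ w := by
    by_contra hcon
    push Not at hcon
    apply hc₀1
    apply h.fai
    intro v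
    rw [← xh_mem_fix]
    have h1 : (⨆ i, W i) ≤ xh_fix ρV c₀ := iSup_le fun i w hw => by
      rw [xh_mem_fix]
      rcases hW i with h2 | h2
      · exact h2.1 c₀ hc₀ w hw
      · obtain ⟨h3, s, hsR, w', hw', h4⟩ := h2
        exact absurd (hcon i h3 s hsR w' hw') h4
    rw [hsup] at h1
    exact h1 Submodule.mem_top
  -- `β ≠ 0`
  obtain ⟨a', b', hab⟩ : ∃ a' b', ∀ i, FullS ρV (W i) N → i = a' ∨ i = b' := by
    by_contra hcon
    push Not at hcon
    have h1 : ∀ a b, ∀ x ∈ W a, ∀ y ∈ W b, β x y = 0 := by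
      intro a b x hx y hy
      obtain ⟨i, hi, hia, hib⟩ := hcon a b
      exact hc i hi a b (Ne.symm hia) (Ne.symm hib) x hx y hy
    apply h.ne
    have h2 : ∀ a, ∀ x ∈ W a, ∀ y, β x y = 0 := by
      intro a x hx y
      have h3 : (⨆ i, W i) ≤ LinearMap.ker (β x) := iSup_le fun b y hy => by
        rw [LinearMap.mem_ker]
        exact h1 a b x hx y hy
      rw [hsup] at h3
      exact LinearMap.mem_ker.1 (h3 Submodule.mem_top)
    have h4 : (⨆ i, W i) ≤ LinearMap.ker β := iSup_le fun a x hx => by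
      rw [LinearMap.mem_ker]
      exact LinearMap.ext fun y => h2 a x hx y
    rw [hsup] at h4
    exact LinearMap.ext fun x => LinearMap.mem_ker.1 (h4 Submodule.mem_top)
  have hdis := fun (i : Fin n) => hind i
  by_cases hone : ∀ j, j ≠ a → ¬ FullS ρV (W j) N
  · -- one component
    have hj1 : ∀ j, j ≠ a → ((∀ c ∈ N, ∀ w ∈ W j, ρV c w = w) ∧
        ∀ s ∈ R, ∀ w ∈ W j, ρV s w = w) := by
      intro j hj
      rcases hW j with h1 | h1
      · exact h1
      · exact absurd h1.1 (hone j hj)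
    refine J1 h hA hY N R hNA hNne l hl hRl hfp (⨆ j, ⨆ _ : j ≠ a, W j) (W a)
      (xh_ivt W _ hWi) (hWi a) ?_ (hWne a) ?_ ?_ haJ.1 haJ.2 hsize
    · refine ⟨(hdis a).symm, ?_⟩
      rw [codisjoint_iff_le_sup, ← hsup]
      refine iSup_le fun i => ?_
      by_cases hi : i = a
      · subst hi
        exact le_sup_right
      · exact le_sup_of_le_left (le_iSup_of_le i (le_iSup_of_le hi le_rfl))
    · intro c hcN v hv
      rw [← xh_mem_fix]
      refine xh_sup W _ _ (fun j hj w hw => ?_) hv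
      rw [xh_mem_fix]
      exact (hj1 j hj).1 c hcN w hw
    · intro c hcN v hv
      rw [← xh_mem_fix]
      refine xh_sup W _ _ (fun j hj w hw => ?_) hv
      rw [xh_mem_fix]
      exact (hj1 j hj).2 c hcN w hw
  · -- two components
    push Not at hone
    obtain ⟨b, hba, hbJ⟩ := hone
    have hj1 : ∀ j, j ≠ a → j ≠ b → ((∀ c ∈ N, ∀ w ∈ W j, ρV c w = w) ∧
        ∀ s ∈ R, ∀ w ∈ W j, ρV s w = w) := by
      intro j hja hjb
      rcases hW j with h1 | h1
      · exact h1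
      · exfalso
        have e1 := hab a haJ.1
        have e2 := hab b hbJ
        have e3 := hab j h1.1
        rcases e1 with e1 | e1 <;> rcases e2 with e2 | e2 <;> rcases e3 with e3 | e3 <;>
          simp_all
    refine J2 h hA hY N hN hNA hcyc l hl (⨆ j, ⨆ _ : j ≠ a ∧ j ≠ b, W j) (W a) (W b)
      (xh_ivt W _ hWi) (hWi a) (hWi b) ?_ (hWne a) (hWne b) ?_ ?_ ?_ ?_ haJ.1 hbJ ?_
    · rw [eq_top_iff, ← hsup]
      refine iSup_le fun i => ?_
      by_cases hi : i = a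
      · subst hi
        exact le_sup_of_le_left le_sup_right
      · by_cases hi' : i = b
        · subst hi'
          exact le_sup_right
        · exact le_sup_of_le_left (le_sup_of_le_left
            (le_iSup_of_le i (le_iSup_of_le ⟨hi, hi'⟩ le_rfl)))
    · intro c hcN v hv
      rw [← xh_mem_fix]
      refine xh_sup W _ _ (fun j hj w hw => ?_) hv
      rw [xh_mem_fix]
      exact (hj1 j hj.1 hj.2).1 c hcN w hw
    · intro x hx y
      have h2 : ∀ i, i ≠ a ∧ i ≠ b → W i ≤ LinearMap.ker β := by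
        intro i hi x hx
        rw [LinearMap.mem_ker]
        have h3 : (⨆ j, W j) ≤ LinearMap.ker (β x) := iSup_le fun j y hy => by
          rw [LinearMap.mem_ker]
          by_cases hj : j = a
          · exact hc b hbJ i j hi.2 (by rw [hj]; exact Ne.symm hba) x hx y hy
          · exact hc a haJ.1 i j hi.1 hj x hx y hy
        rw [hsup] at h3
        exact LinearMap.ext fun y => LinearMap.mem_ker.1 (h3 Submodule.mem_top)
      have h4 := xh_sup W _ _ h2 hx
      rw [LinearMap.mem_ker] at h4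
      rw [h4, LinearMap.zero_apply]
    · exact hc b hbJ a a (Ne.symm hba) (Ne.symm hba)
    · exact hc a haJ.1 b b hba hba
    · intro x hx y hy
      obtain ⟨z, hzN, hz⟩ := hs (fun i => if i = a then x else y) (fun i => by
        by_cases hi : i = a
        · simp [hi, hx]
        · simp [hi, hy])
      refine ⟨z, hzN, ?_, ?_⟩
      · intro w hw
        have := hz a w hw
        simpa using this
      · intro w hw
        have := hz b w hw
        rw [if_neg hba] at this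
        exact this

end

end Pool.Agent.Nan
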