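import Pool.Agent.Nan.Td

/-! Finite fields and irreducible modules of abelian groups: modules `fa` .. `fz`. -/

set_option autoImplicit false

namespace Pool.Agent.Nan

section

variable {p : ℕ} [Fact p.Prime]

private theorem fa_field {G Y R : Type} [Group G] [AddCommGroup Y] [CommRing R] [IsDomain R]
    [Finite R] [Algebra (ZMod p) R] (χ : G →* R) (e : Y ≃+ R) (ρ : G → Y → Y)
    (h1 : ∀ a y, e (ρ a y) = χ a * e y)
    (h2 : ∀ K₁ : Subring R, (∀ a, χ a ∈ K₁) → K₁ = ⊤) :
    ∃ (K : Type) (_ : Field K) (_ : Finite K) (_ : CharP K p) (χ : G →* Kˣ) (e : Y ≃+ K),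
      (∀ a y, e (ρ a y) = ((χ a : Kˣ) : K) * e y) ∧
        ∀ K₁ : Subring K, (∀ a, ((χ a : Kˣ) : K) ∈ K₁) → K₁ = ⊤ := by
  classical
  have := Fintype.ofFinite R
  let _ : Field R := Fintype.fieldOfDomain R
  have hp : CharP R p :=
    charP_of_injective_algebraMap (algebraMap (ZMod p) R).injective p
  exact ⟨R, inferInstance, inferInstance, hp, χ.toHomUnits, e, fun a y => h1 a y,
    fun K₁ hK => h2 K₁ hK⟩

/-- (fa, size 4) An irreducible module of a commutative group is a finite field. PROOF. `K` = the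
algebra generated by the `ρ a` in `Module.End (ZMod p) Y` (`Algebra.adjoin`, as a type `↥K`; it is
commutative). For `0 ≠ z ∈ K` the kernel of `z` is invariant, so zero, so `z` is bijective, and its inverse
is a power of `z` (finite), so in `K`: `K` is a field. Fix `v ≠ 0`; `z ↦ z v` is injective on `K`, its image is
invariant and not zero, so it is everything; `e` is the inverse. A subring of `K` which contains the `ρ a`
contains the integers, so it contains the algebra over `ZMod p` which is generated by them. -/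
theorem irf {G Y : Type} [Group G] [AddCommGroup Y] [Module (ZMod p) Y] [Finite Y] [Nontrivial Y]
    (ρ : Representation (ZMod p) G Y) (hcomm : ∀ a b : G, ∀ y, ρ a (ρ b y) = ρ b (ρ a y))
    (hirr : Irrd ρ ⊤) :
    ∃ (K : Type) (_ : Field K) (_ : Finite K) (_ : CharP K p) (χ : G →* Kˣ) (e : Y ≃+ K),
      (∀ a y, e (ρ a y) = ((χ a : Kˣ) : K) * e y) ∧
        ∀ K₁ : Subring K, (∀ a, ((χ a : Kˣ) : K) ∈ K₁) → K₁ = ⊤ := by
  classical
  have hc : ∀ a ∈ Set.range (ρ : G → Module.End (ZMod p) Y), ∀ b ∈ Set.range (ρ : G → Module.End (ZMod p) Y),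
      a * b = b * a := by
    rintro _ ⟨a, rfl⟩ _ ⟨b, rfl⟩
    ext y
    exact hcomm a b y
  have hfE : Finite (Module.End (ZMod p) Y) :=
    Finite.of_injective (fun (z : Module.End (ZMod p) Y) => (z : Y → Y)) DFunLike.coe_injective
  let S := Algebra.adjoin (ZMod p) (Set.range (ρ : G → Module.End (ZMod p) Y))
  let instS : CommRing S := Algebra.adjoinCommRingOfComm (ZMod p) hc
  have hfS : Finite S := inferInstance
  have hmem : ∀ a : G, (ρ a : Module.End (ZMod p) Y) ∈ S :=
    fun a => Algebra.subset_adjoin ⟨a, rfl⟩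
  -- elements of `S` commute with the `ρ a`
  have hcom : ∀ (z : S) (a : G) (y : Y), (z : Module.End (ZMod p) Y) (ρ a y) = ρ a ((z : Module.End (ZMod p) Y) y) := by
    intro z a y
    have h1 : z * (⟨ρ a, hmem a⟩ : S) = (⟨ρ a, hmem a⟩ : S) * z := mul_comm _ _
    have h2 : ((z * (⟨ρ a, hmem a⟩ : S) : S) : Module.End (ZMod p) Y) =
        (((⟨ρ a, hmem a⟩ : S) * z : S) : Module.End (ZMod p) Y) := by rw [h1]
    have h3 := LinearMap.congr_fun h2 y
    exact h3
  have hker : ∀ (z : S), z ≠ 0 → ∀ y : Y, (z : Module.End (ZMod p) Y) y = 0 → y = 0 := by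
    intro z hz y hy
    rcases hirr (LinearMap.ker (z : Module.End (ZMod p) Y)) (by
      intro n _ w hw
      rw [LinearMap.mem_ker] at hw ⊢
      rw [hcom, hw, map_zero]) with h | h
    · have : y ∈ LinearMap.ker (z : Module.End (ZMod p) Y) := hy
      rw [h] at this
      exact (Submodule.mem_bot _).1 this
    · exfalso
      apply hz
      apply Subtype.ext
      exact LinearMap.ker_eq_top.1 h
  have hdom : IsDomain S := by
    have h1 : NoZeroDivisors S := by
      refine ⟨fun {a b} hab => ?_⟩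
      by_contra hcon
      push Not at hcon
      obtain ⟨y, hy⟩ := exists_ne (0 : Y)
      apply hy
      apply hker b hcon.2
      apply hker a hcon.1
      have h2 : ((a * b : S) : Module.End (ZMod p) Y) = 0 := by rw [hab]; rfl
      exact LinearMap.congr_fun h2 y
    have h2 : Nontrivial S := by
      refine ⟨0, 1, fun h => ?_⟩
      obtain ⟨y, hy⟩ := exists_ne (0 : Y)
      apply hy
      have h3 : ((0 : S) : Module.End (ZMod p) Y) = ((1 : S) : Module.End (ZMod p) Y) := by rw [h]
      exact (LinearMap.congr_fun h3 y).symm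
    exact NoZeroDivisors.to_isDomain S
  obtain ⟨v, hv⟩ := exists_ne (0 : Y)
  let φ : S →+ Y := AddMonoidHom.mk' (fun z => (z : Module.End (ZMod p) Y) v) (fun a b => rfl)
  have hφ : Function.Bijective φ := by
    constructor
    · rw [injective_iff_map_eq_zero]
      intro z hz
      by_contra hz0
      exact hv (hker z hz0 v hz)
    · have h1 : Submodule.map (Algebra.linearMap (ZMod p) (ZMod p)) ⊤ = ⊤ := by simp
      let W : Submodule (ZMod p) Y :=
        { carrier := {y | ∃ z : S, (z : Module.End (ZMod p) Y) v = y}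
          zero_mem' := ⟨0, rfl⟩
          add_mem' := by
            rintro _ _ ⟨a, rfl⟩ ⟨b, rfl⟩
            exact ⟨a + b, rfl⟩
          smul_mem' := by
            rintro c _ ⟨a, rfl⟩
            exact ⟨c • a, rfl⟩ }
      rcases hirr W (by
        rintro n _ _ ⟨z, rfl⟩
        exact ⟨⟨ρ n, hmem n⟩ * z, rfl⟩) with h | h
      · exfalso
        apply hv
        have : v ∈ W := ⟨1, rfl⟩
        rw [h] at this
        exact (Submodule.mem_bot _).1 this
      · intro y
        have : y ∈ W := by rw [h]; trivial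
        exact this
  let χ : G →* S := { toFun := fun a => ⟨ρ a, hmem a⟩, map_one' := by apply Subtype.ext; exact map_one ρ, map_mul' := fun a b => by apply Subtype.ext; exact map_mul ρ a b }
  refine fa_field (p := p) χ (AddEquiv.ofBijective φ hφ).symm (fun a y => ρ a y) ?_ ?_
  · intro a y
    rw [AddEquiv.symm_apply_eq]
    have h1 : φ ((AddEquiv.ofBijective φ hφ).symm y) = y :=
      (AddEquiv.ofBijective φ hφ).apply_symm_apply y
    show ρ a y = φ (χ a * (AddEquiv.ofBijective φ hφ).symm y)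
    conv_lhs => rw [← h1]
    rfl
  · intro K₁ hK₁
    rw [eq_top_iff]
    rintro ⟨z, hz⟩ -
    refine Algebra.adjoin_induction (p := fun z hz => (⟨z, hz⟩ : S) ∈ K₁) ?_ ?_ ?_ ?_ hz
    · rintro _ ⟨a, rfl⟩
      exact hK₁ a
    · intro r
      have h1 : (⟨algebraMap (ZMod p) (Module.End (ZMod p) Y) r, S.algebraMap_mem r⟩ : S) =
          ((r.val : ℕ) : S) := by
        apply Subtype.ext
        have h2 : (((r.val : ℕ) : S) : Module.End (ZMod p) Y) = ((r.val : ℕ) : Module.End (ZMod p) Y) := by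
          exact map_natCast S.subtype _
        rw [h2]
        show algebraMap (ZMod p) (Module.End (ZMod p) Y) r = _
        conv_lhs => rw [← ZMod.natCast_zmod_val r]
        exact map_natCast _ _
      rw [h1]
      exact natCast_mem K₁ _
    · intro x y hx hy h1 h2
      exact K₁.add_mem h1 h2
    · intro x y hx hy h1 h2
      exact K₁.mul_mem h1 h2

/-- (fb, size 2) PROOF. `irf`; `χ` is injective on `C`; a finite group which embeds in the units of a
field is cyclic. -/
theorem irr_cyc {G Y : Type} [Group G] [Finite G] [AddCommGroup Y] [Module (ZMod p) Y] [Finite Y]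
    [Nontrivial Y] (ρ : Representation (ZMod p) G Y)
    (hcomm : ∀ a b : G, ∀ y, ρ a (ρ b y) = ρ b (ρ a y)) (hirr : Irrd ρ ⊤) (C : Subgroup G)
    (hC : ∀ c ∈ C, (∀ y, ρ c y = y) → c = 1) : IsCyclic C := by
  obtain ⟨K, _, _, _, χ, e, he, -⟩ := irf ρ hcomm hirr
  refine isCyclic_of_injective_ringHom (((Units.coeHom K).comp χ).comp C.subtype) ?_
  rw [injective_iff_map_eq_one]
  rintro ⟨c, hc⟩ h
  apply Subtype.ext
  apply hC c hc
  intro y
  apply e.injective
  rw [he]
  have h1 : ((χ c : Kˣ) : K) = 1 := h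
  rw [h1, one_mul]

/-- (fb, size 3) PROOF. `irf`; `L` = the subring of `K` generated by the `χ n`, `n ∈ N` (finite domain, so a
field); `e` maps the span of the `ρ c l` onto `L * e l` (`e` is additive, and `ZMod p`-linear as
`ZMod p` is generated by 1), so it has `|L|` elements; `z ^ |L| = z` for `z ∈ L`. -/
theorem powY {G Y : Type} [Group G] [Finite G] [AddCommGroup Y] [Module (ZMod p) Y] [Finite Y]
    (ρ : Representation (ZMod p) G Y) (hcomm : ∀ a b : G, ∀ y, ρ a (ρ b y) = ρ b (ρ a y))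
    (hirr : Irrd ρ ⊤) (N : Subgroup G) (l : Y) (hl : l ≠ 0) (n : G) (hn : n ∈ N) (y : Y) :
    ρ (n ^ Nat.card (Submodule.span (ZMod p) {z : Y | ∃ c ∈ N, z = ρ c l})) y = ρ n y := by
  classical
  have hnt : Nontrivial Y := ⟨l, 0, hl⟩
  obtain ⟨K, _, _, _, χ, e, he, -⟩ := irf ρ hcomm hirr
  let W : Submodule (ZMod p) Y := Submodule.span (ZMod p) {z : Y | ∃ c ∈ N, z = ρ c l}
  let L : Subring K := Subring.closure {z : K | ∃ c ∈ N, z = ((χ c : Kˣ) : K)}
  have hlW : l ∈ W := Submodule.subset_span ⟨1, N.one_mem, by simp⟩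
  have hNW : ∀ c ∈ N, ∀ w ∈ W, ρ c w ∈ W := by
    intro c hc w hw
    refine Submodule.span_induction (p := fun w _ => ρ c w ∈ W) ?_ ?_ ?_ ?_ hw
    · rintro _ ⟨d, hd, rfl⟩
      exact Submodule.subset_span ⟨c * d, N.mul_mem hc hd, by rw [map_mul]; rfl⟩
    · rw [map_zero]
      exact W.zero_mem
    · intro x y _ _ hx hy
      rw [map_add]
      exact W.add_mem hx hy
    · intro a x _ hx
      rw [map_smul]
      exact W.smul_mem a hx
  have hLW : ∀ x ∈ L, ∀ w ∈ W, e.symm (x * e w) ∈ W := by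
    intro x hx
    refine Subring.closure_induction (p := fun x _ => ∀ w ∈ W, e.symm (x * e w) ∈ W)
      ?_ ?_ ?_ ?_ ?_ ?_ hx
    · rintro _ ⟨c, hc, rfl⟩ w hw
      rw [← he, e.symm_apply_apply]
      exact hNW c hc w hw
    · intro w _
      rw [zero_mul, map_zero]
      exact W.zero_mem
    · intro w hw
      rw [one_mul, e.symm_apply_apply]
      exact hw
    · intro x y _ _ hx hy w hw
      rw [add_mul, map_add]
      exact W.add_mem (hx w hw) (hy w hw)
    · intro x _ hx w hw
      rw [neg_mul, map_neg]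
      exact W.neg_mem (hx w hw)
    · intro x y _ _ hx hy w hw
      have h1 := hx _ (hy w hw)
      rwa [e.apply_symm_apply, ← mul_assoc] at h1
  have hel : e l ≠ 0 := fun h => hl (by rwa [EmbeddingLike.map_eq_zero_iff] at h)
  have hWL : ∀ w ∈ W, e w * (e l)⁻¹ ∈ L := by
    intro w hw
    refine Submodule.span_induction (p := fun w _ => e w * (e l)⁻¹ ∈ L) ?_ ?_ ?_ ?_ hw
    · rintro _ ⟨d, hd, rfl⟩
      rw [he, mul_assoc, mul_inv_cancel₀ hel, mul_one]
      exact Subring.subset_closure ⟨d, hd, rfl⟩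
    · rw [map_zero, zero_mul]
      exact L.zero_mem
    · intro x y _ _ hx hy
      rw [map_add, add_mul]
      exact L.add_mem hx hy
    · intro a x _ hx
      have h1 : a • x = a.val • x := by
        conv_lhs => rw [← ZMod.natCast_zmod_val a]
        rw [Nat.cast_smul_eq_nsmul]
      rw [h1, map_nsmul, nsmul_eq_mul, mul_assoc]
      exact L.mul_mem (natCast_mem L _) hx
  have hcard : Nat.card W = Nat.card L := by
    refine Nat.card_congr ⟨fun w => ⟨e w.1 * (e l)⁻¹, hWL w.1 w.2⟩,
      fun x => ⟨e.symm (x.1 * e l), hLW x.1 x.2 l hlW⟩, ?_, ?_⟩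
    · rintro ⟨w, hw⟩
      apply Subtype.ext
      show e.symm (e w * (e l)⁻¹ * e l) = w
      rw [mul_assoc, inv_mul_cancel₀ hel, mul_one, e.symm_apply_apply]
    · rintro ⟨x, hx⟩
      apply Subtype.ext
      show e (e.symm (x * e l)) * (e l)⁻¹ = x
      rw [e.apply_symm_apply, mul_assoc, mul_inv_cancel₀ hel, mul_one]
  have hpow : ∀ x ∈ L, x ^ Nat.card L = x := by
    intro x hx
    have := Fintype.ofFinite L
    let _ : Field L := Fintype.fieldOfDomain L
    have h1 : (⟨x, hx⟩ : L) ^ Fintype.card L = ⟨x, hx⟩ := FiniteField.pow_card _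
    rw [← Nat.card_eq_fintype_card] at h1
    have h2 := congrArg (Subtype.val : L → K) h1
    rwa [SubmonoidClass.coe_pow] at h2
  apply e.injective
  rw [he, he, map_pow, Units.val_pow_eq_pow_val]
  have h3 : Nat.card (Submodule.span (ZMod p) {z : Y | ∃ c ∈ N, z = ρ c l}) = Nat.card L := hcard
  rw [h3, hpow _ (Subring.subset_closure ⟨n, hn, rfl⟩)]

/-- (fb, size 2) PROOF. `irf`: `{z ∈ K | z ^ E = z}` is a subring (`E` is a power of `p`), it contains the
`χ n`, so it is `K`; the polynomial `X ^ E - X` has at most `E` zeros. -/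
theorem sizeW {G W : Type} [Group G] [AddCommGroup W] [Module (ZMod p) W] [Finite W]
    [Nontrivial W] (ρ : Representation (ZMod p) G W)
    (hcomm : ∀ a b : G, ∀ y, ρ a (ρ b y) = ρ b (ρ a y)) (hirr : Irrd ρ ⊤) (E f : ℕ) (hf : 0 < f)
    (hE : E = p ^ f) (h : ∀ n w, ρ (n ^ E) w = ρ n w) : Nat.card W ≤ E := by
  classical
  obtain ⟨K, _, _, _, χ, e, he, hK⟩ := irf ρ hcomm hirr
  have h1 : (iterateFrobenius K p f).eqLocus (RingHom.id K) = ⊤ := by
    apply hK
    intro a
    obtain ⟨w, hw⟩ := exists_ne (0 : W)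
    have hew : e w ≠ 0 := fun h => hw (by rwa [EmbeddingLike.map_eq_zero_iff] at h)
    have h2 := congrArg e (h a w)
    rw [he, he, map_pow, Units.val_pow_eq_pow_val] at h2
    have h3 := mul_right_cancel₀ hew h2
    show iterateFrobenius K p f _ = _
    rw [iterateFrobenius_def, ← hE, h3]
    rfl
  have h2 : ∀ x : K, x ^ E = x := by
    intro x
    have : x ∈ (iterateFrobenius K p f).eqLocus (RingHom.id K) := by
      rw [h1]
      trivial
    have h3 : iterateFrobenius K p f x = x := this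
    rwa [iterateFrobenius_def, ← hE] at h3
  have hE1 : 1 < E := by
    rw [hE]
    exact Nat.one_lt_pow hf.ne' (Fact.out : p.Prime).one_lt
  have := Fintype.ofFinite K
  have h3 : (Finset.univ : Finset K).card ≤ (Polynomial.X ^ E - Polynomial.X : Polynomial K).natDegree := by
    apply Polynomial.card_le_degree_of_subset_roots
    intro x _
    rw [Polynomial.mem_roots (FiniteField.X_pow_card_sub_X_ne_zero K hE1), Polynomial.IsRoot]
    simp [h2 x]
  rw [FiniteField.X_pow_card_sub_X_natDegree_eq K hE1, Finset.card_univ,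
    ← Nat.card_eq_fintype_card] at h3
  rwa [Nat.card_congr e.toEquiv]

section

variable {K : Type} [Field K] [Finite K] [CharP K p]

/-- (fc, size 2) PROOF. Linear independence of the distinct monoid homomorphisms `x ↦ x ^ (p ^ i)`,
`i < n` (`linearIndependent_monoidHom`); they are distinct: the unit group is cyclic of order
`p ^ n - 1`. Or: a polynomial of degree `≤ p ^ (n - 1) < |K|` with all elements of `K` as zeros is 0. -/
theorem frob_uni (n : ℕ) (hK : Nat.card K = p ^ n) (c : Fin n → K)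
    (h : ∀ x : K, ∑ i, c i * x ^ (p ^ (i : ℕ)) = 0) : ∀ i, c i = 0 := by
  classical
  have := Fintype.ofFinite K
  have hp : p.Prime := Fact.out
  let P : Polynomial K := ∑ i : Fin n, Polynomial.C (c i) * Polynomial.X ^ (p ^ (i : ℕ))
  have hP : P = 0 := by
    apply Polynomial.eq_zero_of_natDegree_lt_card_of_eval_eq_zero' P Finset.univ
    · intro x _
      simp only [P, Polynomial.eval_finsetSum, Polynomial.eval_mul, Polynomial.eval_C,
        Polynomial.eval_pow, Polynomial.eval_X]
      exact h x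
    · rw [Finset.card_univ, ← Nat.card_eq_fintype_card, hK]
      rcases Nat.eq_zero_or_pos n with rfl | hn
      · simp [P]
      · refine lt_of_le_of_lt (Polynomial.natDegree_sum_le_of_forall_le (n := p ^ (n - 1)) _ _
          fun i _ => ?_) (Nat.pow_lt_pow_right hp.one_lt (by omega))
        refine (Polynomial.natDegree_C_mul_X_pow_le _ _).trans ?_
        exact Nat.pow_le_pow_right hp.pos (by have := i.2; omega)
  intro i
  have h1 : P.coeff (p ^ (i : ℕ)) = c i := by
    simp only [P, Polynomial.finsetSum_coeff, Polynomial.coeff_C_mul_X_pow]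
    rw [Finset.sum_eq_single i]
    · simp
    · intro j _ hj
      rw [if_neg]
      intro h2
      exact hj (Fin.ext (Nat.pow_right_injective hp.two_le h2).symm)
    · intro h2
      exact absurd (Finset.mem_univ i) h2
  rw [← h1, hP, Polynomial.coeff_zero]

/-- (fc, size 3) PROOF. The additive maps `K → K` are the `ZMod p`-linear ones; there are
`p ^ (n * n)` of them. The maps `∑ i, c i x ^ (p ^ i)` are additive and pairwise different (`frob_uni`), there
are `(p ^ n) ^ n` of them. -/
theorem frob_ex (n : ℕ) (hK : Nat.card K = p ^ n) (f : K →+ K) :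
    ∃ c : Fin n → K, ∀ x, f x = ∑ i, c i * x ^ (p ^ (i : ℕ)) := by
  classical
  have := Fintype.ofFinite K
  have hp : p.Prime := Fact.out
  let _ : Algebra (ZMod p) K := ZMod.algebra K p
  have hn : Module.finrank (ZMod p) K = n := by
    have h1 := Module.card_eq_pow_finrank (K := ZMod p) (V := K)
    rw [ZMod.card, ← Nat.card_eq_fintype_card, hK] at h1
    exact (Nat.pow_right_injective hp.two_le h1).symm
  let b : Module.Basis (Fin n) (ZMod p) K := Module.finBasisOfFinrankEq (ZMod p) K hn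
  let T : (Fin n → K) → (K →+ K) := fun c => AddMonoidHom.mk' (fun x => ∑ i, c i * x ^ (p ^ (i : ℕ)))
    (by
      intro x y
      rw [← Finset.sum_add_distrib]
      refine Finset.sum_congr rfl fun i _ => ?_
      rw [add_pow_char_pow, mul_add])
  have hT : ∀ c x, T c x = ∑ i, c i * x ^ (p ^ (i : ℕ)) := fun c x => rfl
  have hlin : ∀ g g' : K →+ K, (∀ i, g (b i) = g' (b i)) → g = g' := by
    intro g g' h
    have h1 : g.toZModLinearMap p = g'.toZModLinearMap p := b.ext h
    ext x
    exact LinearMap.congr_fun h1 x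
  have hinj : Function.Injective fun (c : Fin n → K) (i : Fin n) => T c (b i) := by
    intro c c' h
    have h1 : T c = T c' := hlin _ _ fun i => congrFun h i
    have h2 := frob_uni n hK (fun i => c i - c' i) (fun x => by
      have h3 : T c x = T c' x := by rw [h1]
      rw [hT, hT] at h3
      simp only [sub_mul, Finset.sum_sub_distrib]
      rw [h3, sub_self])
    funext i
    exact sub_eq_zero.1 (h2 i)
  obtain ⟨c, hc⟩ := Finite.surjective_of_injective hinj fun i => f (b i)
  refine ⟨c, fun x => ?_⟩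
  rw [← hT, hlin (T c) f fun i => congrFun hc i]

/-- (fd, size 2) PROOF. `frob_ex` for `x ↦ b x y` gives coefficients `c i (y)`; they are additive in `y`
(`frob_uni`); `frob_ex` again. -/
theorem bil_ex (n : ℕ) (hK : Nat.card K = p ^ n) (b : K →+ K →+ K) :
    ∃ c : Fin n → Fin n → K, ∀ x y, b x y =
      ∑ i, ∑ j, c i j * x ^ (p ^ (i : ℕ)) * y ^ (p ^ (j : ℕ)) := by
  choose c hc using fun y : K => frob_ex (p := p) n hK (b.flip y)
  have hadd : ∀ (i : Fin n) (y y' : K), c (y + y') i = c y i + c y' i := by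
    intro i y y'
    have h := frob_uni n hK (fun i => c (y + y') i - (c y i + c y' i)) (fun x => by
      simp only [sub_mul, add_mul, Finset.sum_sub_distrib, Finset.sum_add_distrib]
      rw [← hc, ← hc, ← hc, map_add]
      simp) i
    exact sub_eq_zero.1 h
  choose d hd using fun i : Fin n => frob_ex (p := p) n hK (AddMonoidHom.mk' (fun y => c y i)
    (hadd i))
  refine ⟨fun i j => d i j, fun x y => ?_⟩
  have h1 : b x y = ∑ i, c y i * x ^ (p ^ (i : ℕ)) := hc y x
  rw [h1]
  refine Finset.sum_congr rfl fun i _ => ?_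
  have h2 : c y i = ∑ j, d i j * y ^ (p ^ (j : ℕ)) := hd i y
  rw [h2, Finset.sum_mul]
  refine Finset.sum_congr rfl fun j _ => ?_
  ring

/-- (fd, size 1) PROOF. `frob_uni` twice. -/
theorem bil_uni (n : ℕ) (hK : Nat.card K = p ^ n) (c : Fin n → Fin n → K)
    (h : ∀ x y : K, ∑ i, ∑ j, c i j * x ^ (p ^ (i : ℕ)) * y ^ (p ^ (j : ℕ)) = 0) :
    ∀ i j, c i j = 0 := by
  intro i j
  have h1 : ∀ y : K, ∀ i, ∑ j, c i j * y ^ (p ^ (j : ℕ)) = 0 := by
    intro y
    refine frob_uni n hK _ fun x => ?_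
    rw [← h x y]
    refine Finset.sum_congr rfl fun i _ => ?_
    rw [Finset.sum_mul]
    refine Finset.sum_congr rfl fun j _ => ?_
    ring
  exact frob_uni n hK (c i) (fun y => h1 y i) j

end

omit [Fact p.Prime] in
/-- (fe, size 3) PROOF. Let `q = p ^ m`, `s = 1 + q + ... + q ^ (t - 1)`, `p ^ i + p ^ j = 1 + k s`,
`k ≥ 1` (`j ≥ 1`). As `p ^ i + p ^ j - 1 ≤ p ^ (m t - 2) + p ^ (m t - 1) - 1 < q ^ t - 1 = (q - 1) s`: `k < q - 1`.
Modulo `q` (`s = 1` modulo `q`): `p ^ i + p ^ j = 1 + k` modulo `q` with `2 ≤ 1 + k < q`. If `i ≥ m` then also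
`j ≥ m` and the left side is 0 modulo `q`: impossible. So `i < m`. If `j < m` then (`i < j < m`)
`p ^ i + p ^ j < q`, but `1 + k s > q`: impossible. If `j ≥ m`: `p ^ i = 1 + k` (both less than `q`), so
`p ^ j = k (s - 1) = k q (1 + q + ... + q ^ (t - 2))`, `p ^ (j - m) = k (1 + q + ... + q ^ (t - 2))`; modulo `q`:
`p ^ (j - m) = k` modulo `q` and `0 < k < q`, so `j - m < m` and `p ^ (j - m) = k`, so
`1 + q + ... + q ^ (t - 2) = 1`, impossible for `t ≥ 3`. -/
theorem five_num (hp : p.Prime) (m t i j s : ℕ) (hm : 0 < m) (ht : 3 ≤ t)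
    (hs : s * (p ^ m - 1) = p ^ (m * t) - 1) (hij : i < j) (hj : j < m * t)
    (hd : s ∣ p ^ i + p ^ j - 1) : False := by
  obtain ⟨k, hk⟩ := hd
  have hp2 := hp.two_le
  have hq2 : 2 ≤ p ^ m := hp2.trans (Nat.le_self_pow hm.ne' p)
  have hi0 : 0 < p ^ i := pow_pos hp.pos i
  have hj0 : 2 ≤ p ^ j := hp2.trans (Nat.le_self_pow (by omega) p)
  -- the shape of `s`
  obtain ⟨q, hq⟩ : ∃ q, q = p ^ m := ⟨_, rfl⟩
  obtain ⟨u, hu, hu1⟩ : ∃ u, s = 1 + q + q ^ 2 * u ∧ 1 ≤ u := by
    refine ⟨∑ l ∈ Finset.range (t - 2), q ^ l, ?_, ?_⟩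
    · have h1 : (q - 1) * ∑ l ∈ Finset.range (t - 2), q ^ l = q ^ (t - 2) - 1 := by
        have := Nat.geomSum_eq (hq ▸ hq2) (t - 2)
        rw [this]
        have h9 := Nat.sub_dvd_pow_sub_pow q 1 (t - 2)
        rw [one_pow] at h9
        exact Nat.mul_div_cancel' h9
      have h2 : s * (q - 1) = q ^ t - 1 := by
        rw [hq, hs, pow_mul]
      have h3 : q ^ t = q ^ 2 * q ^ (t - 2) := by
        rw [← pow_add]
        congr 1
        omega
      have h4 : 1 ≤ q ^ (t - 2) := Nat.one_le_pow _ _ (by omega)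
      generalize ∑ l ∈ Finset.range (t - 2), q ^ l = U at h1 ⊢
      obtain ⟨r, rfl⟩ : ∃ r, q = r + 1 := ⟨q - 1, by omega⟩
      have hr : 0 < r := by omega
      simp only [Nat.add_sub_cancel] at h1 h2
      have h5 : (r + 1) ^ (t - 2) = r * U + 1 := by omega
      rw [h3, h5] at h2
      have h6 : s * r = (1 + (r + 1) + (r + 1) ^ 2 * U) * r := by
        rw [h2]
        have : (r + 1) ^ 2 * (r * U + 1) = (1 + (r + 1) + (r + 1) ^ 2 * U) * r + 1 := by ring
        omega
      exact Nat.eq_of_mul_eq_mul_right hr h6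
    · have h9 : (0 : ℕ) ∈ Finset.range (t - 2) := Finset.mem_range.2 (by omega)
      have h10 : 0 < ∑ l ∈ Finset.range (t - 2), q ^ l :=
        Finset.sum_pos (fun l _ => pow_pos (by omega) l) ⟨0, h9⟩
      exact h10
  have hij' : p ^ i < p ^ j := Nat.pow_lt_pow_right hp.one_lt hij
  have hs0 : 0 < s := by omega
  -- `0 < k < q - 1`
  have hk0 : 0 < k := by
    rcases Nat.eq_zero_or_pos k with rfl | h
    · omega
    · exact h
  have hk1 : k < q - 1 := by
    have h1 : 2 * p ^ j ≤ p ^ (m * t) := by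
      calc 2 * p ^ j ≤ p * p ^ j := Nat.mul_le_mul_right _ hp2
        _ = p ^ (j + 1) := by ring
        _ ≤ p ^ (m * t) := Nat.pow_le_pow_right hp.pos hj
    have h2 : s * k < s * (q - 1) := by
      rw [hq, hs]
      omega
    exact lt_of_mul_lt_mul_left h2 (Nat.zero_le s)
  have hsum : p ^ i + p ^ j = 1 + k + q * (k * (1 + q * u)) := by
    have : s * k = k + q * (k * (1 + q * u)) := by
      rw [hu]
      ring
    omega
  have hpow : ∀ l, m ≤ l → p ^ l = q * p ^ (l - m) := by
    intro l hl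
    rw [hq, ← pow_add]
    congr 1
    omega
  rcases le_or_gt m i with hi | hi
  · have h1 := hpow i hi
    have h2 := hpow j (by omega)
    have h3 : q ∣ 1 + k := by
      have h4 : q ∣ 1 + k + q * (k * (1 + q * u)) := by
        rw [← hsum, h1, h2, ← mul_add]
        exact dvd_mul_right _ _
      exact (Nat.dvd_add_left (dvd_mul_right _ _)).1 h4
    have h4 := Nat.le_of_dvd (by omega) h3
    omega
  · rcases le_or_gt m j with hj' | hj'
    · have h2 := hpow j hj'
      have hiq : p ^ i < q := by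
        rw [hq]
        exact Nat.pow_lt_pow_right hp.one_lt hi
      have h3 : p ^ i = 1 + k := by
        have h4 : (p ^ i + q * p ^ (j - m)) % q = p ^ i := by
          rw [Nat.add_mul_mod_self_left, Nat.mod_eq_of_lt hiq]
        have h5 : (1 + k + q * (k * (1 + q * u))) % q = 1 + k := by
          rw [Nat.add_mul_mod_self_left, Nat.mod_eq_of_lt (by omega)]
        rw [← h4, ← h5, ← h2, hsum]
      have h4 : p ^ (j - m) = k * (1 + q * u) := by
        have h5 : q * p ^ (j - m) = q * (k * (1 + q * u)) := by omega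
        exact Nat.eq_of_mul_eq_mul_left (by omega) h5
      rcases le_or_gt m (j - m) with h5 | h5
      · have h6 := hpow (j - m) h5
        have h7 : q ∣ k := by
          have h8 : q ∣ k + q * (k * u) := by
            have : k + q * (k * u) = k * (1 + q * u) := by ring
            rw [this, ← h4, h6]
            exact dvd_mul_right _ _
          exact (Nat.dvd_add_left (dvd_mul_right _ _)).1 h8
        have h9 := Nat.le_of_dvd hk0 h7
        omega
      · have h6 : p ^ (j - m) < q := by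
          rw [hq]
          exact Nat.pow_lt_pow_right hp.one_lt h5
        have h7 : q ≤ k * (1 + q * u) := by
          calc q = 1 * (q * 1) := by ring
            _ ≤ k * (1 + q * u) := Nat.mul_le_mul hk0
              ((Nat.mul_le_mul_left q hu1).trans (Nat.le_add_left _ _))
        omega
    · have h1 : 2 * p ^ j ≤ q := by
        calc 2 * p ^ j ≤ p * p ^ j := Nat.mul_le_mul_right _ hp2
          _ = p ^ (j + 1) := by ring
          _ ≤ q := by
            rw [hq]
            exact Nat.pow_le_pow_right hp.pos hj'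
      have h2 : q ≤ q * (k * (1 + q * u)) := by
        apply Nat.le_mul_of_pos_right
        positivity
      omega

/-- (ff, size 3) PROOF. `bil_ex` with `n = m t`. `b` is antisymmetric, so `c i j = - c j i`
(`bil_uni`). `c i i = 0`: clear for `p ≠ 2`; for `p = 2` the terms with `i ≠ j` in `b x x` cancel in pairs,
so `∑ i, c i i * (x ^ 2) ^ (p ^ i) = 0` for all `x`, every element of `K` is a square, `frob_uni`. For `i ≠ j` and
`x ∈ N`: `bil_uni` applied to `b (n x) (n y) - n b x y`: `c i j * (n ^ (p ^ i + p ^ j) - n) = 0`; if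
`c i j ≠ 0` then `n ^ (p ^ i + p ^ j - 1) = 1` for all `n ∈ N`, and `N` is cyclic, so `|N|` divides
`p ^ i + p ^ j - 1`: `five_num` (for `i < j` or `j < i`). -/
theorem five {K : Type} [Field K] [Finite K] [CharP K p] (m t : ℕ) (hm : 0 < m) (ht : 3 ≤ t)
    (hK : Nat.card K = p ^ (m * t)) (N : Subgroup Kˣ)
    (hN : Nat.card N * (p ^ m - 1) = p ^ (m * t) - 1) (b : K →+ K →+ K) (halt : ∀ x, b x x = 0)
    (hb : ∀ n ∈ N, ∀ x y : K, b ((n : K) * x) ((n : K) * y) = (n : K) * b x y) :
    ∀ x y, b x y = 0 := by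
  classical
  have hp : p.Prime := Fact.out
  obtain ⟨c, hc⟩ := bil_ex (p := p) (m * t) hK b
  have hanti : ∀ x y, b x y = - b y x := by
    intro x y
    have h := halt (x + y)
    rw [map_add b, AddMonoidHom.add_apply, map_add, map_add, halt, halt, zero_add, add_zero] at h
    exact eq_neg_of_add_eq_zero_left h
  have h1 : ∀ i j, c i j + c j i = 0 := by
    refine bil_uni (p := p) (m * t) hK (fun i j => c i j + c j i) fun x y => ?_
    have h2 : b x y + b y x = 0 := by rw [hanti x y]; simp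
    rw [hc, hc y x, Finset.sum_comm (f := fun i j => c i j * y ^ (p ^ (i : ℕ)) * x ^ (p ^ (j : ℕ))),
      ← Finset.sum_add_distrib] at h2
    rw [← h2]
    refine Finset.sum_congr rfl fun i _ => ?_
    rw [← Finset.sum_add_distrib]
    refine Finset.sum_congr rfl fun j _ => ?_
    ring
  -- the diagonal
  have hdiag : ∀ i, c i i = 0 := by
    by_cases h2 : p = 2
    · have h3 : ∀ x : K, ∑ i, c i i * (x ^ 2) ^ (p ^ (i : ℕ)) = 0 := by
        intro x
        have h4 := hc x x
        rw [halt, ← Finset.sum_product', ← Finset.diag_union_offDiag (Finset.univ : Finset (Fin (m * t))),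
          Finset.sum_union (Finset.disjoint_diag_offDiag _)] at h4
        have h5 : ∑ ij ∈ (Finset.univ : Finset (Fin (m * t))).offDiag,
            c ij.1 ij.2 * x ^ (p ^ (ij.1 : ℕ)) * x ^ (p ^ (ij.2 : ℕ)) = 0 := by
          refine Finset.sum_involution (fun ij _ => (ij.2, ij.1)) ?_ ?_ ?_ ?_
          · rintro ⟨i, j⟩ _
            have h6 := h1 i j
            show c i j * x ^ (p ^ (i : ℕ)) * x ^ (p ^ (j : ℕ)) +
              c j i * x ^ (p ^ (j : ℕ)) * x ^ (p ^ (i : ℕ)) = 0
            rw [show c i j * x ^ (p ^ (i : ℕ)) * x ^ (p ^ (j : ℕ)) +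
              c j i * x ^ (p ^ (j : ℕ)) * x ^ (p ^ (i : ℕ)) =
              (c i j + c j i) * x ^ (p ^ (i : ℕ)) * x ^ (p ^ (j : ℕ)) by ring, h6]
            ring
          · rintro ⟨i, j⟩ hij _ h6
            rw [Finset.mem_offDiag] at hij
            exact hij.2.2 (Prod.ext_iff.1 h6).2
          · rintro ⟨i, j⟩ hij
            rw [Finset.mem_offDiag] at hij ⊢
            exact ⟨Finset.mem_univ _, Finset.mem_univ _, fun h => hij.2.2 h.symm⟩
          · rintro ⟨i, j⟩ _
            rfl
        rw [h5, add_zero, Finset.sum_diag] at h4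
        rw [h4]
        refine Finset.sum_congr rfl fun i _ => ?_
        ring
      refine frob_uni (p := p) (m * t) hK (fun i => c i i) fun y => ?_
      obtain ⟨x, hx⟩ : ∃ x : K, x ^ 2 = y := by
        subst h2
        obtain ⟨x, hx⟩ := (Finite.injective_iff_surjective.1 (frobenius_inj K 2)) y
        exact ⟨x, by rw [← hx, frobenius_def]⟩
      rw [← hx]
      exact h3 x
    · intro i
      have h3 := h1 i i
      have h4 : (2 : K) ≠ 0 := by
        intro h5
        have h6 : ((2 : ℕ) : K) = 0 := by exact_mod_cast h5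
        rw [CharP.cast_eq_zero_iff K p 2] at h6
        exact h2 ((Nat.prime_dvd_prime_iff_eq hp Nat.prime_two).1 h6)
      have h5 : (2 : K) * c i i = 0 := by rw [← h3]; ring
      exact (mul_eq_zero.1 h5).resolve_left h4
  -- off the diagonal
  have hoff : ∀ i j : Fin (m * t), (i : ℕ) < j → c i j = 0 := by
    intro i j hij
    by_contra hne
    apply five_num hp m t i j (Nat.card N) hm ht hN hij j.2
    rw [← IsCyclic.exponent_eq_card, Monoid.exponent_dvd_iff_forall_pow_eq_one]
    rintro ⟨n, hn⟩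
    have h2 := bil_uni (p := p) (m * t) hK
      (fun i j => c i j * ((n : K) ^ (p ^ (i : ℕ)) * (n : K) ^ (p ^ (j : ℕ)) - n)) (fun x y => by
        have h3 := hb n hn x y
        rw [hc, hc x y, Finset.mul_sum] at h3
        rw [← sub_eq_zero, ← Finset.sum_sub_distrib] at h3
        rw [← h3]
        refine Finset.sum_congr rfl fun i _ => ?_
        rw [Finset.mul_sum, ← Finset.sum_sub_distrib]
        refine Finset.sum_congr rfl fun j _ => ?_
        rw [mul_pow, mul_pow]
        ring) i j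
    have h3 := sub_eq_zero.1 ((mul_eq_zero.1 h2).resolve_left hne)
    apply Subtype.ext
    apply Units.ext
    rw [SubmonoidClass.coe_pow, Units.val_pow_eq_pow_val]
    show (n : K) ^ (p ^ (i : ℕ) + p ^ (j : ℕ) - 1) = 1
    have hn0 : (n : K) ≠ 0 := n.ne_zero
    apply mul_left_cancel₀ hn0
    rw [mul_one, ← pow_succ']
    rw [← pow_add] at h3
    have h4 : 0 < p ^ (i : ℕ) := pow_pos hp.pos _
    rwa [show p ^ (i : ℕ) + p ^ (j : ℕ) - 1 + 1 = p ^ (i : ℕ) + p ^ (j : ℕ) by omega]
  have hall : ∀ i j, c i j = 0 := by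
    intro i j
    rcases lt_trichotomy (i : ℕ) (j : ℕ) with h | h | h
    · exact hoff i j h
    · have : i = j := Fin.ext h
      rw [this]
      exact hdiag j
    · have h2 := h1 i j
      rwa [hoff j i h, add_zero] at h2
  intro x y
  rw [hc]
  simp [hall]

/-- (fg, size 4) PROOF. Let `M` be the subspace spanned by the `ρU g u`, `M₁ ≤ M` a minimal non-zero
invariant subspace. `msk` (for `G = ⊤`): an invariant complement, so an equivariant projection
`π : U → M₁`. As the images of the equivariant maps `W → U` span `U`, `π ∘ f ≠ 0` for some such `f`; it is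
injective (`W` irreducible) and surjective (`M₁` minimal). The map `(π ∘ f)⁻¹ ∘ π : U → W` is equivariant and not
zero on `M₁ ≤ M`; if it were zero at `u` it would be zero on `M`. -/
theorem iso_sep {G W U : Type} [Group G] [Finite G] [AddCommGroup W] [Module (ZMod p) W]
    [Finite W] [AddCommGroup U] [Module (ZMod p) U] [Finite U] [Nontrivial W]
    (hp : ¬ p ∣ Nat.card G) (ρW : Representation (ZMod p) G W) (ρU : Representation (ZMod p) G U)
    (hirr : Irrd ρW ⊤)
    (hspan : Submodule.span (ZMod p) {u : U | ∃ f : W →ₗ[ZMod p] U,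
      (∀ g w, f (ρW g w) = ρU g (f w)) ∧ ∃ w, f w = u} = ⊤) (u : U) (hu : u ≠ 0) :
    ∃ f : U →ₗ[ZMod p] W, (∀ g x, f (ρU g x) = ρW g (f x)) ∧ f u ≠ 0 := by
  classical
  -- the invariant subspace generated by `u`
  let M : Submodule (ZMod p) U := Submodule.span (ZMod p) {x | ∃ g : G, x = ρU g u}
  have hspinv : ∀ (s : Set U), (∀ g : G, ∀ x ∈ s, ρU g x ∈ s) →
      Ivt ρU ⊤ (Submodule.span (ZMod p) s) := by
    intro s hs g _ x hx
    have : (Submodule.span (ZMod p) s).map (ρU g) ≤ Submodule.span (ZMod p) s := by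
      rw [Submodule.map_span_le]
      exact fun y hy => Submodule.subset_span (hs g y hy)
    exact this ⟨x, hx, rfl⟩
  have hM : Ivt ρU ⊤ M := hspinv _ (by
    rintro g _ ⟨g', rfl⟩
    exact ⟨g * g', by rw [map_mul]; rfl⟩)
  have huM : u ∈ M := Submodule.subset_span ⟨1, by rw [map_one]; rfl⟩
  have hM0 : M ≠ ⊥ := fun h => hu (by rw [h] at huM; exact (Submodule.mem_bot _).1 huM)
  let 𝒮 : Set (Submodule (ZMod p) U) := {M' | Ivt ρU ⊤ M' ∧ M' ≤ M ∧ M' ≠ ⊥}
  obtain ⟨M₁, hM₁⟩ := (Set.toFinite 𝒮).exists_minimal ⟨M, hM, le_rfl, hM0⟩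
  obtain ⟨hi1, hle1, hne1⟩ := hM₁.prop
  have hp' : ¬ p ∣ Nat.card (⊤ : Subgroup G) := by
    rwa [Subgroup.card_top]
  obtain ⟨M₂, hcompl, hi2⟩ := msk ρU ⊤ hp' M₁ hi1
  let π : U →ₗ[ZMod p] M₁ := M₁.projectionOnto M₂ hcompl
  have hπ1 : ∀ x ∈ M₁, ((π x : M₁) : U) = x := by
    intro x hx
    have := Submodule.projectionOnto_apply_left hcompl ⟨x, hx⟩
    exact congrArg Subtype.val this
  have hπ2 : ∀ x ∈ M₂, π x = 0 := by
    intro x hx
    exact (Submodule.projectionOnto_apply_eq_zero_iff hcompl).2 hx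
  have hπe : ∀ (g : G) (x : U), ((π (ρU g x) : M₁) : U) = ρU g (π x : M₁) := by
    intro g x
    have hx : x ∈ M₁ ⊔ M₂ := by
      rw [hcompl.sup_eq_top]
      trivial
    obtain ⟨a, ha, b, hb, rfl⟩ := Submodule.mem_sup.1 hx
    rw [map_add (ρU g), map_add π, map_add π, hπ2 b hb, hπ2 _ (hi2 g trivial b hb), add_zero,
      add_zero, hπ1 a ha, hπ1 _ (hi1 g trivial a ha)]
  -- some equivariant map `W → U` is not zero after `π`
  obtain ⟨φ, hφ, hφ0⟩ : ∃ φ : W →ₗ[ZMod p] U, (∀ g w, φ (ρW g w) = ρU g (φ w)) ∧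
      ∃ w, π (φ w) ≠ 0 := by
    by_contra hcon
    push Not at hcon
    have h1 : (⊤ : Submodule (ZMod p) U) ≤ LinearMap.ker π := by
      rw [← hspan, Submodule.span_le]
      rintro x ⟨f, hf, w, rfl⟩
      exact hcon f hf w
    obtain ⟨x, hx, hx0⟩ := M₁.ne_bot_iff.1 hne1
    apply hx0
    have h2 : x ∈ LinearMap.ker π := h1 trivial
    rw [← hπ1 x hx, LinearMap.mem_ker.1 h2]
    rfl
  let ψ : W →ₗ[ZMod p] M₁ := π ∘ₗ φ
  have hψe : ∀ (g : G) (w : W), ((ψ (ρW g w) : M₁) : U) = ρU g (ψ w : M₁) := by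
    intro g w
    show ((π (φ (ρW g w)) : M₁) : U) = _
    rw [hφ, hπe]
    rfl
  have hinj : Function.Injective ψ := by
    rw [← LinearMap.ker_eq_bot]
    rcases hirr (LinearMap.ker ψ) (by
      intro g _ w hw
      rw [LinearMap.mem_ker] at hw ⊢
      apply Subtype.ext
      rw [hψe, hw]
      exact map_zero _) with h | h
    · exact h
    · exfalso
      obtain ⟨w, hw⟩ := hφ0
      apply hw
      have : w ∈ LinearMap.ker ψ := by rw [h]; trivial
      exact this
  have hsurj : Function.Surjective ψ := by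
    let R : Submodule (ZMod p) U := (LinearMap.range ψ).map M₁.subtype
    have hR : R ∈ 𝒮 := by
      refine ⟨?_, ?_, ?_⟩
      · rintro g _ _ ⟨_, ⟨w, rfl⟩, rfl⟩
        exact ⟨ψ (ρW g w), ⟨ρW g w, rfl⟩, hψe g w⟩
      · rintro _ ⟨y, _, rfl⟩
        exact hle1 y.2
      · obtain ⟨w, hw⟩ := hφ0
        rw [Submodule.ne_bot_iff]
        exact ⟨(ψ w : M₁), ⟨ψ w, ⟨w, rfl⟩, rfl⟩, fun h => hw (Subtype.ext h)⟩
    have h1 : M₁ ≤ R := hM₁.le_of_le hR (by
      rintro _ ⟨y, _, rfl⟩
      exact y.2)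
    rintro ⟨x, hx⟩
    obtain ⟨y, ⟨w, hw⟩, hy⟩ := h1 hx
    refine ⟨w, ?_⟩
    rw [hw]
    exact Subtype.ext hy
  let E : W ≃ₗ[ZMod p] M₁ := LinearEquiv.ofBijective ψ ⟨hinj, hsurj⟩
  have hE : ∀ w, E w = ψ w := fun w => rfl
  refine ⟨E.symm.toLinearMap ∘ₗ π, ?_, ?_⟩
  · intro g x
    show E.symm (π (ρU g x)) = ρW g (E.symm (π x))
    rw [LinearEquiv.symm_apply_eq, hE]
    apply Subtype.ext
    rw [hψe, hπe, ← hE, E.apply_symm_apply]
  · intro h
    have h1 : π u = 0 := by
      have h2 : E.symm (π u) = 0 := h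
      rwa [LinearEquiv.map_eq_zero_iff] at h2
    have h2 : M ≤ LinearMap.ker π := by
      rw [Submodule.span_le]
      rintro _ ⟨g, rfl⟩
      show π (ρU g u) = 0
      apply Subtype.ext
      rw [hπe, h1]
      exact map_zero _
    obtain ⟨x, hx, hx0⟩ := M₁.ne_bot_iff.1 hne1
    apply hx0
    have h3 : x ∈ LinearMap.ker π := h2 (hle1 hx)
    rw [← hπ1 x hx, LinearMap.mem_ker.1 h3]
    rfl

/-- (fh, size 3) PROOF. Suppose `β x y = u ≠ 0`. `iso_sep` gives `f : U → W`. `irf` for `W`: `K`, `χ`, `e`.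
`b x y = e (f (β (e⁻¹ x) (e⁻¹ y)))`, `N` = the range of `χ`: `|N|` = `|G|` divided by the number of the elements
which act trivially. `five`. -/
theorem fiveW {G W U : Type} [Group G] [Finite G] [AddCommGroup W] [Module (ZMod p) W]
    [Finite W] [AddCommGroup U] [Module (ZMod p) U] [Finite U] [Nontrivial W]
    (hp : ¬ p ∣ Nat.card G) (hcomm : ∀ a b : G, a * b = b * a)
    (ρW : Representation (ZMod p) G W) (ρU : Representation (ZMod p) G U) (hirr : Irrd ρW ⊤)
    (m t : ℕ) (hm : 0 < m) (ht : 3 ≤ t) (hW : Nat.card W = p ^ (m * t))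
    (hG : Nat.card G * (p ^ m - 1) =
      Nat.card {g : G // ∀ w : W, ρW g w = w} * (p ^ (m * t) - 1))
    (β : W →ₗ[ZMod p] W →ₗ[ZMod p] U) (halt : ∀ x, β x x = 0)
    (heq : ∀ g x y, β (ρW g x) (ρW g y) = ρU g (β x y))
    (hspan : Submodule.span (ZMod p) {u : U | ∃ f : W →ₗ[ZMod p] U,
      (∀ g w, f (ρW g w) = ρU g (f w)) ∧ ∃ w, f w = u} = ⊤) : ∀ x y, β x y = 0 := by
  classical
  by_contra hcon
  push Not at hcon
  obtain ⟨x₀, y₀, hxy⟩ := hcon
  obtain ⟨f, hf, hfu⟩ := iso_sep hp ρW ρU hirr hspan (β x₀ y₀) hxy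
  have hcommW : ∀ a b : G, ∀ y, ρW a (ρW b y) = ρW b (ρW a y) := by
    intro a b y
    have h1 : ρW (a * b) y = ρW (b * a) y := by rw [hcomm]
    rwa [map_mul, map_mul] at h1
  obtain ⟨K, _, _, _, χ, e, he, -⟩ := irf ρW hcommW hirr
  let b : K →+ K →+ K := AddMonoidHom.mk' (fun x => AddMonoidHom.mk'
    (fun y => e (f (β (e.symm x) (e.symm y)))) (fun y y' => by
      rw [map_add, map_add, map_add, map_add])) (fun x x' => by
      ext y
      show e (f (β (e.symm (x + x')) (e.symm y))) = e (f (β (e.symm x) (e.symm y))) +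
        e (f (β (e.symm x') (e.symm y)))
      rw [map_add, map_add, LinearMap.add_apply, map_add, map_add])
  have hb : ∀ x y, b x y = e (f (β (e.symm x) (e.symm y))) := fun x y => rfl
  have hes : ∀ (g : G) (x : K), e.symm (((χ g : Kˣ) : K) * x) = ρW g (e.symm x) := by
    intro g x
    rw [AddEquiv.symm_apply_eq, he, e.apply_symm_apply]
  have hp' : p.Prime := Fact.out
  have hker : Nat.card χ.ker = Nat.card {g : G // ∀ w : W, ρW g w = w} := by
    refine Nat.card_congr (Equiv.subtypeEquivRight fun g => ?_)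
    rw [MonoidHom.mem_ker]
    constructor
    · intro h w
      apply e.injective
      rw [he, h, Units.val_one, one_mul]
    · intro h
      obtain ⟨w, hw⟩ := exists_ne (0 : W)
      have hew : e w ≠ 0 := fun h => hw (by rwa [EmbeddingLike.map_eq_zero_iff] at h)
      have h1 := he g w
      rw [h w] at h1
      apply Units.ext
      rw [Units.val_one]
      exact mul_right_cancel₀ hew (by rw [one_mul]; exact h1.symm)
  have hcard : Nat.card χ.ker * Nat.card χ.range = Nat.card G := by
    rw [← Subgroup.index_ker, mul_comm]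
    exact Subgroup.index_mul_card _
  have hN : Nat.card χ.range * (p ^ m - 1) = p ^ (m * t) - 1 := by
    rw [← hker, ← hcard, mul_assoc] at hG
    exact Nat.eq_of_mul_eq_mul_left Nat.card_pos hG
  have hK : Nat.card K = p ^ (m * t) := by
    rw [← hW]
    exact (Nat.card_congr e.toEquiv).symm
  have h0 := five (p := p) m t hm ht hK χ.range hN b (fun x => by
    rw [hb, halt, map_zero, map_zero]) (by
    rintro _ ⟨g, rfl⟩ x y
    rw [hb, hb, hes, hes, heq, hf, he])
  apply hfu
  have h1 := h0 (e x₀) (e y₀)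
  rw [hb, e.symm_apply_apply, e.symm_apply_apply] at h1
  rwa [EmbeddingLike.map_eq_zero_iff] at h1

end

end Pool.Agent.Nan
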