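import Pool.Agent.Nan.Ch

/-! The Fitting subgroup and the action on its Sylow subgroups: modules `ga` .. `gz`. -/

set_option autoImplicit false

namespace Pool.Agent.Nan

open Classical

open Pool.Agent.KB Pool.Agent.KB.ContrAux Pool.Agent.KBL Pool.Agent.KBZ Pool.Agent.KBU
  Pool.Agent.KBQ Pool.Agent.KBY

/-- The largest normal `p`-subgroup: the intersection of the Sylow `p`-subgroups. -/
def Op (p : ℕ) (G : Type) [Group G] : Subgroup G := ⨅ P : Sylow p G, (P : Subgroup G)

/-- The Fitting subgroup. -/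
def Fit (G : Type) [Group G] : Subgroup G :=
  ⨆ p : {p : ℕ // p ∈ (Nat.card G).primeFactors}, Op p G

section

variable {G : Type} [Group G] [Finite G]

/-- (ga, size 1) -/
theorem op_nor (p : ℕ) : (Op p G).Normal := by
  constructor
  intro x hx g
  rw [Op, Subgroup.mem_iInf] at hx ⊢
  intro P
  have h := hx (g⁻¹ • P)
  rw [Sylow.coe_subgroup_smul, Subgroup.mem_pointwise_smul_iff_inv_smul_mem, ← map_inv,
    inv_inv] at h
  exact h

/-- (ga, size 1) -/
theorem op_pgr (p : ℕ) : IsPGroup p (Op p G) := by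
  obtain ⟨P⟩ := (inferInstance : Nonempty (Sylow p G))
  exact P.isPGroup'.to_le (iInf_le _ P)

/-- (ga, size 1) PROOF. `nor_syl`. -/
theorem op_max (p : ℕ) (hp : p.Prime) (D : Subgroup G) (hD : D.Normal) (hD' : IsPGroup p D) :
    D ≤ Op p G := le_iInf fun Q => nor_syl p hp D hD hD' Q

/-- (ga, size 1) -/
theorem fit_nor : (Fit G).Normal := by
  have : ∀ p : {p : ℕ // p ∈ (Nat.card G).primeFactors}, (Op (p : ℕ) G).Normal :=
    fun p => op_nor _
  exact Subgroup.iSup_normal _

instance fit_normal : (Fit G).Normal := fit_nor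

/-- (ga, size 1) PROOF. If `p` does not divide `|G|` then `Op p G = ⊥`. -/
theorem op_fit (p : ℕ) (hp : p.Prime) : Op p G ≤ Fit G := by
  by_cases h : p ∣ Nat.card G
  · exact le_iSup (fun p : {p : ℕ // p ∈ (Nat.card G).primeFactors} => Op (p : ℕ) G)
      ⟨p, Nat.mem_primeFactors.2 ⟨hp, h, Nat.card_pos.ne'⟩⟩
  · have := Fact.mk hp
    obtain ⟨k, hk⟩ := IsPGroup.iff_card.1 (op_pgr (G := G) p)
    have h0 : k = 0 := by
      by_contra h0
      apply h
      refine dvd_trans ?_ (Subgroup.card_subgroup_dvd_card (Op p G))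
      rw [hk]
      exact dvd_pow_self p h0
    rw [h0, pow_zero] at hk
    rw [Subgroup.card_eq_one.1 hk]
    exact bot_le

/-- (ga, size 1) -/
theorem op_com (p q : ℕ) (hp : p.Prime) (hq : q.Prime) (hne : p ≠ q) (x y : G)
    (hx : x ∈ Op p G) (hy : y ∈ Op q G) : x * y = y * x := by
  have := Fact.mk hp
  have := Fact.mk hq
  exact Subgroup.commute_of_normal_of_disjoint _ _ (op_nor p) (op_nor q)
    (IsPGroup.disjoint_of_ne p q hne _ _ (op_pgr p) (op_pgr q)) x y hx hy

/-- (gb, size 2) `p` does not divide `|Fit G : Op p G|`. PROOF. `Fit G` is `Op p G ⊔ ⨆ q ≠ p, Op q G` and the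
order of the second group is prime to `p` (`csup_card`), the two groups commute. -/
theorem op_rel (p : ℕ) (hp : p.Prime) : ¬ p ∣ (Op p G).relIndex (Fit G) := by
  have := Fact.mk hp
  set S := (Nat.card G).primeFactors.erase p with hS
  have hSp : ∀ r ∈ S, r.Prime := fun r hr => Nat.prime_of_mem_primeFactors (Finset.mem_of_mem_erase hr)
  set K : Subgroup G := ⨆ r ∈ S, Op r G with hK
  have hcop : (Nat.card K).Coprime p := by
    refine csup_cop S (fun r => Op r G) hSp (fun r _ => op_pgr r) ?_ p ?_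
    · intro r hr r' hr' hne x hx y hy
      exact op_com r r' (hSp r hr) (hSp r' hr') hne x y hx hy
    · intro r hr hd
      exact Finset.ne_of_mem_erase hr ((Nat.prime_dvd_prime_iff_eq (hSp r hr) hp).1 hd)
  have hle : Fit G ≤ Op p G ⊔ K := by
    refine iSup_le fun r => ?_
    by_cases hr : (r : ℕ) = p
    · rw [hr]; exact le_sup_left
    · refine le_sup_of_le_right ?_
      exact le_iSup₂_of_le (r : ℕ) (Finset.mem_erase.2 ⟨hr, r.2⟩) le_rfl
  have := op_nor (G := G) p
  have h1 : (Op p G).relIndex (Op p G ⊔ K) = (Op p G).relIndex K := Subgroup.relIndex_sup_left ..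
  have h2 : (Op p G).relIndex (Fit G) ∣ (Op p G).relIndex (Op p G ⊔ K) :=
    ⟨_, (Subgroup.relIndex_mul_relIndex _ _ _ (op_fit p hp) hle).symm⟩
  intro hd
  have h3 : p ∣ Nat.card K := (hd.trans h2).trans (h1 ▸ Subgroup.relIndex_dvd_card _ _)
  exact hp.one_lt.ne' (Nat.eq_one_of_dvd_coprimes hcop h3 dvd_rfl)

/-- (gb, size 1) PROOF. `op_rel`, `Subgroup.relIndex_mul_index`. -/
theorem op_idx (p : ℕ) (hp : p.Prime) (h : ¬ p ∣ (Fit G).index) : ¬ p ∣ (Op p G).index := by
  rw [← Subgroup.relIndex_mul_index (op_fit (G := G) p hp), hp.dvd_mul]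
  exact fun h' => h'.elim (op_rel p hp) h

/-- (gb, size 2) PROOF. A nilpotent group is generated by its Sylow subgroups, which are characteristic,
so normal in `G` (`Sylow.characteristic_of_normal`, `Group.isNilpotent_of_finite_tfae`); `op_max`, `op_fit`. -/
theorem fit_nil (N : Subgroup G) (hN : N.Normal) (h : Group.IsNilpotent N) : N ≤ Fit G := by
  have h1 : ∀ (p : ℕ) (_ : Fact p.Prime) (P : Sylow p N), (P : Subgroup N).Normal :=
    (Group.isNilpotent_of_finite_tfae (G := N)).out 0 3 |>.1 h
  have h2 : ∀ p : ℕ, p.Prime → ∀ P : Sylow p N, (P : Subgroup N) ≤ (Fit G).subgroupOf N := by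
    intro p hp P
    have := Fact.mk hp
    have := h1 p ⟨hp⟩ P
    have : (P : Subgroup N).Characteristic := P.characteristic_of_normal this
    have h3 : ((P : Subgroup N).map N.subtype).Normal := inferInstance
    have h4 : IsPGroup p ((P : Subgroup N).map N.subtype) := P.isPGroup'.map _
    intro x hx
    rw [Subgroup.mem_subgroupOf]
    exact op_fit p hp (op_max p hp _ h3 h4 ⟨x, hx, rfl⟩)
  have h5 : Nat.card N ∣ Nat.card ((Fit G).subgroupOf N) := by
    rw [← Nat.factorization_prime_le_iff_dvd Nat.card_pos.ne' Nat.card_pos.ne']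
    intro p hp
    have := Fact.mk hp
    obtain ⟨P⟩ := (inferInstance : Nonempty (Sylow p N))
    rw [← hp.pow_dvd_iff_le_factorization Nat.card_pos.ne', ← P.card_eq_multiplicity]
    exact Subgroup.card_dvd_of_le (h2 p hp P)
  have h6 : (Fit G).subgroupOf N = ⊤ :=
    Subgroup.eq_top_of_card_eq _ (Nat.dvd_antisymm (Subgroup.card_subgroup_dvd_card _) h5)
  exact Subgroup.subgroupOf_eq_top.1 h6

/-- (gb, size 1) An element of `Fit G` fixes every class function on `Op p G`. PROOF. `Fit G` is generated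
by the `Op q G`; for `q ≠ p` `op_com`, for `q = p` `irr_conj`; `fxG` is a subgroup. -/
theorem fit_fx (p : ℕ) (hp : p.Prime) (χ : Op p G → ℂ) (hχ : χ ∈ Irr (Op p G)) :
    Fit G ≤ fxG (Op p G) (op_nor p) χ := by
  refine iSup_le fun q g hg => ?_
  rw [mem_fxG]
  intro x y hxy
  by_cases hq : (q : ℕ) = p
  · rw [hq] at hg
    have := Fintype.ofFinite (Op p G)
    have hc : IsConj x y := isConj_iff.2 ⟨⟨g, hg⟩, Subtype.ext hxy.symm⟩
    exact irr_conj hχ hc.symm
  · have h1 := op_com (q : ℕ) p (Nat.prime_of_mem_primeFactors q.2) hp hq g x hg x.2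
    have h2 : y = x := Subtype.ext (by rw [hxy, h1]; group)
    rw [h2]

/-- `D` acts non-trivially on the linear characters of `P`. -/
def ntG (P : Subgroup G) (D : Subgroup (G ⧸ Fit G)) : Prop :=
  ∃ g : G, (g : G ⧸ Fit G) ∈ D ∧ ∃ (f : P →* ℂˣ) (x y : P), (y : G) = g * x * g⁻¹ ∧ f y ≠ f x

/-- (gc) Maximal subgroups of a `p`-group are normal of index `p`. -/
theorem gc_coatom {P : Type} [Group P] [Finite P] (p : ℕ) [hp : Fact p.Prime] (hP : IsPGroup p P)
    (M : Subgroup P) (hM : IsCoatom M) : M.Normal ∧ M.index = p := by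
  have hnil : Group.IsNilpotent P := hP.isNilpotent
  have hnor : M.Normal :=
    Subgroup.NormalizerCondition.normal_of_coatom M
      (Group.normalizerCondition_of_isNilpotent (G := P)) hM
  refine ⟨hnor, ?_⟩
  have hnt : Nontrivial (P ⧸ M) := by
    rw [QuotientGroup.nontrivial_iff]
    exact hM.1
  have hQ : IsPGroup p (P ⧸ M) := hP.to_quotient M
  have hdvd : p ∣ Nat.card (P ⧸ M) := by
    rcases hQ.card_eq_or_dvd with h | h
    · exact absurd h (by
        have := Finite.one_lt_card (α := P ⧸ M)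
        omega)
    · exact h
  obtain ⟨z, hz⟩ := exists_prime_orderOf_dvd_card' p hdvd
  have hlt : M < (Subgroup.zpowers z).comap (QuotientGroup.mk' M) := by
    refine lt_of_le_of_ne ?_ ?_
    · intro x hx
      rw [Subgroup.mem_comap]
      have : QuotientGroup.mk' M x = 1 := (QuotientGroup.eq_one_iff x).2 hx
      rw [this]
      exact Subgroup.one_mem _
    · intro h
      obtain ⟨x, rfl⟩ := QuotientGroup.mk'_surjective M z
      have hx : x ∈ M := by
        rw [h, Subgroup.mem_comap]
        exact Subgroup.mem_zpowers _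
      have : QuotientGroup.mk' M x = 1 := (QuotientGroup.eq_one_iff x).2 hx
      rw [this, orderOf_one] at hz
      exact hp.out.one_lt.ne hz
  have htop := hM.2 _ hlt
  have hz' : Subgroup.zpowers z = ⊤ := by
    rw [eq_top_iff]
    intro y _
    obtain ⟨x, rfl⟩ := QuotientGroup.mk'_surjective M y
    have hx : x ∈ (Subgroup.zpowers z).comap (QuotientGroup.mk' M) := by
      rw [htop]
      trivial
    exact hx
  have hcard : Nat.card (P ⧸ M) = p := by
    rw [← hz, ← Nat.card_zpowers, hz']
    exact Subgroup.card_top.symm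
  exact hcard

/-- (gc) -/
theorem gc_comm_le {P : Type} [Group P] [Finite P] (p : ℕ) [hp : Fact p.Prime]
    (hP : IsPGroup p P) : commutator P ≤ frattini P := by
  unfold frattini Order.radical
  refine le_iInf₂ fun M hM => ?_
  obtain ⟨hn, hi⟩ := gc_coatom p hP M hM
  have hcyc : IsCyclic (P ⧸ M) := isCyclic_of_prime_card (p := p) hi
  rw [commutator_def, Subgroup.commutator_le]
  intro a _ b _
  rw [← QuotientGroup.eq_one_iff (N := M)]
  have hab : (a : P ⧸ M) * b = b * a := by
    let _ := IsCyclic.commGroup (α := P ⧸ M)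
    exact mul_comm _ _
  rw [commutatorElement_def, QuotientGroup.mk_mul, QuotientGroup.mk_mul, QuotientGroup.mk_mul,
    QuotientGroup.mk_inv, QuotientGroup.mk_inv, hab]
  group

/-- (gc) -/
theorem gc_pow_mem {P : Type} [Group P] [Finite P] (p : ℕ) [hp : Fact p.Prime]
    (hP : IsPGroup p P) (x : P) : x ^ p ∈ frattini P := by
  unfold frattini Order.radical
  rw [Subgroup.mem_iInf]
  intro M
  rw [Subgroup.mem_iInf]
  intro hM
  obtain ⟨hn, hi⟩ := gc_coatom p hP M hM
  rw [← QuotientGroup.eq_one_iff (N := M), QuotientGroup.mk_pow]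
  have h : (x : P ⧸ M) ^ Nat.card (P ⧸ M) = 1 := pow_card_eq_one'
  have hi' : Nat.card (P ⧸ M) = p := hi
  rwa [hi'] at h

/-- (gc) Coprime action: trivial modulo the Frattini subgroup, then trivial. -/
theorem gc_core {P H : Type} [Group P] [Finite P] [Group H] [Finite H] (p : ℕ)
    (hp : p.Prime) (hP : IsPGroup p P) (hH : ¬ p ∣ Nat.card H) (φ : H →* MulAut P)
    (h : ∀ g x, x⁻¹ * φ g x ∈ frattini P) : ∀ g x, φ g x = x := by
  have : Fact p.Prime := ⟨hp⟩
  -- a Sylow subgroup acts trivially
  have key : ∀ (q : ℕ) (hq : Fact q.Prime) (Q : Sylow q H), ∀ g ∈ (Q : Subgroup H), ∀ x,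
      φ g x = x := by
    intro q hq Q
    by_cases hpq : q = p
    · subst hpq
      intro g hg x
      have h1 : g = 1 := by
        by_contra hne
        have h2 := Q.isPGroup'
        have h3 : q ∣ orderOf (⟨g, hg⟩ : (Q : Subgroup H)) :=
          h2.dvd_orderOf (fun h4 => hne (congrArg Subtype.val h4))
        rw [Subgroup.orderOf_mk] at h3
        exact hH (h3.trans (orderOf_dvd_natCard g))
      rw [h1, map_one, MulAut.one_apply]
    · -- the fixed points
      let C : Subgroup P :=
        { carrier := {x | ∀ g ∈ (Q : Subgroup H), φ g x = x}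
          one_mem' := fun g _ => map_one _
          mul_mem' := fun {a b} ha hb g hg => by rw [map_mul, ha g hg, hb g hg]
          inv_mem' := fun {a} ha g hg => by rw [map_inv, ha g hg] }
      have hC : C ⊔ frattini P = ⊤ := by
        rw [eq_top_iff]
        intro x _
        let α : Type := {y : P // x⁻¹ * y ∈ frattini P}
        let act : MulAction (Q : Subgroup H) α :=
          { smul := fun g y => ⟨φ g y.1, by
              have h1 : x⁻¹ * φ g y.1 = (x⁻¹ * y.1) * (y.1⁻¹ * φ g y.1) := by group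
              rw [h1]
              exact Subgroup.mul_mem _ y.2 (h _ _)⟩
            one_smul := fun y => Subtype.ext (by
              show φ ((1 : (Q : Subgroup H)) : H) y.1 = y.1
              rw [Subgroup.coe_one, map_one, MulAut.one_apply])
            mul_smul := fun g g' y => Subtype.ext (by
              show φ ((g * g' : (Q : Subgroup H)) : H) y.1 = φ g (φ g' y.1)
              rw [Subgroup.coe_mul, map_mul, MulAut.mul_apply]) }
        have hcard : Nat.card α = Nat.card (frattini P) := by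
          refine Nat.card_congr ⟨fun y => ⟨x⁻¹ * y.1, y.2⟩, fun z => ⟨x * z.1, ?_⟩, ?_, ?_⟩
          · rw [inv_mul_cancel_left]
            exact z.2
          · intro y
            exact Subtype.ext (mul_inv_cancel_left _ _)
          · intro z
            exact Subtype.ext (inv_mul_cancel_left _ _)
        have hnd : ¬ q ∣ Nat.card α := by
          rw [hcard]
          intro hd
          obtain ⟨n, hn⟩ := (IsPGroup.iff_card (p := p)).1 (hP.to_subgroup (frattini P))
          rw [hn] at hd
          exact hpq ((Nat.prime_dvd_prime_iff_eq hq.out hp).1 (hq.out.dvd_of_dvd_pow hd))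
        obtain ⟨y, hy⟩ := Q.isPGroup'.nonempty_fixed_point_of_prime_not_dvd_card α hnd
        have hyC : y.1 ∈ C := by
          intro g hg
          have := hy ⟨g, hg⟩
          exact congrArg Subtype.val this
        have hx : x = y.1 * (x⁻¹ * y.1)⁻¹ := by group
        rw [hx]
        exact Subgroup.mul_mem _ (Subgroup.mem_sup_left hyC)
          (Subgroup.inv_mem _ (Subgroup.mem_sup_right y.2))
      have hC' := frattini_nongenerating hC
      intro g hg x
      have hx : x ∈ C := by
        rw [hC']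
        trivial
      exact hx g hg
  -- the kernel is everything
  have hker : (φ.ker).index = 1 := by
    by_contra hne
    obtain ⟨q, hq, hqd⟩ := Nat.exists_prime_and_dvd hne
    have : Fact q.Prime := ⟨hq⟩
    let Q : Sylow q H := default
    have hle : (Q : Subgroup H) ≤ φ.ker := by
      intro g hg
      rw [MonoidHom.mem_ker]
      ext x
      exact key q ⟨hq⟩ Q g hg x
    exact Q.not_dvd_index (hqd.trans (Subgroup.index_dvd_of_le hle))
  rw [Subgroup.index_eq_one] at hker
  intro g x
  have hg : g ∈ φ.ker := by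
    rw [hker]
    trivial
  rw [MonoidHom.mem_ker.1 hg, MulAut.one_apply]

/-- (gc, size 5) Coprime action: trivial on the linear characters, then trivial. PROOF. Let `q` be a prime,
`Q` a Sylow `q`-subgroup of `H` (`q ≠ p` if `Q ≠ ⊥`). For `x ∈ P`, `g ∈ Q` we have
`x⁻¹ * φ g x ∈ commutator P` (the homomorphisms to `ℂˣ` separate the elements of the finite abelian group
`Abelianization P`). So `Q` acts on the coset `x (commutator P)`, whose number of elements is a power of
`p`, so `Q` has a fixed point in it (`IsPGroup.card_modEq_card_fixedPoints`). So with `C` = the fixed points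
of `Q`: `C ⊔ commutator P = ⊤`. `commutator P ≤ frattini P` (`P` is nilpotent, so a maximal subgroup is
normal, of prime index, with abelian factor group), so `C = ⊤` (`frattini_nongenerating`). The Sylow
subgroups generate `H`. -/
theorem triv_of_lin {P H : Type} [Group P] [Finite P] [Group H] [Finite H] (p : ℕ)
    (hp : p.Prime) (hP : IsPGroup p P) (hH : ¬ p ∣ Nat.card H) (φ : H →* MulAut P)
    (h : ∀ (f : P →* ℂˣ) g x, f (φ g x) = f x) : ∀ g x, φ g x = x := by
  have : Fact p.Prime := ⟨hp⟩
  refine gc_core p hp hP hH φ fun g x => gc_comm_le p hP ?_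
  by_contra hne
  have h1 : (Abelianization.of (x⁻¹ * φ g x)) ≠ 1 := by
    intro h2
    apply hne
    rw [← Abelianization.ker_of P]
    exact h2
  obtain ⟨f, hf⟩ := CommGroup.exists_apply_ne_one_of_hasEnoughRootsOfUnity (Abelianization P) ℂ h1
  apply hf
  have h3 := h (f.comp Abelianization.of) g x
  simp only [MonoidHom.comp_apply] at h3
  rw [map_mul, map_mul, map_inv, map_inv, h3, inv_mul_cancel]

/-- (gd, size 4) Faithfulness. PROOF. Suppose not. Let `D'` be the preimage of `D` in `G`, `Q` a Sylow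
`q`-subgroup of `D'`. For a prime `p ≠ q` (dividing `|G|`; otherwise `Op p G = ⊥`) `Q` acts by conjugation on
`Op p G`, trivially on the linear characters, so trivially (`triv_of_lin`). `Op q G ≤ Fit G ≤ D'`, so
`Op q G ≤ Q` (`nor_syl` in `D'`). So `Fit G` normalizes `Q`. `D' = Fit G ⊔ Q` (`|D' : Fit G| = |D|` is a power of
`q`). So `Q` is normal in `D'`, so it is characteristic there, so normal in `G`, so `Q ≤ Op q G ≤ Fit G`,
`D' = Fit G`, `D = ⊥`. -/
theorem fit_fai (q : ℕ) (hq : q.Prime) (D : Subgroup (G ⧸ Fit G)) (hD : D.Normal)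
    (hD' : IsPGroup q D) (hne : D ≠ ⊥) :
    ∃ p : {p : ℕ // p ∈ (Nat.card G).primeFactors}, (p : ℕ) ≠ q ∧ ntG (Op p G) D := by
  by_contra hcon
  push Not at hcon
  apply hne
  have := Fact.mk hq
  set D' : Subgroup G := D.comap (QuotientGroup.mk' (Fit G)) with hDdef
  have hDn : D'.Normal := hD.comap _
  have hFD : Fit G ≤ D' := by
    intro x hx
    rw [hDdef, Subgroup.mem_comap, QuotientGroup.mk'_apply, (QuotientGroup.eq_one_iff x).2 hx]
    exact D.one_mem
  obtain ⟨Q⟩ := (inferInstance : Nonempty (Sylow q D'))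
  set Q' : Subgroup G := (Q : Subgroup D').map D'.subtype with hQ'
  have hQD : Q' ≤ D' := Subgroup.map_subtype_le _
  have hQp : IsPGroup q Q' := Q.isPGroup'.map _
  -- `Q'` commutes with `Op p G`
  have c1 : ∀ p : ℕ, p.Prime → p ≠ q → ∀ g ∈ Q', ∀ x ∈ Op p G, g * x * g⁻¹ = x := by
    intro p hp hpq g hg x hx
    have := Fact.mk hp
    by_cases hpG : p ∣ Nat.card G
    · have hnt : ¬ ntG (Op p G) D :=
        hcon ⟨p, Nat.mem_primeFactors.2 ⟨hp, hpG, Nat.card_pos.ne'⟩⟩ hpq
      have := op_nor (G := G) p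
      have hcard : ¬ p ∣ Nat.card Q' := by
        obtain ⟨k, hk⟩ := IsPGroup.iff_card.1 hQp
        rw [hk]
        intro hd
        exact hpq ((Nat.prime_dvd_prime_iff_eq hp hq).1 (hp.dvd_of_dvd_pow hd))
      have := triv_of_lin p hp (op_pgr (G := G) p) hcard
        ((MulAut.conjNormal (H := Op p G)).comp Q'.subtype) (by
          intro f g x
          by_contra hf
          apply hnt
          refine ⟨(g : G), ?_, f, x, _, ?_, hf⟩
          · exact hQD g.2
          · rw [MonoidHom.comp_apply, MulAut.conjNormal_apply, Subgroup.coe_subtype]) ⟨g, hg⟩ ⟨x, hx⟩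
      have := congrArg Subtype.val this
      rw [MonoidHom.comp_apply, MulAut.conjNormal_apply, Subgroup.coe_subtype] at this
      exact this
    · obtain ⟨k, hk⟩ := IsPGroup.iff_card.1 (op_pgr (G := G) p)
      have h0 : k = 0 := by
        by_contra h0
        apply hpG
        refine dvd_trans ?_ (Subgroup.card_subgroup_dvd_card (Op p G))
        rw [hk]
        exact dvd_pow_self p h0
      rw [h0, pow_zero] at hk
      rw [Subgroup.card_eq_one.1 hk, Subgroup.mem_bot] at hx
      rw [hx]; group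
  -- `Op q G ≤ Q'`
  have c2 : Op q G ≤ Q' := by
    have := op_nor (G := G) q
    have h1 : ((Op q G).subgroupOf D').Normal := inferInstance
    have h2 : IsPGroup q ((Op q G).subgroupOf D') :=
      (op_pgr (G := G) q).comap_subtype
    have h3 := nor_syl q hq _ h1 h2 Q
    intro x hx
    have hxD : x ∈ D' := hFD (op_fit q hq hx)
    exact ⟨⟨x, hxD⟩, h3 (Subgroup.mem_subgroupOf.2 hx), rfl⟩
  -- `Fit G` normalizes `Q'`
  have c3 : Fit G ≤ Subgroup.normalizer (Q' : Set G) := by
    refine iSup_le fun r => ?_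
    by_cases hr : (r : ℕ) = q
    · rw [hr]; exact c2.trans Subgroup.le_normalizer
    · intro x hx
      rw [Subgroup.mem_normalizer_iff]
      have hcm : ∀ g ∈ Q', x * g * x⁻¹ = g := by
        intro g hg
        have := c1 r (Nat.prime_of_mem_primeFactors r.2) hr g hg x hx
        have h2 : g * x = x * g := by rw [← mul_inv_eq_iff_eq_mul]; exact this
        rw [← h2]; group
      intro g
      constructor
      · intro hg
        rw [hcm g hg]; exact hg
      · intro hg
        have h1 := hcm _ hg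
        have h2 : x * g * x⁻¹ = g := by
          have h3 : x * (x * g * x⁻¹) * x⁻¹ = x * g * x⁻¹ := h1
          have h4 := mul_right_cancel h3
          exact mul_left_cancel h4
        rwa [h2] at hg
  -- `D' = Fit G ⊔ Q'`
  have c4 : D' ≤ Fit G ⊔ Q' := by
    have e1 : (Fit G ⊔ Q').relIndex D' ∣ (Fit G).relIndex D' :=
      Subgroup.relIndex_dvd_of_le_left _ le_sup_left
    have e2 : (Fit G ⊔ Q').relIndex D' ∣ Q'.relIndex D' :=
      Subgroup.relIndex_dvd_of_le_left _ le_sup_right
    have e3 : (Fit G).relIndex D' = Nat.card D := by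
      have : Fit G = (⊥ : Subgroup (G ⧸ Fit G)).comap (QuotientGroup.mk' (Fit G)) := by
        ext x
        rw [Subgroup.mem_comap, Subgroup.mem_bot, QuotientGroup.mk'_apply, QuotientGroup.eq_one_iff]
      conv_lhs => rw [this]
      rw [Subgroup.relIndex_comap, hDdef,
        Subgroup.map_comap_eq_self_of_surjective (QuotientGroup.mk'_surjective _),
        Subgroup.relIndex_bot_left]
    have e4 : Q'.relIndex D' = (Q : Subgroup D').index := by
      rw [Subgroup.relIndex, hQ']
      congr 1
      exact Subgroup.comap_map_eq_self_of_injective D'.subtype_injective _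
    obtain ⟨k, hk⟩ := IsPGroup.iff_card.1 hD'
    rw [e3, hk] at e1
    rw [e4] at e2
    have h5 : ¬ q ∣ (Q : Subgroup D').index := Q.not_dvd_index
    obtain ⟨j, -, hj⟩ := (Nat.dvd_prime_pow hq).1 e1
    have h6 : (Fit G ⊔ Q').relIndex D' = 1 := by
      rcases Nat.eq_zero_or_pos j with h | h
      · rw [hj, h, pow_zero]
      · exfalso
        apply h5
        refine dvd_trans ?_ e2
        rw [hj]
        exact dvd_pow_self q h.ne'
    exact Subgroup.relIndex_eq_one.1 h6
  have c5 : D' ≤ Subgroup.normalizer (Q' : Set G) := c4.trans (sup_le c3 Subgroup.le_normalizer)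
  have c6 : (Q : Subgroup D').Normal := by
    constructor
    intro x hx g
    have h1 := (Subgroup.mem_normalizer_iff.1 (c5 g.2) (x : G)).1 ⟨x, hx, rfl⟩
    obtain ⟨y, hy, hy'⟩ := h1
    have : y = g * x * g⁻¹ := Subtype.ext hy'
    rw [← this]; exact hy
  have : (Q : Subgroup D').Characteristic := Q.characteristic_of_normal c6
  have c7 : Q'.Normal := inferInstanceAs ((Q : Subgroup D').map D'.subtype).Normal
  have c8 : D' ≤ Fit G :=
    c4.trans (sup_le le_rfl ((op_max q hq Q' c7 hQp).trans (op_fit q hq)))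
  rw [eq_bot_iff]
  intro d hd
  obtain ⟨g, rfl⟩ := QuotientGroup.mk'_surjective (Fit G) d
  rw [Subgroup.mem_bot, QuotientGroup.mk'_apply, QuotientGroup.eq_one_iff]
  exact c8 hd

private theorem ge_sup (p : ℕ) (hp : p.Prime) :
    Fit G ≤ Op p G ⊔ Subgroup.centralizer (Op p G : Set G) := by
  refine iSup_le fun q => ?_
  have hq : (q : ℕ).Prime := Nat.prime_of_mem_primeFactors q.2
  by_cases h : (q : ℕ) = p
  · rw [h]
    exact le_sup_left
  · refine le_trans (fun x hx => ?_) le_sup_right
    rw [Subgroup.mem_centralizer_iff]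
    intro y hy
    exact op_com p q hp hq (Ne.symm h) y x hy hx

private theorem ge_com (p : ℕ) (hp : p.Prime) (k : G) (hk : k ∈ Fit G)
    (hc : (orderOf k).Coprime (Nat.card (Op p G))) (x : G) (hx : x ∈ Op p G) :
    k * x * k⁻¹ = x := by
  have hN : (Op p G).Normal := op_nor p
  have h1 : k ∈ ((Op p G ⊔ Subgroup.centralizer (Op p G : Set G) : Subgroup G) : Set G) :=
    ge_sup p hp hk
  rw [Subgroup.normal_mul] at h1
  obtain ⟨n, hn, c, hcc, hnc⟩ := Set.mem_mul.1 h1
  have hn' : n ∈ Op p G := hn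
  have hc' : c ∈ Subgroup.centralizer (Op p G : Set G) := hcc
  have hcomm : Commute n c := Subgroup.mem_centralizer_iff.1 hc' n hn'
  have h2 : n ^ orderOf k * c ^ orderOf k = 1 := by
    rw [← hcomm.mul_pow, hnc, pow_orderOf_eq_one]
  have h3 : n ^ orderOf k ∈ Subgroup.centralizer (Op p G : Set G) := by
    rw [eq_inv_of_mul_eq_one_left h2]
    exact inv_mem (pow_mem hc' _)
  have h4 : (orderOf k).Coprime (orderOf n) :=
    Nat.Coprime.coprime_dvd_right (Subgroup.orderOf_dvd_natCard _ hn') hc
  obtain ⟨j, hj⟩ := exists_pow_eq_self_of_coprime h4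
  have h5 : n ∈ Subgroup.centralizer (Op p G : Set G) := by
    rw [← hj]
    exact pow_mem h3 _
  have h6 : k ∈ Subgroup.centralizer (Op p G : Set G) := by
    rw [← hnc]
    exact mul_mem h5 hc'
  have h7 := Subgroup.mem_centralizer_iff.1 h6 x hx
  rw [← h7, mul_inv_cancel_right]

/-- (ge, size 4) PROOF. `|Op p G|` is prime to its index (`op_idx`), so there is a complement `K`
(`Subgroup.exists_right_complement'_of_coprime`): every `g` is uniquely `y * k`, `y ∈ Op p G`, `k ∈ K`, and
`g ↦ k` is a homomorphism (its kernel is `Op p G`). `φ' g` = conjugation with `k` on `Op p G`. `Fit G` is in the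
kernel of `φ'`: if `g = y * k ∈ Op q G`, `q ≠ p`, then the order of `g` is prime to `p` and ... `k = y⁻¹ g ∈ Fit G`
is of order prime to `p`, and an element of `Fit G` of order prime to `p` commutes with `Op p G` (it is a
product of commuting elements of the `Op q G`, its `p`-part is trivial). So `φ'` factors through `G ⧸ Fit G`. -/
theorem act (p : ℕ) (hp : p.Prime) (h : ¬ p ∣ (Fit G).index) :
    ∃ φ : (G ⧸ Fit G) →* MulAut (Op p G), ∀ g : G, ∃ y : Op p G, ∀ x z : Op p G,
      (z : G) = g * x * g⁻¹ → z = y * φ (g : G ⧸ Fit G) x * y⁻¹ := by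
  have hF := Fact.mk hp
  have hN : (Op p G).Normal := op_nor p
  have hcop : Nat.Coprime (Nat.card (Op p G)) (Op p G).index := by
    obtain ⟨n, hn⟩ := IsPGroup.iff_card.1 (op_pgr (G := G) p)
    rw [hn]
    exact Nat.Coprime.pow_left n ((Nat.Prime.coprime_iff_not_dvd hp).2 (op_idx p hp h))
  obtain ⟨K, hK⟩ := Subgroup.exists_left_complement'_of_coprime hcop
  let π : G →* K := hK.QuotientMulEquiv.toMonoidHom.comp (QuotientGroup.mk' (Op p G))
  have hπ : ∀ g : G, g * (π g : G)⁻¹ ∈ Op p G := by
    intro g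
    have h1 : ((π g : G) : G ⧸ Op p G) = (g : G ⧸ Op p G) :=
      hK.quotientGroupMk_leftQuotientEquiv (g : G ⧸ Op p G)
    have h2 : (π g : G)⁻¹ * g ∈ Op p G := QuotientGroup.eq.1 h1
    have h3 := hN.conj_mem _ h2 (π g : G)
    have h4 : (π g : G) * ((π g : G)⁻¹ * g) * (π g : G)⁻¹ = g * (π g : G)⁻¹ := by group
    rwa [h4] at h3
  let φ' : G →* MulAut (Op p G) := (MulAut.conjNormal (H := Op p G)).comp (K.subtype.comp π)
  have hφ' : ∀ (g : G) (x : Op p G), ((φ' g x : Op p G) : G) = (π g : G) * x * (π g : G)⁻¹ :=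
    fun g x => MulAut.conjNormal_apply _ _
  have hker : Fit G ≤ φ'.ker := by
    intro g hg
    rw [MonoidHom.mem_ker]
    ext x
    rw [hφ', MulAut.one_apply]
    have h1 : (π g : G) ∈ Fit G := by
      have h2 := mul_mem (inv_mem (op_fit p hp (hπ g))) hg
      have h3 : (g * (π g : G)⁻¹)⁻¹ * g = (π g : G) := by group
      rwa [h3] at h2
    refine ge_com p hp _ h1 ?_ x x.2
    have h4 : orderOf (π g : G) ∣ (Op p G).index := by
      rw [hK.index_eq_card]
      exact Subgroup.orderOf_dvd_natCard _ (π g).2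
    exact Nat.Coprime.coprime_dvd_left h4 hcop.symm
  refine ⟨QuotientGroup.lift (Fit G) φ' hker, fun g => ⟨⟨g * (π g : G)⁻¹, hπ g⟩, ?_⟩⟩
  intro x z hz
  apply Subtype.ext
  rw [QuotientGroup.lift_mk, Subgroup.coe_mul, Subgroup.coe_mul, hφ', hz, Subgroup.coe_inv]
  group

/-- An abelian normal subgroup `A` with `H ⧸ A` nilpotent which does not contain its centralizer is
not maximal. -/
private theorem gf_ext {H : Type} [Group H] {A : Subgroup H} (hA : Ab A) (n : ℕ)
    (hn : (⊤ : Subgroup H).lowerCentralSeries n ≤ A) (x₀ : H) (hx₀ : ∀ a ∈ A, x₀ * a = a * x₀)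
    (hx₀' : x₀ ∉ A) : ∃ B : Subgroup H, Ab B ∧ A ≤ B ∧ ¬ B ≤ A := by
  have hAn := hA.nor
  let C : Subgroup H := Subgroup.centralizer (A : Set H)
  have hC : C.Normal := by infer_instance
  have hex : ∃ m, C ⊓ (⊤ : Subgroup H).lowerCentralSeries m ≤ A := ⟨n, le_trans inf_le_right hn⟩
  have h0 : Nat.find hex ≠ 0 := by
    intro h
    have h1 := Nat.find_spec hex
    rw [h] at h1
    apply hx₀'
    apply h1
    refine ⟨?_, Subgroup.mem_top x₀⟩
    exact Subgroup.mem_centralizer_iff.2 fun a ha => (hx₀ a ha).symm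
  obtain ⟨m, hm⟩ := Nat.exists_eq_succ_of_ne_zero h0
  have h1 : ¬ C ⊓ (⊤ : Subgroup H).lowerCentralSeries m ≤ A :=
    Nat.find_min hex (by rw [hm]; exact Nat.lt_succ_self m)
  have h2 : C ⊓ (⊤ : Subgroup H).lowerCentralSeries (m + 1) ≤ A := by
    have := Nat.find_spec hex
    rwa [hm] at this
  obtain ⟨x, hx, hxA⟩ := SetLike.not_le_iff_exists.1 h1
  have hxC : x ∈ C := hx.1
  have hxL : x ∈ (⊤ : Subgroup H).lowerCentralSeries m := hx.2
  have h3 : ∀ g : H, x * g * x⁻¹ * g⁻¹ ∈ A := by
    intro g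
    apply h2
    refine ⟨?_, ?_⟩
    · have h4 := mul_mem hxC (hC.conj_mem _ (inv_mem hxC) g)
      have h5 : x * (g * x⁻¹ * g⁻¹) = x * g * x⁻¹ * g⁻¹ := by group
      rwa [h5] at h4
    · rw [Subgroup.lowerCentralSeries_succ]
      have h4 := Subgroup.commutator_mem_commutator hxL (Subgroup.mem_top g)
      rwa [commutatorElement_def] at h4
  refine ⟨A ⊔ Subgroup.zpowers x, ⟨?_, ?_⟩, le_sup_left, fun h => hxA (h (le_sup_right
    (a := A) (Subgroup.mem_zpowers x)))⟩
  · have key : ∀ g : H, A ⊔ Subgroup.zpowers x ≤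
        (A ⊔ Subgroup.zpowers x).comap (MulAut.conj g).toMonoidHom := by
      intro g
      refine sup_le (fun a ha => ?_) ?_
      · rw [Subgroup.mem_comap]
        exact le_sup_left (b := Subgroup.zpowers x) (hAn.conj_mem a ha g)
      · rw [Subgroup.zpowers_le, Subgroup.mem_comap]
        have h4 : (MulAut.conj g).toMonoidHom x = (x * g * x⁻¹ * g⁻¹)⁻¹ * x := by
          show g * x * g⁻¹ = _
          group
        rw [h4]
        exact mul_mem (le_sup_left (b := Subgroup.zpowers x) (inv_mem (h3 g)))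
          (le_sup_right (a := A) (Subgroup.mem_zpowers x))
    exact ⟨fun n hn g => key g hn⟩
  · have hAA : A ≤ Subgroup.centralizer (A : Set H) := fun a ha =>
      Subgroup.mem_centralizer_iff.2 fun b hb => hA.com b hb a ha
    have hxx : Subgroup.zpowers x ≤ Subgroup.centralizer (Subgroup.zpowers x : Set H) := by
      rw [Subgroup.zpowers_le]
      refine Subgroup.mem_centralizer_iff.2 fun b hb => ?_
      obtain ⟨k, rfl⟩ := Subgroup.mem_zpowers_iff.1 hb
      exact (Commute.refl x).zpow_left k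
    have h4 : A ⊔ Subgroup.zpowers x ≤ Subgroup.centralizer (A : Set H) :=
      sup_le hAA (by rw [Subgroup.zpowers_le]; exact hxC)
    have h5 : A ⊔ Subgroup.zpowers x ≤ Subgroup.centralizer (Subgroup.zpowers x : Set H) :=
      sup_le (Subgroup.le_centralizer_iff.1 (by rw [Subgroup.zpowers_le]; exact hxC)) hxx
    have h6 : A ⊔ Subgroup.zpowers x ≤
        Subgroup.centralizer ((A ⊔ Subgroup.zpowers x : Subgroup H) : Set H) := by
      refine sup_le (Subgroup.le_centralizer_iff.1 h4) (Subgroup.le_centralizer_iff.1 h5)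
    intro a ha b hb
    exact Subgroup.mem_centralizer_iff.1 (h6 hb) a ha

/-- (gf, size 4) The choice of `A`. PROOF. `M' = M.map (mk' (Fit G))` is abelian (`⁅M, M⁆ ≤ N ≤ Fit G` by
`fit_nil`) and normal, and the factor group of `H = G ⧸ Fit G` by `M'` is nilpotent (a quotient of
`G ⧸ M`). Take an abelian normal subgroup `A ≥ M'` of the largest order. `H ⧸ A` is nilpotent. Suppose the
centralizer `C` of `A` is not `A`. `C` is normal in `H`. In the series `C, ⁅C, ⊤⁆, ⁅⁅C, ⊤⁆, ⊤⁆, …` some term
is in `A` (nilpotency of `H ⧸ A`); take the last term which is not in `A` and `x` in it, `x ∉ A`; then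
`⁅x, h⁆ ∈ A` for all `h`, so `A ⊔ zpowers x` is abelian and normal, a contradiction. For a prime `r` the
Sylow `r`-subgroup of `H ⧸ A` is normal, so `A ⊔ R` is normal. -/
theorem nan_A (N M : Subgroup G) (hN : N.Normal) (hM : M.Normal) (hnil : Group.IsNilpotent N)
    (hab : ⁅M, M⁆ ≤ N) (hq : Group.IsNilpotent (G ⧸ M)) :
    ∃ A : Subgroup (G ⧸ Fit G), Ab A ∧ (∀ x, (∀ a ∈ A, x * a = a * x) → x ∈ A) ∧
      ∀ r : ℕ, r.Prime → ¬ r ∣ Nat.card A → AR A r := by
  have hNF : N ≤ Fit G := fit_nil N hN hnil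
  let π : G →* G ⧸ Fit G := QuotientGroup.mk' (Fit G)
  have hπ : Function.Surjective π := QuotientGroup.mk'_surjective (Fit G)
  have hM' : Ab (M.map π) := by
    refine ⟨hM.map π hπ, ?_⟩
    rintro _ ⟨a, ha, rfl⟩ _ ⟨b, hb, rfl⟩
    have h1 := hNF (hab (Subgroup.commutator_mem_commutator ha hb))
    have h2 : π (a * b * a⁻¹ * b⁻¹) = 1 := by
      rw [commutatorElement_def] at h1
      exact (QuotientGroup.eq_one_iff _).2 h1
    rw [map_mul, map_mul, map_mul, map_inv, map_inv] at h2
    have h3 : π a * π b = π a * π b * (π a)⁻¹ * (π b)⁻¹ * (π b * π a) := by group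
    rw [h3, h2, one_mul]
  obtain ⟨n, hn⟩ := Subgroup.nilpotent_iff_lowerCentralSeries.1 hq
  have hn1 : (⊤ : Subgroup G).lowerCentralSeries n ≤ M := by
    have h1 := Subgroup.map_lowerCentralSeries (⊤ : Subgroup G) (QuotientGroup.mk' M) n
    rw [← MonoidHom.range_eq_map, MonoidHom.range_eq_top.2 (QuotientGroup.mk'_surjective M),
      hn, Subgroup.map_eq_bot_iff, QuotientGroup.ker_mk'] at h1
    exact h1
  have hn2 : (⊤ : Subgroup (G ⧸ Fit G)).lowerCentralSeries n ≤ M.map π := by
    have h1 := Subgroup.map_lowerCentralSeries (⊤ : Subgroup G) π n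
    rw [← MonoidHom.range_eq_map π, MonoidHom.range_eq_top.2 hπ] at h1
    rw [← h1]
    exact Subgroup.map_mono hn1
  obtain ⟨A, hMA, hmax⟩ := (Set.toFinite {A : Subgroup (G ⧸ Fit G) | Ab A}).exists_le_maximal hM'
  have hA : Ab A := hmax.prop
  have hn3 : (⊤ : Subgroup (G ⧸ Fit G)).lowerCentralSeries n ≤ A := le_trans hn2 hMA
  refine ⟨A, hA, ?_, ?_⟩
  · intro x hx
    by_contra hxA
    obtain ⟨B, hB, hAB, hBA⟩ := gf_ext hA n hn3 x hx hxA
    exact hBA (hmax.le_of_ge hB hAB)
  · intro r hr hrA
    have hF := Fact.mk hr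
    have hAn := hA.nor
    refine ⟨hr, hrA, fun R => ?_⟩
    have hnilA : Group.IsNilpotent ((G ⧸ Fit G) ⧸ A) := by
      rw [Subgroup.nilpotent_iff_lowerCentralSeries]
      refine ⟨n, ?_⟩
      have h1 := Subgroup.map_lowerCentralSeries (⊤ : Subgroup (G ⧸ Fit G))
        (QuotientGroup.mk' A) n
      rw [← MonoidHom.range_eq_map, MonoidHom.range_eq_top.2 (QuotientGroup.mk'_surjective A)] at h1
      rw [← h1, Subgroup.map_eq_bot_iff, QuotientGroup.ker_mk']
      exact hn3
    have hT := (Group.isNilpotent_of_finite_tfae (G := (G ⧸ Fit G) ⧸ A)).out 0 3 rfl rfl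
    have h1 := hT.1 hnilA r hF (R.mapSurjective (QuotientGroup.mk'_surjective A))
    rw [Sylow.coe_mapSurjective] at h1
    have h2 := h1.comap (QuotientGroup.mk' A)
    rw [Subgroup.comap_map_eq, QuotientGroup.ker_mk', sup_comm] at h2
    exact h2

end

end Pool.Agent.Nan
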