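import Pool.Agent.KBZ.Cdeg
import Pool.Agent.KBY.ClC
import Pool.Agent.KBY.IndIB
import Pool.Agent.KBY.LinB
import Pool.Agent.Nan.Ar

/-! Intertwining operators between conjugate representations (copied from `Kiy.Ext`). -/

set_option autoImplicit false

namespace Pool.Agent.Nan

open Classical
open Pool.Agent.KB Pool.Agent.KB.ContrAux Pool.Agent.KBL Pool.Agent.KBZ Pool.Agent.KBU
  Pool.Agent.KBQ Pool.Agent.KBY

variable {A G : Type} [Group A] [Fintype A] [Group G] {ι : A →* G} (h : Nrm ι) {n : ℕ}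
    (ρ : Representation ℂ A (Fin n → ℂ))

/-- `U` is an isomorphism between `ρ` and its conjugate under `g`. -/
def IT (g : G) (U : Module.End ℂ (Fin n → ℂ)) : Prop :=
  IsUnit U ∧ ∀ a, U * ρ a = ρ (h.cg g a) * U

theorem schur {A : Type} [Group A] {n : ℕ} (ρ : Representation ℂ A (Fin n → ℂ))
    (hρ : ρ.IsIrreducible) (S : Module.End ℂ (Fin n → ℂ)) (hS : ∀ a, S * ρ a = ρ a * S) :
    ∃ c : ℂ, S = c • (1 : Module.End ℂ (Fin n → ℂ)) := by
  have := hρ
  let T : Representation.IntertwiningMap ρ ρ :=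
    { toLinearMap := S
      isIntertwining' := fun a => hS a }
  obtain ⟨c, hc⟩ :=
    (Representation.IsIrreducible.algebraMap_intertwiningMap_bijective_of_isAlgClosed
      (ρ := ρ)).2 T
  refine ⟨c, ?_⟩
  have h1 := congrArg (fun s : Representation.IntertwiningMap ρ ρ => s.toLinearMap) hc
  have h2 : S = (algebraMap ℂ (Representation.IntertwiningMap ρ ρ) c).toLinearMap := h1.symm
  rw [h2]
  ext v
  simp [Algebra.algebraMap_eq_smul_one]

theorem IT_mul {A G : Type} [Group A] [Group G] {ι : A →* G} (h : Nrm ι)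
    {n : ℕ} (ρ : Representation ℂ A (Fin n → ℂ)) {g g' : G} {U U' : Module.End ℂ (Fin n → ℂ)}
    (h1 : IT h ρ g U) (h2 : IT h ρ g' U') : IT h ρ (g * g') (U * U') := by
  refine ⟨h1.1.mul h2.1, fun a => ?_⟩
  rw [mul_assoc, h2.2, ← mul_assoc, h1.2, mul_assoc, h.cg_mul]

theorem IT_one {A G : Type} [Group A] [Group G] {ι : A →* G} (h : Nrm ι)
    {n : ℕ} (ρ : Representation ℂ A (Fin n → ℂ)) : IT h ρ 1 1 := by
  refine ⟨isUnit_one, fun a => ?_⟩
  rw [h.cg_one, one_mul, mul_one]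

theorem IT_in {A G : Type} [Group A] [Group G] {ι : A →* G} (h : Nrm ι)
    {n : ℕ} (ρ : Representation ℂ A (Fin n → ℂ)) (b : A) : IT h ρ (ι b) (ρ b) := by
  refine ⟨⟨⟨ρ b, ρ b⁻¹, by rw [← map_mul, mul_inv_cancel, map_one], by
    rw [← map_mul, inv_mul_cancel, map_one]⟩, rfl⟩, fun a => ?_⟩
  rw [h.cg_in, ← map_mul, ← map_mul, inv_mul_cancel_right]

theorem IT_smul {A G : Type} [Group A] [Group G] {ι : A →* G} (h : Nrm ι)
    {n : ℕ} (ρ : Representation ℂ A (Fin n → ℂ)) {g : G} {U : Module.End ℂ (Fin n → ℂ)}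
    (h1 : IT h ρ g U) {c : ℂ} (hc : c ≠ 0) : IT h ρ g (c • U) := by
  refine ⟨?_, fun a => ?_⟩
  · obtain ⟨u, hu⟩ := h1.1
    refine ⟨⟨c • U, c⁻¹ • (u⁻¹ : (Module.End ℂ (Fin n → ℂ))ˣ).1, ?_, ?_⟩, rfl⟩
    · rw [smul_mul_smul_comm, mul_inv_cancel₀ hc, one_smul, ← hu, Units.mul_inv]
    · rw [smul_mul_smul_comm, inv_mul_cancel₀ hc, one_smul, ← hu, Units.inv_mul]
  · rw [smul_mul_assoc, h1.2, mul_smul_comm]

theorem IT_ex (hρ : ρ.IsIrreducible) (g : G) (hg : tw h g ρ.character = ρ.character) :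
    ∃ U, IT h ρ g U := by
  have hN : (Nat.card A : ℂ) ≠ 0 := by
    exact_mod_cast Nat.card_pos.ne'
  have : Invertible (Nat.card A : ℂ) := invertibleOfNonzero hN
  have := hρ
  obtain ⟨σ, hσ⟩ : ∃ σ : Representation ℂ A (Fin n → ℂ), ∀ a, σ a = ρ (h.cg g a) :=
    ⟨MonoidHom.comp ρ (h.cg g).toMonoidHom, fun a => rfl⟩
  have hch : σ.character = ρ.character := by
    rw [← hg]
    funext a
    show LinearMap.trace ℂ _ (σ a) = LinearMap.trace ℂ _ (ρ (h.cg g a))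
    rw [hσ]
  have h1 := Representation.card_inv_mul_sum_char_mul_char_eq_finrank ρ σ
  have h2 := Representation.card_inv_mul_sum_char_mul_char_eq_finrank ρ ρ
  rw [hch, h2, Representation.IsIrreducible.finrank_intertwiningMap_self] at h1
  have h3 : Module.finrank ℂ (Representation.IntertwiningMap ρ σ) = 1 := by
    exact_mod_cast h1.symm
  have h4 : Nontrivial (Representation.IntertwiningMap ρ σ) :=
    Module.nontrivial_of_finrank_pos (R := ℂ) (by rw [h3]; exact one_pos)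
  obtain ⟨f, hf⟩ := exists_ne (0 : Representation.IntertwiningMap ρ σ)
  have h5 : Function.Injective f :=
    (Representation.IsIrreducible.injective_or_eq_zero f).resolve_right hf
  refine ⟨f.toLinearMap, ?_, fun a => ?_⟩
  · rw [LinearMap.isUnit_iff_ker_eq_bot, LinearMap.ker_eq_bot]
    exact h5
  · rw [← hσ]
    exact f.isIntertwining' a

theorem IT_uni (hρ : ρ.IsIrreducible) {g : G} {U U' : Module.End ℂ (Fin n → ℂ)}
    (h1 : IT h ρ g U) (h2 : IT h ρ g U') : ∃ c : ℂ, c ≠ 0 ∧ U' = c • U := by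
  obtain ⟨u, hu⟩ := h1.1
  have hS : ∀ a, ((u⁻¹ : (Module.End ℂ (Fin n → ℂ))ˣ).1 * U') * ρ a =
      ρ a * ((u⁻¹ : (Module.End ℂ (Fin n → ℂ))ˣ).1 * U') := by
    intro a
    have h3 : (u⁻¹ : (Module.End ℂ (Fin n → ℂ))ˣ).1 * ρ (h.cg g a) =
        ρ a * (u⁻¹ : (Module.End ℂ (Fin n → ℂ))ˣ).1 := by
      have h4 := h1.2 a
      rw [← hu] at h4
      rw [Units.inv_mul_eq_iff_eq_mul, ← mul_assoc, h4, mul_assoc, Units.mul_inv, mul_one]
    rw [mul_assoc, h2.2, ← mul_assoc, h3, mul_assoc]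
  obtain ⟨c, hc⟩ := schur ρ hρ _ hS
  have h5 : U' = c • U := by
    rw [Units.inv_mul_eq_iff_eq_mul, mul_smul_comm, mul_one, hu] at hc
    exact hc
  refine ⟨c, ?_, h5⟩
  rintro rfl
  rw [zero_smul] at h5
  have hnt : Nontrivial (Fin n → ℂ) := Module.finrank_pos_iff.1 (Omega_deg ρ hρ).2
  have h6 := h2.1
  rw [h5] at h6
  exact not_isUnit_zero h6

end Pool.Agent.Nan
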