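import Pool.Agent.Nan.Ex

/-! The linear algebra theorem: modules `la` .. `lz`. -/

set_option autoImplicit false

namespace Pool.Agent.Nan

section

variable {p : ℕ} [Fact p.Prime] {H V U : Type} [Group H] [Finite H] [AddCommGroup V]
  [Module (ZMod p) V] [Finite V] [AddCommGroup U] [Module (ZMod p) U] [Finite U]
  {ρV : Representation (ZMod p) H V} {ρU : Representation (ZMod p) H U}
  {β : V →ₗ[ZMod p] V →ₗ[ZMod p] U} {A : Subgroup H}

/-- The span of the orbit of `l` under `A` is an irreducible `A`-module. -/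
def LIrr (ρU : Representation (ZMod p) H U) (A : Subgroup H) (l : Module.Dual (ZMod p) U) : Prop :=
  ∀ M ≤ Orb ρU A l, (∀ a ∈ A, ∀ f ∈ M, f ∘ₗ ρU a ∈ M) → M = ⊥ ∨ M = Orb ρU A l

private theorem la_fin (p : ℕ) [Fact p.Prime] (U : Type) [AddCommGroup U] [Module (ZMod p) U]
    [Finite U] : Finite (Module.Dual (ZMod p) U) :=
  DFunLike.finite _

private theorem la_min (p : ℕ) [Fact p.Prime] {D : Type} [AddCommGroup D] [Module (ZMod p) D]
    [Finite D] (P : Submodule (ZMod p) D → Prop) (h : ∃ M, P M) :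
    ∃ M, P M ∧ ∀ M' ≤ M, P M' → M' = M := by
  obtain ⟨M, hM, hmin⟩ := WellFounded.has_min (wellFounded_lt (α := Submodule (ZMod p) D)) {M | P M} h
  refine ⟨M, hM, fun M' hle hP => ?_⟩
  by_contra hne
  exact hmin M' hP (lt_of_le_of_ne hle hne)

/-- (la, size 2) PROOF. A minimal non-zero subspace `M` of the dual space with `f ∘ₗ ρU a ∈ M` for `a ∈ A`,
`f ∈ M`; any `0 ≠ l ∈ M` (then `Orb ρU A l = M`). -/
theorem la_l [Nontrivial U] (ρU : Representation (ZMod p) H U) (A : Subgroup H) :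
    ∃ l : Module.Dual (ZMod p) U, l ≠ 0 ∧ LIrr ρU A l := by
  have hfin := la_fin p U
  obtain ⟨u, hu⟩ := exists_ne (0 : U)
  obtain ⟨l0, hl0⟩ : ∃ l : Module.Dual (ZMod p) U, l u ≠ 0 := by
    by_contra hcon
    push Not at hcon
    exact hu ((Module.forall_dual_apply_eq_zero_iff (ZMod p) u).1 hcon)
  obtain ⟨M, ⟨hM1, hM2⟩, hmin⟩ := la_min p
    (fun M : Submodule (ZMod p) (Module.Dual (ZMod p) U) =>
      (∀ a ∈ A, ∀ f ∈ M, f ∘ₗ ρU a ∈ M) ∧ M ≠ ⊥)
    ⟨⊤, fun _ _ _ _ => Submodule.mem_top, fun h => hl0 (by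
      have : l0 ∈ (⊥ : Submodule (ZMod p) (Module.Dual (ZMod p) U)) := h ▸ Submodule.mem_top
      rw [(Submodule.mem_bot _).1 this]
      rfl)⟩
  obtain ⟨l, hl, hl'⟩ := M.ne_bot_iff.1 hM2
  refine ⟨l, hl', fun M' hM' hinv => ?_⟩
  have hO : Orb ρU A l ≤ M := by
    refine Submodule.span_le.2 ?_
    rintro f ⟨n, hn, rfl⟩
    exact hM1 n hn l hl
  by_cases hb : M' = ⊥
  · exact Or.inl hb
  · right
    have h1 := hmin M' (hM'.trans hO) ⟨hinv, hb⟩
    exact le_antisymm hM' (h1 ▸ hO)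

private theorem lb_cons {p : ℕ} {V : Type} [AddCommGroup V] [Module (ZMod p) V] {n : ℕ}
    (W : Fin n → Submodule (ZMod p) V) (W0 : Submodule (ZMod p) V) (hW : iSupIndep W)
    (h0 : Disjoint W0 (⨆ i, W i)) : iSupIndep (Fin.cons W0 W : Fin (n + 1) → _) := by
  intro i
  refine Fin.cases ?_ (fun k => ?_) i
  · rw [Fin.cons_zero]
    refine h0.mono_right (iSup₂_le fun j hj => ?_)
    obtain ⟨j', rfl⟩ := Fin.exists_succ_eq.2 hj
    rw [Fin.cons_succ]
    exact le_iSup W j'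
  · rw [Fin.cons_succ]
    have h1 : Disjoint (W k) (⨆ j, ⨆ (_ : j ≠ k), W j) := hW k
    have h2 : W k ⊔ (⨆ j, ⨆ (_ : j ≠ k), W j) ≤ ⨆ i, W i :=
      sup_le (le_iSup W k) (iSup₂_le fun j _ => le_iSup W j)
    refine (h1.disjoint_sup_right_of_disjoint_sup_left (h0.symm.mono_left h2)).mono_right
      (iSup₂_le fun j hj => ?_)
    refine Fin.cases (motive := fun j => j ≠ k.succ → (Fin.cons W0 W : Fin (n + 1) → _) j ≤ _)
      (fun _ => ?_) (fun j' hj' => ?_) j hj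
    · rw [Fin.cons_zero]
      exact le_sup_right
    · rw [Fin.cons_succ]
      exact le_sup_of_le_left (le_iSup₂_of_le j' (fun h => hj' (by rw [h])) le_rfl)

private theorem lb_dec (ρV : Representation (ZMod p) H V) (hp : ¬ p ∣ Nat.card H)
    (V' : Submodule (ZMod p) V) : Ivt ρV ⊤ V' →
    ∃ (n : ℕ) (W : Fin n → Submodule (ZMod p) V), (∀ i, Ivt ρV ⊤ (W i)) ∧ (∀ i, W i ≠ ⊥) ∧
      (∀ i, ∀ W' ≤ W i, Ivt ρV ⊤ W' → W' = ⊥ ∨ W' = W i) ∧ iSupIndep W ∧ ⨆ i, W i = V' := by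
  induction V' using (wellFounded_lt (α := Submodule (ZMod p) V)).induction with
  | _ V' ih =>
    intro hV'
    by_cases hb : V' = ⊥
    · exact ⟨0, Fin.elim0, fun i => i.elim0, fun i => i.elim0, fun i => i.elim0,
        fun i => i.elim0, by rw [hb]; simp⟩
    obtain ⟨M, ⟨hM1, hM2, hM3⟩, hmin⟩ := la_min p
      (fun M : Submodule (ZMod p) V => Ivt ρV ⊤ M ∧ M ≠ ⊥ ∧ M ≤ V') ⟨V', hV', hb, le_rfl⟩
    have hcard : ¬ p ∣ Nat.card (⊤ : Subgroup H) := by rwa [Subgroup.card_top]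
    obtain ⟨W', hc, hW'⟩ := msk ρV ⊤ hcard M hM1
    have h1 : M ⊔ W' ⊓ V' = V' := by
      rw [← sup_inf_assoc_of_le W' hM3, hc.sup_eq_top, top_inf_eq]
    have hd : Disjoint M (W' ⊓ V') := hc.disjoint.mono_right inf_le_left
    have h2 : W' ⊓ V' < V' := by
      refine lt_of_le_of_ne inf_le_right fun h => hM2 ?_
      rw [h] at hd
      exact disjoint_self.1 (hd.mono_right hM3)
    obtain ⟨n, W, hW1, hW2, hW3, hW4, hW5⟩ := ih _ h2
      (fun g hg w hw => ⟨hW' g hg w hw.1, hV' g hg w hw.2⟩)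
    refine ⟨n + 1, Fin.cons M W, fun i => ?_, fun i => ?_, fun i => ?_,
      lb_cons W M hW4 (by rwa [hW5]), ?_⟩
    · refine Fin.cases ?_ (fun k => ?_) i
      · exact hM1
      · exact hW1 k
    · refine Fin.cases ?_ (fun k => ?_) i
      · exact hM2
      · exact hW2 k
    · refine Fin.cases ?_ (fun k => ?_) i
      · intro W'' hle hinv
        rw [Fin.cons_zero] at hle ⊢
        by_cases hb' : W'' = ⊥
        · exact Or.inl hb'
        · exact Or.inr (hmin W'' hle ⟨hinv, hb', hle.trans hM3⟩)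
      · exact hW3 k
    · refine le_antisymm (iSup_le fun i => ?_) ?_
      · refine Fin.cases ?_ (fun k => ?_) i
        · exact hM3
        · rw [Fin.cons_succ]
          exact (le_iSup W k).trans (hW5.le.trans inf_le_right)
      · conv_lhs => rw [← h1]
        refine sup_le ?_ ?_
        · exact le_iSup (Fin.cons M W : Fin (n + 1) → Submodule (ZMod p) V) 0
        · rw [← hW5]
          exact iSup_le fun k =>
            le_iSup (Fin.cons M W : Fin (n + 1) → Submodule (ZMod p) V) k.succ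

/-- (lb, size 2) Decomposition into irreducible submodules. PROOF. Induction on `|V|` with `msk` (for
`K = ⊤`). E.g. for invariant subspaces `W'` of `V`: every invariant subspace is the join of an independent
family; take a minimal invariant subspace and an invariant complement. -/
theorem dec (ρV : Representation (ZMod p) H V) (hp : ¬ p ∣ Nat.card H) :
    ∃ (n : ℕ) (W : Fin n → Submodule (ZMod p) V), (∀ i, Ivt ρV ⊤ (W i)) ∧ (∀ i, W i ≠ ⊥) ∧
      (∀ i, ∀ W' ≤ W i, Ivt ρV ⊤ W' → W' = ⊥ ∨ W' = W i) ∧ iSupIndep W ∧ ⨆ i, W i = ⊤ := by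
  exact lb_dec ρV hp ⊤ fun _ _ _ _ => Submodule.mem_top

/-- (lb, size 1) PROOF. Evaluate at `v ∈ W i`: only the term `j = i` is not 0. For `v ∈ W j`, `j ≠ i`, both
sides of the claim for `t i` are 0. (Replace `v` by `ρV (k j) v`.) -/
theorem la_ind (ρV : Representation (ZMod p) H V) (n : ℕ) (W : Fin n → Submodule (ZMod p) V)
    (hWi : ∀ i, Ivt ρV ⊤ (W i)) (hsup : ⨆ i, W i = ⊤) (t : Fin n → Module.Dual (ZMod p) V)
    (ht : ∀ i j, j ≠ i → ∀ w ∈ W j, t i w = 0) (k : Fin n → H) (h : H)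
    (hh : ∀ v, ∑ j, t j (ρV (k j)⁻¹ (ρV h v)) = ∑ j, t j (ρV (k j)⁻¹ v)) :
    ∀ j, FixL ρV (t j) ((k j)⁻¹ * h * k j) := by
  have key : ∀ j, t j ∘ₗ (ρV (k j)⁻¹ ∘ₗ ρV h) = t j ∘ₗ ρV (k j)⁻¹ := by
    intro i
    rw [← sub_eq_zero, ← LinearMap.ker_eq_top, eq_top_iff, ← hsup]
    refine iSup_le fun j v hv => ?_
    rw [LinearMap.mem_ker, LinearMap.sub_apply, sub_eq_zero]
    show t i (ρV (k i)⁻¹ (ρV h v)) = t i (ρV (k i)⁻¹ v)
    have hI : ∀ g : H, ∀ w ∈ W j, ρV g w ∈ W j := fun g w hw => hWi j g (Subgroup.mem_top g) w hw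
    by_cases hij : j = i
    · subst hij
      have h1 := hh v
      rw [Finset.sum_eq_single_of_mem j (Finset.mem_univ _) fun i _ hi =>
          ht i j hi.symm _ (hI _ _ (hI _ _ hv)),
        Finset.sum_eq_single_of_mem j (Finset.mem_univ _) fun i _ hi =>
          ht i j hi.symm _ (hI _ _ hv)] at h1
      exact h1
    · rw [ht i j hij _ (hI _ _ (hI _ _ hv)), ht i j hij _ (hI _ _ hv)]
  intro j x
  have h1 := LinearMap.congr_fun (key j) (ρV (k j) x)
  have h2 : t j (ρV (k j)⁻¹ (ρV h (ρV (k j) x))) = t j (ρV (k j)⁻¹ (ρV (k j) x)) := h1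
  have h3 : ρV (k j)⁻¹ (ρV (k j) x) = x := by
    rw [← Module.End.mul_apply, ← map_mul, inv_mul_cancel, map_one, Module.End.one_apply]
  rw [h3] at h2
  rw [← h2, map_mul, map_mul]
  rfl

private theorem lc_nor (hA : Ab A) (K : Subgroup H) {r : ℕ} (hr : AR A r)
    (R : Sylow r H) (hR : (R : Subgroup H) ≤ K)
    (hK : ∀ c ∈ cm A r, c ∈ K → c = 1) (g x : H) (hg : g ∈ K) (hx : x ∈ (R : Subgroup H)) :
    g * x * g⁻¹ ∈ (R : Subgroup H) := by
  have := hr.prime
  obtain ⟨a, ha, h1⟩ := ar_conj hA hr R (g • R)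
  have h2 : g * x * g⁻¹ ∈ ((g • R : Sylow r H) : Subgroup H) := by
    rw [Sylow.coe_subgroup_smul]
    exact ⟨x, hx, rfl⟩
  have h3 := (h1 _).1 h2
  have h4 : (g * x * g⁻¹) * (a⁻¹ * (g * x * g⁻¹) * a)⁻¹ ∈ cm A r := by
    rw [ar_cm hA hr R]
    have h5 := Subgroup.commutator_mem_commutator ha h3
    rw [commutatorElement_def] at h5
    have h6 : (g * x * g⁻¹) * (a⁻¹ * (g * x * g⁻¹) * a)⁻¹ =
        a * (a⁻¹ * (g * x * g⁻¹) * a) * a⁻¹ * (a⁻¹ * (g * x * g⁻¹) * a)⁻¹ := by group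
    rw [h6]
    exact h5
  have h7 := hK _ h4 (K.mul_mem (K.mul_mem (K.mul_mem hg (hR hx)) (K.inv_mem hg))
    (K.inv_mem (hR h3)))
  rw [mul_inv_eq_one.1 h7]
  exact h3

/-- (lc, size 3) PROOF. `R` is normal in `K`: let `g ∈ K`, `x ∈ R`. `g x g⁻¹ = a x' a⁻¹` with `x' ∈ R`,
`a ∈ A` (`ar_conj` for the Sylow subgroup `g R g⁻¹`), so `g x g⁻¹ x'⁻¹ = a x' a⁻¹ x'⁻¹ ∈ ⁅A, R⁆ = cm A r` (`ar_cm`)
and it is in `K`, so it is 1 by `hK`, and `g x g⁻¹ = x' ∈ R`. The same for `R'`. So `x y x⁻¹ y⁻¹ ∈ R ⊓ R' = ⊥`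
(orders). -/
theorem la_com (hA : Ab A) (K : Subgroup H) {r r' : ℕ} (hr : AR A r) (hr' : AR A r')
    (hne : r ≠ r') (R : Sylow r H) (R' : Sylow r' H) (hR : (R : Subgroup H) ≤ K)
    (hR' : (R' : Subgroup H) ≤ K) (hK : ∀ c ∈ cm A r, c ∈ K → c = 1)
    (hK' : ∀ c ∈ cm A r', c ∈ K → c = 1) (x y : H) (hx : x ∈ (R : Subgroup H))
    (hy : y ∈ (R' : Subgroup H)) : x * y = y * x := by
  have h1 := lc_nor hA K hr R hR hK y x⁻¹ (hR' hy) (inv_mem hx)
  have h2 := lc_nor hA K hr' R' hR' hK' x y (hR hx) hy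
  have h3 : x * y * x⁻¹ * y⁻¹ ∈ (R : Subgroup H) := by
    have : x * y * x⁻¹ * y⁻¹ = x * (y * x⁻¹ * y⁻¹) := by group
    rw [this]
    exact mul_mem hx h1
  have h4 : x * y * x⁻¹ * y⁻¹ ∈ (R' : Subgroup H) := mul_mem h2 (inv_mem hy)
  have hp1 : Fact r.Prime := ⟨hr.prime⟩
  have hp2 : Fact r'.Prime := ⟨hr'.prime⟩
  have h5 := IsPGroup.disjoint_of_ne r r' hne (R : Subgroup H) (R' : Subgroup H) R.2 R'.2
  have h6 : x * y * x⁻¹ * y⁻¹ = 1 := Subgroup.disjoint_def.1 h5 h3 h4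
  have h7 : x * y = (y * x) := by
    have h8 : x * y * x⁻¹ = y := mul_inv_eq_one.1 h6
    exact mul_inv_eq_iff_eq_mul.1 h8
  exact h7

private theorem ld_comp (f : Module.Dual (ZMod p) U) (g h : H) :
    (f ∘ₗ ρU g) ∘ₗ ρU h = f ∘ₗ ρU (g * h) := by
  rw [map_mul, LinearMap.comp_assoc]
  rfl

private theorem ld_one (f : Module.Dual (ZMod p) U) : f ∘ₗ ρU (1 : H) = f := by
  rw [map_one]
  rfl

private theorem ld_fix (f : Module.Dual (ZMod p) U) (g : H) : FixL ρU f g ↔ f ∘ₗ ρU g = f :=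
  ⟨fun h => LinearMap.ext h, fun h x => LinearMap.congr_fun h x⟩

private theorem ld_mem (l : Module.Dual (ZMod p) U) : l ∈ Orb ρU A l :=
  Submodule.subset_span ⟨1, A.one_mem, (ld_one l).symm⟩

/-- Invariance of the span of the orbit. -/
private theorem ld_inv (l : Module.Dual (ZMod p) U) (g : H)
    (hg : ∀ a ∈ A, l ∘ₗ ρU (a * g) ∈ Orb ρU A l) (f : Module.Dual (ZMod p) U)
    (hf : f ∈ Orb ρU A l) : f ∘ₗ ρU g ∈ Orb ρU A l := by
  unfold Orb at hf
  induction hf using Submodule.span_induction with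
  | mem f hf =>
    obtain ⟨a, ha, rfl⟩ := hf
    rw [ld_comp]
    exact hg a ha
  | zero =>
    rw [LinearMap.zero_comp]
    exact Submodule.zero_mem _
  | add x y _ _ hx hy =>
    rw [LinearMap.add_comp]
    exact Submodule.add_mem _ hx hy
  | smul c x _ hx =>
    rw [LinearMap.smul_comp]
    exact Submodule.smul_mem _ _ hx

/-- (ld, size 3) PROOF. Let `Z` be the group of the `a ∈ A` with `f ∘ₗ ρU a = f` for all `f ∈ Orb ρU A l`. For
`s ∈ R r`, `r ∈ S`: `f ∈ Orb ρU A l` implies `f ∘ₗ ρU s ∈ Orb ρU A l` (`l ∘ ρU a ∘ ρU s = l ∘ ρU s ∘ ρU (s⁻¹ a s)`),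
so `s z s⁻¹ ∈ Z` for `z ∈ Z`. `z⁻¹ * (s z s⁻¹) ∈ ⁅A, R r⁆ = cm A r` (`ar_cm`) fixes `l`, so it is 1 (`hmiss`). So `Z`
commutes with `T = ⨆ r ∈ S, R r`. `c ∈ ⨆ cm A r ≤ ⁅A, T⁆`, so `cp_fix` (with `csup_cop`) gives `c = 1`. -/
theorem la_fai (hA : Ab A) (l : Module.Dual (ZMod p) U) (S : Finset ℕ) (R : ℕ → Subgroup H)
    (hS : ∀ r ∈ S, AR A r) (hR : ∀ r ∈ S, ∃ Q : Sylow r H, R r = Q)
    (hfix : ∀ r ∈ S, ∀ s ∈ R r, FixL ρU l s)
    (hmiss : ∀ r ∈ S, ∀ c ∈ cm A r, FixL ρU l c → c = 1)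
    (hcom : ∀ r ∈ S, ∀ r' ∈ S, r ≠ r' → ∀ x ∈ R r, ∀ y ∈ R r', x * y = y * x) (c : H)
    (hc : c ∈ (⨆ r ∈ S, cm A r : Subgroup H)) (hcf : ∀ f ∈ Orb ρU A l, f ∘ₗ ρU c = f) :
    c = 1 := by
  have hcA : c ∈ A := by
    have h1 : (⨆ r ∈ S, cm A r : Subgroup H) ≤ A := iSup₂_le fun r _ => cm_le hA r
    exact h1 hc
  have hcm : ∀ r ∈ S, cm A r = ⁅A, R r⁆ := by
    intro r hr
    obtain ⟨Q, hQ⟩ := hR r hr
    rw [hQ]
    exact ar_cm hA (hS r hr) Q
  have hsc : ∀ r ∈ S, ∀ s ∈ R r, s * c * s⁻¹ = c := by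
    intro r hr s hs
    have hlf : l ∘ₗ ρU s = l := (ld_fix l s).1 (hfix r hr s hs)
    have hinv : ∀ f ∈ Orb ρU A l, f ∘ₗ ρU s ∈ Orb ρU A l := by
      intro f hf
      refine ld_inv l s (fun a ha => ?_) f hf
      have h1 : a * s = s * (s⁻¹ * a * s) := by group
      rw [h1, ← ld_comp, hlf]
      refine Submodule.subset_span ⟨_, ?_, rfl⟩
      have h2 := hA.nor.conj_mem a ha s⁻¹
      rwa [inv_inv] at h2
    have hconj : ∀ f ∈ Orb ρU A l, f ∘ₗ ρU (s * c * s⁻¹) = f := by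
      intro f hf
      rw [← ld_comp, ← ld_comp, hcf _ (hinv f hf), ld_comp, mul_inv_cancel, ld_one]
    have hcinv : l ∘ₗ ρU c⁻¹ = l := by
      have h1 : (l ∘ₗ ρU c) ∘ₗ ρU c⁻¹ = l ∘ₗ ρU c⁻¹ := by rw [hcf l (ld_mem l)]
      rw [ld_comp, mul_inv_cancel, ld_one] at h1
      exact h1.symm
    have h3 : c⁻¹ * (s * c * s⁻¹) = 1 := by
      refine hmiss r hr _ ?_ ((ld_fix _ _).2 ?_)
      · rw [hcm r hr]
        have h4 := Subgroup.commutator_mem_commutator (A.inv_mem hcA) hs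
        rw [commutatorElement_def] at h4
        have h5 : c⁻¹ * s * c⁻¹⁻¹ * s⁻¹ = c⁻¹ * (s * c * s⁻¹) := by group
        rwa [h5] at h4
      · rw [← ld_comp, hcinv]
        exact hconj l (ld_mem l)
    exact (inv_mul_eq_one.1 h3).symm
  refine cp_fix hA (⨆ r ∈ S, R r : Subgroup H) ?_ c ?_ ?_
  · refine csup_cop S R (fun r hr => (hS r hr).prime) (fun r hr => ?_) hcom _
      fun r hr => (hS r hr).ndvd
    obtain ⟨Q, hQ⟩ := hR r hr
    rw [hQ]
    exact Q.2
  · have h1 : (⨆ r ∈ S, cm A r : Subgroup H) ≤ ⁅A, (⨆ r ∈ S, R r : Subgroup H)⁆ := by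
      refine iSup₂_le fun r hr => ?_
      rw [hcm r hr]
      exact Subgroup.commutator_mono le_rfl (le_iSup₂_of_le r hr le_rfl)
    exact h1 hc
  · intro s hs
    have h1 : (⨆ r ∈ S, R r : Subgroup H) ≤ Subgroup.centralizer {c} := by
      refine iSup₂_le fun r hr s hs => ?_
      rw [Subgroup.mem_centralizer_singleton_iff]
      have h2 := hsc r hr s hs
      exact mul_inv_eq_iff_eq_mul.1 h2
    have h2 := h1 hs
    rw [Subgroup.mem_centralizer_singleton_iff] at h2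
    exact mul_inv_eq_iff_eq_mul.2 h2

private theorem ld_invA (l : Module.Dual (ZMod p) U) (a : H) (ha : a ∈ A)
    (f : Module.Dual (ZMod p) U) (hf : f ∈ Orb ρU A l) : f ∘ₗ ρU a ∈ Orb ρU A l :=
  ld_inv l a (fun b hb => Submodule.subset_span ⟨b * a, A.mul_mem hb ha, rfl⟩) f hf

/-- The action of one element. -/
private def ldmap (ρU : Representation (ZMod p) H U) (l : Module.Dual (ZMod p) U) (a : H)
    (ha : a ∈ A) : Orb ρU A l →ₗ[ZMod p] Orb ρU A l where
  toFun f := ⟨f.1 ∘ₗ ρU a, ld_invA l a ha f.1 f.2⟩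
  map_add' f g := Subtype.ext (LinearMap.add_comp _ _ _)
  map_smul' c f := Subtype.ext (LinearMap.smul_comp _ _ _)

/-- The representation of `A` on the span of the orbit. -/
private def ldrep (ρU : Representation (ZMod p) H U) (hA : Ab A) (l : Module.Dual (ZMod p) U) :
    Representation (ZMod p) A (Orb ρU A l) where
  toFun a := ldmap ρU l a a.2
  map_one' := LinearMap.ext fun f => Subtype.ext (ld_one f.1)
  map_mul' a b := by
    refine LinearMap.ext fun f => Subtype.ext ?_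
    show (f : Module.Dual (ZMod p) U) ∘ₗ ρU ((a : H) * b) = (f.1 ∘ₗ ρU (b : H)) ∘ₗ ρU (a : H)
    rw [ld_comp, hA.com _ a.2 _ b.2]

private theorem ldrep_apply (hA : Ab A) (l : Module.Dual (ZMod p) U) (a : A) (f : Orb ρU A l) :
    ((ldrep ρU hA l a f : Orb ρU A l) : Module.Dual (ZMod p) U) = f.1 ∘ₗ ρU (a : H) := rfl

private theorem ld_irr (hA : Ab A) (l : Module.Dual (ZMod p) U) (hirr : LIrr ρU A l) :
    Irrd (ldrep ρU hA l) ⊤ := by
  intro W hW
  have h1 := hirr (W.map (Orb ρU A l).subtype) (Submodule.map_subtype_le _ _) (by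
    rintro a ha _ ⟨f, hf, rfl⟩
    exact ⟨ldrep ρU hA l ⟨a, ha⟩ f, hW ⟨a, ha⟩ (Subgroup.mem_top _) f hf, rfl⟩)
  rcases h1 with h1 | h1
  · left
    rw [eq_bot_iff]
    intro f hf
    have h2 : (f : Module.Dual (ZMod p) U) ∈ W.map (Orb ρU A l).subtype := ⟨f, hf, rfl⟩
    rw [h1, Submodule.mem_bot] at h2
    exact (Submodule.mem_bot _).2 (Subtype.ext h2)
  · right
    rw [eq_top_iff]
    rintro f -
    have h2 : (f : Module.Dual (ZMod p) U) ∈ W.map (Orb ρU A l).subtype := by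
      rw [h1]
      exact f.2
    obtain ⟨g, hg, hgf⟩ := h2
    have h3 : g = f := Subtype.ext hgf
    rwa [← h3]

private theorem ld_com (hA : Ab A) (l : Module.Dual (ZMod p) U) (a b : A) (y : Orb ρU A l) :
    ldrep ρU hA l a (ldrep ρU hA l b y) = ldrep ρU hA l b (ldrep ρU hA l a y) := by
  apply Subtype.ext
  show (y.1 ∘ₗ ρU (b : H)) ∘ₗ ρU (a : H) = (y.1 ∘ₗ ρU (a : H)) ∘ₗ ρU (b : H)
  rw [ld_comp, ld_comp, hA.com _ a.2 _ b.2]

private theorem ld_finite : Finite (Module.Dual (ZMod p) U) := DFunLike.finite _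

/-- (ld, size 2) PROOF. `irr_cyc` for the group `↥A`, which acts on `Orb ρU A l` by `a ↦ (f ↦ f ∘ₗ ρU a)`
(a representation because `A` is commutative). -/
theorem la_cyc (hA : Ab A) (l : Module.Dual (ZMod p) U) (hl : l ≠ 0) (hirr : LIrr ρU A l)
    (C : Subgroup H) (hC : C ≤ A) (hfai : ∀ c ∈ C, (∀ f ∈ Orb ρU A l, f ∘ₗ ρU c = f) → c = 1) :
    IsCyclic C := by
  haveI : Finite (Module.Dual (ZMod p) U) := ld_finite
  haveI : Nontrivial (Orb ρU A l) := ⟨⟨⟨l, ld_mem l⟩, 0, fun h => hl (congrArg Subtype.val h)⟩⟩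
  have h1 : IsCyclic (C.subgroupOf A) := by
    refine irr_cyc (ldrep ρU hA l) (ld_com hA l) (ld_irr hA l hirr) _ fun c hc h => ?_
    refine Subtype.ext (hfai c hc fun f hf => ?_)
    exact congrArg Subtype.val (h ⟨f, hf⟩)
  exact isCyclic_of_surjective (Subgroup.subgroupOfEquivOfLe hC)
    (Subgroup.subgroupOfEquivOfLe hC).surjective

/-- (ld, size 2) PROOF. `powY` for the same representation of `↥A`. -/
theorem la_size (hA : Ab A) (l : Module.Dual (ZMod p) U) (hl : l ≠ 0) (hirr : LIrr ρU A l)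
    (N : Subgroup H) (hN : N ≤ A)
    (hfai : ∀ c ∈ N, (∀ f ∈ Orb ρU A l, f ∘ₗ ρU c = f) → c = 1) (c : H) (hc : c ∈ N) :
    c ^ Nat.card (Orb ρU N l) = c := by
  haveI : Finite (Module.Dual (ZMod p) U) := ld_finite
  have hl' : (⟨l, ld_mem l⟩ : Orb ρU A l) ≠ 0 := fun h => hl (congrArg Subtype.val h)
  have h1 := powY (ldrep ρU hA l) (ld_com hA l) (ld_irr hA l hirr) (N.subgroupOf A)
    ⟨l, ld_mem l⟩ hl' ⟨c, hN hc⟩ hc
  have hcard : Nat.card (Submodule.span (ZMod p) {z : Orb ρU A l | ∃ c ∈ N.subgroupOf A,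
      z = ldrep ρU hA l c ⟨l, ld_mem l⟩}) = Nat.card (Orb ρU N l) := by
    have h2 : (Submodule.span (ZMod p) {z : Orb ρU A l | ∃ c ∈ N.subgroupOf A,
      z = ldrep ρU hA l c ⟨l, ld_mem l⟩}).map (Orb ρU A l).subtype = Orb ρU N l := by
      rw [Submodule.map_span]
      unfold Orb
      congr 1
      ext f
      constructor
      · rintro ⟨_, ⟨a, ha, rfl⟩, rfl⟩
        exact ⟨a, ha, rfl⟩
      · rintro ⟨a, ha, rfl⟩
        exact ⟨_, ⟨⟨a, hN ha⟩, ha, rfl⟩, rfl⟩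
    rw [← h2]
    exact Nat.card_congr (Submodule.equivMapOfInjective _ (Submodule.injective_subtype _)
      _).toEquiv
  rw [hcard] at h1
  have h2 : c ^ Nat.card (Orb ρU N l) * c⁻¹ = 1 := by
    refine hfai _ (N.mul_mem (N.pow_mem hc _) (N.inv_mem hc)) fun f hf => ?_
    have h3 : f ∘ₗ ρU (c ^ Nat.card (Orb ρU N l)) = f ∘ₗ ρU c :=
      congrArg Subtype.val (h1 ⟨f, hf⟩)
    rw [← ld_comp, h3, ld_comp, mul_inv_cancel, ld_one]
  exact mul_inv_eq_one.1 h2

/-- The action on the dual space of an invariant subspace. -/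
private noncomputable abbrev le_act (ρ : Representation (ZMod p) H V) (R : Submodule (ZMod p) V)
    (K : Subgroup H) (hR : ∀ g ∈ K, ∀ v ∈ R, ρ g v ∈ R) :
    MulDistribMulAction K (Multiplicative (Module.Dual (ZMod p) R)) where
  smul g m := Multiplicative.ofAdd (Multiplicative.toAdd m ∘ₗ
    (ρ (g : H)⁻¹).restrict (hR _ (K.inv_mem g.2)))
  one_smul m := by
    apply Multiplicative.toAdd.injective
    refine LinearMap.ext fun v => ?_
    show Multiplicative.toAdd m _ = Multiplicative.toAdd m v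
    congr 1
    apply Subtype.ext
    show ρ ((1 : K) : H)⁻¹ v = v
    rw [Subgroup.coe_one, inv_one, map_one, Module.End.one_apply]
  mul_smul g h m := by
    apply Multiplicative.toAdd.injective
    refine LinearMap.ext fun v => ?_
    show Multiplicative.toAdd m _ = Multiplicative.toAdd m _
    congr 1
    apply Subtype.ext
    show ρ ((g * h : K) : H)⁻¹ v = ρ (h : H)⁻¹ (ρ (g : H)⁻¹ v)
    rw [Subgroup.coe_mul, mul_inv_rev, map_mul, Module.End.mul_apply]
  smul_mul g m n := rfl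
  smul_one g := rfl

/-- (le, size 3) Case Y. PROOF. `K = {a ∈ A | FixL ρU l a}` acts on the dual space of `Rad β l`
(`rad_inv`), an abelian group of order a power of `p`; `gen` gives `m₀` such that the elements of `K` which
fix `m₀` act trivially on the dual space, so on `Rad β l`. `m` extends `m₀` to `V`. Let `D ≤ A` be normal in
`H`, `D ≠ ⊥`, and suppose all `d ∈ D` fix `l` and `m` on `Rad β l`. The span of the `ρU d u - u` is an
`H`-invariant subspace of `ker l`, so it is 0 (`Ltg.irr`, `l ≠ 0`): `D` is trivial on `U`. `hYl` gives `d`, `v` with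
`ρV d v ≠ v`, `v ∈ Rad β l`; but `d ∈ K` fixes `m₀`. Contradiction. -/
theorem la_Y (h : Ltg p ρV ρU β) (hA : Ab A) (l : Module.Dual (ZMod p) U) (hl : l ≠ 0)
    (hYl : ∀ D : Subgroup H, D.Normal → D ≤ A → D ≠ ⊥ → (∀ d ∈ D, ∀ u, ρU d u = u) →
      ∃ d ∈ D, ∃ v ∈ Rad β l, ρV d v ≠ v) : CaseY ρV ρU β A := by
  classical
  let R := Rad β l
  let K : Subgroup H :=
    { carrier := {a | a ∈ A ∧ FixL ρU l a}
      one_mem' := ⟨A.one_mem, fun x => by rw [map_one]; rfl⟩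
      mul_mem' := fun {a b} ha hb => ⟨A.mul_mem ha.1 hb.1, fun x => by
        rw [map_mul, Module.End.mul_apply, ha.2, hb.2]⟩
      inv_mem' := fun {a} ha => ⟨A.inv_mem ha.1, fun x => by
        rw [← ha.2 (ρU a⁻¹ x), ← Module.End.mul_apply, ← map_mul, mul_inv_cancel, map_one,
          Module.End.one_apply]⟩ }
  have hR : ∀ g ∈ K, ∀ v ∈ R, ρV g v ∈ R := fun g hg v hv => rad_inv h l g hg.2 v hv
  have hfin := la_fin p R
  let act := le_act ρV R K hR
  have hcop : (Nat.card K).Coprime (Nat.card (Multiplicative (Module.Dual (ZMod p) R))) := by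
    have h1 : Nat.card (Multiplicative (Module.Dual (ZMod p) R)) =
        p ^ Module.finrank (ZMod p) (Module.Dual (ZMod p) R) := by
      show Nat.card (Module.Dual (ZMod p) R) = _
      rw [Module.natCard_eq_pow_finrank (K := ZMod p), Nat.card_zmod]
    rw [h1]
    refine Nat.Coprime.pow_right _ ?_
    refine ((Fact.out : p.Prime).coprime_iff_not_dvd.2 fun hd => ?_).symm
    exact h.pH (hd.trans (Subgroup.card_subgroup_dvd_card K))
  obtain ⟨m₀, hm₀⟩ := gen (Γ := K) (D := Multiplicative (Module.Dual (ZMod p) R)) hcop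
    (fun x y d => by
      rw [← mul_smul, ← mul_smul]
      congr 1
      exact Subtype.ext (hA.com _ x.2.1 _ y.2.1))
  obtain ⟨m, hm⟩ := LinearMap.exists_extend (Multiplicative.toAdd m₀ : R →ₗ[ZMod p] ZMod p)
  refine ⟨l, hl, m, fun D hDn hDA hDne => ?_⟩
  by_contra hcon
  push Not at hcon
  -- `D` is trivial on `U`
  have hDU : ∀ d ∈ D, ∀ u, ρU d u = u := by
    let S : Submodule (ZMod p) U := Submodule.span (ZMod p) {w | ∃ d ∈ D, ∃ u, w = ρU d u - u}
    have hS1 : S ≤ LinearMap.ker l := by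
      refine Submodule.span_le.2 ?_
      rintro w ⟨d, hd, u, rfl⟩
      show l (ρU d u - u) = 0
      rw [map_sub, (hcon d hd).1 u, sub_self]
    have hS2 : ∀ g ∈ (⊤ : Subgroup H), ∀ w ∈ S, ρU g w ∈ S := by
      intro g _ w hw
      induction hw using Submodule.span_induction with
      | mem w hw =>
        obtain ⟨d, hd, u, rfl⟩ := hw
        refine Submodule.subset_span ⟨g * d * g⁻¹, hDn.conj_mem d hd g, ρU g u, ?_⟩
        rw [map_sub, ← Module.End.mul_apply, ← map_mul, ← Module.End.mul_apply, ← map_mul]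
        congr 2
        group
      | zero => rw [map_zero]; exact S.zero_mem
      | add a b _ _ ha hb => rw [map_add]; exact S.add_mem ha hb
      | smul c a _ ha => rw [map_smul]; exact S.smul_mem c ha
    rcases h.irr S hS2 with h1 | h1
    · intro d hd u
      have h2 : ρU d u - u ∈ S := Submodule.subset_span ⟨d, hd, u, rfl⟩
      rw [h1, Submodule.mem_bot, sub_eq_zero] at h2
      exact h2
    · exfalso
      apply hl
      rw [← LinearMap.ker_eq_top, eq_top_iff, ← h1]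
      exact hS1
  obtain ⟨d, hd, v, hv, hdv⟩ := hYl D hDn hDA hDne hDU
  have hdK : d ∈ K := ⟨hDA hd, (hcon d hd).1⟩
  have h1 : (⟨d, hdK⟩ : K) • m₀ = m₀ := by
    apply Multiplicative.toAdd.injective
    refine LinearMap.ext fun w => ?_
    have h2 : ∀ w : R, Multiplicative.toAdd m₀ w = m w := fun w =>
      (LinearMap.congr_fun hm w).symm
    have h3 := (hcon d⁻¹ (D.inv_mem hd)).2 w w.2
    calc Multiplicative.toAdd m₀ ((ρV (d : H)⁻¹).restrict (hR _ (K.inv_mem hdK)) w)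
        = m (ρV d⁻¹ w) := h2 _
      _ = m w := h3
      _ = Multiplicative.toAdd m₀ w := (h2 w).symm
  have h2 := hm₀ ⟨d, hdK⟩ h1
  have h3 : (⟨d, hdK⟩ : K)⁻¹ • m₀ = m₀ := by rw [inv_smul_eq_iff, h1]
  have h4 := hm₀ (⟨d, hdK⟩ : K)⁻¹ h3
  apply hdv
  have h5 : ∀ f : Module.Dual (ZMod p) R, f (⟨ρV d v, hR d hdK v hv⟩ - ⟨v, hv⟩) = 0 := by
    intro f
    have h6 := congrArg Multiplicative.toAdd (h4 (Multiplicative.ofAdd f))
    have h7 := LinearMap.congr_fun h6 ⟨v, hv⟩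
    rw [map_sub, sub_eq_zero]
    have h8 : f ((ρV (((⟨d, hdK⟩ : K)⁻¹ : K) : H)⁻¹).restrict
        (hR _ (K.inv_mem ((⟨d, hdK⟩ : K)⁻¹).2)) ⟨v, hv⟩) = f ⟨v, hv⟩ := h7
    rw [← h8]
    congr 1
    apply Subtype.ext
    show ρV d v = ρV (((⟨d, hdK⟩ : K)⁻¹ : K) : H)⁻¹ v
    rw [Subgroup.coe_inv, inv_inv]
  have h9 := (Module.forall_dual_apply_eq_zero_iff (ZMod p) _).1 h5
  exact congrArg Subtype.val (sub_eq_zero.1 h9)

/-- The stabilizer of the linear form `l`. -/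
private def lfK (ρU : Representation (ZMod p) H U) (l : Module.Dual (ZMod p) U) : Subgroup H where
  carrier := {g | FixL ρU l g}
  one_mem' := fun x => by rw [map_one]; rfl
  mul_mem' := by
    intro g k hg hk x
    rw [map_mul]
    exact (hg _).trans (hk x)
  inv_mem' := by
    intro g hg x
    have h1 := hg (ρU g⁻¹ x)
    rw [← h1, ← Module.End.mul_apply, ← map_mul, mul_inv_cancel, map_one]
    rfl

private theorem lf_mem (l : Module.Dual (ZMod p) U) (g : H) : g ∈ lfK ρU l ↔ FixL ρU l g := Iff.rfl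

/-- The subgroup of the elements which act trivially on `W`. -/
private def lfT (ρV : Representation (ZMod p) H V) (W : Submodule (ZMod p) V) : Subgroup H where
  carrier := {g | ∀ w ∈ W, ρV g w = w}
  one_mem' := fun x _ => by rw [map_one]; rfl
  mul_mem' := by
    intro g k hg hk x hx
    rw [map_mul, Module.End.mul_apply, hk x hx, hg x hx]
  inv_mem' := by
    intro g hg x hx
    have h1 := hg x hx
    calc ρV g⁻¹ x = ρV g⁻¹ (ρV g x) := by rw [h1]
      _ = x := by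
        rw [← Module.End.mul_apply, ← map_mul, inv_mul_cancel, map_one]
        rfl

private theorem lf_triv (ρV : Representation (ZMod p) H V) (W : Submodule (ZMod p) V)
    (hW : Ivt ρV ⊤ W) (R : Subgroup H) (hR : ∀ s ∈ R, ∀ w ∈ W, ρV s w = w) (c : H)
    (hc : c ∈ ⁅A, R⁆) : ∀ w ∈ W, ρV c w = w := by
  have h1 : ⁅A, R⁆ ≤ lfT ρV W := by
    rw [Subgroup.commutator_le]
    intro a ha s hs w hw
    rw [commutatorElement_def, map_mul, map_mul, map_mul, Module.End.mul_apply,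
      Module.End.mul_apply, Module.End.mul_apply, hR s⁻¹ (R.inv_mem hs) w hw,
      hR s hs _ (hW a⁻¹ (Subgroup.mem_top _) w hw), ← Module.End.mul_apply, ← map_mul,
      mul_inv_cancel, map_one]
    rfl
  exact h1 hc

/-- (lf, size 5) Case X. PROOF. `U` is nontrivial (`β ≠ 0`). `la_l` gives `l`, `dec` gives `n`, `W`. `S` = the set
of the primes `r ∈ B` which divide `|H|`, such that some Sylow `r`-subgroup fixes `l` and no `c ≠ 1` in
`cm A r` fixes `l`. Choose `R r` for `r ∈ S`, a Sylow `r`-subgroup which fixes `l`; they commute (`la_com` with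
`K` = the stabilizer of `l`). `C = ⨆ r ∈ S, cm A r`, normal, `≤ A`, contains `⁅A, R r⁆ = cm A r`. `la_fai`,
`la_cyc`: `C` is cyclic. `cycfixS`: an element of `C` which fixes a non-zero vector of `W i` is trivial on
`W i`. `tsub` for `W i`, `W' = ⨆ j ≠ i, W j` gives `t i`. (1) is `la_ind`. (2): `a` is trivial on all `W j`, so
on `V`, `a = 1` (`Ltg.fai`). (3): suppose the four statements. `r ∣ |H|` because `cm A r ≠ ⊥`, so
`r ∈ S`. Let `N = cm A r`, `R = R r`. `endX`: `hcyc` because `N ≤ C`; `hfp`: `c ∈ N`, `ρU c u = u`, `u ≠ 0` gives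
that `c` is trivial on `U` (`cycfixS` for `W = ⊤` in `U`, `Ltg.irr`), so it fixes all linear forms, so `c = 1` (`la_fai`);
`hW i`: if `R` is trivial on `W i` then so is `N = ⁅A, R⁆`; otherwise the second statement (some Sylow
`r`-subgroup `R'` fixes `t i`; `R' = a R a⁻¹` by `ar_conj`) and `tsub` give `FullS`; `hs`: the fourth statement,
`(x i)⁻¹ * y ∈ A` fixes `t i`, so it is trivial on `W i` (`tsub`); `hsize`: `la_size`. -/
theorem la_X (h : Ltg p ρV ρU β) (hA : Ab A) (B : Set ℕ) (hB : ∀ r ∈ B, AR A r)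
    (hY : NotY ρV ρU β A) : CaseX ρV ρU A B := by
  classical
  haveI hU : Nontrivial U := by
    by_contra hU
    rw [not_nontrivial_iff_subsingleton] at hU
    exact h.ne (LinearMap.ext fun v => LinearMap.ext fun w => Subsingleton.elim _ _)
  obtain ⟨l, hl, hirr⟩ := la_l ρU A
  obtain ⟨n, W, hWi, hWne, hWirr, hind, hsup⟩ := dec ρV h.pH
  let S : Finset ℕ := (Nat.card H).primeFactors.filter fun r =>
    (r ∈ B ∧ (∃ R : Sylow r H, ∀ x ∈ (R : Subgroup H), FixL ρU l x)) ∧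
      ∀ c ∈ cm A r, FixL ρU l c → c = 1
  have hSB : ∀ r ∈ S, r ∈ B := fun r hr => (Finset.mem_filter.1 hr).2.1.1
  have hSAR : ∀ r ∈ S, AR A r := fun r hr => hB r (hSB r hr)
  have hSR : ∀ r ∈ S, ∃ R : Sylow r H, ∀ x ∈ (R : Subgroup H), FixL ρU l x :=
    fun r hr => (Finset.mem_filter.1 hr).2.1.2
  have hSm : ∀ r ∈ S, ∀ c ∈ cm A r, FixL ρU l c → c = 1 := fun r hr => (Finset.mem_filter.1 hr).2.2
  let R : ℕ → Subgroup H := fun r => if hr : r ∈ S then ((hSR r hr).choose : Subgroup H) else ⊥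
  have hRS : ∀ r ∈ S, ∃ Q : Sylow r H, R r = Q ∧ ∀ x ∈ (Q : Subgroup H), FixL ρU l x := by
    intro r hr
    refine ⟨(hSR r hr).choose, ?_, (hSR r hr).choose_spec⟩
    show (if hr : r ∈ S then ((hSR r hr).choose : Subgroup H) else ⊥) = _
    rw [dif_pos hr]
  have hR1 : ∀ r ∈ S, ∃ Q : Sylow r H, R r = Q := fun r hr =>
    ⟨(hRS r hr).choose, (hRS r hr).choose_spec.1⟩
  have hRfix : ∀ r ∈ S, ∀ s ∈ R r, FixL ρU l s := by
    intro r hr s hs
    obtain ⟨Q, hQ, hQ'⟩ := hRS r hr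
    rw [hQ] at hs
    exact hQ' s hs
  have hcom : ∀ r ∈ S, ∀ r' ∈ S, r ≠ r' → ∀ x ∈ R r, ∀ y ∈ R r', x * y = y * x := by
    intro r hr r' hr' hne x hx y hy
    obtain ⟨Q, hQ, hQ'⟩ := hRS r hr
    obtain ⟨Q2, hQ2, hQ2'⟩ := hRS r' hr'
    rw [hQ] at hx
    rw [hQ2] at hy
    exact la_com hA (lfK ρU l) (hSAR r hr) (hSAR r' hr') hne Q Q2 hQ' hQ2'
      (fun c hc hc' => hSm r hr c hc hc') (fun c hc hc' => hSm r' hr' c hc hc') x y hx hy
  have hcm : ∀ r ∈ S, cm A r = ⁅A, R r⁆ := by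
    intro r hr
    obtain ⟨Q, hQ⟩ := hR1 r hr
    rw [hQ]
    exact ar_cm hA (hSAR r hr) Q
  let C : Subgroup H := ⨆ r ∈ S, cm A r
  have hCA : C ≤ A := iSup₂_le fun r _ => cm_le hA r
  have hcmC : ∀ r ∈ S, cm A r ≤ C := fun r hr => le_iSup₂_of_le r hr le_rfl
  have hCn : C.Normal := by
    have h1 : ∀ r, (⨆ (_ : r ∈ S), cm A r : Subgroup H).Normal := by
      intro r
      by_cases hr : r ∈ S
      · rw [iSup_pos hr]
        exact cm_nor hA r
      · rw [iSup_neg hr]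
        infer_instance
    refine ⟨fun x hx g => ?_⟩
    have h2 : C ≤ C.comap (MulAut.conj g).toMonoidHom := by
      refine iSup₂_le fun r hr y hy => ?_
      rw [Subgroup.mem_comap]
      exact hcmC r hr ((cm_nor hA r).conj_mem y hy g)
    exact h2 hx
  have hfai : ∀ c ∈ C, (∀ f ∈ Orb ρU A l, f ∘ₗ ρU c = f) → c = 1 := fun c hc hcf =>
    la_fai hA l S R hSAR hR1 hRfix hSm hcom c hc hcf
  have hCcyc : IsCyclic C := la_cyc hA l hl hirr C hCA hfai
  have hcompl : ∀ i, IsCompl (W i) (⨆ (j) (_ : j ≠ i), W j) := by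
    intro i
    refine ⟨hind i, ?_⟩
    rw [codisjoint_iff, eq_top_iff, ← hsup]
    refine iSup_le fun j => ?_
    by_cases hj : j = i
    · rw [hj]
      exact le_sup_left
    · exact (le_iSup₂_of_le (f := fun (j : Fin n) (_ : j ≠ i) => W j) j hj le_rfl).trans
        le_sup_right
  have hfpf : ∀ i, ∀ c ∈ C, ∀ x ∈ W i, x ≠ 0 → ρV c x = x → ∀ y ∈ W i, ρV c y = y :=
    fun i c hc x hx h0 hcx => cycfixS ρV (W i) (hWi i) (hWirr i) C hCn hCcyc c hc x hx h0 hcx
  have htex := fun i => tsub (S := S) (R := R) (C := C) hA h.pH (W i)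
    (⨆ (j) (_ : j ≠ i), W j) (hWi i) (hWne i) (hcompl i) (hWirr i)
    (fun r hr => (hSAR r hr).prime) (fun r hr => (hSAR r hr).ndvd) (fun r hr => by
      obtain ⟨Q, hQ⟩ := hR1 r hr
      rw [hQ]
      exact Q.2) hcom hCn hCA (fun r hr => by
      rw [← hcm r hr]
      exact hcmC r hr) (hfpf i)
  choose t ht0 ht1 ht2 using htex
  have ht0' : ∀ i j, j ≠ i → ∀ w ∈ W j, t i w = 0 := fun i j hij w hw =>
    ht0 i w ((le_iSup₂_of_le (f := fun (j : Fin n) (_ : j ≠ i) => W j) j hij le_rfl) hw)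
  refine ⟨l, hl, n, t, fun k _ g hg => la_ind ρV n W hWi hsup t ht0' k g hg, ?_, ?_⟩
  · intro a ha hfix
    refine h.fai a fun v => ?_
    have h1 : (⊤ : Submodule (ZMod p) V) ≤ LinearMap.eqLocus (ρV a) LinearMap.id := by
      rw [← hsup]
      exact iSup_le fun j w hw => ht1 j a ha (fun w _ => hfix j w) w hw
    exact h1 (Submodule.mem_top (x := v))
  · rintro r hrB hne ⟨⟨R0, hR0⟩, hRt, hmiss, hsurj⟩
    have hrH : r ∣ Nat.card H := by
      by_contra hr
      have h1 : (R0 : Subgroup H) = ⊥ := by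
        rw [← Subgroup.card_eq_one]
        haveI : Fact r.Prime := ⟨(hB r hrB).prime⟩
        obtain ⟨k, hk⟩ := IsPGroup.iff_card.1 R0.2
        rcases Nat.eq_zero_or_pos k with hk0 | hk0
        · rw [hk, hk0, pow_zero]
        · refine absurd ((dvd_pow_self r hk0.ne').trans ?_) hr
          rw [← hk]
          exact Subgroup.card_subgroup_dvd_card _
      apply hne
      rw [ar_cm hA (hB r hrB) R0, h1]
      exact Subgroup.commutator_bot_right _
    have hrS : r ∈ S := by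
      refine Finset.mem_filter.2 ⟨?_, ⟨hrB, R0, hR0⟩, hmiss⟩
      exact Nat.mem_primeFactors.2 ⟨(hB r hrB).prime, hrH, Nat.card_pos.ne'⟩
    obtain ⟨Q, hQ⟩ := hR1 r hrS
    have hNC : cm A r ≤ C := hcmC r hrS
    have hNcyc : IsCyclic (cm A r) := by
      haveI := hCcyc
      exact isCyclic_of_surjective (Subgroup.subgroupOfEquivOfLe hNC)
        (Subgroup.subgroupOfEquivOfLe hNC).surjective
    refine endX h hA hY (cm A r) (R r) (cm_nor hA r) (cm_le hA r) hne hNcyc l hl (hRfix r hrS) ?_ n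
      W hWi hWne hind hsup ?_ ?_ (la_size hA l hl hirr (cm A r) (cm_le hA r)
        fun c hc hcf => hfai c (hNC hc) hcf)
    · intro c hc u hu hcu
      have h1 := cycfixS ρU ⊤ (fun _ _ _ _ => Submodule.mem_top) (fun W₁ _ hW₁ => h.irr W₁ hW₁)
        C hCn hCcyc c (hNC hc) u Submodule.mem_top hu hcu
      exact hfai c (hNC hc) fun f _ => LinearMap.ext fun x => by
        rw [LinearMap.comp_apply, h1 x Submodule.mem_top]
    · intro i
      by_cases hRi : ∀ s ∈ R r, ∀ w ∈ W i, ρV s w = w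
      · left
        refine ⟨fun c hc => ?_, hRi⟩
        rw [hcm r hrS] at hc
        exact lf_triv ρV (W i) (hWi i) (R r) hRi c hc
      · right
        obtain ⟨R', hR'⟩ := hRt i
        obtain ⟨a, ha, hconj⟩ := ar_conj hA (hB r hrB) Q R'
        have h1 := ht2 i r hrS ⟨a, ha, fun s hs w _ => hR' _ ((hconj _).2 (by
          have h2 : a⁻¹ * (a * s * a⁻¹) * a = s := by group
          rw [h2]
          rwa [hQ] at hs)) w⟩
        rcases h1 with h1 | h1
        · exact absurd h1 hRi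
        · rw [← hcm r hrS] at h1
          refine ⟨h1, ?_⟩
          push Not at hRi
          exact hRi
    · intro x hx
      obtain ⟨y, hy, hxy⟩ := hsurj x hx
      exact ⟨y, hy, fun i w hw => ht1 i _ (A.mul_mem (A.inv_mem (cm_le hA r (hx i)))
        (cm_le hA r hy)) (fun w _ => hxy i w) w hw⟩

/-- (lg, size 1) PROOF. `NotY` or the hypothesis of `la_Y` for some `l`. -/
theorem la_main (h : Ltg p ρV ρU β) (hA : Ab A) (B : Set ℕ) (hB : ∀ r ∈ B, AR A r) :
    CaseY ρV ρU β A ∨ CaseX ρV ρU A B := by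
  by_cases hY : NotY ρV ρU β A
  · exact Or.inr (la_X h hA B hB hY)
  · unfold NotY at hY
    push Not at hY
    obtain ⟨l, hl, h1⟩ := hY
    exact Or.inl (la_Y h hA l hl fun D h2 h3 h4 h5 => by
      obtain ⟨d, hd, v, hv, h6⟩ := h1 D h2 h3 h4 h5
      exact ⟨d, hd, v, hv, h6⟩)

end

end Pool.Agent.Nan
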