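import Pool.Agent.Nan.Pl

/-! The assembly: modules `ma` .. `mz`. -/

set_option autoImplicit false

namespace Pool.Agent.Nan

open Classical

open Pool.Agent.KB Pool.Agent.KB.ContrAux Pool.Agent.KBL Pool.Agent.KBZ Pool.Agent.KBU
  Pool.Agent.KBQ Pool.Agent.KBY

/-- The primes `p` which do not divide `|G : Fit G|` and for which `Op p G` is not abelian. -/
def Tau (G : Type) [Group G] (p : ℕ) : Prop :=
  ¬ p ∣ (Fit G).index ∧ ¬ ∀ x ∈ Op p G, ∀ y ∈ Op p G, x * y = y * x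

/-- The data for the prime `p`. -/
def GBlk (G : Type) [Group G] [Finite G] (A : Subgroup (G ⧸ Fit G)) (B : Set ℕ) (p : ℕ) : Prop :=
  ∃ s ∈ Irr (Op p G), ∃ (n : ℕ) (St : Fin n → Subgroup (G ⧸ Fit G))
    (Θ : (Fin n → G ⧸ Fit G) → Op p G → ℂ),
    (∀ k, (∀ j, k j ∈ A) → Θ k ∈ Irr (Op p G)) ∧
    (∀ k, (∀ j, k j ∈ A) → ∀ z ∈ fxH (Fit G) (Op p G) (op_nor p) (Θ k), ∀ j,
      (k j)⁻¹ * z * k j ∈ St j) ∧
    (Tau G p → (∃ d : ℕ, s 1 = d ∧ p ∣ d) ∨
      ∀ k, (∀ j, k j ∈ A) → ∃ d : ℕ, Θ k 1 = d ∧ p ∣ d) ∧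
    (¬ Tau G p → s = fun _ => 1) ∧
    Blk A B p (fun D => ntG (Op p G) D) (fxH (Fit G) (Op p G) (op_nor p) s) n St

section

variable {G : Type} [Group G] [Finite G]

private theorem ma_fx {p : ℕ} (φ : (G ⧸ Fit G) →* MulAut (Op p G))
    (hφ : ∀ g : G, ∃ y : Op p G, ∀ x z : Op p G,
      (z : G) = g * x * g⁻¹ → z = y * φ (g : G ⧸ Fit G) x * y⁻¹) (χ : Op p G → ℂ)
    (hχ : χ ∈ Irr (Op p G)) : fxH (Fit G) (Op p G) (op_nor p) χ = fxS φ χ := by
  have key : ∀ (g : G) (x z : Op p G), (z : G) = g * x * g⁻¹ →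
      χ z = χ (φ (g : G ⧸ Fit G) x) := by
    intro g x z hz
    obtain ⟨y, hy⟩ := hφ g
    rw [hy x z hz]
    have := Fintype.ofFinite (Op p G)
    exact irr_conj hχ (isConj_iff.2 ⟨y⁻¹, by group⟩)
  ext z
  constructor
  · rintro ⟨g, hg, rfl⟩ x
    obtain ⟨z, hz⟩ : ∃ z : Op p G, (z : G) = g * x * g⁻¹ :=
      ⟨⟨_, (op_nor (G := G) p).conj_mem (x : G) x.2 g⟩, rfl⟩
    exact (key g x z hz).symm.trans (hg x z hz)
  · intro h
    obtain ⟨g, rfl⟩ := QuotientGroup.mk_surjective z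
    exact ⟨g, fun x z hz => (key g x z hz).trans (h x), rfl⟩

/-- (ma, size 3) The blocks for `p ∈ τ`. PROOF. `φ` from `act`, `loc_main` (`commutator (Op p G) ≠ ⊥`,
`p` does not divide `|G ⧸ Fit G|`). For a class function `χ` on `Op p G` and `g : G`: `g` fixes `χ` iff
`χ (φ g x) = χ x` for all `x`; so `fxH (Fit G) (Op p G) _ χ = fxS φ χ` (`fit_fx` for one inclusion). If `D` moves a
linear character then `φ d ≠ 1` for some `d ∈ D`. -/
theorem gblk_tau (p : ℕ) (hp : p.Prime) (hτ : Tau G p) {A : Subgroup (G ⧸ Fit G)} (hA : Ab A)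
    (B : Set ℕ) (hB : ∀ r ∈ B, AR A r) : GBlk G A B p := by
  obtain ⟨φ, hφ⟩ := act p hp hτ.1
  have hne : commutator (Op p G) ≠ ⊥ := by
    intro h
    apply hτ.2
    intro x hx y hy
    have h1 := Subgroup.commutator_mem_commutator (H₁ := (⊤ : Subgroup (Op p G))) (H₂ := ⊤)
      (Subgroup.mem_top (⟨x, hx⟩ : Op p G)) (Subgroup.mem_top (⟨y, hy⟩ : Op p G))
    rw [← commutator_def, h, Subgroup.mem_bot, commutatorElement_eq_one_iff_mul_comm] at h1
    exact congrArg Subtype.val h1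
  obtain ⟨s, hs, n, St, Θ, h1, h2, h3, h4⟩ :=
    loc_main p hp (op_pgr p) (show ¬ p ∣ Nat.card (G ⧸ Fit G) from hτ.1) φ hne hA B hB
  refine ⟨s, hs, n, St, Θ, h1, fun k hk z hz j => ?_, fun _ => h3, fun h => absurd hτ h, ?_⟩
  · rw [ma_fx φ hφ (Θ k) (h1 k hk)] at hz
    exact h2 k hk z hz j
  · rw [ma_fx φ hφ s hs]
    have hnt : ∀ D : Subgroup (G ⧸ Fit G), ntG (Op p G) D → ∃ d ∈ D, φ d ≠ 1 := by
      rintro D ⟨g, hg, f, x, y, hxy, hf⟩
      refine ⟨g, hg, fun h => hf ?_⟩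
      obtain ⟨w, hw⟩ := hφ g
      rw [hw x y hxy, h, MulAut.one_apply, map_mul, map_mul, map_inv]
      rw [mul_right_comm, mul_inv_cancel, one_mul]
    exact ⟨h4.b1, fun q hq hqp D hD hDA hDq hD' => h4.b2 q hq hqp D hD hDA hDq (hnt D hD'),
      fun r hr ⟨q, hq, hqp, D, hD, hDc, hDq, hD'⟩ =>
        h4.c r hr ⟨q, hq, hqp, D, hD, hDc, hDq, hnt D hD'⟩⟩

private theorem mb_one (P : Type) [Group P] : (fun _ : P => (1 : ℂ)) ∈ Irr P := by
  refine ⟨1, (1 : P →* ((Fin 1 → ℂ) →ₗ[ℂ] (Fin 1 → ℂ))), ?_, ?_⟩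
  · have h1 : IsSimpleOrder (Submodule ℂ (Fin 1 → ℂ)) := by
      have h2 : IsSimpleModule ℂ (Fin 1 → ℂ) := by
        rw [isSimpleModule_iff_finrank_eq_one]
        simp
      exact (isSimpleModule_iff ℂ (Fin 1 → ℂ)).1 h2
    refine { exists_pair_ne := ⟨⊥, ⊤, fun h => ?_⟩, eq_bot_or_eq_top := fun S => ?_ }
    · have h2 := congrArg Subrepresentation.toSubmodule h
      exact bot_ne_top h2
    · rcases h1.eq_bot_or_eq_top S.toSubmodule with h2 | h2
      · left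
        exact Subrepresentation.toSubmodule_injective h2
      · right
        exact Subrepresentation.toSubmodule_injective h2
  · funext g
    show LinearMap.trace ℂ (Fin 1 → ℂ) (1 : (Fin 1 → ℂ) →ₗ[ℂ] (Fin 1 → ℂ)) = 1
    rw [LinearMap.trace_one]
    simp

private theorem mb_lin {P : Type} [Group P] (f : P →* ℂˣ) :
    (fun x : P => ((f x : ℂˣ) : ℂ)) ∈ Irr P := by
  have h1 := LinB_irr f _ (mb_one P)
  simpa using h1

private theorem mb_fin (P : Type) [Group P] [Finite P] : Finite (P →* ℂˣ) := by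
  have := Fintype.ofFinite P
  have := Col_finite P
  refine Finite.of_injective (fun f : P →* ℂˣ => (⟨_, mb_lin f⟩ : Irr P)) fun f g h => ?_
  have h1 := congrArg Subtype.val h
  exact MonoidHom.ext fun x => Units.ext (congrFun h1 x)

private theorem mb_pgr {p : ℕ} {P : Type} [Group P] [Finite P] (hP : IsPGroup p P) :
    IsPGroup p (P →* ℂˣ) := by
  intro f
  obtain ⟨n, hn⟩ : ∃ n : ℕ, ∀ x : P, x ^ p ^ n = 1 := by
    rcases Nat.eq_zero_or_pos p with h0 | h0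
    · refine ⟨1, fun x => ?_⟩
      rw [h0]
      simp
    have := Fintype.ofFinite P
    choose k hk using hP
    refine ⟨Finset.univ.sup k, fun x => ?_⟩
    obtain ⟨c, hc⟩ := pow_dvd_pow p (Finset.le_sup (Finset.mem_univ x) : k x ≤ Finset.univ.sup k)
    rw [hc, pow_mul, hk, one_pow]
  refine ⟨n, MonoidHom.ext fun x => ?_⟩
  rw [MonoidHom.pow_apply, ← map_pow, hn, map_one, MonoidHom.one_apply]

/-- The action on the linear characters. -/
private def mb_psi (P : Subgroup G) [hP : P.Normal] : G →* MulAut (P →* ℂˣ) where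
  toFun g :=
    { toFun := fun f => f.comp (MulAut.conjNormal g⁻¹ : MulAut P).toMonoidHom
      invFun := fun f => f.comp (MulAut.conjNormal g : MulAut P).toMonoidHom
      left_inv := fun f => by
        refine MonoidHom.ext fun x => ?_
        show f ((MulAut.conjNormal g⁻¹ : MulAut P) ((MulAut.conjNormal g : MulAut P) x)) = f x
        congr 1
        rw [← MulAut.mul_apply, ← map_mul, inv_mul_cancel, map_one, MulAut.one_apply]
      right_inv := fun f => by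
        refine MonoidHom.ext fun x => ?_
        show f ((MulAut.conjNormal g : MulAut P) ((MulAut.conjNormal g⁻¹ : MulAut P) x)) = f x
        congr 1
        rw [← MulAut.mul_apply, ← map_mul, mul_inv_cancel, map_one, MulAut.one_apply]
      map_mul' := fun f f' => rfl }
  map_one' := by
    refine MulEquiv.ext fun f => MonoidHom.ext fun x => ?_
    show f ((MulAut.conjNormal (1 : G)⁻¹ : MulAut P) x) = f x
    rw [inv_one, map_one, MulAut.one_apply]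
  map_mul' g k := by
    refine MulEquiv.ext fun f => MonoidHom.ext fun x => ?_
    show f ((MulAut.conjNormal (g * k)⁻¹ : MulAut P) x) =
      f ((MulAut.conjNormal k⁻¹ : MulAut P) ((MulAut.conjNormal g⁻¹ : MulAut P) x))
    rw [mul_inv_rev, map_mul, MulAut.mul_apply]

private theorem mb_psi_apply (P : Subgroup G) [hP : P.Normal] (g : G) (f : P →* ℂˣ) (x y : P)
    (hxy : (y : G) = g * x * g⁻¹) : mb_psi P g f y = f x := by
  show f ((MulAut.conjNormal g⁻¹ : MulAut P) y) = f x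
  congr 1
  apply Subtype.ext
  rw [MulAut.conjNormal_apply, hxy]
  group

private theorem mb_psi_iff (P : Subgroup G) [hP : P.Normal] (g : G) (f : P →* ℂˣ) :
    mb_psi P g f = f ↔ g ∈ fxG P hP (fun x : P => ((f x : ℂˣ) : ℂ)) := by
  constructor
  · intro h x y hxy
    have h1 := mb_psi_apply P g f x y hxy
    rw [h] at h1
    show ((f y : ℂˣ) : ℂ) = ((f x : ℂˣ) : ℂ)
    rw [h1]
  · intro h
    refine MonoidHom.ext fun y => ?_
    obtain ⟨x, hx⟩ : ∃ x : P, (x : G) = g⁻¹ * y * g := by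
      refine ⟨⟨g⁻¹ * y * g, ?_⟩, rfl⟩
      have := hP.conj_mem y y.2 g⁻¹
      rwa [inv_inv] at this
    have hxy : (y : G) = g * x * g⁻¹ := by
      rw [hx]
      group
    rw [mb_psi_apply P g f x y hxy]
    exact (Units.ext (h x y hxy)).symm

/-- The elements of `A` of order prime to `p`. -/
private def mb_E {H : Type} [Group H] {A : Subgroup H} (hA : Ab A) (p : ℕ) : Subgroup H where
  carrier := {a | a ∈ A ∧ (orderOf a).Coprime p}
  one_mem' := ⟨A.one_mem, by rw [orderOf_one]; exact Nat.coprime_one_left p⟩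
  mul_mem' := fun {a b} ha hb => ⟨A.mul_mem ha.1 hb.1, by
    refine Nat.Coprime.coprime_dvd_left (Commute.orderOf_mul_dvd_mul_orderOf
      (hA.com a ha.1 b hb.1 : Commute a b)) ?_
    exact Nat.Coprime.mul_left ha.2 hb.2⟩
  inv_mem' := fun {a} ha => ⟨A.inv_mem ha.1, by rw [orderOf_inv]; exact ha.2⟩

private theorem mb_main {H : Type} [Group H] [Finite H] {A : Subgroup H} (hA : Ab A) (p : ℕ)
    (hp : p.Prime) {D : Type} [CommGroup D] [Finite D] (hD : IsPGroup p D)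
    (Ψ : H →* MulAut D) : ∃ f : D, ∀ q : ℕ, q.Prime → q ≠ p → ∀ Q : Subgroup H, Q ≤ A →
      IsPGroup q Q → (∀ z ∈ Q, Ψ z f = f) → ∀ z ∈ Q, ∀ e, Ψ z e = e := by
  have hpf : Fact p.Prime := ⟨hp⟩
  let E := mb_E hA p
  let act : MulDistribMulAction E D := MulDistribMulAction.compHom D (Ψ.comp E.subtype)
  have hsm : ∀ (x : E) (d : D), x • d = Ψ (x : H) d := fun _ _ => rfl
  have hcop : (Nat.card E).Coprime (Nat.card D) := by
    obtain ⟨n, hn⟩ := IsPGroup.iff_card.1 hD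
    rw [hn]
    refine Nat.Coprime.pow_right _ ?_
    refine (hp.coprime_iff_not_dvd.2 fun hd => ?_).symm
    obtain ⟨x, hx⟩ := exists_prime_orderOf_dvd_card' p hd
    have h1 := x.2.2
    rw [← Subgroup.orderOf_coe, hx] at *
    exact hp.one_lt.ne' ((Nat.coprime_self p).1 h1)
  obtain ⟨f, hf⟩ := gen (Γ := E) (D := D) hcop (fun x y d => by
    rw [← mul_smul, ← mul_smul]
    congr 1
    exact Subtype.ext (hA.com _ x.2.1 _ y.2.1))
  refine ⟨f, fun q hq hqp Q hQA hQ hQf z hz e => ?_⟩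
  have hzE : z ∈ E := by
    refine ⟨hQA hz, ?_⟩
    obtain ⟨k, hk⟩ := hQ ⟨z, hz⟩
    have h1 : z ^ q ^ k = 1 := by
      have := congrArg Subtype.val hk
      simpa using this
    exact Nat.Coprime.coprime_dvd_left (orderOf_dvd_of_pow_eq_one h1)
      (Nat.Coprime.pow_left k ((Nat.coprime_primes hq hp).2 hqp))
  have h1 := hf ⟨z, hzE⟩ (by rw [hsm]; exact hQf z hz) e
  rw [hsm] at h1
  exact h1

/-- (mb, size 4) The other blocks. PROOF. `s = 1`, `n = 1`. `E` = the elements of `A` of order prime to `p`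
(a subgroup, normal in `G ⧸ Fit G`; `|E|` is prime to `p`). `E` acts on the finite abelian `p`-group
`D = (Op p G →* ℂˣ)` (`(z • f) x = f (g⁻¹ x g)` for `z = g (Fit G)`; well defined because `Fit G` fixes the linear
characters, `fit_fx`). `gen` gives `f ∈ D` such that the elements of `E` which fix `f` act trivially on `D`.
`St 0` = the stabilizer of `f` in `G ⧸ Fit G` (`fxH` of the coercion of `f`, which is in `Irr`); `Θ k` = the
coercion of `(k 0) • f`. `b1`: `fxH .. 1 = ⊤`. `b2`: a `q`-group `D' ≤ A`, `q ≠ p`, is in `E`; if `D' ≤ St 0` it acts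
trivially on `D`, against `ntG`. `c`: if `cm A r ≤ St 0` then so is the `q`-group `D' ≤ cm A r`, the same
contradiction (third statement with `Ss = ⊤`). -/
theorem gblk_lin (p : ℕ) (hp : p.Prime) (hτ : ¬ Tau G p) {A : Subgroup (G ⧸ Fit G)} (hA : Ab A)
    (B : Set ℕ) (hB : ∀ r ∈ B, AR A r) : GBlk G A B p := by
  have hN : (Op p G).Normal := op_nor p
  have hker : ∀ u ∈ Fit G, mb_psi (Op p G) u = 1 := by
    intro u hu
    refine MulEquiv.ext fun f => ?_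
    rw [MulAut.one_apply]
    exact (mb_psi_iff (Op p G) u f).2 (fit_fx p hp _ (mb_lin f) hu)
  let Ψ : (G ⧸ Fit G) →* MulAut (Op p G →* ℂˣ) :=
    QuotientGroup.lift (Fit G) (mb_psi (Op p G)) hker
  have hΨ : ∀ g : G, Ψ (g : G ⧸ Fit G) = mb_psi (Op p G) g := fun g => rfl
  have hfx : ∀ (z : G ⧸ Fit G) (f : Op p G →* ℂˣ),
      z ∈ fxH (Fit G) (Op p G) (op_nor p) (fun x => ((f x : ℂˣ) : ℂ)) ↔ Ψ z f = f := by
    intro z f
    constructor
    · rintro ⟨g, hg, rfl⟩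
      exact (mb_psi_iff (Op p G) g f).2 hg
    · intro h
      obtain ⟨g, rfl⟩ := QuotientGroup.mk_surjective z
      exact ⟨g, (mb_psi_iff (Op p G) g f).1 h, rfl⟩
  have hfin := mb_fin (Op p G)
  obtain ⟨f, hf⟩ := mb_main hA p hp (mb_pgr (op_pgr p)) Ψ
  have hq : ∀ q : ℕ, q.Prime → q ≠ p → ∀ D : Subgroup (G ⧸ Fit G), D ≤ A → IsPGroup q D →
      ntG (Op p G) D →
      ¬ D ≤ fxH (Fit G) (Op p G) (op_nor p) (fun x => ((f x : ℂˣ) : ℂ)) := by
    rintro q hq hqp D hDA hDq ⟨g, hg, f', x, y, hxy, hne⟩ hle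
    have h1 := hf q hq hqp D hDA hDq (fun z hz => (hfx z f).1 (hle hz)) g hg f'
    apply hne
    rw [hΨ] at h1
    have h2 := mb_psi_apply (Op p G) g f' x y hxy
    rw [h1] at h2
    exact h2
  have htop : ∀ z : G ⧸ Fit G, z ∈ fxH (Fit G) (Op p G) (op_nor p) (fun _ => 1) := by
    intro z
    obtain ⟨g, rfl⟩ := QuotientGroup.mk_surjective z
    exact ⟨g, fun _ _ _ => rfl, rfl⟩
  refine ⟨fun _ => 1, mb_one _, 1,
    fun _ => fxH (Fit G) (Op p G) (op_nor p) (fun x => ((f x : ℂˣ) : ℂ)),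
    fun k x => ((Ψ (k 0) f x : ℂˣ) : ℂ), fun k _ => mb_lin _, fun k _ z hz j => ?_,
    fun h => absurd h hτ, fun _ => rfl, ?_⟩
  · have h1 := (hfx z (Ψ (k 0) f)).1 hz
    rw [Fin.fin_one_eq_zero j]
    refine (hfx _ f).2 ?_
    rw [map_mul, map_mul, MulAut.mul_apply, MulAut.mul_apply, h1, ← MulAut.mul_apply, ← map_mul,
      inv_mul_cancel, map_one, MulAut.one_apply]
  · refine ⟨fun a _ _ => htop a, fun q hq' hqp D _ hDA hDq hD => ⟨0, hq q hq' hqp D hDA hDq hD⟩,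
      ?_⟩
    rintro r hr ⟨q, hq', hqp, D, hD, hDc, hDq, hD'⟩ ⟨-, -, h3, -⟩
    exact hq q hq' hqp D (hDc.trans (cm_le hA r)) hDq hD'
      fun d hd => h3 d (hDc hd) (htop d) 0

/-- (mc, size 1) PROOF. `F ≤ fxG P hP χ`. -/
theorem mem_fxH (F : Subgroup G) [F.Normal] (P : Subgroup G) (hP : P.Normal) (χ : P → ℂ)
    (hF : F ≤ fxG P hP χ) (g : G) : (g : G ⧸ F) ∈ fxH F P hP χ ↔ g ∈ fxG P hP χ := by
  constructor
  · rintro ⟨k, hk, he⟩
    have h1 : k⁻¹ * g ∈ F := QuotientGroup.eq.mp he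
    have h2 : g = k * (k⁻¹ * g) := by group
    rw [h2]
    exact mul_mem hk (hF h1)
  · intro h
    exact ⟨g, h, rfl⟩

/-- (mc, size 1) PROOF. `Subgroup.index_map` / correspondence. -/
theorem idx_fxH (F : Subgroup G) [F.Normal] (P : Subgroup G) (hP : P.Normal) (χ : P → ℂ)
    (hF : F ≤ fxG P hP χ) : (fxH F P hP χ).index = (fxG P hP χ).index := by
  unfold fxH
  refine Subgroup.index_map_eq _ (QuotientGroup.mk'_surjective F) ?_
  rw [QuotientGroup.ker_mk']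
  exact hF

/-- (mc, size 2) The Hall subgroup of the primes in `τ`. PROOF. `N = ⨆ p ∈ τ, Op p G`: its order divides the
product of the orders of the `Op p G` (`csup_card`, `op_com`), so its prime divisors are in `τ`, and for
`p ∈ τ` the index of `Op p G` is prime to `p` (`op_idx`). -/
theorem tau_cop : (Nat.card (⨆ i : {p : ℕ // p ∈ (Nat.card G).primeFactors ∧ Tau G p},
    Op i G : Subgroup G)).Coprime
    (⨆ i : {p : ℕ // p ∈ (Nat.card G).primeFactors ∧ Tau G p}, Op i G : Subgroup G).index := by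
  obtain ⟨S, hS⟩ : ∃ S : Finset ℕ, S = (Nat.card G).primeFactors.filter (fun p => Tau G p) :=
    ⟨_, rfl⟩
  have e : (⨆ i : {p : ℕ // p ∈ (Nat.card G).primeFactors ∧ Tau G p}, Op i G : Subgroup G) =
      ⨆ r ∈ S, Op r G := by
    apply le_antisymm
    · refine iSup_le fun i => ?_
      refine le_iSup₂_of_le (i : ℕ) ?_ le_rfl
      rw [hS, Finset.mem_filter]
      exact i.2
    · refine iSup₂_le fun r hr => ?_
      rw [hS, Finset.mem_filter] at hr
      exact le_iSup (fun i : {p : ℕ // p ∈ (Nat.card G).primeFactors ∧ Tau G p} => Op i G) ⟨r, hr⟩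
  have hpr : ∀ r ∈ S, r.Prime := by
    intro r hr
    rw [hS, Finset.mem_filter] at hr
    exact Nat.prime_of_mem_primeFactors hr.1
  rw [e]
  refine csup_cop S (fun r => Op r G) hpr (fun r _ => op_pgr r) ?_ _ ?_
  · intro r hr r' hr' hne x hx y hy
    exact op_com r r' (hpr r hr) (hpr r' hr') hne x y hx hy
  · intro r hr hd
    have h1 : Op r G ≤ ⨆ r ∈ S, Op r G := le_iSup₂_of_le r hr le_rfl
    have h2 := Subgroup.index_dvd_of_le h1
    have h3 : Tau G r := by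
      rw [hS, Finset.mem_filter] at hr
      exact hr.2
    exact op_idx r (hpr r hr) h3.1 (hd.trans h2)

private theorem md_cop {p q : ℕ} (hp : p.Prime) (hq : q.Prime) (hne : p ≠ q) :
    (Nat.card (Op p G)).Coprime (Nat.card (Op q G)) := by
  have := Fact.mk hp
  have := Fact.mk hq
  exact IsPGroup.coprime_card_of_ne p q hne _ _ (op_pgr p) (op_pgr q)

private theorem md_deg {A : Type} [Group A] [Finite A] {θ : A → ℂ} (h : θ ∈ Irr A) :
    ∃ n : ℕ, θ 1 = n := by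
  obtain ⟨n, ρ, -, rfl⟩ := h
  exact ⟨n, by rw [Representation.char_one]; simp⟩

/-- (md, size 4) The high character. PROOF. `prodchar` for the groups `Op i G` gives `θ ∈ Irr (Fit G)`,
`clif` gives `χ`. `Z = fxH (Fit G) (Fit G) _ θ`, its index divides `χ 1` (`idx_fxH`). -/
theorem high (Θ : ∀ i : {p : ℕ // p ∈ (Nat.card G).primeFactors}, Op i G → ℂ)
    (hΘ : ∀ i : {p : ℕ // p ∈ (Nat.card G).primeFactors}, Θ i ∈ Irr (Op (i : ℕ) G)) :
    ∃ χ ∈ Irr G, ∃ d : ℕ, χ 1 = d ∧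
      (∀ (i : {p : ℕ // p ∈ (Nat.card G).primeFactors}) (e : ℕ), Θ i 1 = e → e ∣ d) ∧
      ∃ Z : Subgroup (G ⧸ Fit G), Z.index ∣ d ∧
        ∀ z ∈ Z, ∀ i : {p : ℕ // p ∈ (Nat.card G).primeFactors},
          z ∈ fxH (Fit G) (Op (i : ℕ) G) (op_nor _) (Θ i) := by
  obtain ⟨θ, hθ, h1, h2⟩ := prodchar
    (fun i : {p : ℕ // p ∈ (Nat.card G).primeFactors} => Op (i : ℕ) G) (fun i => op_nor (i : ℕ))
    (fun i j hij => md_cop (Nat.prime_of_mem_primeFactors i.2)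
      (Nat.prime_of_mem_primeFactors j.2) (fun h => hij (Subtype.ext h))) Θ hΘ fit_nor
  change Fit G → ℂ at θ
  change θ ∈ Irr (Fit G) at hθ
  have h2' : ∀ g : G, g ∈ fxG (Fit G) fit_nor θ ↔
      ∀ i : {p : ℕ // p ∈ (Nat.card G).primeFactors},
        g ∈ fxG (Op (i : ℕ) G) (op_nor (i : ℕ)) (Θ i) := h2
  obtain ⟨χ, hχ, m, hm⟩ := clif (Fit G) fit_nor θ hθ
  obtain ⟨n, hn⟩ := md_deg hθ
  have hF : Fit G ≤ fxG (Fit G) fit_nor θ := by
    intro g hg
    rw [mem_fxG]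
    intro x y hxy
    refine (Col_class hθ (isConj_iff.2 ⟨⟨g, hg⟩, ?_⟩)).symm
    exact Subtype.ext hxy.symm
  refine ⟨χ, hχ, m * (fxG (Fit G) fit_nor θ).index * n, ?_, ?_, fxH (Fit G) (Fit G) fit_nor θ,
    ?_, ?_⟩
  · rw [hm, hn]
    push_cast
    ring
  · intro i e he
    obtain ⟨k, hk⟩ := h1 i
    change θ 1 = (k : ℂ) * Θ i 1 at hk
    rw [hn, he] at hk
    have : n = k * e := by exact_mod_cast hk
    exact Dvd.dvd.mul_left ⟨k, by rw [this]; ring⟩ _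
  · rw [idx_fxH _ _ _ _ hF]
    exact ⟨m * n, by ring⟩
  · rintro z ⟨g, hg, rfl⟩ i
    exact ⟨g, (h2' g).mp hg i, rfl⟩

/-- (me, size 4) The low character. PROOF. `prodchar` for the `Op i G`, `i ∈ τ`, gives `θ` on
`N = ⨆ i ∈ τ, Op i G`; `lowchar` with `F = Fit G` (`tau_cop`). `fxH (Fit G) N _ θ` is the intersection of the
`fxH (Fit G) (Op i G) _ (s i)`, `i ∈ τ` (`mem_fxH`, `fit_fx`). -/
theorem low {A : Subgroup (G ⧸ Fit G)} (hA : Ab A) (B : Set ℕ) (hB : ∀ r ∈ B, AR A r)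
    (s : ∀ i : {p : ℕ // p ∈ (Nat.card G).primeFactors ∧ Tau G p}, Op i G → ℂ)
    (hs : ∀ i : {p : ℕ // p ∈ (Nat.card G).primeFactors ∧ Tau G p}, s i ∈ Irr (Op (i : ℕ) G)) :
    ∃ χ ∈ Irr G, ∃ d : ℕ, χ 1 = d ∧
      (∀ (i : {p : ℕ // p ∈ (Nat.card G).primeFactors ∧ Tau G p}) (e : ℕ), s i 1 = e → e ∣ d) ∧
      ∀ r ∈ B, r ∣ d ∨ ∃ R : Sylow r (G ⧸ Fit G),
        (∀ i : {p : ℕ // p ∈ (Nat.card G).primeFactors ∧ Tau G p},
          (R : Subgroup (G ⧸ Fit G)) ≤ fxH (Fit G) (Op (i : ℕ) G) (op_nor _) (s i)) ∧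
        ∀ c ∈ cm A r, (∀ i : {p : ℕ // p ∈ (Nat.card G).primeFactors ∧ Tau G p},
          c ∈ fxH (Fit G) (Op (i : ℕ) G) (op_nor _) (s i)) → c = 1 := by
  have : Finite {p : ℕ // p ∈ (Nat.card G).primeFactors ∧ Tau G p} :=
    Finite.of_injective
      (fun i => (⟨(i : ℕ), i.2.1⟩ : {p : ℕ // p ∈ (Nat.card G).primeFactors}))
      (fun i j h => Subtype.ext (congrArg (fun t : {p : ℕ // p ∈ (Nat.card G).primeFactors} =>
        (t : ℕ)) h))
  have hN : (⨆ i : {p : ℕ // p ∈ (Nat.card G).primeFactors ∧ Tau G p},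
      Op (i : ℕ) G : Subgroup G).Normal := by
    have : ∀ i : {p : ℕ // p ∈ (Nat.card G).primeFactors ∧ Tau G p}, (Op (i : ℕ) G).Normal :=
      fun i => op_nor _
    exact Subgroup.iSup_normal _
  obtain ⟨θ, hθ, h1, h2⟩ := prodchar
    (fun i : {p : ℕ // p ∈ (Nat.card G).primeFactors ∧ Tau G p} => Op (i : ℕ) G)
    (fun i => op_nor (i : ℕ))
    (fun i j hij => md_cop (Nat.prime_of_mem_primeFactors i.2.1)
      (Nat.prime_of_mem_primeFactors j.2.1) (fun h => hij (Subtype.ext h))) s hs hN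
  have hNF : (⨆ i : {p : ℕ // p ∈ (Nat.card G).primeFactors ∧ Tau G p},
      Op (i : ℕ) G : Subgroup G) ≤ Fit G :=
    iSup_le fun i => op_fit _ (Nat.prime_of_mem_primeFactors i.2.1)
  have hfx : ∀ i : {p : ℕ // p ∈ (Nat.card G).primeFactors ∧ Tau G p},
      Fit G ≤ fxG (Op (i : ℕ) G) (op_nor _) (s i) := fun i =>
    fit_fx _ (Nat.prime_of_mem_primeFactors i.2.1) _ (hs i)
  have hF : Fit G ≤ fxG _ hN θ := fun g hg => (h2 g).mpr fun i => hfx i hg
  obtain ⟨χ, hχ, d, hd, ⟨m, hm⟩, h3⟩ := lowchar (Fit G) hA _ hN hNF tau_cop θ hθ hF B hB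
  obtain ⟨n, hn⟩ := md_deg hθ
  refine ⟨χ, hχ, d, hd, ?_, ?_⟩
  · intro i e he
    obtain ⟨k, hk⟩ := h1 i
    rw [hk, he] at hm
    have : d = m * (k * e) := by exact_mod_cast hm
    exact ⟨m * k, by rw [this]; ring⟩
  · intro r hr
    rcases h3 r hr with h | ⟨R, hR, hc⟩
    · exact Or.inl h
    · right
      refine ⟨R, ?_, ?_⟩
      · intro i z hz
        obtain ⟨g, hg, rfl⟩ := hR hz
        exact ⟨g, (h2 g).mp hg i, rfl⟩
      · intro c hcA hci
        apply hc c hcA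
        obtain ⟨g, rfl⟩ := QuotientGroup.mk'_surjective (Fit G) c
        refine ⟨g, (h2 g).mpr fun i => ?_, rfl⟩
        exact (mem_fxH (Fit G) _ _ _ (hfx i) g).mp (hci i)

omit [Finite G] in
private theorem mf_one (F : Subgroup G) [F.Normal] (P : Subgroup G) (hP : P.Normal) (x : G ⧸ F) :
    x ∈ fxH F P hP (fun _ => 1) := by
  obtain ⟨g, rfl⟩ := QuotientGroup.mk'_surjective F x
  exact ⟨g, fun _ _ _ => rfl, rfl⟩

private theorem mf_ne {H : Type} [Group H] [Finite H] {A : Subgroup H} (hA : Ab A)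
    (hcen : ∀ x, (∀ a ∈ A, x * a = a * x) → x ∈ A) (r : ℕ) (hr : r.Prime)
    (h : AR A r) (hH : r ∣ Nat.card H) : cm A r ≠ ⊥ := by
  intro h0
  have hf : Fact r.Prime := ⟨hr⟩
  obtain ⟨R⟩ : Nonempty (Sylow r H) := inferInstance
  rw [ar_cm hA h R, Subgroup.commutator_eq_bot_iff_le_centralizer] at h0
  have h1 : (R : Subgroup H) ≤ A := by
    intro x hx
    refine hcen x fun a ha => ?_
    exact (Subgroup.mem_centralizer_iff.1 (h0 ha)) x hx
  exact h.ndvd ((R.dvd_card_of_dvd_card hH).trans (Subgroup.card_dvd_of_le h1))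

/-- (mf, size 5) The main theorem. PROOF. `ι = {p // p ∈ (Nat.card G).primeFactors}`. `B` = the set of
the primes which divide `|G ⧸ Fit G|` and not `|A|`; `cm A r ≠ ⊥` for `r ∈ B` (otherwise `⁅A, R⁆ = ⊥`
(`ar_cm`), `R` centralizes `A`, `R ≤ A` by `hcen`, but `r` divides `|R|`). `gblk_tau`, `gblk_lin` give the data
for every `i : ι` (choose). `fin_glue` with `nt i = ntG (Op i G)` (`hf`: `fit_fai`) gives `k`. `high` for
`Θ i (k i)` gives `χ₂`, `low` for the `s i`, `i ∈ τ`, gives `χ₁`. Let `p` be a prime which divides the degree of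
some character; then `p ∣ |G|` (`Cdeg_dvd`). If `p ∣ |G ⧸ Fit G|`: if `p ∣ |A|` then `p` divides the index of the
`Z` of `high` (`fin_glue`; `z ∈ fxH .. (Θ i (k i))` gives `(k i j)⁻¹ * z * k i j ∈ St i j`). If not, `p ∈ B`:
either the same, or `p ∣ χ₁ 1`, or the second alternative of `low` gives the `R` which `fin_glue` excludes (for `i`
not in `τ`: `s i = 1`, `fxH .. = ⊤`). If `p` does not divide `|G ⧸ Fit G|`: if `Op p G` is abelian then
`ito` (`op_idx`) gives a contradiction; otherwise `p ∈ τ`, and by the third property of `GBlk` `p` divides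
`s p 1` or `Θ p (k p) 1`. -/
theorem main {A : Subgroup (G ⧸ Fit G)} (hA : Ab A)
    (hcen : ∀ x, (∀ a ∈ A, x * a = a * x) → x ∈ A)
    (hAR : ∀ r : ℕ, r.Prime → ¬ r ∣ Nat.card A → AR A r) :
    ∃ χ₁ ∈ Irr G, ∃ χ₂ ∈ Irr G, ∃ d₁ d₂ : ℕ, χ₁ 1 = d₁ ∧ χ₂ 1 = d₂ ∧
      ∀ p : ℕ, p.Prime → (∃ χ ∈ Irr G, ∃ d : ℕ, χ 1 = d ∧ p ∣ d) → p ∣ d₁ * d₂ := by
  obtain ⟨B, hBdef⟩ : ∃ B : Set ℕ, ∀ r, r ∈ B ↔
      r.Prime ∧ r ∣ Nat.card (G ⧸ Fit G) ∧ ¬ r ∣ Nat.card A := ⟨_, fun r => Iff.rfl⟩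
  have hB : ∀ r ∈ B, AR A r := fun r hr => hAR r ((hBdef r).1 hr).1 ((hBdef r).1 hr).2.2
  have hne : ∀ r ∈ B, cm A r ≠ ⊥ := fun r hr =>
    mf_ne hA hcen r ((hBdef r).1 hr).1 (hB r hr) ((hBdef r).1 hr).2.1
  have hpr : ∀ i : {p : ℕ // p ∈ (Nat.card G).primeFactors}, (i : ℕ).Prime := fun i =>
    Nat.prime_of_mem_primeFactors i.2
  have hblk0 : ∀ i : {p : ℕ // p ∈ (Nat.card G).primeFactors}, GBlk G A B i := by
    intro i
    by_cases hτ : Tau G i
    · exact gblk_tau i (hpr i) hτ hA B hB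
    · exact gblk_lin i (hpr i) hτ hA B hB
  unfold GBlk at hblk0
  choose s hs n St Θ hΘ hst hdiv hs1 hblk using hblk0
  obtain ⟨k, hkA, hk1, hk2⟩ := fin_glue hA B hB hne
    (fun i : {p : ℕ // p ∈ (Nat.card G).primeFactors} => (i : ℕ))
    (fun i D => ntG (Op i G) D) (fun i => fxH (Fit G) (Op i G) (op_nor i) (s i)) n St hblk
    (fun q hq D hD hD' hne => fit_fai q hq D hD hD' hne)
  obtain ⟨χ₂, hχ₂, d₂, hd₂, hdiv₂, Z, hZd, hZ⟩ := high (fun i => Θ i (k i))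
    (fun i => hΘ i (k i) (hkA i))
  obtain ⟨χ₁, hχ₁, d₁, hd₁, hdiv₁, hlow⟩ := low hA B hB (fun i => s ⟨i, i.2.1⟩)
    (fun i => hs ⟨i, i.2.1⟩)
  have hZZ : ∀ z ∈ Z, ∀ i j, (k i j)⁻¹ * z * k i j ∈ St i j := fun z hz i j =>
    hst i (k i) (hkA i) z (hZ z hz i) j
  refine ⟨χ₁, hχ₁, χ₂, hχ₂, d₁, d₂, hd₁, hd₂, fun p hp hex => ?_⟩
  obtain ⟨χ, hχ, d, hd, hpd⟩ := hex
  have hpG : p ∣ Nat.card G := by
    have hft := Fintype.ofFinite G
    exact hpd.trans (Cdeg_dvd χ hχ d hd)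
  have hpm : p ∈ (Nat.card G).primeFactors :=
    Nat.mem_primeFactors.2 ⟨hp, hpG, Nat.card_pos.ne'⟩
  by_cases hpF : p ∣ Nat.card (G ⧸ Fit G)
  · by_cases hpA : p ∣ Nat.card A
    · exact ((hk1 p hp hpA Z hZZ).trans hZd).mul_left d₁
    · have hpB : p ∈ B := (hBdef p).2 ⟨hp, hpF, hpA⟩
      rcases hk2 p hpB with h1 | h1
      · exact ((h1 Z hZZ).trans hZd).mul_left d₁
      · rcases hlow p hpB with h2 | ⟨R, hR1, hR2⟩
        · exact h2.mul_right d₂
        · exfalso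
          refine h1 ⟨R, fun i => ?_, fun c hc hci => hR2 c hc fun i => hci ⟨i, i.2.1⟩⟩
          by_cases hτ : Tau G i
          · exact hR1 ⟨i, i.2, hτ⟩
          · intro x _
            show x ∈ fxH (Fit G) (Op i G) (op_nor i) (s i)
            rw [hs1 i hτ]
            exact mf_one _ _ _ x
  · have hpF' : ¬ p ∣ (Fit G).index := hpF
    by_cases hab : ∀ x ∈ Op p G, ∀ y ∈ Op p G, x * y = y * x
    · exact absurd hpd (ito p hp (Op p G) (op_nor p) (op_pgr p) hab (op_idx p hp hpF') χ hχ d hd)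
    · have hτ : Tau G p := ⟨hpF', hab⟩
      rcases hdiv ⟨p, hpm⟩ hτ with ⟨e, he, hpe⟩ | h1
      · exact (hpe.trans (hdiv₁ ⟨p, hpm, hτ⟩ e he)).mul_right d₂
      · obtain ⟨e, he, hpe⟩ := h1 (k ⟨p, hpm⟩) (hkA ⟨p, hpm⟩)
        exact (hpe.trans (hdiv₂ ⟨p, hpm⟩ e he)).mul_left d₁

end

/-- The degrees of the irreducible complex representations of `G`. -/
def Deg (G : Type) [Group G] : Set ℕ :=
  {n | ∃ ρ : Representation ℂ G (Fin n → ℂ), ρ.IsIrreducible}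

/-- Two character degrees cover all primes which divide a character degree. -/
def Cov (G : Type) [Group G] : Prop :=
  ∃ m ∈ Deg G, ∃ n ∈ Deg G, ∀ p : ℕ, p.Prime → (∃ d ∈ Deg G, p ∣ d) → p ∣ m * n

private theorem mg_deg {G : Type} [Group G] {n : ℕ} (ρ : Representation ℂ G (Fin n → ℂ))
    (hρ : ρ.IsIrreducible) : ρ.character ∈ Irr G ∧ ρ.character 1 = (n : ℂ) := by
  refine ⟨⟨n, ρ, hρ, rfl⟩, ?_⟩
  have h1 := (Omega_deg ρ hρ).1
  rw [h1]
  simp

private theorem mg_irr {G : Type} [Group G] {χ : G → ℂ} (hχ : χ ∈ Irr G) {d : ℕ} (hd : χ 1 = d) :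
    d ∈ Deg G := by
  obtain ⟨n, ρ, hρ, rfl⟩ := hχ
  have h1 := (mg_deg ρ hρ).2
  rw [hd] at h1
  have h2 : d = n := by exact_mod_cast h1
  subst h2
  exact ⟨ρ, hρ⟩

theorem cov_of {G : Type} [Group G] [Finite G]
    (h : ∃ χ₁ ∈ Irr G, ∃ χ₂ ∈ Irr G, ∃ d₁ d₂ : ℕ, χ₁ 1 = d₁ ∧ χ₂ 1 = d₂ ∧
      ∀ p : ℕ, p.Prime → (∃ χ ∈ Irr G, ∃ d : ℕ, χ 1 = d ∧ p ∣ d) → p ∣ d₁ * d₂) : Cov G := by
  obtain ⟨χ₁, h1, χ₂, h2, d₁, d₂, e1, e2, h3⟩ := h
  refine ⟨d₁, mg_irr h1 e1, d₂, mg_irr h2 e2, fun p hp h4 => ?_⟩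
  obtain ⟨d, ⟨ρ, hρ⟩, hd⟩ := h4
  exact h3 p hp ⟨ρ.character, (mg_deg ρ hρ).1, d, (mg_deg ρ hρ).2, hd⟩

/-- (mg, size 1) PROOF. `nan_A`, `main`, `cov_of`. -/
theorem nan {G : Type} [Group G] [Finite G] (N M : Subgroup G) (hN : N.Normal) (hM : M.Normal)
    (hnil : Group.IsNilpotent N) (hab : ⁅M, M⁆ ≤ N) (hq : Group.IsNilpotent (G ⧸ M)) : Cov G := by
  obtain ⟨A, hA, hcen, hAR⟩ := nan_A N M hN hM hnil hab hq
  exact cov_of (main hA hcen hAR)

private theorem mh_fit {G : Type} [Group G] [Finite G] (F : Subgroup G) (hFn : F.Normal)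
    (hnil : Group.IsNilpotent F)
    (hF : ∀ N : Subgroup G, N.Normal → Group.IsNilpotent N → N ≤ F) : F = Fit G := by
  refine le_antisymm (fit_nil F hFn hnil) (iSup_le fun p => ?_)
  have hp : Fact (p : ℕ).Prime := ⟨Nat.prime_of_mem_primeFactors p.2⟩
  exact hF (Op p G) (op_nor p) (op_pgr (p : ℕ)).isNilpotent

/-- (mh, size 3) The general form. PROOF. `Fit G = F`: `F ≤ Fit G` by `fit_nil`; `Op p G ≤ F` by `hF`
(`op_pgr`: finite `p`-groups are nilpotent). `A' = A.map (mk' (Fit G))`. `main`. -/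
theorem nan_gen {G : Type} [Group G] [Finite G] (F A : Subgroup G) (hFn : F.Normal)
    (hAn : A.Normal) (hnil : Group.IsNilpotent F)
    (hF : ∀ N : Subgroup G, N.Normal → Group.IsNilpotent N → N ≤ F) (hFA : F ≤ A)
    (hab : ⁅A, A⁆ ≤ F) (hcen : ∀ x, (∀ a ∈ A, x * a * x⁻¹ * a⁻¹ ∈ F) → x ∈ A)
    (hR : ∀ r : ℕ, r.Prime → ¬ r ∣ F.relIndex A → ∀ R : Sylow r G, (A ⊔ (R : Subgroup G)).Normal) :
    Cov G := by
  obtain rfl := mh_fit F hFn hnil hF
  have hsur := QuotientGroup.mk'_surjective (Fit G)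
  have hker : ∀ x : G, QuotientGroup.mk' (Fit G) x = 1 ↔ x ∈ Fit G := fun x =>
    QuotientGroup.eq_one_iff x
  have hcomm : ∀ x y : G, x * y * x⁻¹ * y⁻¹ ∈ Fit G ↔
      QuotientGroup.mk' (Fit G) x * QuotientGroup.mk' (Fit G) y =
        QuotientGroup.mk' (Fit G) y * QuotientGroup.mk' (Fit G) x := by
    intro x y
    rw [← hker, map_mul, map_mul, map_mul, map_inv, map_inv, mul_inv_eq_one,
      mul_inv_eq_iff_eq_mul]
  refine cov_of (main (A := A.map (QuotientGroup.mk' (Fit G))) ⟨hAn.map _ hsur, ?_⟩ ?_ ?_)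
  · rintro _ ⟨a, ha, rfl⟩ _ ⟨b, hb, rfl⟩
    exact (hcomm a b).1 (hab (Subgroup.commutator_mem_commutator ha hb))
  · intro x hx
    obtain ⟨g, rfl⟩ := hsur x
    exact ⟨g, hcen g fun a ha => (hcomm g a).2 (hx _ ⟨a, ha, rfl⟩), rfl⟩
  · intro r hr hd
    have hf : Fact r.Prime := ⟨hr⟩
    have hd' : ¬ r ∣ (Fit G).relIndex A := by
      have h1 := Subgroup.relIndex_ker A (QuotientGroup.mk' (Fit G))
      rw [QuotientGroup.ker_mk'] at h1
      rw [h1]
      exact hd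
    refine ⟨hr, hd, fun R => ?_⟩
    obtain ⟨R', rfl⟩ := Sylow.mapSurjective_surjective hsur r R
    have h2 := (hR r hr hd' R').map (QuotientGroup.mk' (Fit G)) hsur
    rw [Subgroup.map_sup] at h2
    exact h2

end Pool.Agent.Nan
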