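import Pool.Agent.Nan.Gs
import Pool.Agent.Nan.La

/-! The local theorem for a `p`-group: modules `pa` .. `pz`. -/

set_option autoImplicit false

namespace Pool.Agent.Nan

open Classical

open Pool.Agent.KB Pool.Agent.KB.ContrAux Pool.Agent.KBL Pool.Agent.KBZ Pool.Agent.KBU
  Pool.Agent.KBQ Pool.Agent.KBY

/-- The stabilizer in `H` of the function `χ` on `P`. -/
def fxS {P H : Type} [Group P] [Group H] (φ : H →* MulAut P) (χ : P → ℂ) : Subgroup H where
  carrier := {h | ∀ x, χ (φ h x) = χ x}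
  one_mem' := by
    intro x
    rw [map_one, MulAut.one_apply]
  mul_mem' := by
    intro g k hg hk x
    rw [map_mul, MulAut.mul_apply, hg, hk]
  inv_mem' := by
    intro g hg x
    have h1 := hg (φ g⁻¹ x)
    rw [← MulAut.mul_apply, ← map_mul, mul_inv_cancel, map_one, MulAut.one_apply] at h1
    exact h1.symm

theorem mem_fxS {P H : Type} [Group P] [Group H] (φ : H →* MulAut P) (χ : P → ℂ) (h : H) :
    h ∈ fxS φ χ ↔ ∀ x, χ (φ h x) = χ x := Iff.rfl

/-- What the local theorem gives for the group `P` with the action `φ` of `H`: a character `s`,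
subgroups `St j` and characters `Θ k`. -/
def Loc {P H : Type} [Group P] [Group H] (p : ℕ) (φ : H →* MulAut P) (A : Subgroup H)
    (B : Set ℕ) : Prop :=
  ∃ s ∈ Irr P, ∃ (n : ℕ) (St : Fin n → Subgroup H) (Θ : (Fin n → H) → P → ℂ),
    (∀ k, (∀ j, k j ∈ A) → Θ k ∈ Irr P) ∧
    (∀ k, (∀ j, k j ∈ A) → ∀ h ∈ fxS φ (Θ k), ∀ j, (k j)⁻¹ * h * k j ∈ St j) ∧
    ((∃ d : ℕ, s 1 = d ∧ p ∣ d) ∨ ∀ k, (∀ j, k j ∈ A) → ∃ d : ℕ, Θ k 1 = d ∧ p ∣ d) ∧
    Blk A B p (fun D => ∃ d ∈ D, φ d ≠ 1) (fxS φ s) n St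

section

variable {p : ℕ} [Fact p.Prime] {P H V U : Type} [Group P] [Finite P] [Group H] [Finite H]
  [AddCommGroup V] [Module (ZMod p) V] [Finite V] [AddCommGroup U] [Module (ZMod p) U] [Finite U]
  {φ : H →* MulAut P} {ρV : Representation (ZMod p) H V} {ρU : Representation (ZMod p) H U}
  {β : V →ₗ[ZMod p] V →ₗ[ZMod p] U} {q : P → V} {κ : U → P}

/-- The preimage of the radical of `l`. -/
def Zl (hC : C2 p φ ρV ρU β q κ) (l : Module.Dual (ZMod p) U) : Subgroup P where
  carrier := {x | q x ∈ Rad β l}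
  one_mem' := by
    have h1 := hC.q_mul 1 1
    rw [mul_one] at h1
    have h2 : q 1 = 0 := by simpa using h1
    change q 1 ∈ Rad β l
    rw [h2]
    exact Submodule.zero_mem _
  mul_mem' := by
    intro x y hx hy
    change q (x * y) ∈ Rad β l
    rw [hC.q_mul]
    exact Submodule.add_mem _ hx hy
  inv_mem' := by
    intro x hx
    have h1 := hC.q_mul 1 1
    rw [mul_one] at h1
    have h2 : q 1 = 0 := by simpa using h1
    have h3 := hC.q_mul x x⁻¹
    rw [mul_inv_cancel, h2] at h3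
    change q x⁻¹ ∈ Rad β l
    rw [eq_neg_of_add_eq_zero_right h3.symm]
    exact Submodule.neg_mem _ hx

/-- (pa, size 1) A `p`-th root of unity. -/
theorem zt_ex (p : ℕ) [Fact p.Prime] :
    ∃ ζ : Multiplicative (ZMod p) →* ℂˣ, Function.Injective ζ := by
  refine ⟨Circle.toUnits.comp (ZMod.toCircle (N := p)).toMonoidHom, ?_⟩
  intro a b hab
  have h1 : Circle.toUnits ((ZMod.toCircle (N := p)).toMonoidHom a) =
      Circle.toUnits ((ZMod.toCircle (N := p)).toMonoidHom b) := hab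
  have h2 : (ZMod.toCircle (N := p)) (Multiplicative.toAdd a) =
      (ZMod.toCircle (N := p)) (Multiplicative.toAdd b) := by
    have h3 := congrArg (fun u : ℂˣ => (u : ℂ)) h1
    exact Circle.ext h3
  exact ZMod.injective_toCircle h2

private theorem pa_ext {G M : Type} [CommGroup G] [Finite G] [Group M] (f : M →* G)
    (χ : M →* ℂˣ) (h : ∀ m, f m = 1 → χ m = 1) : ∃ ψ : G →* ℂˣ, ∀ m, ψ (f m) = χ m := by
  have hs : Function.Surjective f.rangeRestrict := f.rangeRestrict_surjective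
  have hk : f.rangeRestrict.ker ≤ χ.ker := by
    intro m hm
    rw [MonoidHom.mem_ker] at hm ⊢
    exact h m (congrArg Subtype.val hm)
  let χ' : f.range →* ℂˣ := f.rangeRestrict.liftOfSurjective hs ⟨χ, hk⟩
  obtain ⟨ψ, hψ⟩ := MonoidHom.domRestrict_surjective ℂ f.range χ'
  refine ⟨ψ, fun m => ?_⟩
  have h1 : ψ (f m) = χ' (f.rangeRestrict m) := by
    rw [← hψ]
    rfl
  rw [h1]
  exact MonoidHom.liftOfRightInverse_comp_apply _ _ _ ⟨χ, hk⟩ m

private theorem pa_q1 (hC : C2 p φ ρV ρU β q κ) : q 1 = 0 := by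
  have h1 := hC.q_mul 1 1
  rw [mul_one] at h1
  simpa using h1

private theorem pa_k1 (hC : C2 p φ ρV ρU β q κ) : κ 0 = 1 := by
  have h1 := hC.κ_add 0 0
  rw [add_zero] at h1
  exact (mul_eq_left.1 h1.symm)

private theorem pa_kinj (hC : C2 p φ ρV ρU β q κ) {u w : U} (h : κ u = κ w) : u = w := by
  have h1 : κ (u - w) * κ w = κ w := by
    rw [← hC.κ_add, sub_add_cancel, h]
  have h2 : κ (u - w) = 1 := mul_eq_right.1 h1
  exact sub_eq_zero.1 (hC.κ_inj _ h2)

private theorem pa_eqv (hC : C2 p φ ρV ρU β q κ) (h : H) (v w : V) :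
    β (ρV h v) (ρV h w) = ρU h (β v w) := by
  obtain ⟨x, rfl⟩ := hC.q_surj v
  obtain ⟨y, rfl⟩ := hC.q_surj w
  apply pa_kinj hC
  rw [hC.κ_eq, ← hC.comm, ← hC.q_eq, ← hC.q_eq, ← hC.comm]
  simp only [map_mul, map_inv]

private theorem pa_alt (hC : C2 p φ ρV ρU β q κ) (v : V) : β v v = 0 := by
  obtain ⟨x, rfl⟩ := hC.q_surj v
  apply hC.κ_inj
  rw [← hC.comm]
  group

private theorem pa_anti (hC : C2 p φ ρV ρU β q κ) (v w : V) : β v w = - β w v := by
  have h1 := pa_alt hC (v + w)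
  rw [map_add, map_add, LinearMap.add_apply, LinearMap.add_apply, pa_alt hC, pa_alt hC,
    zero_add, add_zero, add_comm] at h1
  exact eq_neg_of_add_eq_zero_left ((add_comm _ _).trans h1 |> fun h => by rwa [add_comm] at h)

private theorem pa_inv (hC : C2 p φ ρV ρU β q κ) (l : Module.Dual (ZMod p) U) {h : H}
    (hh : FixL ρU l h) {v : V} (hv : v ∈ Rad β l) : ρV h v ∈ Rad β l := by
  intro w
  have h1 : w = ρV h (ρV h⁻¹ w) := by
    rw [← Module.End.mul_apply, ← map_mul, mul_inv_cancel, map_one, Module.End.one_apply]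
  rw [h1, pa_eqv hC, hh, hv]

private theorem pa_fix_inv (l : Module.Dual (ZMod p) U) {h : H}
    (hh : FixL ρU l h) : FixL ρU l h⁻¹ := by
  intro x
  have h1 := hh (ρU h⁻¹ x)
  rw [← Module.End.mul_apply, ← map_mul, mul_inv_cancel, map_one, Module.End.one_apply] at h1
  exact h1.symm

/-- The stabilizer of `l`. -/
private def pa_K (ρU : Representation (ZMod p) H U) (l : Module.Dual (ZMod p) U) :
    Subgroup H where
  carrier := {h | FixL ρU l h}
  one_mem' := by
    intro x
    rw [map_one, Module.End.one_apply]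
  mul_mem' := by
    intro g k hg hk x
    rw [map_mul, Module.End.mul_apply, hg, hk]
  inv_mem' := fun {h} hh => pa_fix_inv l hh

/-- The action of the stabilizer. -/
private def pa_act (hC : C2 p φ ρV ρU β q κ) (l : Module.Dual (ZMod p) U) (h : pa_K ρU l) :
    Zl hC l →* Zl hC l where
  toFun x := ⟨φ h x, by
    change q (φ h x) ∈ Rad β l
    rw [hC.q_eq]
    exact pa_inv hC l h.2 x.2⟩
  map_one' := Subtype.ext (map_one (φ h))
  map_mul' x y := Subtype.ext (map_mul (φ h) (x : P) (y : P))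

private theorem pa_act_coe (hC : C2 p φ ρV ρU β q κ) (l : Module.Dual (ZMod p) U)
    (h : pa_K ρU l) (x : Zl hC l) : ((pa_act hC l h x : Zl hC l) : P) = φ h x := rfl

private theorem pa_kmem (hC : C2 p φ ρV ρU β q κ) (l : Module.Dual (ZMod p) U) (u : U) :
    κ u ∈ Zl hC l := by
  change q (κ u) ∈ Rad β l
  rw [hC.qκ]
  exact Submodule.zero_mem _

/-- `κ` as a homomorphism. -/
private def pa_kap (hC : C2 p φ ρV ρU β q κ) (l : Module.Dual (ZMod p) U) :
    Multiplicative U →* Zl hC l where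
  toFun u := ⟨κ u.toAdd, pa_kmem hC l _⟩
  map_one' := Subtype.ext (pa_k1 hC)
  map_mul' _ _ := Subtype.ext (hC.κ_add _ _)

/-- The subgroup of the `κ u` with `l u = 0`. -/
private def pa_N (hC : C2 p φ ρV ρU β q κ) (l : Module.Dual (ZMod p) U) :
    Subgroup (Zl hC l) where
  carrier := {x | ∃ u, l u = 0 ∧ (x : P) = κ u}
  one_mem' := ⟨0, map_zero l, (pa_k1 hC).symm⟩
  mul_mem' := by
    rintro x y ⟨u, hu, hx⟩ ⟨w, hw, hy⟩
    refine ⟨u + w, by rw [map_add, hu, hw, add_zero], ?_⟩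
    rw [Subgroup.coe_mul, hx, hy, hC.κ_add]
  inv_mem' := by
    rintro x ⟨u, hu, hx⟩
    refine ⟨-u, by rw [map_neg, hu, neg_zero], ?_⟩
    rw [Subgroup.coe_inv, hx, inv_eq_iff_mul_eq_one, ← hC.κ_add, add_neg_cancel, pa_k1 hC]

private theorem pa_comm (hC : C2 p φ ρV ρU β q κ) (l : Module.Dual (ZMod p) U) :
    commutator (Zl hC l) ≤ pa_N hC l := by
  rw [commutator_def, Subgroup.commutator_le]
  rintro x - y -
  refine ⟨β (q x) (q y), x.2 _, ?_⟩
  rw [commutatorElement_def, ← hC.comm]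
  rfl

/-- (pa, size 3) An invariant extension of the character `l` of the centre. PROOF. `ex_over` for
`κ : Multiplicative U →* P` and the character `u ↦ ζ (l u)` gives `θ₁ ∈ Irr P`; `θ₁ (κ u) = θ₁ 1 * ζ (l u)`
(`κ u` is central, `ClC_main` or Schur). For `x ∈ Zl hC l`, `y ∈ P` the commutator is `κ u` with `l u = 0`, so in
the representation of `θ₁` `x` commutes with everything, so it is a scalar `ν₁ x`; `ν₁` is a homomorphism
`Zl → ℂˣ` with `ν₁ (κ u) = ζ (l u)`. Let `K` be the group of the `h` which fix `l` (it acts on `Zl hC l`, as `ρV h`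
maps `Rad β l` to itself, `rad_inv` - only `C2` and `FixL` are needed: `β (ρV h v) (ρV h w) = ρU h (β v w)` follows
from `C2`), `ν₂ = ∏ h ∈ K, ν₁ ∘ h`, which is invariant under `K`, `ν₂ (κ u) = ζ (l u) ^ |K|`; `m |K| = 1` modulo `p`,
`ν = ν₂ ^ m`. -/
theorem chr_a (hC : C2 p φ ρV ρU β q κ) (hp : ¬ p ∣ Nat.card H)
    (ζ : Multiplicative (ZMod p) →* ℂˣ) (l : Module.Dual (ZMod p) U) :
    ∃ ν : Zl hC l →* ℂˣ,
      (∀ (u : U) (x : Zl hC l), (x : P) = κ u → ν x = ζ (Multiplicative.ofAdd (l u))) ∧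
        ∀ h : H, FixL ρU l h → ∀ x y : Zl hC l, (y : P) = φ h x → ν y = ν x := by
  have hpp : p.Prime := Fact.out
  -- the extension
  let χ : Multiplicative U →* ℂˣ := ζ.comp (AddMonoidHom.toMultiplicative l.toAddMonoidHom)
  have hχ : ∀ u : U, χ (Multiplicative.ofAdd u) = ζ (Multiplicative.ofAdd (l u)) := fun _ => rfl
  obtain ⟨ψ, hψ⟩ := pa_ext ((Abelianization.of (G := Zl hC l)).comp (pa_kap hC l)) χ (by
    intro m hm
    have h1 : pa_kap hC l m ∈ commutator (Zl hC l) := by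
      rw [← Abelianization.ker_of, MonoidHom.mem_ker]
      exact hm
    obtain ⟨u, hu, hx⟩ := pa_comm hC l h1
    have h2 : m.toAdd = u := pa_kinj hC hx
    have h3 : χ m = ζ (Multiplicative.ofAdd (l m.toAdd)) := rfl
    rw [h3, h2, hu, ofAdd_zero, map_one])
  let ν₁ : Zl hC l →* ℂˣ := ψ.comp Abelianization.of
  have hν₁ : ∀ (u : U) (x : Zl hC l), (x : P) = κ u → ν₁ x = ζ (Multiplicative.ofAdd (l u)) := by
    intro u x hx
    have h1 : x = pa_kap hC l (Multiplicative.ofAdd u) := Subtype.ext hx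
    rw [h1, ← hχ]
    exact hψ (Multiplicative.ofAdd u)
  have : Fintype (pa_K ρU l) := Fintype.ofFinite _
  let ν₂ : Zl hC l →* ℂˣ := ∏ h : pa_K ρU l, ν₁.comp (pa_act hC l h)
  have e2 : ∀ x, ν₂ x = ∏ h : pa_K ρU l, ν₁ (pa_act hC l h x) := by
    intro x
    simp only [ν₂, MonoidHom.finsetProd_apply, MonoidHom.comp_apply]
  have hν₂ : ∀ (u : U) (x : Zl hC l), (x : P) = κ u →
      ν₂ x = ζ (Multiplicative.ofAdd (l u)) ^ Nat.card (pa_K ρU l) := by
    intro u x hx
    rw [e2, Finset.prod_congr rfl (g := fun _ => ζ (Multiplicative.ofAdd (l u))),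
      Finset.prod_const, Finset.card_univ, Nat.card_eq_fintype_card]
    intro h _
    rw [hν₁ (ρU h u) _ (by rw [pa_act_coe, hx, hC.κ_eq]), h.2 u]
  have hinv : ∀ (g : pa_K ρU l) (x : Zl hC l), ν₂ (pa_act hC l g x) = ν₂ x := by
    intro g x
    rw [e2, e2]
    refine Fintype.prod_equiv (Equiv.mulRight g) _ _ fun h => ?_
    congr 1
    apply Subtype.ext
    rw [pa_act_coe, pa_act_coe, pa_act_coe, Equiv.coe_mulRight, Subgroup.coe_mul, map_mul,
      MulAut.mul_apply]
  have hcop : p.Coprime (Nat.card (pa_K ρU l)) := by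
    refine (Nat.Prime.coprime_iff_not_dvd hpp).2 fun h => hp (h.trans ?_)
    exact Subgroup.card_subgroup_dvd_card _
  obtain ⟨m, hm⟩ := Nat.exists_mul_mod_eq_one_of_coprime hcop.symm hpp.one_lt
  refine ⟨ν₂ ^ m, fun u x hx => ?_, fun h hh x y hxy => ?_⟩
  · rw [MonoidHom.pow_apply, hν₂ u x hx, ← pow_mul]
    have h1 : ζ (Multiplicative.ofAdd (l u)) ^ p = 1 := by
      rw [← map_pow, ← ofAdd_nsmul, nsmul_eq_mul, CharP.cast_eq_zero, zero_mul, ofAdd_zero,
        map_one]
    rw [← Nat.div_add_mod (Nat.card (pa_K ρU l) * m) p, hm.2, pow_add, pow_mul, h1, one_pow,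
      one_mul, pow_one]
  · rw [MonoidHom.pow_apply, MonoidHom.pow_apply]
    congr 1
    rw [← hinv ⟨h, hh⟩ x]
    congr 1
    exact Subtype.ext hxy

/-- The trivial character is irreducible. -/
private theorem pb_one (B : Type) [Group B] : (fun _ : B => (1 : ℂ)) ∈ Irr B := by
  let ρ : Representation ℂ B (Fin 1 → ℂ) := 1
  refine ⟨1, ρ, ?_, ?_⟩
  · have hone : Module.finrank ℂ (Fin 1 → ℂ) = 1 := by simp
    have hs : IsSimpleOrder (Submodule ℂ (Fin 1 → ℂ)) :=
      is_simple_module_of_finrank_eq_one (A := ℂ) hone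
    let e : Subrepresentation ρ ≃o Submodule ℂ (Fin 1 → ℂ) :=
      { toFun := fun S => S.toSubmodule
        invFun := fun S => ⟨S, fun b v hv => hv⟩
        left_inv := fun _ => rfl
        right_inv := fun _ => rfl
        map_rel_iff' := Iff.rfl }
    exact (OrderIso.isSimpleOrder_iff e).2 hs
  · funext b
    change LinearMap.trace ℂ _ (ρ b) = 1
    have h1 : ρ b = 1 := rfl
    rw [h1, LinearMap.trace_one]
    simp

/-- Linear characters are irreducible. -/
private theorem pb_lin {B : Type} [Group B] (w : B →* ℂˣ) :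
    (fun b : B => ((w b : ℂˣ) : ℂ)) ∈ Irr B := by
  have h1 := LinB_irr w _ (pb_one B)
  simpa using h1

private theorem pb_Zn (hC : C2 p φ ρV ρU β q κ) (l : Module.Dual (ZMod p) U) :
    (Zl hC l).Normal := by
  constructor
  intro x hx g
  change q (g * x * g⁻¹) ∈ Rad β l
  have h1 : q g + q g⁻¹ = 0 := by rw [← hC.q_mul, mul_inv_cancel, pa_q1 hC]
  rw [hC.q_mul, hC.q_mul, add_comm (q g), add_assoc, h1, add_zero]
  exact hx

private theorem pb_nuinv (hC : C2 p φ ρV ρU β q κ) (ζ : Multiplicative (ZMod p) →* ℂˣ)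
    (l : Module.Dual (ZMod p) U) (ν : Zl hC l →* ℂˣ)
    (hν : ∀ (u : U) (x : Zl hC l), (x : P) = κ u → ν x = ζ (Multiplicative.ofAdd (l u)))
    (g : P) (x y : Zl hC l) (h : (y : P) = g * x * g⁻¹) : ν y = ν x := by
  have h1 : ν (y * x⁻¹) = 1 := by
    have h2 : ((y * x⁻¹ : Zl hC l) : P) = κ (β (q g) (q x)) := by
      rw [Subgroup.coe_mul, h, Subgroup.coe_inv, ← hC.comm]
    rw [hν _ _ h2, pa_anti hC, map_neg, x.2, neg_zero, ofAdd_zero, map_one]
  rw [map_mul, map_inv, mul_inv_eq_one] at h1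
  exact h1

/-- (pb, size 4) PROOF. `ex_over` for `Zl hC l → P` and `ν` (a linear character is in `Irr`) gives `θ`. As in
`chr_a` the elements of `Zl hC l` act as scalars, and `θ` lies over `ν`, so `θ x = θ 1 * ν x` on `Zl hC l`.
For `x` not in `Zl hC l` there is `y` with `l (β (q x) (q y)) ≠ 0`; `y⁻¹`-conjugation: `y x y⁻¹ = κ u * x` (up to
the sign of `u`) with `l u ≠ 0`, and `θ (κ u * x) = ζ (l u) θ x` (`κ u` acts as the scalar `ζ (l u) ≠ 1`), so
`θ x = 0`. The degree divides `|P|` (`Cdeg_dvd`), so it is a power of `p`; it is not 1: a linear character is 1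
at commutators, but for `x`, `y` with `l (β (q x) (q y)) ≠ 0` (`hne`) the value is `θ 1 * ζ (..) ≠ θ 1`. -/
theorem chr_b (hC : C2 p φ ρV ρU β q κ) (ζ : Multiplicative (ZMod p) →* ℂˣ)
    (hζ : Function.Injective ζ) (l : Module.Dual (ZMod p) U) (hne : ∃ v w, l (β v w) ≠ 0)
    (ν : Zl hC l →* ℂˣ)
    (hν : ∀ (u : U) (x : Zl hC l), (x : P) = κ u → ν x = ζ (Multiplicative.ofAdd (l u))) :
    ∃ θ ∈ Irr P, (∀ x : Zl hC l, θ x = θ 1 * ((ν x : ℂˣ) : ℂ)) ∧
      (∀ x : P, x ∉ Zl hC l → θ x = 0) ∧ ∃ d : ℕ, θ 1 = d ∧ p ∣ d := by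
  have hpp : p.Prime := Fact.out
  have : Fintype P := Fintype.ofFinite _
  have : Fintype (Zl hC l) := Fintype.ofFinite _
  have hZn := pb_Zn hC l
  obtain ⟨θ, hθ, hov⟩ := ex_over (Zl hC l).subtype (Subgroup.subtype_injective _)
    (fun b => ((ν b : ℂˣ) : ℂ)) (pb_lin ν)
  have hN := Nrm.subtype (Zl hC l)
  obtain ⟨O, hO, hO1, hO2⟩ := ClC_main hN θ hθ _ (pb_lin ν) hov
  have htw : ∀ g, tw hN g (fun b => ((ν b : ℂˣ) : ℂ)) = fun b => ((ν b : ℂˣ) : ℂ) := by
    intro g
    funext x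
    rw [tw_apply]
    rw [pb_nuinv hC ζ l ν hν g x (hN.cg g x) (hN.cg_spec g x)]
  have hO' : O = {fun b => ((ν b : ℂˣ) : ℂ)} := by
    ext θ'
    rw [hO, Finset.mem_singleton]
    constructor
    · rintro ⟨g, rfl⟩
      exact htw g
    · rintro rfl
      exact ⟨1, htw 1⟩
  have hZ : ∀ x : Zl hC l, θ x = θ 1 * ((ν x : ℂˣ) : ℂ) := by
    intro x
    have h1 := hO1 x
    rw [hO', Finset.sum_singleton] at h1
    rw [hO', Finset.card_singleton, map_one, Units.val_one, Nat.cast_one, mul_one, mul_one] at hO2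
    rw [hO2]
    exact h1
  obtain ⟨n, ρ, hρ, hρθ⟩ := hθ
  have hθ' : θ ∈ Irr P := ⟨n, ρ, hρ, hρθ⟩
  obtain ⟨d, hd0, hd⟩ := irr_deg hθ'
  have hθ1 : θ 1 ≠ 0 := by
    rw [hd]
    exact_mod_cast hd0.ne'
  have hn : θ 1 = n := by
    rw [← hρθ]
    change LinearMap.trace ℂ _ (ρ 1) = n
    rw [map_one, LinearMap.trace_one]
    simp
  have hsc : ∀ u : U, ρ (κ u) = ((ζ (Multiplicative.ofAdd (l u)) : ℂˣ) : ℂ) •
      (1 : Module.End ℂ (Fin n → ℂ)) := by
    intro u
    obtain ⟨c, hc⟩ := schur ρ hρ (ρ (κ u)) (fun a => by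
      rw [← map_mul, hC.κ_cen, map_mul])
    have h1 : θ (κ u) = c * n := by
      rw [← hρθ]
      change LinearMap.trace ℂ _ (ρ (κ u)) = c * n
      rw [hc, map_smul, LinearMap.trace_one, smul_eq_mul]
      simp
    have h2 := hZ ⟨κ u, pa_kmem hC l u⟩
    rw [hν u ⟨κ u, pa_kmem hC l u⟩ rfl] at h2
    have h3 : c * (n : ℂ) = ((ζ (Multiplicative.ofAdd (l u)) : ℂˣ) : ℂ) * n := by
      rw [← h1, mul_comm _ (n : ℂ), ← hn]
      exact h2
    have h4 : (n : ℂ) ≠ 0 := by
      rw [← hn]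
      exact hθ1
    rw [hc, mul_right_cancel₀ h4 h3]
  have hmul : ∀ u x, θ (κ u * x) = ((ζ (Multiplicative.ofAdd (l u)) : ℂˣ) : ℂ) * θ x := by
    intro u x
    rw [← hρθ]
    change LinearMap.trace ℂ _ (ρ (κ u * x)) =
      ((ζ (Multiplicative.ofAdd (l u)) : ℂˣ) : ℂ) * LinearMap.trace ℂ _ (ρ x)
    rw [map_mul, hsc, smul_mul_assoc, one_mul, map_smul, smul_eq_mul]
  have hoff : ∀ x : P, x ∉ Zl hC l → θ x = 0 := by
    intro x hx
    have h1 : ∃ w, l (β (q x) w) ≠ 0 := by
      by_contra hcon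
      push Not at hcon
      exact hx hcon
    obtain ⟨w, hw⟩ := h1
    obtain ⟨y, rfl⟩ := hC.q_surj w
    have h2 : θ x = θ (y * x * y⁻¹) := irr_conj hθ' (isConj_iff.2 ⟨y, rfl⟩)
    have h3 : y * x * y⁻¹ = κ (β (q y) (q x)) * x := by
      rw [← hC.comm]
      group
    rw [h3, hmul] at h2
    have h4 : l (β (q y) (q x)) ≠ 0 := by
      rw [pa_anti hC, map_neg]
      exact neg_ne_zero.2 hw
    by_contra h5
    have h6 : ((ζ (Multiplicative.ofAdd (l (β (q y) (q x)))) : ℂˣ) : ℂ) = 1 := by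
      have h7 : (1 - ((ζ (Multiplicative.ofAdd (l (β (q y) (q x)))) : ℂˣ) : ℂ)) * θ x = 0 := by
        rw [sub_mul, one_mul, ← h2, sub_self]
      rcases mul_eq_zero.1 h7 with h8 | h8
      · exact (sub_eq_zero.1 h8).symm
      · exact absurd h8 h5
    have h7 : ζ (Multiplicative.ofAdd (l (β (q y) (q x)))) = ζ 1 := by
      rw [map_one]
      exact Units.ext h6
    have h8 := hζ h7
    exact h4 h8
  refine ⟨θ, hθ', hZ, hoff, d, hd, ?_⟩
  have hdvd := Cdeg_dvd θ hθ' d hd
  obtain ⟨k, hk⟩ := (IsPGroup.iff_card (p := p)).1 hC.pgr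
  rw [hk] at hdvd
  obtain ⟨j, -, hj⟩ := (Nat.dvd_prime_pow hpp).1 hdvd
  rcases Nat.eq_zero_or_pos j with h0 | h0
  · exfalso
    obtain ⟨v, w, hvw⟩ := hne
    obtain ⟨x, rfl⟩ := hC.q_surj v
    have hx : x ∉ Zl hC l := fun h => hvw (h w)
    have h1 := hoff x hx
    have hn1 : n = 1 := by
      rw [h0, pow_zero] at hj
      rw [hn, hj] at hd
      exact_mod_cast hd
    subst hn1
    have h2 : LinearMap.trace ℂ _ (ρ x) = 0 := by
      rw [← hρθ] at h1
      exact h1
    have h3 : ρ x = (ρ x (fun _ => 1) 0) • (1 : Module.End ℂ (Fin 1 → ℂ)) := by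
      refine LinearMap.ext fun v => funext fun i => ?_
      have hv : v = v 0 • (fun _ : Fin 1 => (1 : ℂ)) := by
        funext j
        rw [Subsingleton.elim j 0]
        simp
      have hi : i = 0 := Subsingleton.elim i 0
      rw [hv, map_smul, hi]
      simp [mul_comm]
    have h4 : (ρ x (fun _ => 1) 0) = 0 := by
      rw [h3, map_smul, LinearMap.trace_one] at h2
      simpa using h2
    have h5 : ρ x = 0 := by rw [h3, h4, zero_smul]
    have h6 : ρ (x⁻¹ * x) = 0 := by rw [map_mul, h5, mul_zero]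
    rw [inv_mul_cancel, map_one] at h6
    have h7 := congrArg (fun f : Module.End ℂ (Fin 1 → ℂ) => f (fun _ => 1) 0) h6
    simp at h7
  · rw [hj]
    exact dvd_pow_self p h0.ne'

private theorem pc_mem (hC : C2 p φ ρV ρU β q κ) (l : Module.Dual (ZMod p) U) {h : H}
    (hh : FixL ρU l h) (x : P) : φ h x ∈ Zl hC l ↔ x ∈ Zl hC l := by
  constructor
  · intro h1
    have h2 := pa_inv hC l (pa_fix_inv l hh) h1
    rw [← hC.q_eq, ← MulAut.mul_apply, ← map_mul, inv_mul_cancel, map_one,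
      MulAut.one_apply] at h2
    exact h2
  · intro h1
    change q (φ h x) ∈ Rad β l
    rw [hC.q_eq]
    exact pa_inv hC l hh h1

/-- (pc, size 3) PROOF. `ν₀` from `chr_a`, `ν x = ν₀ x * ζ (m (q x))`, `θ` from `chr_b`. If `h` fixes `l` and `m`
on the radical then it fixes `ν`, `Zl` and so `θ`. If `h` fixes `θ`: `θ (κ u) = θ 1 * ζ (l u)` gives that `h` fixes
`l` (`κ_eq`, `ζ` injective), then `h` fixes `ν` on `Zl hC l` and `ν₀`, so `ζ (m (q x))`, so `m` on `Rad β l`
(`q_surj`). -/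
theorem chr (hC : C2 p φ ρV ρU β q κ) (hp : ¬ p ∣ Nat.card H)
    (ζ : Multiplicative (ZMod p) →* ℂˣ) (hζ : Function.Injective ζ)
    (l : Module.Dual (ZMod p) U) (hne : ∃ v w, l (β v w) ≠ 0) (m : Module.Dual (ZMod p) V) :
    ∃ θ ∈ Irr P, (∃ d : ℕ, θ 1 = d ∧ p ∣ d) ∧
      ∀ h : H, h ∈ fxS φ θ ↔ FixL ρU l h ∧ ∀ v ∈ Rad β l, m (ρV h v) = m v := by
  have : Fintype P := Fintype.ofFinite _
  obtain ⟨ν₀, hν₀, hinv⟩ := chr_a hC hp ζ l
  let μ : Zl hC l →* ℂˣ :=
    { toFun := fun x => ζ (Multiplicative.ofAdd (m (q x)))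
      map_one' := by
        change ζ (Multiplicative.ofAdd (m (q 1))) = 1
        rw [pa_q1 hC, map_zero, ofAdd_zero, map_one]
      map_mul' := fun x y => by
        change ζ (Multiplicative.ofAdd (m (q ((x : P) * y)))) = _
        rw [hC.q_mul, map_add, ofAdd_add, map_mul] }
  have hμ : ∀ x : Zl hC l, μ x = ζ (Multiplicative.ofAdd (m (q x))) := fun _ => rfl
  have hνx : ∀ x : Zl hC l, (ν₀ * μ) x = ν₀ x * ζ (Multiplicative.ofAdd (m (q x))) :=
    fun _ => rfl
  have hν : ∀ (u : U) (x : Zl hC l), (x : P) = κ u →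
      (ν₀ * μ) x = ζ (Multiplicative.ofAdd (l u)) := by
    intro u x hx
    rw [hνx, hν₀ u x hx, hx, hC.qκ, map_zero, ofAdd_zero, map_one, mul_one]
  obtain ⟨θ, hθ, hZ, hoff, d, hd, hpd⟩ := chr_b hC ζ hζ l hne (ν₀ * μ) hν
  refine ⟨θ, hθ, ⟨d, hd, hpd⟩, fun h => ?_⟩
  obtain ⟨d', hd0, hd'⟩ := irr_deg hθ
  have hθ1 : θ 1 ≠ 0 := by
    rw [hd']
    exact_mod_cast hd0.ne'
  have hcan : ∀ x y : Zl hC l, θ x = θ y → (ν₀ * μ) x = (ν₀ * μ) y := by
    intro x y hxy
    rw [hZ, hZ] at hxy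
    exact Units.ext (mul_left_cancel₀ hθ1 hxy)
  rw [mem_fxS]
  constructor
  · intro hfx
    have hl : FixL ρU l h := by
      intro u
      have h1 := hfx (κ u)
      rw [← hC.κ_eq] at h1
      have h2 := hcan ⟨_, pa_kmem hC l (ρU h u)⟩ ⟨_, pa_kmem hC l u⟩ h1
      rw [hν (ρU h u) _ rfl, hν u _ rfl] at h2
      exact Multiplicative.ofAdd.injective (hζ h2)
    refine ⟨hl, fun v hv => ?_⟩
    obtain ⟨x, rfl⟩ := hC.q_surj v
    have hx : x ∈ Zl hC l := hv
    have hx' : φ h x ∈ Zl hC l := (pc_mem hC l hl x).2 hx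
    have h2 := hcan ⟨_, hx'⟩ ⟨_, hx⟩ (hfx x)
    rw [hνx, hνx, hinv h hl ⟨_, hx⟩ ⟨_, hx'⟩ rfl] at h2
    have h3 := hζ (mul_left_cancel h2)
    have h4 := Multiplicative.ofAdd.injective h3
    rw [← hC.q_eq]
    exact h4
  · rintro ⟨hl, hm⟩ x
    by_cases hx : x ∈ Zl hC l
    · have hx' : φ h x ∈ Zl hC l := (pc_mem hC l hl x).2 hx
      have h1 := hZ ⟨_, hx'⟩
      have h2 := hZ ⟨_, hx⟩
      change θ (φ h x) = _ at h1
      change θ x = _ at h2
      rw [h1, h2, hνx, hνx, hinv h hl ⟨_, hx⟩ ⟨_, hx'⟩ rfl]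
      congr 4
      change Multiplicative.ofAdd (m (q (φ h x))) = Multiplicative.ofAdd (m (q x))
      rw [hC.q_eq, hm _ hx]
    · rw [hoff x hx, hoff (φ h x) fun h1 => hx ((pc_mem hC l hl x).1 h1)]

/-- (pc, size 2) The linear characters. PROOF. A homomorphism to `ℂˣ` is (with the coercion) in
`Irr P` (`LinB_irr` for the trivial character). -/
theorem chr_lin (hC : C2 p φ ρV ρU β q κ) (ζ : Multiplicative (ZMod p) →* ℂˣ)
    (hζ : Function.Injective ζ) (t : Module.Dual (ZMod p) V) :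
    (fun x : P => ((ζ (Multiplicative.ofAdd (t (q x))) : ℂˣ) : ℂ)) ∈ Irr P ∧
      ∀ h : H, h ∈ fxS φ (fun x : P => ((ζ (Multiplicative.ofAdd (t (q x))) : ℂˣ) : ℂ)) ↔
        FixL ρV t h := by
  let μ : P →* ℂˣ :=
    { toFun := fun x => ζ (Multiplicative.ofAdd (t (q x)))
      map_one' := by
        rw [pa_q1 hC, map_zero, ofAdd_zero, map_one]
      map_mul' := fun x y => by
        rw [hC.q_mul, map_add, ofAdd_add, map_mul] }
  refine ⟨pb_lin μ, fun h => ?_⟩
  rw [mem_fxS]
  constructor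
  · intro h1 v
    obtain ⟨x, rfl⟩ := hC.q_surj v
    have h2 := hζ (Units.ext (h1 x))
    have h3 := Multiplicative.ofAdd.injective h2
    rw [hC.q_eq] at h3
    exact h3
  · intro h1 x
    change ((ζ (Multiplicative.ofAdd (t (q (φ h x)))) : ℂˣ) : ℂ) = _
    rw [hC.q_eq, h1]

/-- (pd, size 1) PROOF. The span of the values of `β` is invariant, not zero, so it is `U` (`Ltg.irr`). -/
theorem ltg_ne (h : Ltg p ρV ρU β) (l : Module.Dual (ZMod p) U) (hl : l ≠ 0) :
    ∃ v w, l (β v w) ≠ 0 := by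
  by_contra hcon
  push Not at hcon
  let W : Submodule (ZMod p) U := Submodule.span (ZMod p) {u | ∃ v w, β v w = u}
  have hW : ∀ n ∈ (⊤ : Subgroup H), ∀ w ∈ W, ρU n w ∈ W := by
    intro n _ w hw
    induction hw using Submodule.span_induction with
    | mem x hx =>
      obtain ⟨v, w, rfl⟩ := hx
      rw [← h.eqv]
      exact Submodule.subset_span ⟨_, _, rfl⟩
    | zero => rw [map_zero]; exact W.zero_mem
    | add x y _ _ hx hy => rw [map_add]; exact W.add_mem hx hy
    | smul c x _ hx => rw [map_smul]; exact W.smul_mem c hx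
  rcases h.irr W hW with h1 | h1
  · apply h.ne
    refine LinearMap.ext fun v => LinearMap.ext fun w => ?_
    have h2 : β v w ∈ W := Submodule.subset_span ⟨_, _, rfl⟩
    rw [h1, Submodule.mem_bot] at h2
    exact h2
  · apply hl
    refine LinearMap.ext fun u => ?_
    have h2 : u ∈ W := by rw [h1]; exact Submodule.mem_top
    rw [LinearMap.zero_apply]
    induction h2 using Submodule.span_induction with
    | mem x hx =>
      obtain ⟨v, w, rfl⟩ := hx
      exact hcon v w
    | zero => rw [map_zero]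
    | add x y _ _ hx hy => rw [map_add, hx, hy, add_zero]
    | smul c x _ hx => rw [map_smul, hx, smul_zero]

/-- (pd, size 4) PROOF. `la_main`. CASE Y: `θ` from `chr` (`ltg_ne`); `s = 1` (the trivial character, in
`Irr P`), `n = 1`, `St 0 = fxS φ θ`, `Θ k x = θ (φ (k 0)⁻¹ x)` (in `Irr P`, of the same degree; `h` fixes `Θ k` iff
`(k 0)⁻¹ * h * k 0` fixes `θ`). `Blk`: `Ss = ⊤`; `b1` clear; `b2`: `D ≠ ⊥` because `φ d ≠ 1` for some `d`;
`c`: `cm A r ≠ ⊥` (it contains `D`), normal, `≤ A`, so some `c ∈ cm A r` is not in `St 0` although it is in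
`Ss = ⊤`. CASE X: `s = θ` from `chr` with `m = 0` (`fxS φ s` is the stabilizer of `l`), `St j` = the stabilizer of
`t j` (`fxS` of the linear character `chr_lin (t j)`), `Θ k` = the linear character of the form
`v ↦ ∑ j, t j (ρV (k j)⁻¹ v)`. `b1`, `b2`: the second statement of `CaseX`; `c`: the third. -/
theorem loc_core (hC : C2 p φ ρV ρU β q κ) (hL : Ltg p ρV ρU β) {A : Subgroup H} (hA : Ab A)
    (B : Set ℕ) (hB : ∀ r ∈ B, AR A r) : Loc p φ A B := by
  obtain ⟨ζ, hζ⟩ := zt_ex p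
  rcases la_main hL hA B hB with hY | hX
  · obtain ⟨l, hl, m, hm⟩ := hY
    obtain ⟨θ, hθ, ⟨d, hd, hpd⟩, hfx⟩ := chr hC hL.pH ζ hζ l (ltg_ne hL l hl) m
    refine ⟨fun _ => 1, pb_one P, 1, fun _ => fxS φ θ, fun k x => θ (φ (k 0)⁻¹ x), ?_, ?_, ?_, ?_⟩
    · intro k _
      exact Inf_irr (φ (k 0)⁻¹).toMonoidHom (φ (k 0)⁻¹).surjective θ hθ
    · intro k _ h hh j x
      have hj : j = 0 := Subsingleton.elim j 0
      subst hj
      have h1 := hh (φ (k 0) x)
      change θ (φ (k 0)⁻¹ (φ h (φ (k 0) x))) = θ (φ (k 0)⁻¹ (φ (k 0) x)) at h1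
      simp only [← MulAut.mul_apply, ← map_mul] at h1
      rw [inv_mul_cancel, map_one, MulAut.one_apply, ← mul_assoc] at h1
      exact h1
    · right
      intro k _
      refine ⟨d, ?_, hpd⟩
      change θ (φ (k 0)⁻¹ 1) = d
      rw [map_one, hd]
    · have hY' : ∀ D : Subgroup H, D.Normal → D ≤ A → (∃ d ∈ D, φ d ≠ 1) →
          ∃ d ∈ D, d ∉ fxS φ θ := by
        rintro D hD hDA ⟨d, hd, hd1⟩
        have hne : D ≠ ⊥ := by
          rintro rfl
          rw [Subgroup.mem_bot] at hd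
          exact hd1 (by rw [hd, map_one])
        obtain ⟨e, he, he'⟩ := hm D hD hDA hne
        exact ⟨e, he, fun h1 => he' ((hfx e).1 h1)⟩
      refine ⟨fun a _ _ x => rfl, fun r _ _ D hD hDA _ hnt => ?_, ?_⟩
      · obtain ⟨e, he, he'⟩ := hY' D hD hDA hnt
        exact ⟨0, fun h1 => he' (h1 he)⟩
      · rintro r hr ⟨r', _, _, D, _, hDle, _, d, hd, hd1⟩ ⟨_, _, h3, _⟩
        obtain ⟨e, he, he'⟩ := hY' (cm A r) (cm_nor hA r) (cm_le hA r) ⟨d, hDle hd, hd1⟩
        exact he' (h3 e he (fun x => rfl) 0)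
  · obtain ⟨l, hl, n, t, h1, h2, h3⟩ := hX
    obtain ⟨θ, hθ, ⟨d, hd, hpd⟩, hfx⟩ := chr hC hL.pH ζ hζ l (ltg_ne hL l hl) 0
    have hlin := fun t => chr_lin hC ζ hζ t
    have hfxt : ∀ t h, h ∈ fxS φ (fun x : P =>
        ((ζ (Multiplicative.ofAdd (t (q x))) : ℂˣ) : ℂ)) ↔ FixL ρV t h := fun t => (hlin t).2
    refine ⟨θ, hθ, n, fun j => fxS φ (fun x : P =>
      ((ζ (Multiplicative.ofAdd (t j (q x))) : ℂˣ) : ℂ)), fun k x =>
      ((ζ (Multiplicative.ofAdd ((∑ j, t j ∘ₗ ρV (k j)⁻¹) (q x))) : ℂˣ) : ℂ), ?_, ?_, ?_, ?_⟩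
    · intro k _
      exact (hlin _).1
    · intro k hk h hh j
      rw [hfxt]
      have h4 := ((hlin (∑ j, t j ∘ₗ ρV (k j)⁻¹)).2 h).1 hh
      refine h1 k hk h (fun v => ?_) j
      have h5 := h4 v
      simpa only [LinearMap.sum_apply, LinearMap.comp_apply] using h5
    · left
      exact ⟨d, hd, hpd⟩
    · have hSs : ∀ h, h ∈ fxS φ θ ↔ FixL ρU l h := by
        intro h
        rw [hfx]
        exact ⟨fun h4 => h4.1, fun h4 => ⟨h4, fun v _ => rfl⟩⟩
      refine ⟨fun a ha h4 => ?_, fun r _ _ D hD hDA _ hnt => ?_, ?_⟩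
      · rw [h2 a ha fun j => (hfxt _ _).1 (h4 j)]
        exact Subgroup.one_mem _
      · obtain ⟨e, he, he1⟩ := hnt
        by_contra hcon
        push Not at hcon
        exact he1 (by rw [h2 e (hDA he) fun j => (hfxt _ _).1 (hcon j he), map_one])
      · rintro r hr ⟨r', _, _, D, _, hDle, _, d, hd, hd1⟩ ⟨⟨R, hR⟩, h5, h6, h7⟩
        have hne : cm A r ≠ ⊥ := by
          intro h8
          have h9 := hDle hd
          rw [h8, Subgroup.mem_bot] at h9
          exact hd1 (by rw [h9, map_one])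
        refine h3 r hr hne ⟨⟨R, fun x hx => (hSs x).1 (hR hx)⟩, fun j => ?_, fun c hc hc' => ?_,
          fun x hx => ?_⟩
        · obtain ⟨R', hR'⟩ := h5 j
          exact ⟨R', fun x hx => (hfxt _ _).1 (hR' hx)⟩
        · exact h2 c (cm_le hA r hc) fun j => (hfxt _ _).1 (h6 c hc ((hSs c).2 hc') j)
        · obtain ⟨y, hy, hy'⟩ := h7 x hx
          exact ⟨y, hy, fun j => (hfxt _ _).1 (hy' j)⟩

end

section

variable {P H : Type} [Group P] [Finite P] [Group H] [Finite H]

/-- (pe) The subgroup generated by commutators and `p`-th powers. -/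
def pe_Phi (p : ℕ) (P : Type) [Group P] : Subgroup P :=
  commutator P ⊔ Subgroup.closure {z | ∃ x : P, z = x ^ p}

theorem pe_Phi_le {P A : Type} [Group P] [CommGroup A] (p : ℕ) (f : P →* A)
    (hA : ∀ a : A, a ^ p = 1) : pe_Phi p P ≤ f.ker := by
  refine sup_le (Abelianization.commutator_subset_ker f) ?_
  rw [Subgroup.closure_le]
  rintro _ ⟨x, rfl⟩
  rw [SetLike.mem_coe, MonoidHom.mem_ker, map_pow, hA]

theorem pe_Phi_normal {P : Type} [Group P] (p : ℕ) : (pe_Phi p P).Normal := by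
  refine ⟨fun x hx g => ?_⟩
  have h1 : g * x * g⁻¹ = (g * x * g⁻¹ * x⁻¹) * x := by group
  rw [h1]
  refine Subgroup.mul_mem _ (Subgroup.mem_sup_left ?_) hx
  exact Subgroup.commutator_mem_commutator (Subgroup.mem_top g) (Subgroup.mem_top x)

/-- (pe) The Frattini factor group as a vector space. -/
theorem pe_V (p : ℕ) [Fact p.Prime] (P : Type) [Group P] [Finite P] :
    ∃ (V : Type) (_ : AddCommGroup V) (_ : Module (ZMod p) V) (_ : Finite V) (q : P → V),
      (∀ x y, q (x * y) = q x + q y) ∧ Function.Surjective q ∧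
        ∀ x, q x = 0 ↔ x ∈ pe_Phi p P := by
  have hn : (pe_Phi p P).Normal := pe_Phi_normal p
  let cg : CommGroup (P ⧸ pe_Phi p P) :=
    { (inferInstance : Group (P ⧸ pe_Phi p P)) with
      mul_comm := by
        intro a b
        obtain ⟨x, rfl⟩ := QuotientGroup.mk'_surjective _ a
        obtain ⟨y, rfl⟩ := QuotientGroup.mk'_surjective _ b
        rw [← map_mul, ← map_mul]
        refine (QuotientGroup.eq).2 ?_
        have h1 : (x * y)⁻¹ * (y * x) = y⁻¹ * x⁻¹ * y * x := by group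
        rw [h1]
        refine Subgroup.mem_sup_left ?_
        have h2 := Subgroup.commutator_mem_commutator (Subgroup.mem_top y⁻¹)
          (Subgroup.mem_top x⁻¹)
        rw [commutatorElement_def, inv_inv, inv_inv] at h2
        exact h2 }
  have hp : ∀ x : Additive (P ⧸ pe_Phi p P), p • x = 0 := by
    intro x
    obtain ⟨y, rfl⟩ := Additive.ofMul.surjective x
    obtain ⟨z, rfl⟩ := QuotientGroup.mk'_surjective _ y
    rw [← ofMul_pow, ← map_pow]
    have h1 : QuotientGroup.mk' (pe_Phi p P) (z ^ p) = 1 := by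
      refine (QuotientGroup.eq_one_iff _).2 ?_
      exact Subgroup.mem_sup_right (Subgroup.subset_closure ⟨z, rfl⟩)
    rw [h1]
    rfl
  refine ⟨Additive (P ⧸ pe_Phi p P), inferInstance, AddCommGroup.zmodModule hp, inferInstance,
    fun x => Additive.ofMul (QuotientGroup.mk' (pe_Phi p P) x), ?_, ?_, ?_⟩
  · intro x y
    rfl
  · intro v
    obtain ⟨y, rfl⟩ := Additive.ofMul.surjective v
    obtain ⟨z, rfl⟩ := QuotientGroup.mk'_surjective _ y
    exact ⟨z, rfl⟩
  · intro x
    exact QuotientGroup.eq_one_iff x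

/-- (pe) Lifting a map to `V`. -/
theorem pe_lift {P V A : Type} [Group P] [AddCommGroup V] [AddCommGroup A] (q : P → V)
    (hq : ∀ x y, q (x * y) = q x + q y) (hs : Function.Surjective q) (f : P → A)
    (hf : ∀ x y, f (x * y) = f x + f y) (hk : ∀ x, q x = 0 → f x = 0) :
    ∃ F : V →+ A, ∀ x, F (q x) = f x := by
  have hq1 : q 1 = 0 := by simpa using hq 1 1
  have hf1 : f 1 = 0 := by simpa using hf 1 1
  have hqi : ∀ x, q x⁻¹ = - q x := by
    intro x
    have h := hq x x⁻¹
    rw [mul_inv_cancel, hq1] at h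
    exact eq_neg_of_add_eq_zero_right h.symm
  have hfi : ∀ x, f x⁻¹ = - f x := by
    intro x
    have h := hf x x⁻¹
    rw [mul_inv_cancel, hf1] at h
    exact eq_neg_of_add_eq_zero_right h.symm
  have hw : ∀ x y, q x = q y → f x = f y := by
    intro x y h
    have h1 : q (x * y⁻¹) = 0 := by rw [hq, hqi, h, add_neg_cancel]
    have h2 := hk _ h1
    rw [hf, hfi] at h2
    exact add_neg_eq_zero.1 h2
  choose s hs' using hs
  have hF : ∀ x, f (s (q x)) = f x := fun x => hw _ _ (hs' _)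
  refine ⟨⟨⟨fun v => f (s v), ?_⟩, ?_⟩, hF⟩
  · have h1 := hF 1
    rw [hq1, hf1] at h1
    exact h1
  · intro v w
    show f (s (v + w)) = f (s v) + f (s w)
    rw [← hf]
    refine hw _ _ ?_
    rw [hs', hq, hs', hs']

/-- (pe) The commutator subgroup as a vector space. -/
theorem pe_U {P : Type} [Group P] [Finite P] (p : ℕ)
    (hcen : ∀ x ∈ commutator P, ∀ y : P, x * y = y * x) (hexp : ∀ x ∈ commutator P, x ^ p = 1) :
    ∃ (U : Type) (_ : AddCommGroup U) (_ : Module (ZMod p) U) (_ : Finite U) (κ : U → P),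
      (∀ u w, κ (u + w) = κ u * κ w) ∧ (∀ u, κ u ∈ commutator P) ∧ Function.Injective κ ∧
        ∀ x ∈ commutator P, ∃ u, κ u = x := by
  let cg : CommGroup (commutator P) :=
    { (inferInstance : Group (commutator P)) with
      mul_comm := fun a b => Subtype.ext (hcen a a.2 b) }
  have hpU : ∀ x : Additive (commutator P), p • x = 0 := by
    intro x
    obtain ⟨y, rfl⟩ := Additive.ofMul.surjective x
    rw [← ofMul_pow]
    have h1 : y ^ p = 1 := Subtype.ext (hexp y y.2)
    rw [h1]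
    rfl
  exact ⟨Additive (commutator P), inferInstance, AddCommGroup.zmodModule hpU, inferInstance,
    fun u => ((Additive.toMul u : commutator P) : P), fun u w => rfl,
    fun u => (Additive.toMul u : commutator P).2, fun u w h => Subtype.ext h,
    fun x hx => ⟨Additive.ofMul ⟨x, hx⟩, rfl⟩⟩

/-- (pe, size 5) The linear spaces for a group of class two. PROOF. `Φ` = the subgroup of the `x ∈ P` with
`f x = 1` for all homomorphisms `f : P →* Multiplicative (ZMod p)`; it is normal, contains the commutators and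
the `p`-th powers, `φ`-invariant. `V = Additive (P ⧸ Φ)` (a commutative group of exponent `p`, so a module over
`ZMod p`: `AddCommGroup.zmodModule`), `U = Additive (commutator P)` (commutative by `hcen`, exponent `p` by
`hexp`), `κ` the inclusion, `β (q x) (q y)` = the commutator of `x` and `y`: well defined and bilinear because
commutators are central and `⁅x ^ p, y⁆ = ⁅x, y⁆ ^ p = 1`; the elements of `Φ` are products of commutators and
`p`-th powers (in the finite abelian group `P ⧸ (commutators and p-th powers)`, an `F_p`-space, the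
homomorphisms to `ZMod p` separate the elements), so they are central. `Ltg`: `alt` is clear; `ne`: `hne`;
`irr`: an invariant subspace of `U` is an invariant subgroup of `commutator P`, `hirr`; `fai`: if `h` is trivial on
`V`: for `f : P →* ℂˣ` put `E = zpowers h`; the elements of `E` are trivial on `P / Φ`; the homomorphisms
`P → ℂˣ` are fixed: `P / commutator P` is an abelian `p`-group, `E` is a `p'`-group which is trivial on its
factor group modulo `p`-th powers, so it is trivial on it (`x⁻¹ φ(x) = y ^ p` modulo commutators; the norm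
argument: the fixed points of `E` cover `P / (P' P^p)`, so they generate `P/P'`); `triv_of_lin` for `E`; then
`h = 1` (`hinj`). -/
theorem vu (p : ℕ) [Fact p.Prime] (hP : IsPGroup p P) (hH : ¬ p ∣ Nat.card H)
    (φ : H →* MulAut P) (hinj : Function.Injective φ)
    (hcen : ∀ x ∈ commutator P, ∀ y : P, x * y = y * x) (hexp : ∀ x ∈ commutator P, x ^ p = 1)
    (hne : commutator P ≠ ⊥)
    (hirr : ∀ N : Subgroup P, N ≤ commutator P → (∀ h, ∀ x ∈ N, φ h x ∈ N) →
      N = ⊥ ∨ N = commutator P) :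
    ∃ (V U : Type) (_ : AddCommGroup V) (_ : Module (ZMod p) V) (_ : Finite V)
      (_ : AddCommGroup U) (_ : Module (ZMod p) U) (_ : Finite U)
      (ρV : Representation (ZMod p) H V) (ρU : Representation (ZMod p) H U)
      (β : V →ₗ[ZMod p] V →ₗ[ZMod p] U) (q : P → V) (κ : U → P),
      C2 p φ ρV ρU β q κ ∧ Ltg p ρV ρU β := by
  have hp : p.Prime := Fact.out
  obtain ⟨V, iV, mV, fV, q, hq, hs, hk⟩ := pe_V p P
  -- the space `U`
  obtain ⟨U, iU, mU, fU, κ, hκadd, hκmem, hκinj, hκex⟩ := pe_U p hcen hexp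
  have hκinj' : ∀ u w, κ u = κ w → u = w := fun u w h => hκinj h
  have hκ0 : κ 0 = 1 := by simpa using hκadd 0 0
  have hpU : ∀ u : U, p • u = 0 := fun u => by
    rw [← Nat.cast_smul_eq_nsmul (ZMod p), ZMod.natCast_self, zero_smul]
  have hκneg : ∀ u, κ (-u) = (κ u)⁻¹ := fun u => by
    have h := hκadd u (-u)
    rw [add_neg_cancel, hκ0] at h
    exact eq_inv_of_mul_eq_one_right h.symm
  -- `φ h` on `V`
  have hφPhi : ∀ h, ∀ x ∈ pe_Phi p P, φ h x ∈ pe_Phi p P := by
    intro h x hx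
    have h1 : (pe_Phi p P).map (φ h).toMonoidHom ≤ pe_Phi p P := by
      show (commutator P ⊔ Subgroup.closure {z | ∃ x : P, z = x ^ p}).map _ ≤ _
      rw [Subgroup.map_sup]
      refine sup_le ?_ ?_
      · have h2 : (commutator P).map (φ h).toMonoidHom = commutator P :=
          (Subgroup.characteristic_iff_map_eq.1 inferInstance (φ h))
        rw [h2]
        exact le_sup_left
      · rw [MonoidHom.map_closure, Subgroup.closure_le]
        rintro _ ⟨_, ⟨x, rfl⟩, rfl⟩
        refine Subgroup.mem_sup_right (Subgroup.subset_closure ⟨φ h x, ?_⟩)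
        exact map_pow (φ h) x p
    exact h1 ⟨x, hx, rfl⟩
  have hρ : ∀ h, ∃ F : V →+ V, ∀ x, F (q x) = q (φ h x) := by
    intro h
    refine pe_lift q hq hs (fun x => q (φ h x)) (fun x y => ?_) fun x hx => ?_
    · show q (φ h (x * y)) = _
      rw [map_mul, hq]
    · exact (hk _).2 (hφPhi h x ((hk x).1 hx))
  choose FV hFV using hρ
  let ρV : Representation (ZMod p) H V :=
    { toFun := fun h => (FV h).toZModLinearMap p
      map_one' := by
        refine LinearMap.ext fun v => ?_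
        obtain ⟨x, rfl⟩ := hs v
        show FV 1 (q x) = q x
        rw [hFV, map_one, MulAut.one_apply]
      map_mul' := by
        intro g k
        refine LinearMap.ext fun v => ?_
        obtain ⟨x, rfl⟩ := hs v
        show FV (g * k) (q x) = FV g (FV k (q x))
        rw [hFV, hFV, hFV, map_mul, MulAut.mul_apply] }
  have hρV : ∀ h x, ρV h (q x) = q (φ h x) := fun h x => hFV h x
  -- `φ h` on `U`
  have hcinv : ∀ h, ∀ x ∈ commutator P, φ h x ∈ commutator P := by
    intro h x hx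
    have h1 : (commutator P).map (φ h).toMonoidHom = commutator P :=
      (Subgroup.characteristic_iff_map_eq.1 inferInstance (φ h))
    rw [← h1]
    exact ⟨x, hx, rfl⟩
  have hρ' : ∀ h, ∃ F : U →+ U, ∀ u, κ (F u) = φ h (κ u) := by
    intro h
    choose f hf using fun u => hκex _ (hcinv h _ (hκmem u))
    refine ⟨⟨⟨f, ?_⟩, ?_⟩, hf⟩
    · refine hκinj' _ _ ?_
      rw [hf, hκ0, map_one]
    · intro u w
      refine hκinj' _ _ ?_
      show κ (f (u + w)) = κ (f u + f w)
      rw [hκadd, hf, hf, hf, hκadd, map_mul]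
  choose FU hFU using hρ'
  let ρU : Representation (ZMod p) H U :=
    { toFun := fun h => (FU h).toZModLinearMap p
      map_one' := by
        refine LinearMap.ext fun u => hκinj' _ _ ?_
        show κ (FU 1 u) = κ u
        rw [hFU, map_one, MulAut.one_apply]
      map_mul' := by
        intro g k
        refine LinearMap.ext fun u => hκinj' _ _ ?_
        show κ (FU (g * k) u) = κ (FU g (FU k u))
        rw [hFU, hFU, hFU, map_mul, MulAut.mul_apply] }
  have hρU : ∀ h u, κ (ρU h u) = φ h (κ u) := fun h u => hFU h u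
  -- the commutator map
  have hcm : ∀ x y : P, x * y * x⁻¹ * y⁻¹ ∈ commutator P := fun x y =>
    Subgroup.commutator_mem_commutator (Subgroup.mem_top x) (Subgroup.mem_top y)
  choose c hc using fun x y => hκex _ (hcm x y)
  have hc1 : ∀ x x' y, c (x * x') y = c x y + c x' y := by
    intro x x' y
    refine hκinj' _ _ ?_
    rw [hκadd, hc, hc, hc]
    have h1 := hcen _ (hcm x' y)
    have h2 : x * x' * y * (x * x')⁻¹ * y⁻¹ = x * (x' * y * x'⁻¹ * y⁻¹) * (y * x⁻¹ * y⁻¹) := by
      group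
    have h3 : (x' * y * x'⁻¹ * y⁻¹) * x * (y * x⁻¹ * y⁻¹) =
        (x' * y * x'⁻¹ * y⁻¹) * (x * y * x⁻¹ * y⁻¹) := by group
    rw [h2, ← h1 x, h3, h1]
  have hc2 : ∀ x y y', c x (y * y') = c x y + c x y' := by
    intro x y y'
    refine hκinj' _ _ ?_
    rw [hκadd, hc, hc, hc]
    have h1 := hcen _ (hcm x y')
    have h2 : x * (y * y') * x⁻¹ * (y * y')⁻¹ =
        (x * y * x⁻¹) * (x * y' * x⁻¹ * y'⁻¹) * y⁻¹ := by
      group
    have h3 : (x * y' * x⁻¹ * y'⁻¹) * (x * y * x⁻¹) * y⁻¹ =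
        (x * y' * x⁻¹ * y'⁻¹) * (x * y * x⁻¹ * y⁻¹) := by group
    rw [h2, ← h1 (x * y * x⁻¹), h3, h1]
  -- vanishing on `Φ`
  have hker : ∀ f : P → U, (∀ x y, f (x * y) = f x + f y) → ∀ x, q x = 0 → f x = 0 := by
    intro f hf x hx
    let f' : P →* Multiplicative U := MonoidHom.mk' (fun x => Multiplicative.ofAdd (f x))
      fun a b => by rw [hf]; rfl
    have h1 : pe_Phi p P ≤ f'.ker := by
      refine pe_Phi_le p f' fun a => ?_
      obtain ⟨u, rfl⟩ := Multiplicative.ofAdd.surjective a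
      rw [← ofAdd_nsmul]
      have h2 : p • u = 0 := hpU u
      rw [h2]
      rfl
    exact h1 ((hk x).1 hx)
  have hF1 : ∀ x, ∃ F : V →+ U, ∀ y, F (q y) = c x y := fun x =>
    pe_lift q hq hs (c x) (hc2 x) (hker _ (hc2 x))
  choose F1 hF1 using hF1
  have hF1add : ∀ x x', F1 (x * x') = F1 x + F1 x' := by
    intro x x'
    refine AddMonoidHom.ext fun v => ?_
    obtain ⟨y, rfl⟩ := hs v
    rw [AddMonoidHom.add_apply, hF1, hF1, hF1, hc1]
  obtain ⟨B, hB⟩ : ∃ B : V →+ (V →+ U), ∀ x, B (q x) = F1 x := by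
    refine pe_lift q hq hs F1 hF1add fun x hx => ?_
    refine AddMonoidHom.ext fun v => ?_
    obtain ⟨y, rfl⟩ := hs v
    rw [hF1]
    exact hker (fun x => c x y) (fun a b => hc1 a b y) x hx
  let β : V →ₗ[ZMod p] V →ₗ[ZMod p] U := LinearMap.mk₂ (ZMod p) (fun v w => B v w)
    (fun v v' w => by rw [map_add]; rfl)
    (fun a v w => by
      have h1 := ZMod.map_smul (AddMonoidHom.flip B w) a v
      exact h1)
    (fun v w w' => map_add _ _ _)
    (fun a v w => ZMod.map_smul (B v) a w)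
  have hβ : ∀ x y, β (q x) (q y) = c x y := by
    intro x y
    show B (q x) (q y) = c x y
    rw [hB, hF1]
  refine ⟨V, U, iV, mV, fV, iU, mU, fU, ρV, ρU, β, q, κ, ?_, ?_⟩
  · exact
      { pgr := hP
        q_mul := hq
        q_surj := hs
        q_eq := fun h x => (hρV h x).symm
        κ_add := hκadd
        κ_inj := fun u hu => hκinj' u 0 (hu.trans hκ0.symm)
        κ_cen := fun u x => hcen _ (hκmem u) x
        κ_eq := hρU
        comm := fun x y => by rw [hβ, hc]
        qκ := fun u => (hk _).2 (Subgroup.mem_sup_left (hκmem u)) }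
  · refine
      { pH := hH
        alt := ?_
        eqv := ?_
        ne := ?_
        irr := ?_
        fai := ?_ }
    · intro v
      obtain ⟨x, rfl⟩ := hs v
      rw [hβ]
      refine hκinj' _ _ ?_
      rw [hc, hκ0]
      group
    · intro h v w
      obtain ⟨x, rfl⟩ := hs v
      obtain ⟨y, rfl⟩ := hs w
      rw [hρV, hρV, hβ, hβ]
      refine hκinj' _ _ ?_
      rw [hρU, hc, hc, map_mul, map_mul, map_mul, map_inv, map_inv]
    · intro h0
      apply hne
      rw [commutator_def, eq_bot_iff, Subgroup.commutator_le]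
      intro x _ y _
      have h1 : c x y = 0 := by rw [← hβ, h0]; rfl
      have h2 := hc x y
      rw [h1, hκ0] at h2
      rw [Subgroup.mem_bot, commutatorElement_def, ← h2]
    · intro W hW
      let N : Subgroup P :=
        { carrier := {x | ∃ u ∈ W, κ u = x}
          one_mem' := ⟨0, W.zero_mem, hκ0⟩
          mul_mem' := by
            rintro _ _ ⟨u, hu, rfl⟩ ⟨w, hw, rfl⟩
            exact ⟨u + w, W.add_mem hu hw, hκadd u w⟩
          inv_mem' := by
            rintro _ ⟨u, hu, rfl⟩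
            exact ⟨-u, W.neg_mem hu, hκneg u⟩ }
      have hN1 : N ≤ commutator P := by
        rintro _ ⟨u, hu, rfl⟩
        exact hκmem u
      have hN2 : ∀ h, ∀ x ∈ N, φ h x ∈ N := by
        rintro h _ ⟨u, hu, rfl⟩
        exact ⟨ρU h u, hW h (Subgroup.mem_top h) u hu, hρU h u⟩
      rcases hirr N hN1 hN2 with h | h
      · left
        rw [eq_bot_iff]
        intro u hu
        have h1 : κ u ∈ N := ⟨u, hu, rfl⟩
        rw [h, Subgroup.mem_bot] at h1
        exact hκinj' u 0 (h1.trans hκ0.symm)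
      · right
        rw [eq_top_iff]
        intro u _
        have h1 : κ u ∈ N := by
          rw [h]
          exact hκmem u
        obtain ⟨w, hw, hwu⟩ := h1
        rw [← hκinj' _ _ hwu]
        exact hw
    · intro h hh
      -- the kernel of `ρV` acts trivially
      let K : Subgroup H :=
        { carrier := {h | ∀ v, ρV h v = v}
          one_mem' := fun v => by rw [map_one]; rfl
          mul_mem' := fun {a b} ha hb v => by
            rw [map_mul]
            show ρV a (ρV b v) = v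
            rw [hb, ha]
          inv_mem' := fun {a} ha v => by
            have h2 : ρV a⁻¹ (ρV a v) = v := by
              rw [← Module.End.mul_apply, ← map_mul, inv_mul_cancel, map_one]
              rfl
            rw [ha v] at h2
            exact h2 }
      have hK : ∀ g ∈ K, ∀ x, φ g x = x := by
        have hKc : ¬ p ∣ Nat.card K := fun hd => hH (hd.trans K.card_subgroup_dvd_card)
        have h1 := gc_core p hp hP hKc (φ.comp K.subtype) (fun g x => ?_)
        · intro g hg x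
          exact h1 ⟨g, hg⟩ x
        · have h2 : q (x⁻¹ * φ g x) = 0 := by
            have h3 : q (φ g x) = q x := by
              rw [← hρV]
              exact g.2 (q x)
            have h4 := hq x (x⁻¹ * φ g x)
            rw [mul_inv_cancel_left, h3] at h4
            exact (left_eq_add.1 h4)
          have h3 : pe_Phi p P ≤ frattini P := by
            refine sup_le (gc_comm_le p hP) ?_
            rw [Subgroup.closure_le]
            rintro _ ⟨z, rfl⟩
            exact gc_pow_mem p hP z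
          exact h3 ((hk _).1 h2)
      refine hinj ?_
      rw [map_one]
      ext x
      exact hK h hh x

/-- (pf, size 3) PROOF. Among the normal `φ`-invariant subgroups `N₀ < commutator P` (`⊥` is one) take one
of the largest order. `⁅commutator P, ⊤⁆ < commutator P` (`P` is nilpotent); `N₀ ⊔ ⁅commutator P, ⊤⁆` is not
`commutator P` (nilpotent: otherwise `commutator P ≤ N₀ ⊔ ⁅commutator P, ⊤⁆` gives, iterating,
`commutator P ≤ N₀`), so it is `N₀`: the commutator subgroup is central modulo `N₀`. The `p`-th powers: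
the subgroup generated by `N₀` and the `x ^ p`, `x ∈ commutator P`, is normal, invariant; it is not
`commutator P` (in the non-trivial abelian `p`-group `commutator P / N₀` the `p`-th powers form a proper
subgroup), so it is `N₀`. -/
theorem ex_N0 (p : ℕ) (hp : p.Prime) (hP : IsPGroup p P) (φ : H →* MulAut P)
    (hne : commutator P ≠ ⊥) :
    ∃ N₀ : Subgroup P, N₀.Normal ∧ (∀ h, ∀ x ∈ N₀, φ h x ∈ N₀) ∧ N₀ < commutator P ∧
      (∀ x ∈ commutator P, ∀ y : P, x * y * x⁻¹ * y⁻¹ ∈ N₀) ∧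
      (∀ x ∈ commutator P, x ^ p ∈ N₀) ∧
      ∀ N : Subgroup P, N.Normal → N₀ ≤ N → N ≤ commutator P → (∀ h, ∀ x ∈ N, φ h x ∈ N) →
        N = N₀ ∨ N = commutator P := by
  have : Fact p.Prime := ⟨hp⟩
  let S : Set (Subgroup P) := {N | N.Normal ∧ (∀ h, ∀ x ∈ N, φ h x ∈ N) ∧ N < commutator P}
  have hS : S.Nonempty := by
    refine ⟨⊥, inferInstance, ?_, bot_lt_iff_ne_bot.2 hne⟩
    intro h x hx
    rw [Subgroup.mem_bot] at hx ⊢
    rw [hx, map_one]
  obtain ⟨N₀, hN₀, hmax⟩ := (Set.toFinite S).exists_maximal hS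
  obtain ⟨hnor, hinv, hlt⟩ := hN₀
  have hmax' : ∀ N : Subgroup P, N.Normal → N₀ ≤ N → N ≤ commutator P →
      (∀ h, ∀ x ∈ N, φ h x ∈ N) → N = N₀ ∨ N = commutator P := by
    intro N h1 h2 h3 h4
    by_cases h5 : N = commutator P
    · exact Or.inr h5
    · left
      exact le_antisymm (hmax (y := N) ⟨h1, h4, lt_of_le_of_ne h3 h5⟩ h2) h2
  have hcinv : ∀ h, ∀ x ∈ commutator P, φ h x ∈ commutator P := by
    intro h x hx
    have h1 : (commutator P).map (φ h).toMonoidHom = commutator P :=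
      (Subgroup.characteristic_iff_map_eq.1 inferInstance (φ h))
    rw [← h1]
    exact ⟨x, hx, rfl⟩
  -- commutators
  have hcomm : ⁅commutator P, (⊤ : Subgroup P)⁆ ≤ N₀ := by
    let L : Subgroup P := N₀ ⊔ ⁅commutator P, (⊤ : Subgroup P)⁆
    have hLn : L.Normal := Subgroup.sup_normal _ _
    have hLle : L ≤ commutator P := sup_le hlt.le (Subgroup.commutator_le_left _ _)
    have hLinv : ∀ h, ∀ x ∈ L, φ h x ∈ L := by
      intro h
      have h1 : L.map (φ h).toMonoidHom ≤ L := by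
        show (N₀ ⊔ ⁅commutator P, (⊤ : Subgroup P)⁆).map (φ h).toMonoidHom ≤ L
        rw [Subgroup.map_sup, Subgroup.map_commutator]
        refine sup_le ?_ ?_
        · rintro _ ⟨x, hx, rfl⟩
          exact Subgroup.mem_sup_left (hinv h x hx)
        · refine le_trans (Subgroup.commutator_mono ?_ le_top) le_sup_right
          rintro _ ⟨x, hx, rfl⟩
          exact hcinv h x hx
      intro x hx
      exact h1 ⟨x, hx, rfl⟩
    rcases hmax' L hLn le_sup_left hLle hLinv with h | h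
    · rw [← h]
      exact le_sup_right
    · exfalso
      have hstep : ∀ n, commutator P ≤ N₀ ⊔ (⊤ : Subgroup P).lowerCentralSeries (n + 1) := by
        intro n
        induction n with
        | zero =>
          refine le_trans ?_ le_sup_right
          rw [Subgroup.top_lowerCentralSeries_one]
        | succ n ih =>
          have h1 : ⁅commutator P, (⊤ : Subgroup P)⁆ ≤
              N₀ ⊔ (⊤ : Subgroup P).lowerCentralSeries (n + 1 + 1) := by
            have h2 : (N₀ ⊔ (⊤ : Subgroup P).lowerCentralSeries (n + 1 + 1)).Normal :=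
              Subgroup.sup_normal _ _
            refine le_trans (Subgroup.commutator_mono ih le_rfl) ?_
            rw [Subgroup.commutator_le]
            intro a ha b _
            rw [← SetLike.mem_coe, Subgroup.normal_mul] at ha
            obtain ⟨c, hc, d, hd, rfl⟩ := Set.mem_mul.1 ha
            have h3 : c * d * b * (c * d)⁻¹ * b⁻¹ =
                c * (d * b * d⁻¹ * b⁻¹) * c⁻¹ * (c * b * c⁻¹ * b⁻¹) := by group
            show c * d * b * (c * d)⁻¹ * b⁻¹ ∈ _
            rw [h3]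
            refine Subgroup.mul_mem _ ?_ ?_
            · refine h2.conj_mem _ ?_ c
              refine Subgroup.mem_sup_right ?_
              exact Subgroup.commutator_mem_commutator hd (Subgroup.mem_top b)
            · refine Subgroup.mem_sup_left ?_
              exact Subgroup.commutator_le_left N₀ (⊤ : Subgroup P)
                (Subgroup.commutator_mem_commutator hc (Subgroup.mem_top b))
          rw [← h]
          exact sup_le le_sup_left h1
      have hnil : Group.IsNilpotent P := hP.isNilpotent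
      obtain ⟨n, hn⟩ := Subgroup.nilpotent_iff_lowerCentralSeries.1 hnil
      have h1 := hstep n
      have h2 : (⊤ : Subgroup P).lowerCentralSeries (n + 1) = ⊥ := by
        rw [eq_bot_iff, ← hn]
        exact Subgroup.lowerCentralSeries_antitone _ (Nat.le_succ n)
      rw [h2, sup_bot_eq] at h1
      exact absurd hlt (not_lt_of_ge h1)
  have hcomm' : ∀ x ∈ commutator P, ∀ y : P, x * y * x⁻¹ * y⁻¹ ∈ N₀ := fun x hx y =>
    hcomm (Subgroup.commutator_mem_commutator hx (Subgroup.mem_top y))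
  refine ⟨N₀, hnor, hinv, hlt, hcomm', ?_, hmax'⟩
  -- the `p`-th powers
  let π := QuotientGroup.mk' N₀
  have hπ : ∀ x, π x = 1 ↔ x ∈ N₀ := fun x => QuotientGroup.eq_one_iff x
  have hπc : ∀ x ∈ commutator P, ∀ y, π x * π y = π y * π x := by
    intro x hx y
    have h1 := (hπ _).2 (hcomm' x hx y)
    rw [map_mul, map_mul, map_mul, map_inv, map_inv] at h1
    have h2 := mul_eq_one_iff_eq_inv.1 h1
    rw [inv_inv] at h2
    have h3 := mul_inv_eq_iff_eq_mul.1 h2
    exact h3
  let L : Subgroup P :=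
    { carrier := {x | x ∈ commutator P ∧ ∃ y ∈ commutator P, π x = π y ^ p}
      one_mem' := ⟨Subgroup.one_mem _, 1, Subgroup.one_mem _, by rw [map_one, one_pow]⟩
      mul_mem' := by
        rintro a b ⟨ha, y, hy, hay⟩ ⟨hb, z, hz, hbz⟩
        refine ⟨Subgroup.mul_mem _ ha hb, y * z, Subgroup.mul_mem _ hy hz, ?_⟩
        have h1 : Commute (π y) (π z) := hπc y hy z
        rw [map_mul, map_mul, hay, hbz, h1.mul_pow]
      inv_mem' := by
        rintro a ⟨ha, y, hy, hay⟩
        refine ⟨Subgroup.inv_mem _ ha, y⁻¹, Subgroup.inv_mem _ hy, ?_⟩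
        rw [map_inv, map_inv, hay, inv_pow] }
  have hLn : L.Normal := by
    refine ⟨?_⟩
    rintro x ⟨hx, y, hy, hxy⟩ g
    refine ⟨Subgroup.Normal.conj_mem inferInstance _ hx g, y, hy, ?_⟩
    rw [map_mul, map_mul, map_inv, ← hπc x hx g, mul_inv_cancel_right, hxy]
  have hLN : N₀ ≤ L := by
    intro x hx
    refine ⟨hlt.le hx, 1, Subgroup.one_mem _, ?_⟩
    rw [(hπ x).2 hx, map_one, one_pow]
  have hLc : L ≤ commutator P := fun x hx => hx.1
  have hLinv : ∀ h, ∀ x ∈ L, φ h x ∈ L := by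
    rintro h x ⟨hx, y, hy, hxy⟩
    refine ⟨hcinv h x hx, φ h y, hcinv h y hy, ?_⟩
    have h1 : x * (y ^ p)⁻¹ ∈ N₀ := by
      rw [← hπ, map_mul, map_inv, map_pow, hxy, mul_inv_cancel]
    have h2 := (hπ _).2 (hinv h _ h1)
    rw [map_mul, map_inv, map_pow, map_mul, map_inv, map_pow] at h2
    exact mul_inv_eq_one.1 h2
  rcases hmax' L hLn hLN hLc hLinv with h | h
  · intro x hx
    rw [← h]
    exact ⟨Subgroup.pow_mem _ hx _, x, hx, by rw [map_pow]⟩
  · exfalso
    have h1 : ∀ n : ℕ, ∀ x ∈ commutator P, ∃ y ∈ commutator P, π x = π y ^ p ^ n := by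
      intro n
      induction n with
      | zero =>
        intro x hx
        exact ⟨x, hx, by rw [pow_zero, pow_one]⟩
      | succ n ih =>
        intro x hx
        obtain ⟨y, hy, hxy⟩ := ih x hx
        have hy' : y ∈ L := by rw [h]; exact hy
        obtain ⟨-, z, hz, hyz⟩ := hy'
        refine ⟨z, hz, ?_⟩
        rw [hxy, hyz, ← pow_mul, pow_succ']
    obtain ⟨n, hn⟩ := (IsPGroup.iff_card (p := p)).1 hP
    have h2 : commutator P ≤ N₀ := by
      intro x hx
      obtain ⟨y, hy, hxy⟩ := h1 n x hx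
      rw [← hπ, hxy, ← hn, ← map_pow, pow_card_eq_one', map_one]
    exact absurd hlt (not_lt_of_ge h2)

/-- (pg, size 2) PROOF. `s = s' ∘ π`, `Θ k = Θ' k ∘ π` (`Inf_irr`), the same `St`; `fxS φ (χ ∘ π) = fxS φ' χ`. -/
theorem loc_inf {P' : Type} [Group P'] (p : ℕ) (π : P →* P') (hπ : Function.Surjective π)
    (φ : H →* MulAut P) (φ' : H →* MulAut P') (he : ∀ h x, π (φ h x) = φ' h (π x))
    (htriv : ∀ D : Subgroup H, (∀ d ∈ D, φ' d = 1) → ∀ d ∈ D, φ d = 1) (A : Subgroup H)
    (B : Set ℕ) (h : Loc p φ' A B) : Loc p φ A B := by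
  obtain ⟨s, hs, n, St, Θ, h1, h2, h3, h4⟩ := h
  have hfx : ∀ χ : P' → ℂ, fxS φ (fun x => χ (π x)) = fxS φ' χ := by
    intro χ
    ext g
    rw [mem_fxS, mem_fxS]
    constructor
    · intro hg y
      obtain ⟨x, rfl⟩ := hπ y
      rw [← he]
      exact hg x
    · intro hg x
      rw [he]
      exact hg (π x)
  have hnt : ∀ D : Subgroup H, (∃ d ∈ D, φ d ≠ 1) → ∃ d ∈ D, φ' d ≠ 1 := by
    intro D hD
    by_contra hcon
    push Not at hcon
    obtain ⟨d, hd, hd1⟩ := hD
    exact hd1 (htriv D hcon d hd)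
  refine ⟨fun x => s (π x), Inf_irr π hπ s hs, n, St, fun k x => Θ k (π x),
    fun k hk => Inf_irr π hπ _ (h1 k hk), ?_, ?_, ?_⟩
  · intro k hk g hg j
    refine h2 k hk g ?_ j
    rw [← hfx]
    exact hg
  · have e1 : s (π 1) = s 1 := by rw [map_one]
    have e2 : ∀ k, Θ k (π 1) = Θ k 1 := by
      intro k
      rw [map_one]
    change (∃ d : ℕ, s (π 1) = d ∧ p ∣ d) ∨
      ∀ k, (∀ j, k j ∈ A) → ∃ d : ℕ, Θ k (π 1) = d ∧ p ∣ d
    rw [e1]
    rcases h3 with h3 | h3
    · exact Or.inl h3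
    · refine Or.inr fun k hk => ?_
      rw [e2 k]
      exact h3 k hk
  · rw [hfx s]
    refine ⟨h4.b1, ?_, ?_⟩
    · intro q hq hqp D hDn hDA hDq hD
      exact h4.b2 q hq hqp D hDn hDA hDq (hnt D hD)
    · rintro r hr ⟨q, hq, hqp, D, hDn, hDc, hDq, hD⟩
      exact h4.c r hr ⟨q, hq, hqp, D, hDn, hDc, hDq, hnt D hD⟩

private theorem ph_iSup {H' : Type} [Group H'] [Finite H'] (σ : H →* H')
    (hσ : Function.Surjective σ) (r : ℕ) (hr : r.Prime) :
    (⨆ R : Sylow r H', (R : Subgroup H')) = (⨆ R : Sylow r H, (R : Subgroup H)).map σ := by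
  have : Fact r.Prime := ⟨hr⟩
  rw [Subgroup.map_iSup]
  apply le_antisymm
  · refine iSup_le fun R' => ?_
    obtain ⟨R, rfl⟩ := Sylow.mapSurjective_surjective hσ r R'
    rw [Sylow.coe_mapSurjective]
    exact le_iSup (fun R : Sylow r H => (R : Subgroup H).map σ) R
  · refine iSup_le fun R => ?_
    have := le_iSup (fun R' : Sylow r H' => (R' : Subgroup H')) (R.mapSurjective hσ)
    rwa [Sylow.coe_mapSurjective] at this

/-- (ph, size 2) The data for the image of `H`. PROOF. Images of Sylow subgroups under a surjective map are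
Sylow subgroups (`Sylow.mapSurjective`), and every Sylow subgroup of the image is of this form. -/
theorem map_ab {H' : Type} [Group H'] [Finite H'] (σ : H →* H') (hσ : Function.Surjective σ)
    {A : Subgroup H} (hA : Ab A) : Ab (A.map σ) ∧ (∀ r, AR A r → AR (A.map σ) r) ∧
      ∀ r, r.Prime → cm (A.map σ) r = (cm A r).map σ := by
  refine ⟨⟨hA.nor.map σ hσ, ?_⟩, ?_, ?_⟩
  · rintro a ⟨a, ha, rfl⟩ b ⟨b, hb, rfl⟩
    rw [← map_mul, ← map_mul, hA.com a ha b hb]
  · intro r hr
    have : Fact r.Prime := ⟨hr.prime⟩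
    refine ⟨hr.prime, ?_, ?_⟩
    · intro h
      exact hr.ndvd (h.trans (Subgroup.card_map_dvd A σ))
    · intro R'
      obtain ⟨R, rfl⟩ := Sylow.mapSurjective_surjective hσ r R'
      rw [Sylow.coe_mapSurjective, ← Subgroup.map_sup]
      exact (hr.nor R).map σ hσ
  · intro r hr
    unfold cm
    rw [ph_iSup σ hσ r hr, Subgroup.map_commutator]

/-- (ph, size 3) PROOF. `s`, `St j` = the preimage of `St' j`, `Θ k = Θ' (σ ∘ k)`. `map_ab`. -/
theorem loc_map {H' : Type} [Group H'] [Finite H'] (p : ℕ) (σ : H →* H')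
    (hσ : Function.Surjective σ) (φ : H →* MulAut P) (φ' : H' →* MulAut P)
    (he : ∀ h, φ h = φ' (σ h)) {A : Subgroup H} (hA : Ab A) (B : Set ℕ)
    (hB : ∀ r ∈ B, AR A r) (h : Loc p φ' (A.map σ) B) : Loc p φ A B := by
  obtain ⟨s, hs, n, St, Θ, h1, h2, h3, hb⟩ := h
  obtain ⟨hA', hAR', hcm⟩ := map_ab σ hσ hA
  have hfx : ∀ χ : P → ℂ, ∀ g : H, g ∈ fxS φ χ ↔ σ g ∈ fxS φ' χ := by
    intro χ g
    rw [mem_fxS, mem_fxS, he]
  have hmem : ∀ k : Fin n → H, (∀ j, k j ∈ A) → ∀ j, (fun j => σ (k j)) j ∈ A.map σ :=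
    fun k hk j => ⟨k j, hk j, rfl⟩
  refine ⟨s, hs, n, fun j => (St j).comap σ, fun k => Θ fun j => σ (k j), ?_, ?_, ?_, ?_⟩
  · exact fun k hk => h1 _ (hmem k hk)
  · intro k hk g hg j
    have := h2 _ (hmem k hk) (σ g) ((hfx _ g).1 hg) j
    rw [Subgroup.mem_comap, map_mul, map_mul, map_inv]
    exact this
  · rcases h3 with h3 | h3
    · exact Or.inl h3
    · exact Or.inr fun k hk => h3 _ (hmem k hk)
  · have hnt : ∀ D : Subgroup H, (∃ d ∈ D, φ d ≠ 1) → ∃ d ∈ D.map σ, φ' d ≠ 1 := by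
      rintro D ⟨d, hd, hne⟩
      exact ⟨σ d, ⟨d, hd, rfl⟩, by rwa [← he]⟩
    refine ⟨?_, ?_, ?_⟩
    · intro a ha hj
      rw [hfx]
      exact hb.b1 (σ a) ⟨a, ha, rfl⟩ hj
    · intro q hq hqp D hD hDA hDq hDn
      obtain ⟨j, hj⟩ := hb.b2 q hq hqp (D.map σ) (hD.map σ hσ) (Subgroup.map_mono hDA)
        (hDq.map σ) (hnt D hDn)
      refine ⟨j, fun hle => hj ?_⟩
      exact Subgroup.map_le_iff_le_comap.2 hle
    · rintro r hr ⟨q, hq, hqp, D, hD, hDc, hDq, hDn⟩ ⟨⟨R, hR⟩, hRj, hcj, hS⟩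
      have hrp : r.Prime := (hB r hr).prime
      have : Fact r.Prime := ⟨hrp⟩
      have hc := hcm r hrp
      refine hb.c r hr ⟨q, hq, hqp, D.map σ, hD.map σ hσ, ?_, hDq.map σ, hnt D hDn⟩
        ⟨⟨R.mapSurjective hσ, ?_⟩, ?_, ?_, ?_⟩
      · rw [hc]
        exact Subgroup.map_mono hDc
      · rw [Sylow.coe_mapSurjective, Subgroup.map_le_iff_le_comap]
        exact fun x hx => (hfx s x).1 (hR hx)
      · intro j
        obtain ⟨R', hR'⟩ := hRj j
        refine ⟨R'.mapSurjective hσ, ?_⟩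
        rw [Sylow.coe_mapSurjective, Subgroup.map_le_iff_le_comap]
        exact hR'
      · rw [hc]
        rintro c ⟨c, hcc, rfl⟩ hcs j
        exact hcj c hcc ((hfx s c).2 hcs) j
      · intro x hx
        rw [hc] at hx ⊢
        choose x' hx' hxx using hx
        obtain ⟨y, hy, hyj⟩ := hS x' hx'
        refine ⟨σ y, ⟨y, hy, rfl⟩, fun j => ?_⟩
        have := hyj j
        rw [Subgroup.mem_comap, map_mul, map_inv, hxx] at this
        exact this

omit [Finite P] in
private theorem pi_map {P' : Type} [Group P'] (π : P →* P') (hπ : Function.Surjective π) :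
    commutator P' = (commutator P).map π := by
  rw [commutator_def, commutator_def, Subgroup.map_commutator, Subgroup.map_top_of_surjective π hπ]

private noncomputable def pi_act (φ : H →* MulAut P) (N₀ : Subgroup P) [N₀.Normal]
    (hinv : ∀ h, ∀ x ∈ N₀, φ h x ∈ N₀) : H →* MulAut (P ⧸ N₀) where
  toFun h := QuotientGroup.congr N₀ N₀ (φ h) (by
    apply le_antisymm
    · rintro _ ⟨x, hx, rfl⟩
      exact hinv h x hx
    · intro x hx
      refine ⟨φ h⁻¹ x, hinv _ x hx, ?_⟩
      change φ h (φ h⁻¹ x) = x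
      rw [← MulAut.mul_apply, ← map_mul, mul_inv_cancel, map_one, MulAut.one_apply])
  map_one' := by
    ext x
    induction x using QuotientGroup.induction_on with
    | H x =>
      change ((φ 1 x : P) : P ⧸ N₀) = x
      rw [map_one, MulAut.one_apply]
  map_mul' g h := by
    ext x
    induction x using QuotientGroup.induction_on with
    | H x =>
      change ((φ (g * h) x : P) : P ⧸ N₀) = ((φ g (φ h x) : P) : P ⧸ N₀)
      rw [map_mul, MulAut.mul_apply]

omit [Finite P] [Finite H] in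
private theorem pi_act_mk (φ : H →* MulAut P) (N₀ : Subgroup P) [N₀.Normal]
    (hinv : ∀ h, ∀ x ∈ N₀, φ h x ∈ N₀) (h : H) (x : P) :
    pi_act φ N₀ hinv h (x : P ⧸ N₀) = ((φ h x : P) : P ⧸ N₀) := rfl

/-- (pi, size 3) The local theorem. PROOF. `ex_N0`; `P' = P ⧸ N₀` with the action `φ'`, `loc_inf` (`htriv`: if
`D` is trivial on `P ⧸ N₀` then it fixes all `f : P →* ℂˣ` because `N₀ ≤ commutator P`; `triv_of_lin` for `D`).
For `P'`: `σ` = the map of `H` onto `φ'.range`, `loc_map`; `φ'.range` acts faithfully; its order divides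
`|H|`; `vu` (the hypotheses from `ex_N0`) and `loc_core`. -/
theorem loc_main (p : ℕ) (hp : p.Prime) (hP : IsPGroup p P) (hH : ¬ p ∣ Nat.card H)
    (φ : H →* MulAut P) (hne : commutator P ≠ ⊥) {A : Subgroup H} (hA : Ab A) (B : Set ℕ)
    (hB : ∀ r ∈ B, AR A r) : Loc p φ A B := by
  have : Fact p.Prime := ⟨hp⟩
  obtain ⟨N₀, hN, hinv, hlt, hcen, hexp, hmin⟩ := ex_N0 p hp hP φ hne
  have hcom : ∀ f : P →* ℂˣ, ∀ x ∈ N₀, f x = 1 := fun f x hx => by
    have h1 : commutator P ≤ f.ker := Abelianization.commutator_subset_ker f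
    exact h1 (hlt.le hx)
  refine loc_inf p (QuotientGroup.mk' N₀) (QuotientGroup.mk'_surjective N₀) φ
    (pi_act φ N₀ hinv) (fun h x => (pi_act_mk φ N₀ hinv h x).symm) ?_ A B ?_
  · intro D hD d hd
    have hcard : ¬ p ∣ Nat.card D := fun h => hH (h.trans (Subgroup.card_subgroup_dvd_card D))
    have key := triv_of_lin p hp hP hcard (φ.comp D.subtype) (by
      rintro f ⟨g, hg⟩ x
      change f (φ g x) = f x
      have h1 : pi_act φ N₀ hinv g (x : P ⧸ N₀) = (x : P ⧸ N₀) := by rw [hD g hg, MulAut.one_apply]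
      rw [pi_act_mk, eq_comm, QuotientGroup.eq] at h1
      have h2 := hcom f _ h1
      rw [map_mul, map_inv, inv_mul_eq_one] at h2
      exact h2.symm)
    ext x
    exact key ⟨d, hd⟩ x
  · set φ' := pi_act φ N₀ hinv with hφ'
    have hσ : Function.Surjective φ'.rangeRestrict := φ'.rangeRestrict_surjective
    refine loc_map p φ'.rangeRestrict hσ φ' φ'.range.subtype (fun h => rfl) hA B hB ?_
    obtain ⟨hA', hAR', -⟩ := map_ab φ'.rangeRestrict hσ hA
    have hcm : commutator (P ⧸ N₀) = (commutator P).map (QuotientGroup.mk' N₀) :=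
      pi_map _ (QuotientGroup.mk'_surjective N₀)
    have hc1 : ∀ x ∈ commutator (P ⧸ N₀), ∀ y : P ⧸ N₀, x * y = y * x := by
      intro x hx y
      rw [hcm] at hx
      obtain ⟨x, hx, rfl⟩ := hx
      obtain ⟨y, rfl⟩ := QuotientGroup.mk'_surjective N₀ y
      have h1 := hcen x hx y
      rw [← QuotientGroup.eq_one_iff] at h1
      have h2 : QuotientGroup.mk' N₀ (x * y * x⁻¹ * y⁻¹) = 1 := h1
      rw [map_mul, map_mul, map_mul, map_inv, map_inv, mul_inv_eq_one, mul_inv_eq_iff_eq_mul] at h2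
      exact h2
    suffices h : _ ∧ _ ∧ _ by
      obtain ⟨V, U, i1, i2, i3, i4, i5, i6, ρV, ρU, β, q, κ, hC, hL⟩ := vu p (hP.to_quotient N₀)
        (fun h => hH (h.trans (Subgroup.card_range_dvd φ'))) φ'.range.subtype
        Subtype.val_injective hc1 h.1 h.2.1 h.2.2
      exact loc_core hC hL hA' B fun r hr => hAR' r (hB r hr)
    refine ⟨?_, ?_, ?_⟩
    · intro x hx
      rw [hcm] at hx
      obtain ⟨x, hx, rfl⟩ := hx
      rw [← map_pow]
      exact (QuotientGroup.eq_one_iff _).2 (hexp x hx)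
    · intro h
      rw [hcm, Subgroup.map_eq_bot_iff, QuotientGroup.ker_mk'] at h
      exact absurd h (not_le_of_gt hlt)
    · intro N hNle hNinv
      have hNn : N.Normal := ⟨fun n hn g => by
        rw [← hc1 n (hNle hn) g, mul_inv_cancel_right]
        exact hn⟩
      have h1 := hmin (N.comap (QuotientGroup.mk' N₀)) (hNn.comap _) ?_ ?_ ?_
      · rcases h1 with h1 | h1
        · left
          rw [← Subgroup.map_comap_eq_self_of_surjective (QuotientGroup.mk'_surjective N₀) N, h1,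
            QuotientGroup.map_mk'_self]
        · right
          rw [← Subgroup.map_comap_eq_self_of_surjective (QuotientGroup.mk'_surjective N₀) N, h1,
            hcm]
      · intro x hx
        rw [Subgroup.mem_comap]
        have : QuotientGroup.mk' N₀ x = 1 := (QuotientGroup.eq_one_iff _).2 hx
        rw [this]
        exact N.one_mem
      · intro x hx
        rw [Subgroup.mem_comap] at hx
        have h2 := hNle hx
        rw [hcm] at h2
        obtain ⟨y, hy, hxy⟩ := h2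
        have h3 : y⁻¹ * x ∈ N₀ := QuotientGroup.eq.1 hxy
        have h4 := (commutator P).mul_mem hy (hlt.le h3)
        rwa [mul_inv_cancel_left] at h4
      · intro h x hx
        exact hNinv (φ'.rangeRestrict h) _ hx

end

end Pool.Agent.Nan
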