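import Pool.Agent.Nan.Cp

/-! The selection theorem for an irreducible module: modules `ta` .. `tz`. -/

set_option autoImplicit false

namespace Pool.Agent.Nan

section

variable {p : ℕ} [Fact p.Prime] {H X : Type} [Group H] [Finite H] [AddCommGroup X]
  [Module (ZMod p) X] [Finite X] {ρ : Representation (ZMod p) H X} {A : Subgroup H}

/-- (ta, size 1) -/
theorem cj_one (z : Module.End (ZMod p) X) : cj ρ 1 z = z := by
  rw [cj, inv_one, map_one, one_mul, mul_one]

/-- (ta, size 1) -/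
theorem cj_mul (g h : H) (z : Module.End (ZMod p) X) : cj ρ (g * h) z = cj ρ g (cj ρ h z) := by
  rw [cj, cj, cj, mul_inv_rev, map_mul, map_mul]
  simp only [mul_assoc]

/-- (ta, size 1) -/
theorem cj_hom (h : H) (z w : Module.End (ZMod p) X) : cj ρ h (z * w) = cj ρ h z * cj ρ h w := by
  have h1 : ρ h⁻¹ * ρ h = 1 := by rw [← map_mul, inv_mul_cancel, map_one]
  rw [cj, cj, cj]
  calc ρ h * (z * w) * ρ h⁻¹ = ρ h * z * 1 * w * ρ h⁻¹ := by
        rw [mul_one]
        simp only [mul_assoc]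
    _ = ρ h * z * (ρ h⁻¹ * ρ h) * w * ρ h⁻¹ := by rw [h1]
    _ = ρ h * z * ρ h⁻¹ * (ρ h * w * ρ h⁻¹) := by simp only [mul_assoc]

/-- (ta, size 1) -/
theorem cj_add (h : H) (z w : Module.End (ZMod p) X) : cj ρ h (z + w) = cj ρ h z + cj ρ h w := by
  rw [cj, cj, cj, mul_add, add_mul]

/-- (ta, size 1) `ρ h (z x) = (cj ρ h z) (ρ h x)`. -/
theorem cj_app (h : H) (z : Module.End (ZMod p) X) (x : X) :
    ρ h (z x) = cj ρ h z (ρ h x) := by
  have h1 : ρ h⁻¹ (ρ h x) = x := by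
    rw [← Module.End.mul_apply, ← map_mul, inv_mul_cancel, map_one, Module.End.one_apply]
  rw [cj, Module.End.mul_apply, Module.End.mul_apply, h1]

private theorem ta_mem {a : H} (ha : a ∈ A) : ρ a ∈ AA ρ A :=
  Algebra.subset_adjoin ⟨a, ha, rfl⟩

private theorem ta_rho (h a : H) : cj ρ h (ρ a) = ρ (h * a * h⁻¹) := by
  rw [cj, map_mul, map_mul]

/-- (ta, size 1) PROOF. `Algebra.adjoin` of a commuting set. -/
theorem aa_comm (hA : Ab A) (z w : Module.End (ZMod p) X) (hz : z ∈ AA ρ A) (hw : w ∈ AA ρ A) :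
    z * w = w * z := by
  have h1 : ∀ a ∈ A, ∀ b ∈ A, ρ a * ρ b = ρ b * ρ a := by
    intro a ha b hb
    rw [← map_mul, ← map_mul, hA.com a ha b hb]
  have h2 : AA ρ A ≤ Subalgebra.centralizer (ZMod p) (ρ '' (A : Set H)) := by
    rw [AA]
    refine Algebra.adjoin_le ?_
    rintro _ ⟨a, ha, rfl⟩
    rw [SetLike.mem_coe, Subalgebra.mem_centralizer_iff]
    rintro _ ⟨b, hb, rfl⟩
    exact h1 b hb a ha
  have h3 : AA ρ A ≤ Subalgebra.centralizer (ZMod p) {z} := by
    rw [AA]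
    refine Algebra.adjoin_le ?_
    rintro _ ⟨a, ha, rfl⟩
    rw [SetLike.mem_coe, Subalgebra.mem_centralizer_iff]
    intro g hg
    rw [Set.mem_singleton_iff] at hg
    subst hg
    exact (Subalgebra.mem_centralizer_iff (ZMod p)).1 (h2 hz) _ ⟨a, ha, rfl⟩ |>.symm
  exact (Subalgebra.mem_centralizer_iff (ZMod p)).1 (h3 hw) z (Set.mem_singleton z)

/-- (ta, size 2) PROOF. `cj ρ h` is an algebra homomorphism which maps the generators to generators
(`A` is normal). -/
theorem aa_cj (hA : Ab A) (h : H) (z : Module.End (ZMod p) X) (hz : z ∈ AA ρ A) :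
    cj ρ h z ∈ AA ρ A := by
  have := hA.nor
  rw [AA] at hz
  induction hz using Algebra.adjoin_induction with
  | mem x hx =>
    obtain ⟨a, ha, rfl⟩ := hx
    rw [ta_rho]
    exact ta_mem (hA.nor.conj_mem a ha h)
  | algebraMap r =>
    have h1 : cj ρ h (algebraMap (ZMod p) (Module.End (ZMod p) X) r) =
        algebraMap (ZMod p) (Module.End (ZMod p) X) r := by
      rw [cj, ← Algebra.commutes, mul_assoc, ← map_mul, mul_inv_cancel, map_one, mul_one]
    rw [h1]
    exact Subalgebra.algebraMap_mem _ r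
  | add x y _ _ hx hy =>
    rw [cj_add]
    exact add_mem hx hy
  | mul x y _ _ hx hy =>
    rw [cj_hom]
    exact mul_mem hx hy

/-- (ta, size 1) PROOF. `ρ a` commutes with `AA ρ A`. -/
theorem aa_cjA (hA : Ab A) (a : H) (ha : a ∈ A) (z : Module.End (ZMod p) X) (hz : z ∈ AA ρ A) :
    cj ρ a z = z := by
  rw [cj, aa_comm hA (ρ a) z (ta_mem ha) hz, mul_assoc, ← map_mul, mul_inv_cancel, map_one,
    mul_one]

/-- (ta, size 1) PROOF. Induction on `Algebra.adjoin`. -/
theorem aa_inv (W : Submodule (ZMod p) X) (hW : Ivt ρ A W) (z : Module.End (ZMod p) X)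
    (hz : z ∈ AA ρ A) (w : X) (hw : w ∈ W) : z w ∈ W := by
  rw [AA] at hz
  induction hz using Algebra.adjoin_induction generalizing w with
  | mem x hx =>
    obtain ⟨a, ha, rfl⟩ := hx
    exact hW a ha w hw
  | algebraMap r =>
    rw [Module.algebraMap_end_apply]
    exact W.smul_mem r hw
  | add x y _ _ hx hy =>
    rw [LinearMap.add_apply]
    exact W.add_mem (hx w hw) (hy w hw)
  | mul x y _ _ hx hy =>
    rw [Module.End.mul_apply]
    exact hx _ (hy w hw)

/-- (tb, size 3) Maschke. PROOF. Take any complement and the projection `π` onto `W` along it; average: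
`|K|⁻¹ ∑ k ∈ K, ρ k ∘ π ∘ ρ k⁻¹` is a projection onto `W` which commutes with `K`; its kernel. (Or the
theorem of Mathlib for `MonoidAlgebra (ZMod p) K`.) -/
theorem msk (ρ : Representation (ZMod p) H X) (K : Subgroup H) (hp : ¬ p ∣ Nat.card K)
    (W : Submodule (ZMod p) X) (hW : Ivt ρ K W) :
    ∃ W' : Submodule (ZMod p) X, IsCompl W W' ∧ Ivt ρ K W' := by
  classical
  have := Fintype.ofFinite K
  obtain ⟨W0, hW0⟩ := Submodule.exists_isCompl W
  set π : X →ₗ[ZMod p] X := W.subtype ∘ₗ Submodule.projectionOnto W W0 hW0 with hπ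
  have hπ1 : ∀ x, π x ∈ W := fun x => Submodule.coe_mem _
  have hπ2 : ∀ x ∈ W, π x = x := by
    intro x hx
    have := Submodule.projectionOnto_apply_left hW0 ⟨x, hx⟩
    rw [hπ, LinearMap.comp_apply]
    exact congrArg Subtype.val this
  have hn : ((Nat.card K : ℕ) : ZMod p) ≠ 0 := by
    rw [Ne, ZMod.natCast_eq_zero_iff]
    exact hp
  set n : ZMod p := ((Nat.card K : ℕ) : ZMod p) with hnd
  set P : X →ₗ[ZMod p] X := n⁻¹ • ∑ k : K, (ρ (k : H)) * π * (ρ (k : H)⁻¹) with hP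
  have hPa : ∀ x, P x = n⁻¹ • ∑ k : K, ρ (k : H) (π (ρ (k : H)⁻¹ x)) := by
    intro x
    rw [hP, LinearMap.smul_apply, LinearMap.sum_apply]
    rfl
  have hinv : ∀ h x, ρ h (ρ h⁻¹ x) = x := by
    intro h x
    rw [← Module.End.mul_apply, ← map_mul, mul_inv_cancel, map_one, Module.End.one_apply]
  have hproj : LinearMap.IsProj W P := by
    refine ⟨fun x => ?_, fun x hx => ?_⟩
    · rw [hPa]
      exact W.smul_mem _ (W.sum_mem fun k _ => hW k k.2 _ (hπ1 _))
    · rw [hPa]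
      have h1 : ∀ k : K, ρ (k : H) (π (ρ (k : H)⁻¹ x)) = x := by
        intro k
        rw [hπ2 _ (hW _ (K.inv_mem k.2) x hx), hinv]
      rw [Finset.sum_congr rfl fun k _ => h1 k, Finset.sum_const, Finset.card_univ,
        ← Nat.card_eq_fintype_card, ← Nat.cast_smul_eq_nsmul (ZMod p), smul_smul,
        inv_mul_cancel₀ hn, one_smul]
  have hcomm : ∀ g ∈ K, ∀ x, P (ρ g x) = ρ g (P x) := by
    intro g hg x
    rw [hPa, hPa, map_smul, map_sum]
    congr 1
    refine Fintype.sum_equiv (Equiv.mulLeft (⟨g, hg⟩ : K)⁻¹) _ _ fun k => ?_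
    have h1 : (((Equiv.mulLeft (⟨g, hg⟩ : K)⁻¹) k : K) : H) = g⁻¹ * k := rfl
    rw [h1, mul_inv_rev, inv_inv, map_mul, map_mul, Module.End.mul_apply, Module.End.mul_apply,
      hinv]
  refine ⟨LinearMap.ker P, hproj.isCompl, fun g hg w hw => ?_⟩
  rw [LinearMap.mem_ker] at hw ⊢
  rw [hcomm g hg, hw, map_zero]

/-- (tb, size 2) PROOF. The average `E = |K|⁻¹ ∑ k ∈ K, ρ k`; if `x` is moved by some element of `K`
then `y = x - E x ≠ 0` satisfies `∑ k ∈ K, ρ k y = 0`. -/
theorem avg_ex (ρ : Representation (ZMod p) H X) (K : Subgroup H) [Fintype K]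
    (hp : ¬ p ∣ Nat.card K) (hne : ∃ k ∈ K, ∃ x, ρ k x ≠ x) :
    ∃ y : X, y ≠ 0 ∧ ∑ k : K, ρ (k : H) y = 0 := by
  obtain ⟨g, hg, x, hx⟩ := hne
  have hn : ((Nat.card K : ℕ) : ZMod p) ≠ 0 := by
    rw [Ne, ZMod.natCast_eq_zero_iff]
    exact hp
  have hE : ∀ h ∈ K, ∀ z, ρ h (∑ k : K, ρ (k : H) z) = ∑ k : K, ρ (k : H) z := by
    intro h hh z
    rw [map_sum]
    refine Fintype.sum_equiv (Equiv.mulLeft (⟨h, hh⟩ : K)) _ _ fun k => ?_
    have h1 : (((Equiv.mulLeft (⟨h, hh⟩ : K)) k : K) : H) = h * k := rfl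
    rw [h1, map_mul, Module.End.mul_apply]
  refine ⟨((Nat.card K : ℕ) : ZMod p) • x - ∑ k : K, ρ (k : H) x, ?_, ?_⟩
  · intro h0
    rw [sub_eq_zero] at h0
    apply hx
    have h1 := hE g hg x
    rw [← h0, map_smul] at h1
    exact smul_right_injective X hn h1
  · have h1 : ∀ k : K, ρ (k : H) (((Nat.card K : ℕ) : ZMod p) • x - ∑ k : K, ρ (k : H) x) =
        ((Nat.card K : ℕ) : ZMod p) • ρ (k : H) x - ∑ k : K, ρ (k : H) x := by
      intro k
      rw [map_sub, map_smul, hE k k.2]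
    rw [Finset.sum_congr rfl fun k _ => h1 k, Finset.sum_sub_distrib, ← Finset.smul_sum,
      Finset.sum_const, Finset.card_univ, ← Nat.card_eq_fintype_card,
      ← Nat.cast_smul_eq_nsmul (ZMod p), sub_self]

/-- (tc, size 2) `AA` is reduced. PROOF. `ker z` is `A`-invariant (`z` commutes with `A`), `msk` gives an
`A`-invariant complement `W'` (`p` does not divide `|A|`); `z` maps `W'` into `W'` (`aa_inv`) and into
`ker z` (`z * z = 0`), so `z = 0` on `W'` and on `ker z`. -/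
theorem aa_red (hA : Ab A) (hp : ¬ p ∣ Nat.card H) (z : Module.End (ZMod p) X)
    (hz : z ∈ AA ρ A) (h0 : z * z = 0) : z = 0 := by
  have hpA : ¬ p ∣ Nat.card A := fun h => hp (h.trans (Subgroup.card_subgroup_dvd_card A))
  have hker : Ivt ρ A (LinearMap.ker z) := by
    intro a ha w hw
    rw [LinearMap.mem_ker] at hw ⊢
    rw [← Module.End.mul_apply, aa_comm hA z (ρ a) hz (ta_mem ha), Module.End.mul_apply, hw,
      map_zero]
  obtain ⟨W', hc, hW'⟩ := msk ρ A hpA (LinearMap.ker z) hker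
  have h1 : W' ≤ LinearMap.ker z := by
    intro w hw
    have h2 : z w ∈ W' := aa_inv W' hW' z hz w hw
    have h3 : z w ∈ LinearMap.ker z := by
      rw [LinearMap.mem_ker, ← Module.End.mul_apply, h0, LinearMap.zero_apply]
    have h4 : z w ∈ LinearMap.ker z ⊓ W' := ⟨h3, h2⟩
    rw [hc.inf_eq_bot, Submodule.mem_bot] at h4
    exact LinearMap.mem_ker.2 h4
  have h2 : LinearMap.ker z = ⊤ := by
    have := hc.sup_eq_top
    rwa [sup_of_le_left h1] at this
  exact LinearMap.ker_eq_top.1 h2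

private theorem tc_pow {M : Type} [Monoid M] [Finite M] (y : M) :
    ∃ n : ℕ, 0 < n ∧ y ^ n * y ^ n = y ^ n := by
  obtain ⟨i, j, hij, h⟩ := Finite.exists_ne_map_eq_of_infinite (fun n : ℕ => y ^ n)
  wlog hlt : i < j generalizing i j
  · exact this j i hij.symm h.symm (lt_of_le_of_ne (not_lt.1 hlt) hij.symm)
  obtain ⟨d, rfl⟩ := Nat.exists_eq_add_of_lt hlt
  have h1 : ∀ m, y ^ (i + m) * y ^ (d + 1) = y ^ (i + m) := by
    intro m
    have h2 : y ^ i * y ^ (d + 1) = y ^ i := by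
      rw [← pow_add]
      exact h.symm
    rw [add_comm i m, pow_add, mul_assoc, h2]
  have h2 : ∀ m k, y ^ (i + m) * y ^ ((d + 1) * k) = y ^ (i + m) := by
    intro m k
    induction k with
    | zero => rw [mul_zero, pow_zero, mul_one]
    | succ k ih =>
      rw [mul_add, mul_one, pow_add y ((d + 1) * k) (d + 1), ← mul_assoc, ih, h1]
  have h3 : (d + 1) * (i + 1) = i + (d * (i + 1) + 1) := by ring
  refine ⟨(d + 1) * (i + 1), by positivity, ?_⟩
  conv_lhs => rw [h3]
  rw [← h3]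
  have h4 := h2 (d * (i + 1) + 1) (i + 1)
  rw [← h3] at h4
  exact h4

private theorem tc_red (hA : Ab A) (hp : ¬ p ∣ Nat.card H) (y : Module.End (ZMod p) X)
    (hy : y ∈ AA ρ A) (n : ℕ) (h : y ^ n = 0) : y = 0 := by
  have h1 : ∀ k : ℕ, y ^ (2 ^ k) = 0 → y = 0 := by
    intro k
    induction k with
    | zero =>
      intro h
      rwa [pow_zero, pow_one] at h
    | succ k ih =>
      intro h
      apply ih
      apply aa_red hA hp _ (pow_mem hy _)
      rw [← pow_add, ← two_mul, ← pow_succ']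
      exact h
  apply h1 n
  exact pow_eq_zero_of_le (Nat.lt_two_pow_self).le h

/-- (tc, size 3) PROOF. Among the idempotents `e ≠ 0` in `AA` (1 is one) take one whose range has the
smallest number of elements. Let `z ∈ AA`, `y = z * e ≠ 0`. `AA` is finite and reduced, so some power
`f = y ^ n`, `n ≥ 1`, is an idempotent (finite monoid) and `≠ 0` (if `y ^ n = 0` then `y = 0` by `aa_red`,
repeatedly). `f = e * f = f * e`, the range of `f` is in the range of `e`, so equal, so `f = e`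
(`e x = f x'`, `f e x = e x`). `w = y ^ (n - 1)`: `w * z * e = y ^ n = e`. -/
theorem pid_ex [Nontrivial X] (hA : Ab A) (hp : ¬ p ∣ Nat.card H) :
    ∃ e : Module.End (ZMod p) X, Pid ρ A e := by
  classical
  have : Finite (Module.End (ZMod p) X) := DFunLike.finite _
  have h1 : ∃ n : ℕ, ∃ e ∈ AA ρ A, e * e = e ∧ e ≠ 0 ∧ Nat.card (LinearMap.range e) = n :=
    ⟨_, 1, one_mem _, one_mul _, one_ne_zero, rfl⟩
  obtain ⟨e, he, hee, hne, hcard⟩ := Nat.find_spec h1
  refine ⟨e, he, hee, hne, fun z hz hze => ?_⟩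
  obtain ⟨n, hn, hf⟩ := tc_pow (z * e)
  have hy : z * e ∈ AA ρ A := mul_mem hz he
  have hze' : z * e * e = z * e := by rw [mul_assoc, hee]
  have hez : e * (z * e) = z * e := by
    rw [aa_comm hA e (z * e) he hy, hze']
  have hf0 : (z * e) ^ n ≠ 0 := fun h => hze (tc_red hA hp _ hy n h)
  obtain ⟨m, rfl⟩ : ∃ m, n = m + 1 := ⟨n - 1, by omega⟩
  have hef : e * (z * e) ^ (m + 1) = (z * e) ^ (m + 1) := by
    rw [pow_succ', ← mul_assoc, hez]
  have hfe : (z * e) ^ (m + 1) * e = (z * e) ^ (m + 1) := by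
    rw [pow_succ, mul_assoc, hze']
  have hle : LinearMap.range ((z * e) ^ (m + 1)) ≤ LinearMap.range e := by
    rintro _ ⟨x, rfl⟩
    rw [← hef]
    exact ⟨_, rfl⟩
  have hcl : Nat.card (LinearMap.range e) ≤ Nat.card (LinearMap.range ((z * e) ^ (m + 1))) := by
    rw [hcard]
    exact Nat.find_min' h1 ⟨_, pow_mem hy _, hf, hf0, rfl⟩
  have heq : LinearMap.range ((z * e) ^ (m + 1)) = LinearMap.range e := by
    apply SetLike.coe_injective
    exact Set.eq_of_subset_of_ncard_le hle (by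
      rw [← Nat.card_coe_set_eq, ← Nat.card_coe_set_eq]
      exact hcl) (Set.toFinite _)
  refine ⟨(z * e) ^ m, pow_mem hy _, ?_⟩
  rw [mul_assoc, ← pow_succ]
  have h2 : (z * e) ^ (m + 1) * e = e := by
    ext x
    have h3 : e x ∈ LinearMap.range ((z * e) ^ (m + 1)) := by
      rw [heq]
      exact ⟨x, rfl⟩
    obtain ⟨x', hx'⟩ := h3
    rw [Module.End.mul_apply, ← hx', ← Module.End.mul_apply, hf]
  rw [← hfe]
  exact h2

private theorem td_zero (h : H) : cj ρ h (0 : Module.End (ZMod p) X) = 0 := by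
  rw [cj, mul_zero, zero_mul]

private theorem td_inv (h : H) (z : Module.End (ZMod p) X) : cj ρ h (cj ρ h⁻¹ z) = z := by
  rw [← cj_mul, mul_inv_cancel, cj_one]

private theorem td_inv' (h : H) (z : Module.End (ZMod p) X) : cj ρ h⁻¹ (cj ρ h z) = z := by
  rw [← cj_mul, inv_mul_cancel, cj_one]

/-- (td, size 1) PROOF. `aa_cj`, `cj_hom`. -/
theorem pid_cj (hA : Ab A) {e : Module.End (ZMod p) X} (he : Pid ρ A e) (h : H) :
    Pid ρ A (cj ρ h e) := by
  refine ⟨aa_cj hA h e he.mem, ?_, ?_, ?_⟩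
  · rw [← cj_hom, he.idem]
  · intro h0
    apply he.ne
    rw [← td_inv' (ρ := ρ) h e, h0, td_zero]
  · intro z hz hze
    have h1 : cj ρ h⁻¹ z * e ≠ 0 := by
      intro h0
      apply hze
      rw [← td_inv (ρ := ρ) h z, ← cj_hom, h0, td_zero]
    obtain ⟨w, hw, hwe⟩ := he.inv _ (aa_cj hA h⁻¹ z hz) h1
    refine ⟨cj ρ h w, aa_cj hA h w hw, ?_⟩
    have h2 := congrArg (cj ρ h) hwe
    rw [cj_hom, cj_hom, td_inv] at h2
    exact h2

/-- (td, size 1) PROOF. If `f * e ≠ 0` then `w * f * e = e` for some `w`, multiply by `f`: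
`f * e = e`; the same with `e`, `f` exchanged. -/
theorem pid_orth (hA : Ab A) {e f : Module.End (ZMod p) X} (he : Pid ρ A e) (hf : Pid ρ A f) :
    e * f = 0 ∨ e = f := by
  by_cases h0 : e * f = 0
  · exact Or.inl h0
  · right
    have h1 : e * f = f := by
      obtain ⟨w, hw, hwe⟩ := hf.inv e he.mem h0
      calc e * f = e * (w * e * f) := by rw [hwe]
        _ = (e * w) * e * f := by simp only [mul_assoc]
        _ = (w * e) * e * f := by rw [aa_comm hA e w he.mem hw]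
        _ = w * (e * e) * f := by simp only [mul_assoc]
        _ = w * e * f := by rw [he.idem]
        _ = f := hwe
    have h2 : f * e ≠ 0 := by
      rw [aa_comm hA f e hf.mem he.mem]
      exact h0
    have h3 : f * e = e := by
      obtain ⟨w, hw, hwe⟩ := he.inv f hf.mem h2
      calc f * e = f * (w * f * e) := by rw [hwe]
        _ = (f * w) * f * e := by simp only [mul_assoc]
        _ = (w * f) * f * e := by rw [aa_comm hA f w hf.mem hw]
        _ = w * (f * f) * e := by simp only [mul_assoc]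
        _ = w * f * e := by rw [hf.idem]
        _ = e := hwe
    rw [← h3, aa_comm hA f e hf.mem he.mem, h1]

/-- (td, size 2) PROOF. `{x | ∀ h, cj ρ h e x = 0}` is a subspace which is invariant under `H`
(`cj_app`), not everything (`e ≠ 0`), so zero. -/
theorem pid_sum (hirr : Irrd ρ ⊤) {e : Module.End (ZMod p) X} (he : Pid ρ A e) (x : X)
    (hx : ∀ h, cj ρ h e x = 0) : x = 0 := by
  let W : Submodule (ZMod p) X :=
    { carrier := {x | ∀ h, cj ρ h e x = 0}
      zero_mem' := fun h => map_zero _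
      add_mem' := by
        intro a b ha hb h
        rw [map_add, ha h, hb h, add_zero]
      smul_mem' := by
        intro c a ha h
        rw [map_smul, ha h, smul_zero] }
  have hW : ∀ n ∈ (⊤ : Subgroup H), ∀ w ∈ W, ρ n w ∈ W := by
    intro n _ w hw h
    have h1 : cj ρ n (cj ρ (n⁻¹ * h) e) = cj ρ h e := by
      rw [← cj_mul, mul_inv_cancel_left]
    rw [← h1, ← cj_app, hw (n⁻¹ * h), map_zero]
  rcases hirr W hW with h | h
  · have h1 : x ∈ W := hx
    rw [h] at h1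
    exact (Submodule.mem_bot _).1 h1
  · exfalso
    apply he.ne
    ext y
    have h1 : y ∈ W := by
      rw [h]
      exact Submodule.mem_top
    have h2 := h1 1
    rw [cj_one] at h2
    rw [h2, LinearMap.zero_apply]

/-- (td, size 2) PROOF. If `z ≠ 0` then `z x ≠ 0` for some `x`, so `f * z ≠ 0` for some
`f = cj ρ h e` (`pid_sum`), so `w * z * f = f` for some `w ∈ AA`, and `f v = w f (z v) = 0`. -/
theorem fl_ann (hA : Ab A) (hirr : Irrd ρ ⊤) {e : Module.End (ZMod p) X} (he : Pid ρ A e) (v : X)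
    (hv : ∀ h, cj ρ h e v ≠ 0) (z : Module.End (ZMod p) X) (hz : z ∈ AA ρ A) (h0 : z v = 0) :
    z = 0 := by
  by_contra hz0
  have h1 : ∃ x, z x ≠ 0 := by
    by_contra h
    push Not at h
    exact hz0 (LinearMap.ext h)
  obtain ⟨x, hx⟩ := h1
  have h2 : ∃ h, cj ρ h e (z x) ≠ 0 := by
    by_contra h
    push Not at h
    exact hx (pid_sum hirr he _ h)
  obtain ⟨h, hh⟩ := h2
  have hf := pid_cj hA he h
  have h3 : z * cj ρ h e ≠ 0 := by
    intro h0'
    apply hh
    rw [← Module.End.mul_apply, aa_comm hA _ z hf.mem hz, h0', LinearMap.zero_apply]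
  obtain ⟨w, hw, hwe⟩ := hf.inv z hz h3
  apply hv h
  rw [← hwe, mul_assoc, aa_comm hA z _ hz hf.mem, Module.End.mul_apply, Module.End.mul_apply, h0,
    map_zero, map_zero]

private theorem te_C {C : Subgroup H} {S : Finset ℕ} {R : ℕ → Subgroup H} (h : TH ρ A C S R)
    (s : H) (hs : s ∈ (⨆ r ∈ S, R r : Subgroup H)) : ∀ a ∈ A, a⁻¹ * (s * a * s⁻¹) ∈ C := by
  have hAn := h.ab.nor
  let T : Subgroup H :=
    { carrier := {s | ∀ a ∈ A, a⁻¹ * (s * a * s⁻¹) ∈ C}
      one_mem' := by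
        intro a _
        rw [one_mul, inv_one, mul_one, inv_mul_cancel]
        exact C.one_mem
      mul_mem' := by
        intro t u ht hu a ha
        have h1 := ht a ha
        have h2 := h.Cn.conj_mem _ (hu a ha) t
        have h3 := C.mul_mem h1 h2
        have h4 : a⁻¹ * (t * a * t⁻¹) * (t * (a⁻¹ * (u * a * u⁻¹)) * t⁻¹) =
            a⁻¹ * (t * u * a * (t * u)⁻¹) := by group
        rw [h4] at h3
        exact h3
      inv_mem' := by
        intro t ht a ha
        have h1 : t⁻¹ * a * t ∈ A := by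
          have := hAn.conj_mem a ha t⁻¹
          rwa [inv_inv] at this
        have h2 := C.inv_mem (ht _ h1)
        have h3 : ((t⁻¹ * a * t)⁻¹ * (t * (t⁻¹ * a * t) * t⁻¹))⁻¹ =
            a⁻¹ * (t⁻¹ * a * t⁻¹⁻¹) := by group
        rw [h3] at h2
        exact h2 }
  have h1 : (⨆ r ∈ S, R r : Subgroup H) ≤ T := by
    refine iSup₂_le fun r hr t ht a ha => ?_
    have h3 := h.AC r hr (Subgroup.commutator_mem_commutator (A.inv_mem ha) ht)
    rw [commutatorElement_def, inv_inv] at h3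
    have h4 : a⁻¹ * t * a * t⁻¹ = a⁻¹ * (t * a * t⁻¹) := by group
    rw [h4] at h3
    exact h3
  exact h1 hs

/-- (te, size 3) PROOF. Let `T = ⨆ R r`. `T` normalizes `C` and `A`, and the elements of `T` commute with
`A` modulo `C` (`TH.AC`, `TH.Cn`; the set of the `t` with `a⁻¹ * (t * a * t⁻¹) ∈ C` for all `a ∈ A` is a
subgroup which contains the `R r`). For `a ∈ A` and `c = a⁻¹ * (s * a * s⁻¹) ∈ C`: `cj ρ s (ρ a * e) =
ρ a * e` says `ρ (s a s⁻¹) * e = ρ a * e`, so `ρ c * e = e`; `e x ≠ 0` for some `x`, `ρ c (e x) = e x`, so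
`ρ c = 1` (`TH.fpf`), so `ρ s` commutes with `ρ a`. The elements of `H` which commute with all `ρ a` on `X`
form a subgroup `Q`, `s ∈ Q`; by `csup_dec` `s ∈ ⨆ (R r ⊓ zpowers s)`, and `R r ⊓ zpowers s ≤ Q` acts
trivially by `T3.h0`. -/
theorem ti {C : Subgroup H} {S : Finset ℕ} {R : ℕ → Subgroup H} (h : TH ρ A C S R)
    (h3 : T3 ρ A S R) {e : Module.End (ZMod p) X} (he : Pid ρ A e) (s : H)
    (hs : s ∈ (⨆ r ∈ S, R r : Subgroup H)) (h1 : cj ρ s e = e)
    (h2 : ∀ z ∈ AA ρ A, cj ρ s (z * e) = z * e) : ∀ x, ρ s x = x := by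
  have hex : ∃ x, e x ≠ 0 := by
    by_contra hc
    push Not at hc
    exact he.ne (LinearMap.ext hc)
  obtain ⟨x0, hx0⟩ := hex
  have hinv : ∀ g x, ρ g (ρ g⁻¹ x) = x := by
    intro g x
    rw [← Module.End.mul_apply, ← map_mul, mul_inv_cancel, map_one, Module.End.one_apply]
  have hcom : ∀ a ∈ A, ∀ x, ρ s (ρ a x) = ρ a (ρ s x) := by
    intro a ha
    have hc := te_C h s hs a ha
    have h3 : ρ (a⁻¹ * (s * a * s⁻¹)) * e = e := by
      have h4 := h2 (ρ a) (ta_mem ha)
      rw [cj_hom, h1, ta_rho] at h4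
      rw [map_mul, mul_assoc, h4, ← mul_assoc, ← map_mul, inv_mul_cancel, map_one, one_mul]
    have h4 : ρ (a⁻¹ * (s * a * s⁻¹)) (e x0) = e x0 := by
      rw [← Module.End.mul_apply, h3]
    have h5 := h.fpf _ hc _ hx0 h4
    intro x
    have h6 : s * a = a * ((a⁻¹ * (s * a * s⁻¹)) * s) := by group
    rw [← Module.End.mul_apply, ← map_mul, h6, map_mul, Module.End.mul_apply, map_mul,
      Module.End.mul_apply, h5]
  let Q : Subgroup H :=
    { carrier := {g | ∀ a ∈ A, ∀ x, ρ g (ρ a x) = ρ a (ρ g x)}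
      one_mem' := by
        intro a _ x
        rw [map_one, Module.End.one_apply, Module.End.one_apply]
      mul_mem' := by
        intro g k hg hk a ha x
        rw [map_mul, Module.End.mul_apply, Module.End.mul_apply, hk a ha, hg a ha]
      inv_mem' := by
        intro g hg a ha x
        have h3 := hg a ha (ρ g⁻¹ x)
        rw [hinv] at h3
        have h4 := congrArg (ρ g⁻¹) h3
        rw [← Module.End.mul_apply, ← map_mul, inv_mul_cancel, map_one,
          Module.End.one_apply] at h4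
        exact h4.symm }
  let Z : Subgroup H :=
    { carrier := {g | ∀ x, ρ g x = x}
      one_mem' := by
        intro x
        rw [map_one, Module.End.one_apply]
      mul_mem' := by
        intro g k hg hk x
        rw [map_mul, Module.End.mul_apply, hk, hg]
      inv_mem' := by
        intro g hg x
        have h3 := hg (ρ g⁻¹ x)
        rw [hinv] at h3
        exact h3.symm }
  have hsQ : s ∈ Q := hcom
  have h7 := csup_dec S R h.prime h.pgr h.com s hs
  have h4 : (⨆ r ∈ S, (R r ⊓ Subgroup.zpowers s) : Subgroup H) ≤ Z := by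
    refine iSup₂_le fun r hr t ht => ?_
    have h5 : t ∈ Q := (Subgroup.zpowers_le.2 hsQ) ht.2
    exact h3.h0 r hr t ht.1 h5
  exact h4 h7

private theorem tf_abs (hA : Ab A) {e : Module.End (ZMod p) X} (he : Pid ρ A e) (s : H)
    (hs : cj ρ s e = e) (z : Module.End (ZMod p) X) (hz : z ∈ AA ρ A) :
    e * cj ρ s (z * e) = cj ρ s (z * e) := by
  rw [aa_comm hA e _ he.mem (aa_cj hA s _ ((AA ρ A).mul_mem hz he.mem)), cj_hom, hs, mul_assoc, he.idem]

open scoped Classical in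
private theorem tf_key (hA : Ab A) {e : Module.End (ZMod p) X} (he : Pid ρ A e) (n : ℕ) :
    ∀ (P : Finset H) (y : H → X) (s1 : H), P.card = n → s1 ∈ P → (∀ s ∈ P, cj ρ s e = e) →
      (∀ s ∈ P, e (y s) = y s) → (∀ z ∈ AA ρ A, ∑ s ∈ P, cj ρ s (z * e) (y s) = 0) →
      ∑ s ∈ P.filter (fun s => ∀ z ∈ AA ρ A, cj ρ s (z * e) = cj ρ s1 (z * e)), y s = 0 := by
  induction n with
  | zero =>
    intro P y s1 hc hs1 _ _ _
    rw [Finset.card_eq_zero.1 hc] at hs1
    exact absurd hs1 (Finset.notMem_empty _)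
  | succ n ih =>
    intro P y s1 hc hs1 hPe hy h
    by_cases hall : ∀ s ∈ P, ∀ z ∈ AA ρ A, cj ρ s (z * e) = cj ρ s1 (z * e)
    · rw [Finset.filter_true_of_mem hall]
      rw [← h 1 (AA ρ A).one_mem]
      refine Finset.sum_congr rfl fun s hs => ?_
      rw [one_mul, hPe s hs, hy s hs]
    · push Not at hall
      obtain ⟨s0, hs0, z1, hz1, hne⟩ := hall
      have hne10 : s1 ≠ s0 := by
        rintro rfl
        exact hne rfl
      have hmz : ∀ z ∈ AA ρ A, z * e ∈ AA ρ A := fun z hz => (AA ρ A).mul_mem hz he.mem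
      obtain ⟨d, hd⟩ : ∃ d : H → Module.End (ZMod p) X, ∀ s, d s = cj ρ s (z1 * e) - cj ρ s0 (z1 * e) :=
        ⟨_, fun s => rfl⟩
      have hdAA : ∀ s, d s ∈ AA ρ A := fun s => by
        rw [hd]
        exact (AA ρ A).sub_mem (aa_cj hA s _ (hmz z1 hz1)) (aa_cj hA s0 _ (hmz z1 hz1))
      have hed : ∀ s ∈ P, e * d s = d s := by
        intro s hs
        rw [hd, mul_sub, tf_abs hA he s (hPe s hs) z1 hz1, tf_abs hA he s0 (hPe s0 hs0) z1 hz1]
      have key := ih (P.erase s0) (fun s => d s (y s)) s1 (by rw [Finset.card_erase_of_mem hs0, hc]; rfl)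
        (Finset.mem_erase.2 ⟨hne10, hs1⟩) (fun s hs => hPe s (Finset.mem_of_mem_erase hs))
        (fun s hs => by
          have h2 := hed s (Finset.mem_of_mem_erase hs)
          show e (d s (y s)) = d s (y s)
          rw [← Module.End.mul_apply, h2])
        (fun z hz => by
          have hz0 : cj ρ s0 (z * e) (d s0 (y s0)) = 0 := by
            rw [hd, sub_self]
            simp
          rw [Finset.sum_erase P (f := fun s => cj ρ s (z * e) (d s (y s))) hz0]
          have h3 : ∀ s ∈ P, cj ρ s (z * e) (d s (y s)) =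
              cj ρ s (z * z1 * e) (y s) - cj ρ s0 (z1 * e) (cj ρ s (z * e) (y s)) := by
            intro s hs
            have h4 : cj ρ s (z * e) * cj ρ s (z1 * e) = cj ρ s (z * z1 * e) := by
              rw [← cj_hom]
              congr 1
              rw [mul_assoc, ← mul_assoc e z1 e, aa_comm hA e z1 he.mem hz1, mul_assoc z1 e e, he.idem,
                mul_assoc]
            have h5 : cj ρ s (z * e) * cj ρ s0 (z1 * e) = cj ρ s0 (z1 * e) * cj ρ s (z * e) :=
              aa_comm hA _ _ (aa_cj hA s _ (hmz z hz)) (aa_cj hA s0 _ (hmz z1 hz1))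
            rw [hd, LinearMap.sub_apply, map_sub, ← Module.End.mul_apply, h4, ← Module.End.mul_apply, h5,
              Module.End.mul_apply]
          rw [Finset.sum_congr rfl h3, Finset.sum_sub_distrib, h _ ((AA ρ A).mul_mem hz hz1), ← map_sum,
            h z hz, map_zero, sub_zero])
      have hfil : (P.erase s0).filter (fun s => ∀ z ∈ AA ρ A, cj ρ s (z * e) = cj ρ s1 (z * e)) =
          P.filter (fun s => ∀ z ∈ AA ρ A, cj ρ s (z * e) = cj ρ s1 (z * e)) := by
        ext s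
        simp only [Finset.mem_filter, Finset.mem_erase]
        constructor
        · rintro ⟨⟨_, h1⟩, h2⟩
          exact ⟨h1, h2⟩
        · rintro ⟨h1, h2⟩
          refine ⟨⟨?_, h1⟩, h2⟩
          rintro rfl
          exact hne (h2 z1 hz1)
      rw [hfil] at key
      obtain ⟨Y, hY⟩ : ∃ Y : X, Y = ∑ s ∈ P.filter (fun s => ∀ z ∈ AA ρ A, cj ρ s (z * e) = cj ρ s1 (z * e)), y s :=
        ⟨_, rfl⟩
      have h6 : d s1 Y = 0 := by
        rw [hY, map_sum, ← key]
        refine Finset.sum_congr rfl fun s hs => ?_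
        have h7 := (Finset.mem_filter.1 hs).2 z1 hz1
        rw [hd s, h7, hd s1]
      have h8 : e Y = Y := by
        rw [hY, map_sum]
        exact Finset.sum_congr rfl fun s hs => hy s (Finset.mem_filter.1 hs).1
      have h9 : d s1 * e ≠ 0 := by
        rw [aa_comm hA _ _ (hdAA s1) he.mem, hed s1 hs1, hd, sub_ne_zero]
        exact fun h10 => hne h10.symm
      obtain ⟨w, hw, hwe⟩ := he.inv (d s1) (hdAA s1) h9
      rw [← hY, ← h8, ← hwe, Module.End.mul_apply, Module.End.mul_apply, h8, h6, map_zero]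

/-- (tf, size 5) Dedekind. PROOF. Let `K = AA * e` (a field with the unit element `e`), `Te` the
stabilizer of `e` in `T`; for `s ∈ Te` the map `cj ρ s` is an automorphism of `K`; if it is the identity
then `ρ s = 1` (`hi`). For `z ∈ AA` put `y z = ∑ s ∈ T, ρ s (z (e w))`; `y z ∈ X'` and it is fixed by `T`.
`e (y z) = ∑ s ∈ T, ρ s ((cj ρ s⁻¹ e) (z (e w))) = ∑ s ∈ Te, cj ρ s (z * e) (ρ s (e w))`, because for
`cj ρ s⁻¹ e ≠ e` the product with `e` is zero (`pid_orth`). Suppose this is 0 for all `z ∈ AA`. The terms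
with the same automorphism `σ` of `K` are equal (`ρ s` is the same), so `n ∑ σ, σ(z) w_σ = 0` with
`n = ` the number of `s ∈ Te` with `ρ s = 1`, prime to `p`, distinct `σ`, and `w_σ = ρ s (e w) ∈ e X`;
`e X` is a vector space over `K`. Linear independence of distinct automorphisms (Dedekind; with
coefficients in a vector space: apply a linear functional `e X → K` which is not 0 at `w_1 = e w`, or repeat
the proof) gives `w_1 = e w = 0`, a contradiction. -/
theorem ded (hA : Ab A) {e : Module.End (ZMod p) X} (he : Pid ρ A e) (T : Subgroup H)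
    (hT : ¬ p ∣ Nat.card T)
    (hi : ∀ s ∈ T, cj ρ s e = e → (∀ z ∈ AA ρ A, cj ρ s (z * e) = z * e) → ∀ x, ρ s x = x)
    (X' : Submodule (ZMod p) X) (hX : Ivt ρ A X') (hX' : Ivt ρ T X') (w : X) (hw : w ∈ X')
    (hew : e w ≠ 0) : ∃ y ∈ X', (∀ s ∈ T, ρ s y = y) ∧ e y ≠ 0 := by
  classical
  haveI : Fintype H := Fintype.ofFinite H
  by_contra hcon
  push Not at hcon
  obtain ⟨T', hT'⟩ : ∃ T' : Finset H, ∀ s, s ∈ T' ↔ s ∈ T :=
    ⟨Finset.univ.filter (fun s => s ∈ T), fun s => by simp⟩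
  have hsum : ∀ z ∈ AA ρ A, ∑ s ∈ T'.filter (fun s => cj ρ s e = e), cj ρ s (z * e) (ρ s (e w)) = 0 := by
    intro z hz
    have hyX : ∑ s ∈ T', ρ s (z (e w)) ∈ X' := by
      refine Submodule.sum_mem _ fun s hs => hX' s ((hT' s).1 hs) _ ?_
      exact aa_inv X' hX z hz _ (aa_inv X' hX e he.mem w hw)
    have hyT : ∀ s ∈ T, ρ s (∑ s ∈ T', ρ s (z (e w))) = ∑ s ∈ T', ρ s (z (e w)) := by
      intro s hs
      rw [map_sum]
      refine Finset.sum_bij (fun t _ => s * t) ?_ ?_ ?_ ?_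
      · intro t ht
        exact (hT' _).2 (T.mul_mem hs ((hT' t).1 ht))
      · intro t _ t' _ htt
        exact mul_left_cancel htt
      · intro t ht
        refine ⟨s⁻¹ * t, (hT' _).2 (T.mul_mem (T.inv_mem hs) ((hT' t).1 ht)), ?_⟩
        rw [mul_inv_cancel_left]
      · intro t _
        rw [map_mul, Module.End.mul_apply]
    have h0 := hcon _ hyX hyT
    rw [map_sum] at h0
    rw [Finset.sum_filter]
    refine (Finset.sum_congr rfl fun s hs => ?_).trans h0
    have h1 : ρ s (z (e w)) = cj ρ s z (cj ρ s e (ρ s w)) := by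
      rw [cj_app, cj_app]
    have hzs := aa_cj (ρ := ρ) hA s z hz
    split_ifs with hse
    · rw [← cj_app, h1, hse, Module.End.mul_apply]
      have h2 : e * cj ρ s z = cj ρ s z * e := aa_comm hA _ _ he.mem hzs
      have h3 : e (cj ρ s z (e (ρ s w))) = cj ρ s z (e (ρ s w)) := by
        rw [← Module.End.mul_apply, h2, Module.End.mul_apply, ← Module.End.mul_apply e e, he.idem]
      rw [h3, ← Module.End.mul_apply e e, he.idem, h1, hse]
    · have h2 : e * cj ρ s z = cj ρ s z * e := aa_comm hA _ _ he.mem hzs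
      rcases pid_orth hA he (pid_cj hA he s) with h4 | h4
      · have h5 : e (cj ρ s z (cj ρ s e (ρ s w))) = 0 := by
          rw [← Module.End.mul_apply e, h2, Module.End.mul_apply, ← Module.End.mul_apply e, h4,
            LinearMap.zero_apply, map_zero]
        rw [h1, h5]
      · exact absurd h4.symm hse
  have h1P : (1 : H) ∈ T'.filter (fun s => cj ρ s e = e) := by
    rw [Finset.mem_filter]
    exact ⟨(hT' 1).2 T.one_mem, cj_one e⟩
  have hkey := tf_key hA he _ (T'.filter (fun s => cj ρ s e = e)) (fun s => ρ s (e w)) 1 rfl h1P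
    (fun s hs => (Finset.mem_filter.1 hs).2)
    (fun s hs => by
      have h2 := (Finset.mem_filter.1 hs).2
      show e (ρ s (e w)) = ρ s (e w)
      rw [cj_app (ρ := ρ) s e w, h2, ← Module.End.mul_apply, he.idem]) hsum
  obtain ⟨F, hF⟩ : ∃ F : Finset H, F = (T'.filter (fun s => cj ρ s e = e)).filter
      (fun s => ∀ z ∈ AA ρ A, cj ρ s (z * e) = cj ρ 1 (z * e)) := ⟨_, rfl⟩
  rw [← hF] at hkey
  have hFQ : ∀ s, s ∈ F ↔ s ∈ (T ⊓ MonoidHom.ker ρ : Subgroup H) := by
    intro s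
    rw [hF, Finset.mem_filter, Finset.mem_filter, hT', Subgroup.mem_inf]
    constructor
    · rintro ⟨⟨h1, h2⟩, h3⟩
      refine ⟨h1, ?_⟩
      rw [MonoidHom.mem_ker]
      apply LinearMap.ext
      intro x
      refine hi s h1 h2 (fun z hz => ?_) x
      rw [h3 z hz, cj_one]
    · rintro ⟨h1, h2⟩
      rw [MonoidHom.mem_ker] at h2
      have h3 : ρ s⁻¹ = 1 := by
        have h4 : ρ s⁻¹ * ρ s = 1 := by
          rw [← map_mul, inv_mul_cancel, map_one]
        rwa [h2, mul_one] at h4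
      have h5 : ∀ z : Module.End (ZMod p) X, cj ρ s z = z := by
        intro z
        unfold cj
        rw [h2, h3, one_mul, mul_one]
      exact ⟨⟨h1, h5 e⟩, fun z _ => by rw [h5, cj_one]⟩
  have hcardF : Nat.card (T ⊓ MonoidHom.ker ρ : Subgroup H) = F.card := Nat.subtype_card F hFQ
  have hpF : ¬ p ∣ F.card := by
    rw [← hcardF]
    exact fun h1 => hT (h1.trans (Subgroup.card_dvd_of_le inf_le_left))
  have hsumF : ∑ s ∈ F, ρ s (e w) = F.card • e w := by
    rw [← Finset.sum_const]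
    refine Finset.sum_congr rfl fun s hs => ?_
    have h1 := (Subgroup.mem_inf.1 ((hFQ s).1 hs)).2
    rw [MonoidHom.mem_ker] at h1
    rw [h1]
    rfl
  rw [hsumF, ← Nat.cast_smul_eq_nsmul (ZMod p)] at hkey
  rcases smul_eq_zero.1 hkey with h1 | h1
  · exact hpF ((ZMod.natCast_eq_zero_iff _ _).1 h1)
  · exact hew h1

private theorem tg_step (hA : Ab A) {e : Module.End (ZMod p) X} (he : Pid ρ A e) (T : Subgroup H)
    (E : Finset (Module.End (ZMod p) X)) (hE : ∀ f, f ∈ E ↔ ∃ h, cj ρ h e = f)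
    (v y : X) (hv : ∀ s ∈ T, ρ s v = v) (hy : ∀ s ∈ T, ρ s y = y)
    (f : Module.End (ZMod p) X) (hf : f ∈ E) (hfv : f v = 0) (hfy : f y ≠ 0) :
    ∃ x : X, (∀ s ∈ T, ρ s x = x) ∧ f x ≠ 0 ∧ ∀ f' ∈ E, f' v ≠ 0 → f' x ≠ 0 := by
  classical
  have hpid : ∀ f ∈ E, Pid ρ A f := by
    intro f hf
    obtain ⟨h, rfl⟩ := (hE f).1 hf
    exact pid_cj hA he h
  obtain ⟨S, hS⟩ : ∃ S : Finset (Module.End (ZMod p) X), ∀ f', f' ∈ S ↔ f' ∈ E ∧ f' v ≠ 0 :=
    ⟨E.filter (fun f' => f' v ≠ 0), fun f' => Finset.mem_filter⟩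
  have hcs : ∀ s ∈ T, ∀ f' ∈ S, cj ρ s f' ∈ S := by
    intro s hs f' hf'
    obtain ⟨h1, h2⟩ := (hS f').1 hf'
    obtain ⟨h, rfl⟩ := (hE f').1 h1
    refine (hS _).2 ⟨(hE _).2 ⟨s * h, cj_mul s h e⟩, fun h3 => h2 ?_⟩
    rw [← hv s hs, ← cj_app] at h3
    have h4 := congrArg (ρ s⁻¹) h3
    rw [map_zero, ← Module.End.mul_apply, ← map_mul, inv_mul_cancel, map_one,
      Module.End.one_apply] at h4
    exact h4
  have hsum : ∀ s ∈ T, ∑ f' ∈ S, cj ρ s f' = ∑ f' ∈ S, f' := by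
    intro s hs
    refine Finset.sum_bij' (fun f' _ => cj ρ s f') (fun f' _ => cj ρ s⁻¹ f')
      (fun f' hf' => hcs s hs f' hf') (fun f' hf' => hcs s⁻¹ (T.inv_mem hs) f' hf')
      (fun f' _ => ?_) (fun f' _ => ?_) (fun f' _ => rfl)
    · rw [← cj_mul, inv_mul_cancel, cj_one]
    · rw [← cj_mul, mul_inv_cancel, cj_one]
  have hcsum : ∀ s, cj ρ s (∑ f' ∈ S, f') = ∑ f' ∈ S, cj ρ s f' := by
    intro s
    unfold cj
    rw [Finset.mul_sum, Finset.sum_mul]
  refine ⟨v + (y - (∑ f' ∈ S, f') y), fun s hs => ?_, ?_, fun f' hf' hfv' => ?_⟩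
  · rw [map_add, map_sub, cj_app, hcsum, hsum s hs, hv s hs, hy s hs]
  · have h1 : f * (∑ f' ∈ S, f') = 0 := by
      rw [Finset.mul_sum]
      refine Finset.sum_eq_zero fun f' hf' => ?_
      obtain ⟨h2, h3⟩ := (hS f').1 hf'
      rcases pid_orth hA (hpid f hf) (hpid f' h2) with h4 | h4
      · exact h4
      · exact absurd (by rw [← h4]; exact hfv) h3
    rw [map_add, map_sub, ← Module.End.mul_apply, h1, hfv, LinearMap.zero_apply, sub_zero,
      zero_add]
    exact hfy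
  · have h1 : f' * (∑ f'' ∈ S, f'') = f' := by
      rw [Finset.mul_sum, Finset.sum_eq_single f']
      · exact (hpid f' hf').idem
      · intro f'' hf'' hne
        rcases pid_orth hA (hpid f' hf') (hpid f'' ((hS f'').1 hf'').1) with h4 | h4
        · exact h4
        · exact absurd h4.symm hne
      · intro h
        exact absurd ((hS f').2 ⟨hf', hfv'⟩) h
    rw [map_add, map_sub, ← Module.End.mul_apply, h1, sub_self, add_zero]
    exact hfv'

/-- (tg, size 3) PROOF. Take a fixed vector `v` for which the number of the idempotents in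
`E = {cj ρ h e | h ∈ H}` (finite set) with `f v ≠ 0` is maximal. Suppose `f v = 0` for some `f ∈ E`.
`ded` for `f` (with `X' = X`; some `w` has `f w ≠ 0`) gives a fixed `y` with `f y ≠ 0`. Let
`g = 1 - ∑ f' ∈ E with f' v ≠ 0, f'`; the set of these `f'` is invariant under `T` (`v` is fixed), so
`cj ρ s g = g` for `s ∈ T` and `g y` is fixed by `T`. `v + g y`: for `f' v ≠ 0`: `f' g = 0`, so
`f' (v + g y) = f' v ≠ 0`; and `f (v + g y) = f y ≠ 0` (`f * f' = 0` for the others, `pid_orth`). -/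
theorem fullv (hA : Ab A) {e : Module.End (ZMod p) X} (he : Pid ρ A e) (T : Subgroup H)
    (hT : ¬ p ∣ Nat.card T)
    (hi : ∀ h : H, ∀ s ∈ T, cj ρ s (cj ρ h e) = cj ρ h e →
      (∀ z ∈ AA ρ A, cj ρ s (z * cj ρ h e) = z * cj ρ h e) → ∀ x, ρ s x = x) :
    ∃ v : X, (∀ s ∈ T, ρ s v = v) ∧ ∀ h, cj ρ h e v ≠ 0 := by
  classical
  have hHf := Fintype.ofFinite H
  have hXf := Fintype.ofFinite X
  obtain ⟨E, hE⟩ : ∃ E : Finset (Module.End (ZMod p) X), ∀ f, f ∈ E ↔ ∃ h, cj ρ h e = f :=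
    ⟨Finset.univ.image (fun h : H => cj ρ h e), fun f => by
      rw [Finset.mem_image]
      exact ⟨fun ⟨h, _, h1⟩ => ⟨h, h1⟩, fun ⟨h, h1⟩ => ⟨h, Finset.mem_univ _, h1⟩⟩⟩
  obtain ⟨v, hv, hmax⟩ := Finset.exists_max_image
    (Finset.univ.filter (fun v : X => ∀ s ∈ T, ρ s v = v))
    (fun v : X => (E.filter (fun f : Module.End (ZMod p) X => f v ≠ 0)).card)
    ⟨0, Finset.mem_filter.2 ⟨Finset.mem_univ _, fun s _ => map_zero _⟩⟩
  have hv' := (Finset.mem_filter.1 hv).2
  refine ⟨v, hv', fun h hfv => ?_⟩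
  obtain ⟨w, hw⟩ : ∃ w, cj ρ h e w ≠ 0 := by
    by_contra hcon
    refine (pid_cj hA he h).ne (LinearMap.ext fun w => ?_)
    rw [LinearMap.zero_apply]
    by_contra h1
    exact hcon ⟨w, h1⟩
  obtain ⟨y, _, hy, hfy⟩ := ded hA (pid_cj hA he h) T hT (fun s hs => hi h s hs) ⊤
    (fun _ _ _ _ => Submodule.mem_top) (fun _ _ _ _ => Submodule.mem_top) w Submodule.mem_top hw
  obtain ⟨x, hx, hfx, hx'⟩ := tg_step hA he T E hE v y hv' hy (cj ρ h e) ((hE _).2 ⟨h, rfl⟩)
    hfv hfy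
  have h1 := hmax x (Finset.mem_filter.2 ⟨Finset.mem_univ _, hx⟩)
  have h2 : E.filter (fun f : Module.End (ZMod p) X => f v ≠ 0) ⊂
      E.filter (fun f : Module.End (ZMod p) X => f x ≠ 0) := by
    refine (Finset.ssubset_iff_of_subset fun f hf => ?_).2 ⟨cj ρ h e, ?_, ?_⟩
    · exact Finset.mem_filter.2 ⟨(Finset.mem_filter.1 hf).1,
        hx' f (Finset.mem_filter.1 hf).1 (Finset.mem_filter.1 hf).2⟩
    · exact Finset.mem_filter.2 ⟨(hE _).2 ⟨h, rfl⟩, hfx⟩
    · exact fun h3 => (Finset.mem_filter.1 h3).2 hfv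
  exact absurd h1 (not_le.2 (Finset.card_lt_card h2))

/-- (th, size 2) The units of the field `AA * e`: PROOF. The set `K = {z * e | z ∈ AA}` is a finite
field with the unit element `e` (`Pid.inv`), its group of units is cyclic. Let `g` be a generator. If
`K` has only one unit (`K = {0, e}`) take `g = e`. Statement: every non-zero element of `K` is a power
of `g`. -/
theorem pid_gen (hA : Ab A) {e : Module.End (ZMod p) X} (he : Pid ρ A e) :
    ∃ g ∈ AA ρ A, g * e = g ∧ g ≠ 0 ∧ ∀ z ∈ AA ρ A, z * e ≠ 0 → ∃ n : ℕ, z * e = g ^ (n + 1) := by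
  have : Finite (Module.End (ZMod p) X) := DFunLike.finite _
  let K := AA ρ A
  letI : CommRing K :=
    { (inferInstance : Ring K) with
      mul_comm := fun a b => Subtype.ext (aa_comm hA _ _ a.2 b.2) }
  let I : Ideal K :=
    { carrier := {z | (z : Module.End (ZMod p) X) * e = 0}
      zero_mem' := zero_mul e
      add_mem' := by
        intro a b ha hb
        have ha' : (a : Module.End (ZMod p) X) * e = 0 := ha
        have hb' : (b : Module.End (ZMod p) X) * e = 0 := hb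
        show ((a : Module.End (ZMod p) X) + b) * e = 0
        rw [add_mul, ha', hb', add_zero]
      smul_mem' := by
        intro c a ha
        have ha' : (a : Module.End (ZMod p) X) * e = 0 := ha
        show ((c : Module.End (ZMod p) X) * a) * e = 0
        rw [mul_assoc, ha', mul_zero] }
  have hI : I.IsMaximal := by
    rw [Ideal.isMaximal_iff]
    refine ⟨fun h1 => ?_, fun J x hIJ hx hxJ => ?_⟩
    · have h2 : ((1 : K) : Module.End (ZMod p) X) * e = 0 := h1
      rw [OneMemClass.coe_one, one_mul] at h2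
      exact he.ne h2
    · obtain ⟨w, hw, hwe⟩ := he.inv x x.2 hx
      have h1 : (⟨w, hw⟩ : K) * x - 1 ∈ I := by
        show (w * (x : Module.End (ZMod p) X) - 1) * e = 0
        rw [sub_mul, hwe, one_mul, sub_self]
      have h2 := J.sub_mem (J.mul_mem_left ⟨w, hw⟩ hxJ) (hIJ h1)
      rwa [sub_sub_cancel] at h2
  letI : Field (K ⧸ I) := Ideal.Quotient.field I
  have : Finite (K ⧸ I) := Quotient.finite _
  obtain ⟨u, hu⟩ := IsCyclic.exists_generator (α := (K ⧸ I)ˣ)
  obtain ⟨g0, hg0⟩ := Ideal.Quotient.mk_surjective (u : K ⧸ I)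
  have hg0e : (g0 : Module.End (ZMod p) X) * e ≠ 0 := by
    intro h0
    apply u.ne_zero
    rw [← hg0]
    exact Ideal.Quotient.eq_zero_iff_mem.2 h0
  refine ⟨g0 * e, mul_mem g0.2 he.mem, by rw [mul_assoc, he.idem], hg0e, fun z hz hze => ?_⟩
  have hz0 : (Ideal.Quotient.mk I ⟨z, hz⟩) ≠ 0 := by
    intro h0
    exact hze (Ideal.Quotient.eq_zero_iff_mem.1 h0)
  have h1 := hu (Units.mk0 _ hz0)
  rw [← mem_powers_iff_mem_zpowers] at h1
  obtain ⟨n, hn⟩ := h1
  have hn' : (u : K ⧸ I) ^ n = Ideal.Quotient.mk I ⟨z, hz⟩ := by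
    have h2 := congrArg Units.val hn
    rw [Units.val_mk0, Units.val_pow_eq_pow_val] at h2
    exact h2
  have ho : 0 < orderOf u := orderOf_pos u
  obtain ⟨m, hm⟩ : ∃ m, n + orderOf u = m + 1 := ⟨n + orderOf u - 1, by omega⟩
  have hm' : (u : K ⧸ I) ^ (m + 1) = Ideal.Quotient.mk I ⟨z, hz⟩ := by
    rw [← hm, pow_add, hn', ← Units.val_pow_eq_pow_val, pow_orderOf_eq_one, Units.val_one,
      mul_one]
  refine ⟨m, ?_⟩
  have h3 : (⟨z, hz⟩ : K) - g0 ^ (m + 1) ∈ I := by
    rw [← Ideal.Quotient.eq_zero_iff_mem, map_sub, map_pow, hg0, hm', sub_self]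
  have h4 : (z - (g0 : Module.End (ZMod p) X) ^ (m + 1)) * e = 0 := h3
  have h5 : Commute (g0 : Module.End (ZMod p) X) e := aa_comm hA _ _ g0.2 he.mem
  have h6 : e ^ (m + 1) = e := IsIdempotentElem.pow_succ_eq m he.idem
  rw [sub_mul, sub_eq_zero] at h4
  rw [h4, h5.mul_pow, h6]

private theorem ti_fix (hA : Ab A) {C : Subgroup H} {c s : H} {e f g u : Module.End (ZMod p) X}
    (hcA : ρ c ∈ AA ρ A) (hf : f ∈ AA ρ A) (hf0 : f ≠ 0) (hE : ρ c * cj ρ s u = u)
    (hfu : f * u = f) (hfs : f * cj ρ s u = f) (hcC : c ∈ C)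
    (hfpf : ∀ c ∈ C, ∀ x : X, x ≠ 0 → ρ c x = x → ∀ y, ρ c y = y) : ρ c = 1 := by
  have h1 : ρ c * f = f := by
    calc ρ c * f = ρ c * (f * cj ρ s u) := by rw [hfs]
      _ = (ρ c * f) * cj ρ s u := by rw [mul_assoc]
      _ = (f * ρ c) * cj ρ s u := by rw [aa_comm hA _ _ hcA hf]
      _ = f * (ρ c * cj ρ s u) := by rw [mul_assoc]
      _ = f := by rw [hE, hfu]
  obtain ⟨x, hx⟩ : ∃ x, f x ≠ 0 := by
    by_contra hcon
    push Not at hcon
    exact hf0 (LinearMap.ext hcon)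
  apply LinearMap.ext
  intro y
  refine hfpf c hcC (f x) hx ?_ y
  rw [← Module.End.mul_apply, h1]

private theorem ti_pow {s : H} {g : Module.End (ZMod p) X} (hg : cj ρ s g = g) (n : ℕ) :
    cj ρ s (g ^ n) = g ^ n := by
  induction n with
  | zero =>
    rw [pow_zero]
    unfold cj
    rw [mul_one, ← map_mul, mul_inv_cancel, map_one]
  | succ n ih => rw [pow_succ, cj_hom, ih, hg]

private theorem ti_idem {e : Module.End (ZMod p) X} (he : e * e = e) (n : ℕ) : e ^ (n + 1) = e := by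
  induction n with
  | zero => rw [zero_add, pow_one]
  | succ n ih => rw [pow_succ, ih, he]

/-- (ti, size 5) The selection theorem if `e` is moved by some element of `H` (`AA` is not a field).
PROOF. `v` from `fullv` with `T = ⨆ R r` (`hi` is `ti`, `pid_cj`; `|T|` divides `|H|`). `g` from `pid_gen`,
`u = 1 - e + g`, `x = u v`. `x` satisfies `cj ρ h e x ≠ 0`: `u` is a unit of `AA` (`e u = g`, `(1-e) u = 1-e`;
for `f = cj ρ h e ≠ e`: `f u = f`; for `e`: `e u v = g v`, and `g` has an inverse in `AA * e`). So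
`a ∈ A`, `ρ a x = x` gives `ρ a = 1` (`fl_ann` for `z = ρ a - 1`).
Suppose `r ∈ S`, `k ∈ A` and `ρ (k s k⁻¹) x = x` for all `s ∈ R r`. For `s ∈ R r` let
`c = k * (s * k⁻¹ * s⁻¹) ∈ ⁅A, R r⁆ ≤ C`: `x = ρ (c * s) (u v) = ρ c (cj ρ s u) v`, so
`ρ c * cj ρ s u = u` (`fl_ann`).
(1) If `cj ρ s e = e` and there is `h` with `f = cj ρ h e ≠ e`: multiply by `f`: `ρ c f = f` (as
`f * cj ρ s u = f`), so `ρ c = 1` (`TH.fpf`, `f x' ≠ 0`), so `cj ρ s u = u`, so `cj ρ s g = g` (multiply by `e`),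
so `cj ρ s` is the identity on `AA * e`, whose non-zero elements are powers of `g`; `ti` gives `ρ s = 1`.
(2) If `e' = cj ρ s e ≠ e` and some `f = cj ρ h e` is different from `e` and `e'`: `ρ c f = f`, `ρ c = 1`,
`cj ρ s u = u`; multiply by `e`: `e = e * cj ρ s u = e u = g`, so `AA * e = {0, e}`, and then
`cj ρ s u = 1 - e' + cj ρ s g = 1`, `u = 1`. In this case `ρ a * e = e` for all `a ∈ A` (it is not 0), and the
same for all `cj ρ h e` (`A` is normal), so `A` acts trivially on `X` (`pid_sum`), so `AA = {scalars}` and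
`cj ρ s e = e`, a contradiction.
(3) If `e' = cj ρ s e ≠ e` and all `cj ρ h e` are `e` or `e'`: then `s` exchanges `e` and `e'`, so its order is
even, so `r = 2` and `p ≠ 2`; multiply `ρ c * cj ρ s u = u` by `e`: `ρ c e = g`. `c ∈ A` has odd order, so
`g` has an odd power equal to `e`; but `-e ≠ e` is a power of `g`, and `(-e) ^ 2 = e`, `(-e) ^ odd = -e`:
a contradiction.
So only (1) occurs, `R r` acts trivially on `X`, against `T3.nt`. -/
theorem t_nonfield [Nontrivial X] {C : Subgroup H} {S : Finset ℕ} {R : ℕ → Subgroup H}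
    (h : TH ρ A C S R) (h3 : T3 ρ A S R) {e : Module.End (ZMod p) X} (he : Pid ρ A e)
    (hne : ∃ h, cj ρ h e ≠ e) :
    ∃ x : X, (∀ a ∈ A, ρ a x = x → ∀ y, ρ a y = y) ∧
      ∀ r ∈ S, ¬ ∃ a ∈ A, ∀ s ∈ R r, ρ (a * s * a⁻¹) x = x := by
  have hA := h.ab
  have hT : ¬ p ∣ Nat.card (⨆ r ∈ S, R r : Subgroup H) :=
    fun h1 => h.pH (h1.trans (Subgroup.card_subgroup_dvd_card _))
  obtain ⟨v, hvT, hv⟩ := fullv hA he (⨆ r ∈ S, R r : Subgroup H) hT
    (fun h' s hs h1 h2 => ti h h3 (pid_cj hA he h') s hs h1 h2)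
  obtain ⟨g, hg, hge, hg0, hgen⟩ := pid_gen hA he
  have hcj : ∀ h z, z ∈ AA ρ A → cj ρ h z ∈ AA ρ A := fun h z hz => aa_cj hA h z hz
  have hρ : ∀ a ∈ A, ρ a ∈ AA ρ A := fun a ha => Algebra.subset_adjoin ⟨a, ha, rfl⟩
  have heg : e * g = g := by rw [aa_comm hA e g he.mem hg, hge]
  obtain ⟨u, hu⟩ : ∃ u : Module.End (ZMod p) X, u = 1 - e + g := ⟨_, rfl⟩
  have huA : u ∈ AA ρ A := by
    rw [hu]
    exact (AA ρ A).add_mem ((AA ρ A).sub_mem (AA ρ A).one_mem he.mem) hg
  have heu : e * u = g := by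
    rw [hu, mul_add, mul_sub, mul_one, he.idem, sub_self, zero_add, heg]
  have horth : ∀ h', cj ρ h' e ≠ e → cj ρ h' e * e = 0 := by
    intro h' hne'
    rcases pid_orth hA (pid_cj hA he h') he with h1 | h1
    · exact h1
    · exact absurd h1 hne'
  have hfu : ∀ h', cj ρ h' e ≠ e → cj ρ h' e * u = cj ρ h' e := by
    intro h' hne'
    have h1 := horth h' hne'
    have h2 : cj ρ h' e * g = 0 := by rw [← heg, ← mul_assoc, h1, zero_mul]
    rw [hu, mul_add, mul_sub, mul_one, h1, h2, sub_zero, add_zero]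
  have hx : ∀ h', cj ρ h' e (u v) ≠ 0 := by
    intro h'
    by_cases hne' : cj ρ h' e = e
    · rw [hne', ← Module.End.mul_apply, heu]
      intro h0
      obtain ⟨w, hw, hwe⟩ := he.inv g hg (by rw [hge]; exact hg0)
      apply hv 1
      rw [cj_one, ← hwe, mul_assoc, hge, Module.End.mul_apply, h0, map_zero]
    · rw [← Module.End.mul_apply, hfu h' hne']
      exact hv h'
  have hfix : ∀ a ∈ A, ρ a (u v) = u v → ∀ y, ρ a y = y := by
    intro a ha h0 y
    have h1 : ρ a - 1 = 0 := fl_ann hA h.irr he (u v) hx (ρ a - 1)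
      ((AA ρ A).sub_mem (hρ a ha) (AA ρ A).one_mem) (by
        rw [LinearMap.sub_apply, h0]
        exact sub_self _)
    rw [sub_eq_zero.1 h1]
    rfl
  refine ⟨u v, hfix, fun r hr => ?_⟩
  rintro ⟨k, hk, hks⟩
  obtain ⟨s, hs, x0, hsx⟩ := h3.nt r hr
  apply hsx
  suffices hall : ∀ x, ρ s x = x from hall x0
  have hsT : s ∈ (⨆ r ∈ S, R r : Subgroup H) := Subgroup.mem_iSup_of_mem r (Subgroup.mem_iSup_of_mem hr hs)
  obtain ⟨c, hc⟩ : ∃ c, c = k * s * k⁻¹ * s⁻¹ := ⟨_, rfl⟩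
  have hcC : c ∈ C := by
    rw [hc]
    exact h.AC r hr (Subgroup.commutator_mem_commutator hk hs)
  have hcA : c ∈ A := h.CA hcC
  have hE : ρ c * cj ρ s u = u := by
    have h0 : ρ c * cj ρ s u - u = 0 := fl_ann hA h.irr he v hv _
      ((AA ρ A).sub_mem ((AA ρ A).mul_mem (hρ c hcA) (hcj s u huA)) huA) (by
        rw [LinearMap.sub_apply, Module.End.mul_apply, sub_eq_zero]
        have h1 : cj ρ s u v = ρ s (u v) := by rw [cj_app, hvT s hsT]
        rw [h1, ← Module.End.mul_apply, ← map_mul]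
        have h2 : c * s = k * s * k⁻¹ := by
          rw [hc]
          group
        rw [h2]
        exact hks s hs)
    exact sub_eq_zero.1 h0
  have hcu : cj ρ s u = 1 - cj ρ s e + cj ρ s g := by
    rw [hu]
    unfold cj
    rw [mul_add, add_mul, mul_sub, sub_mul, mul_one, ← map_mul, mul_inv_cancel, map_one]
  have hcsg : cj ρ s g = cj ρ s g * cj ρ s e := by rw [← cj_hom, hge]
  by_cases hse : cj ρ s e = e
  · -- case (1)
    obtain ⟨h', hne'⟩ := hne
    have hf := hcj h' e he.mem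
    have hfg : cj ρ h' e * cj ρ s g = 0 := by
      rw [hcsg, hse, ← mul_assoc, aa_comm hA _ _ hf (hcj s g hg), mul_assoc, horth h' hne', mul_zero]
    have hfs : cj ρ h' e * cj ρ s u = cj ρ h' e := by
      rw [hcu, hse, mul_add, mul_sub, mul_one, horth h' hne', hfg, sub_zero, add_zero]
    have hc1 : ρ c = 1 := ti_fix (e := e) (g := g) hA (hρ c hcA) hf (pid_cj hA he h').ne hE (hfu h' hne') hfs hcC h.fpf
    rw [hc1, one_mul] at hE
    have hsg : cj ρ s g = g := by
      have h1 : e * cj ρ s u = cj ρ s g := by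
        rw [hcu, hse, mul_add, mul_sub, mul_one, he.idem, sub_self, zero_add,
          aa_comm hA _ _ he.mem (hcj s g hg)]
        rw [hse] at hcsg
        exact hcsg.symm
      rw [← h1, hE, heu]
    refine ti h h3 he s hsT hse fun z hz => ?_
    by_cases hz0 : z * e = 0
    · rw [hz0]
      unfold cj
      rw [mul_zero, zero_mul]
    · obtain ⟨n, hn⟩ := hgen z hz hz0
      rw [hn]
      exact ti_pow hsg (n + 1)
  · exfalso
    have hee : cj ρ s e * e = 0 := horth s hse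
    have hee' : e * cj ρ s e = 0 := by rw [aa_comm hA _ _ he.mem (hcj s e he.mem), hee]
    have hesg : e * cj ρ s g = 0 := by
      rw [hcsg, ← mul_assoc, aa_comm hA _ _ he.mem (hcj s g hg), mul_assoc, hee', mul_zero]
    have hesu : e * cj ρ s u = e := by
      rw [hcu, mul_add, mul_sub, mul_one, hee', hesg, sub_zero, add_zero]
    by_cases hex : ∃ h', cj ρ h' e ≠ e ∧ cj ρ h' e ≠ cj ρ s e
    · -- case (2)
      obtain ⟨h', hne1, hne2⟩ := hex
      have hf := hcj h' e he.mem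
      have hfe' : cj ρ h' e * cj ρ s e = 0 := by
        rcases pid_orth hA (pid_cj hA he h') (pid_cj hA he s) with h1 | h1
        · exact h1
        · exact absurd h1 hne2
      have hfg : cj ρ h' e * cj ρ s g = 0 := by
        rw [hcsg, ← mul_assoc, aa_comm hA _ _ hf (hcj s g hg), mul_assoc, hfe', mul_zero]
      have hfs : cj ρ h' e * cj ρ s u = cj ρ h' e := by
        rw [hcu, mul_add, mul_sub, mul_one, hfe', hfg, sub_zero, add_zero]
      have hc1 : ρ c = 1 := ti_fix (e := e) (g := g) hA (hρ c hcA) hf (pid_cj hA he h').ne hE (hfu h' hne1) hfs hcC h.fpf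
      rw [hc1, one_mul] at hE
      have hge' : g = e := by rw [← heu, ← hE, hesu]
      have hAe : ∀ a ∈ A, ρ a * e = e := by
        intro a ha
        have h1 : ρ a * e ≠ 0 := by
          intro h0
          apply he.ne
          have h2 : ρ a⁻¹ * (ρ a * e) = e := by
            rw [← mul_assoc, ← map_mul, inv_mul_cancel, map_one, one_mul]
          rw [← h2, h0, mul_zero]
        obtain ⟨n, hn⟩ := hgen (ρ a) (hρ a ha) h1
        rw [hn, hge', ti_idem he.idem]
      have hA1 : ∀ a ∈ A, ρ a = 1 := by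
        intro a ha
        apply LinearMap.ext
        intro x
        rw [Module.End.one_apply, ← sub_eq_zero]
        refine pid_sum h.irr he _ fun h'' => ?_
        have h1 : ρ a * cj ρ h'' e = cj ρ h'' e := by
          have h2 : h''⁻¹ * a * h'' ∈ A := by
            have := hA.nor.conj_mem a ha h''⁻¹
            rwa [inv_inv] at this
          have h3' := hAe _ h2
          have h4 : ρ a * cj ρ h'' e = cj ρ h'' (ρ (h''⁻¹ * a * h'') * e) := by
            unfold cj
            simp only [map_mul, ← mul_assoc]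
            rw [← map_mul ρ h'' h''⁻¹, mul_inv_cancel, map_one, one_mul]
          rw [h4, h3']
        rw [map_sub, ← Module.End.mul_apply, aa_comm hA _ _ (hcj h'' e he.mem) (hρ a ha), h1, sub_self]
      have hbot : AA ρ A ≤ ⊥ := by
        refine Algebra.adjoin_le ?_
        rintro _ ⟨a, ha, rfl⟩
        rw [hA1 a ha]
        exact (⊥ : Subalgebra (ZMod p) (Module.End (ZMod p) X)).one_mem
      obtain ⟨t, ht⟩ := Algebra.mem_bot.1 (hbot he.mem)
      apply hse
      rw [← ht]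
      unfold cj
      rw [← Algebra.commutes, mul_assoc, ← map_mul ρ, mul_inv_cancel, map_one, mul_one]
    · -- case (3)
      push Not at hex
      have hss : cj ρ (s * s) e = e := by
        by_contra h1
        have h2 := hex _ h1
        apply hse
        have h3' : cj ρ s⁻¹ (cj ρ (s * s) e) = cj ρ s⁻¹ (cj ρ s e) := by rw [h2]
        rw [← cj_mul, ← cj_mul, inv_mul_cancel, inv_mul_cancel_left, cj_one] at h3'
        exact h3'
      have hsn : ∀ n : ℕ, cj ρ ((s * s) ^ n) e = e := by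
        intro n
        induction n with
        | zero => rw [pow_zero, cj_one]
        | succ n ih => rw [pow_succ, cj_mul, hss, ih]
      have heven : 2 ∣ orderOf s := by
        by_contra hodd
        have ho : Odd (orderOf s) := Nat.not_even_iff_odd.1 fun h1 => hodd h1.two_dvd
        obtain ⟨m, hm⟩ := ho
        have h1 : (s * s) ^ (m + 1) = s := by
          rw [← sq, ← pow_mul]
          have h2 : 2 * (m + 1) = orderOf s + 1 := by omega
          rw [h2, pow_succ, pow_orderOf_eq_one, one_mul]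
        apply hse
        have h2 := hsn (m + 1)
        rwa [h1] at h2
      haveI : Fact r.Prime := ⟨h.prime r hr⟩
      obtain ⟨j, hj⟩ := (IsPGroup.iff_orderOf.1 (h.pgr r hr)) ⟨s, hs⟩
      have hj' : orderOf s = r ^ j := by
        rw [← hj]
        exact (Subgroup.orderOf_mk (a := s) hs).symm
      have hr2 : r = 2 := by
        have h1 : 2 ∣ r := Nat.prime_two.dvd_of_dvd_pow (hj' ▸ heven)
        exact ((Nat.prime_dvd_prime_iff_eq Nat.prime_two (h.prime r hr)).1 h1).symm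
      have hp2 : p ≠ 2 := by
        rintro rfl
        exact h.pH (heven.trans (orderOf_dvd_natCard s))
      have hoddA : Odd (Nat.card A) := by
        refine Nat.not_even_iff_odd.1 fun h1 => ?_
        have h2 := h.ndvd r hr
        rw [hr2] at h2
        exact h2 h1.two_dvd
      have hce : ρ c * e = g := by
        calc ρ c * e = ρ c * (e * cj ρ s u) := by rw [hesu]
          _ = (ρ c * e) * cj ρ s u := by rw [mul_assoc]
          _ = (e * ρ c) * cj ρ s u := by rw [aa_comm hA _ _ (hρ c hcA) he.mem]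
          _ = e * (ρ c * cj ρ s u) := by rw [mul_assoc]
          _ = g := by rw [hE, heu]
      have hcpow : c ^ Nat.card A = 1 := by
        have h1 : (⟨c, hcA⟩ : A) ^ Nat.card A = 1 := pow_card_eq_one'
        exact congrArg (fun z : A => (z : H)) h1
      have hgpow : g ^ Nat.card A = e := by
        have hcomm : Commute (ρ c) e := aa_comm hA _ _ (hρ c hcA) he.mem
        rw [← hce, hcomm.mul_pow, ← map_pow, hcpow, map_one, one_mul]
        obtain ⟨m, hm⟩ : ∃ m, Nat.card A = m + 1 := ⟨Nat.card A - 1, by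
          have : 0 < Nat.card A := Nat.card_pos
          omega⟩
        rw [hm]
        exact ti_idem he.idem m
      have hneg : (-1 : Module.End (ZMod p) X) ∈ AA ρ A := (AA ρ A).neg_mem (AA ρ A).one_mem
      have hneg0 : (-1 : Module.End (ZMod p) X) * e ≠ 0 := by
        rw [neg_one_mul, neg_ne_zero]
        exact he.ne
      obtain ⟨n, hn⟩ := hgen _ hneg hneg0
      have h1 : ((-1 : Module.End (ZMod p) X) * e) ^ Nat.card A = e := by
        rw [hn, ← pow_mul, mul_comm, pow_mul, hgpow]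
        exact ti_idem he.idem n
      have h2 : ((-1 : Module.End (ZMod p) X) * e) ^ Nat.card A = -e := by
        rw [neg_one_mul, hoddA.neg_pow]
        obtain ⟨m, hm⟩ : ∃ m, Nat.card A = m + 1 := ⟨Nat.card A - 1, by
          have : 0 < Nat.card A := Nat.card_pos
          omega⟩
        rw [hm, ti_idem he.idem m]
      rw [h1] at h2
      have h4 : (2 : ZMod p) • e = 0 := by
        rw [two_smul]
        exact eq_neg_iff_add_eq_zero.1 h2
      rcases smul_eq_zero.1 h4 with h5 | h5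
      · have h6 : ((2 : ℕ) : ZMod p) = 0 := by exact_mod_cast h5
        rw [ZMod.natCast_eq_zero_iff] at h6
        exact hp2 ((Nat.prime_dvd_prime_iff_eq Fact.out Nat.prime_two).1 h6)
      · exact he.ne h5

/-- (tj, size 2) If `e` is fixed by `H` then `e = 1`. PROOF. `pid_sum` for `(1 - e) x`. -/
theorem pid_one (hirr : Irrd ρ ⊤) {e : Module.End (ZMod p) X} (he : Pid ρ A e)
    (hfix : ∀ h, cj ρ h e = e) : e = 1 := by
  ext x
  have h1 : (1 - e) x = 0 := by
    apply pid_sum hirr he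
    intro h
    rw [hfix h, ← Module.End.mul_apply, mul_sub, mul_one, he.idem, sub_self,
      LinearMap.zero_apply]
  rw [LinearMap.sub_apply, sub_eq_zero] at h1
  exact h1.symm

/-- (tj, size 4) The field case, `X` not of dimension one over the field `AA`. PROOF. `T = ⨆ R r`.
`v ≠ 0` fixed by `T` (given). `W = {z v | z ∈ AA}` is invariant under `A` and `T` (`cj_app`) and not `X`.
`msk` for the group `A ⊔ T` gives `X''` with `IsCompl W X''`, `X'' ≠ 0`; `ded` with `e = 1` gives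
`v' ∈ X''`, `v' ≠ 0`, fixed by `T` (`hi`: `ti`). `g` from `pid_gen` (for `e = 1`), `x = v + g v'`.
`ρ a x = x`, `a ∈ A`: `ρ a v = v` (component in `W`), so `ρ a = 1` (`fl_ann`; `AA` is a field).
If `ρ (k s k⁻¹) x = x`, `k ∈ A`, `s ∈ R r`, `c = k * (s k⁻¹ s⁻¹)`: `x = ρ c v + (ρ c * cj ρ s g) v'`, so
`ρ c v = v`, `ρ c = 1`, and `(cj ρ s g) v' = g v'`, so `cj ρ s g = g`, so `cj ρ s` is the identity on `AA`, and
`ρ s = 1` by `ti`. If this is so for all `s ∈ R r`: against `T3.nt`. -/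
theorem t_field2 [Nontrivial X] {C : Subgroup H} {S : Finset ℕ} {R : ℕ → Subgroup H}
    (h : TH ρ A C S R) (h3 : T3 ρ A S R) (he : Pid ρ A (1 : Module.End (ZMod p) X)) (v : X)
    (hv : v ≠ 0) (hvT : ∀ s ∈ (⨆ r ∈ S, R r : Subgroup H), ρ s v = v)
    (hW : ∃ x : X, ∀ z ∈ AA ρ A, z v ≠ x) :
    ∃ x : X, (∀ a ∈ A, ρ a x = x → ∀ y, ρ a y = y) ∧
      ∀ r ∈ S, ¬ ∃ a ∈ A, ∀ s ∈ R r, ρ (a * s * a⁻¹) x = x := by
  have hAn := h.ab.nor
  set T : Subgroup H := ⨆ r ∈ S, R r with hTd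
  have hTp : ¬ p ∣ Nat.card T := fun h0 => h.pH (h0.trans (Subgroup.card_subgroup_dvd_card T))
  have hi : ∀ s ∈ T, cj ρ s (1 : Module.End (ZMod p) X) = 1 →
      (∀ z ∈ AA ρ A, cj ρ s (z * 1) = z * 1) → ∀ x, ρ s x = x :=
    fun s hs h1 h2 => ti h h3 he s hs h1 h2
  have hc1 : ∀ s, cj ρ s (1 : Module.End (ZMod p) X) = 1 := by
    intro s
    rw [cj, mul_one, ← map_mul, mul_inv_cancel, map_one]
  have hann : ∀ v' : X, v' ≠ 0 → ∀ z ∈ AA ρ A, z v' = 0 → z = 0 := by
    intro v' hv' z hz h0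
    refine fl_ann h.ab h.irr he v' (fun g => ?_) z hz h0
    rw [hc1, Module.End.one_apply]
    exact hv'
  let W : Submodule (ZMod p) X :=
    { carrier := {x | ∃ z ∈ AA ρ A, z v = x}
      zero_mem' := ⟨0, zero_mem _, LinearMap.zero_apply v⟩
      add_mem' := by
        rintro _ _ ⟨a, ha, rfl⟩ ⟨b, hb, rfl⟩
        exact ⟨a + b, add_mem ha hb, LinearMap.add_apply a b v⟩
      smul_mem' := by
        rintro c _ ⟨a, ha, rfl⟩
        exact ⟨c • a, Subalgebra.smul_mem _ ha c, LinearMap.smul_apply c a v⟩ }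
  have hWA : ∀ a ∈ A, ∀ w ∈ W, ρ a w ∈ W := by
    rintro a ha _ ⟨z, hz, rfl⟩
    exact ⟨ρ a * z, mul_mem (ta_mem ha) hz, rfl⟩
  have hWT : ∀ s ∈ T, ∀ w ∈ W, ρ s w ∈ W := by
    rintro s hs _ ⟨z, hz, rfl⟩
    rw [cj_app, hvT s hs]
    exact ⟨cj ρ s z, aa_cj h.ab s z hz, rfl⟩
  have hWK : Ivt ρ (A ⊔ T) W := by
    intro g hg w hw
    have h1 : g ∈ ((A ⊔ T : Subgroup H) : Set H) := hg
    rw [Subgroup.normal_mul] at h1
    obtain ⟨a, ha, t, ht, rfl⟩ := h1
    show ρ (a * t) w ∈ W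
    rw [map_mul, Module.End.mul_apply]
    exact hWA a ha _ (hWT t ht w hw)
  have hKp : ¬ p ∣ Nat.card (A ⊔ T : Subgroup H) :=
    fun h0 => h.pH (h0.trans (Subgroup.card_subgroup_dvd_card _))
  obtain ⟨W', hc, hW'⟩ := msk ρ (A ⊔ T) hKp W hWK
  have hW'A : Ivt ρ A W' := fun a ha w hw => hW' a ((le_sup_left : A ≤ A ⊔ T) ha) w hw
  have hW'T : Ivt ρ T W' := fun a ha w hw => hW' a ((le_sup_right : T ≤ A ⊔ T) ha) w hw
  have hne : ∃ w ∈ W', w ≠ 0 := by
    by_contra hcon
    push Not at hcon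
    have h1 : W' = ⊥ := (Submodule.eq_bot_iff W').2 hcon
    have h2 := hc.sup_eq_top
    rw [h1, sup_bot_eq] at h2
    obtain ⟨x, hx⟩ := hW
    have h4 : x ∈ W := by
      rw [h2]
      exact Submodule.mem_top
    obtain ⟨z, hz, hzx⟩ := h4
    exact hx z hz hzx
  obtain ⟨w, hw, hw0⟩ := hne
  obtain ⟨v', hv'W, hv'T, hv'0⟩ := ded h.ab he T hTp hi W' hW'A hW'T w hw
    (by rw [Module.End.one_apply]; exact hw0)
  rw [Module.End.one_apply] at hv'0
  obtain ⟨g, hg, hg1, hg0, hgen⟩ := pid_gen h.ab he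
  have hgv' : g v' ∈ W' := aa_inv W' hW'A g hg v' hv'W
  have hvW : v ∈ W := ⟨1, one_mem _, rfl⟩
  have hsep : ∀ w₁ ∈ W, ∀ w₂ ∈ W', w₁ + w₂ = v + g v' → w₁ = v ∧ w₂ = g v' := by
    intro w₁ h1 w₂ h2 h12
    have h5 : w₁ - v = g v' - w₂ := by
      rw [sub_eq_sub_iff_add_eq_add, h12, add_comm]
    have h6 : w₁ - v ∈ W := W.sub_mem h1 hvW
    have h7 : w₁ - v ∈ W' := by
      rw [h5]
      exact W'.sub_mem hgv' h2
    have h8 : w₁ - v ∈ W ⊓ W' := ⟨h6, h7⟩
    rw [hc.inf_eq_bot, Submodule.mem_bot] at h8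
    refine ⟨sub_eq_zero.1 h8, ?_⟩
    rw [h8] at h5
    exact (sub_eq_zero.1 h5.symm).symm
  have hA1 : ∀ a ∈ A, ρ a v = v → ∀ y, ρ a y = y := by
    intro a ha hav y
    have h1 : ρ a - 1 = 0 := by
      apply hann v hv _ (sub_mem (ta_mem ha) (one_mem _))
      rw [LinearMap.sub_apply, hav, Module.End.one_apply, sub_self]
    rw [sub_eq_zero.1 h1, Module.End.one_apply]
  refine ⟨v + g v', ?_, ?_⟩
  · intro a ha hax
    rw [map_add] at hax
    exact hA1 a ha (hsep _ (hWA a ha v hvW) _ (hW'A a ha _ hgv') hax).1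
  · rintro r hr ⟨k, hk, hfix⟩
    obtain ⟨s, hs, x0, hx0⟩ := h3.nt r hr
    apply hx0
    have hsT : s ∈ T := (le_iSup₂ (f := fun r (_ : r ∈ S) => R r) r hr) hs
    have hcA : k * (s * k⁻¹ * s⁻¹) ∈ A := A.mul_mem hk (hAn.conj_mem _ (A.inv_mem hk) s)
    have h1 := hfix s hs
    have h2 : k * s * k⁻¹ = k * (s * k⁻¹ * s⁻¹) * s := by group
    rw [h2, map_mul, Module.End.mul_apply, map_add, hvT s hsT, cj_app, hv'T s hsT, map_add] at h1
    have h4 := hsep _ (hWA _ hcA v hvW) _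
      (hW'A _ hcA _ (aa_inv W' hW'A _ (aa_cj h.ab s g hg) v' hv'W)) h1
    have h5 := hA1 _ hcA h4.1
    have h6 : cj ρ s g v' = g v' := by
      rw [← h4.2, h5]
    have h7 : cj ρ s g = g := by
      have h8 : cj ρ s g - g = 0 := by
        apply hann v' hv'0 _ (sub_mem (aa_cj h.ab s g hg) hg)
        rw [LinearMap.sub_apply, h6, sub_self]
      exact sub_eq_zero.1 h8
    have h8 : ∀ n : ℕ, cj ρ s (g ^ n) = g ^ n := by
      intro n
      induction n with
      | zero => rw [pow_zero, hc1]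
      | succ n ih => rw [pow_succ, cj_hom, ih, h7]
    refine hi s hsT (hc1 s) (fun z hz => ?_) x0
    by_cases hz0 : z * 1 = 0
    · rw [hz0, td_zero]
    · obtain ⟨n, hn⟩ := hgen z hz hz0
      rw [hn, h8]

private theorem tk_num {q t n κ Q : ℕ} (hq : 2 ≤ q) (ht : 2 ≤ t) (hQ : Q = q ^ t)
    (h1 : n * (q - 1) = Q - 1) (h2 : n + 1 ≤ κ) (h3 : κ ^ 2 ≤ Q) : False := by
  obtain ⟨a, rfl⟩ : ∃ a, q = a + 1 := ⟨q - 1, by omega⟩
  have e1 : a + 1 - 1 = a := by omega
  rw [e1] at h1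
  have hQ2 : (a + 1) ^ 2 ≤ Q := by
    rw [hQ]
    exact Nat.pow_le_pow_right (by omega) ht
  have hQ1 : n * a + 1 = Q := by
    have : 1 ≤ Q := le_trans (Nat.one_le_pow _ _ (by omega)) hQ2
    omega
  have hk : (n + 1) ^ 2 ≤ κ ^ 2 := Nat.pow_le_pow_left h2 2
  have hn : a + 2 ≤ n := by
    by_contra hlt
    have h4 : n ≤ a + 1 := by omega
    have h5 : n * a ≤ (a + 1) * a := Nat.mul_le_mul_right _ h4
    nlinarith
  nlinarith

private theorem tk_cop {G : Type} [CommGroup G] (L : Subgroup G) (a : G) {m n : ℕ}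
    (h : m.Coprime n) (h1 : a ^ m ∈ L) (h2 : a ^ n ∈ L) : a ∈ L := by
  have h3 : (1 : ℤ) = (m : ℤ) * Nat.gcdA m n + (n : ℤ) * Nat.gcdB m n := by
    rw [← Nat.gcd_eq_gcd_ab, h]
    rfl
  have h4 : a = (a ^ m) ^ (Nat.gcdA m n) * (a ^ n) ^ (Nat.gcdB m n) := by
    rw [← zpow_natCast a m, ← zpow_natCast a n, ← zpow_mul, ← zpow_mul, ← zpow_add, ← h3, zpow_one]
  rw [h4]
  exact L.mul_mem (L.zpow_mem h1 _) (L.zpow_mem h2 _)

private theorem tk_sub {K : Type} [Field K] [Finite K] (K₁ : Subring K) (N : Subgroup Kˣ)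
    (hN : ∀ x ∈ N, (x : K) ∈ K₁) {q t : ℕ} (hq : 2 ≤ q) (ht : 2 ≤ t) (hQ : Nat.card K = q ^ t)
    (h1 : Nat.card N * (q - 1) = Nat.card K - 1) : K₁ = ⊤ := by
  classical
  haveI : Fintype K := Fintype.ofFinite K
  have hinv : ∀ x ∈ K₁, x⁻¹ ∈ K₁ := by
    intro x hx
    by_cases h0 : x = 0
    · rw [h0, inv_zero]
      exact K₁.zero_mem
    · have h2 : x ^ (Fintype.card K - 1) = 1 := FiniteField.pow_card_sub_one_eq_one x h0
      have h3 : 2 ≤ Fintype.card K := Fintype.one_lt_card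
      have h4 : x * x ^ (Fintype.card K - 2) = 1 := by
        rw [← pow_succ', ← h2]
        congr 1
        omega
      rw [inv_eq_of_mul_eq_one_right h4]
      exact K₁.pow_mem hx _
  let K₂ : Subfield K := { K₁ with inv_mem' := hinv }
  have hmem : ∀ x : K, x ∈ K₂ ↔ x ∈ K₁ := fun x => Iff.rfl
  have hcard : Nat.card K = Nat.card K₂ ^ Module.finrank K₂ K := Module.natCard_eq_pow_finrank
  have hpos : 0 < Module.finrank K₂ K := Module.finrank_pos
  have hκ : Nat.card N + 1 ≤ Nat.card K₂ := by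
    have h2 : Nat.card K₂ˣ = Nat.card K₂ - 1 := Nat.card_units K₂
    have h3 : Nat.card N ≤ Nat.card K₂ˣ := by
      have h4 : ∀ u : N, ((u : Kˣ) : K) ∈ K₂ := fun u => hN u u.2
      have h5 : ∀ u : N, (((u : Kˣ)⁻¹ : Kˣ) : K) ∈ K₂ := fun u => hN _ (N.inv_mem u.2)
      refine Nat.card_le_card_of_injective (fun u : N => (⟨⟨_, h4 u⟩, ⟨_, h5 u⟩,
        Subtype.ext (by simp), Subtype.ext (by simp)⟩ : K₂ˣ)) ?_
      intro u w huw
      have h6 := congrArg (fun z : K₂ˣ => ((z : K₂) : K)) huw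
      exact Subtype.ext (Units.ext h6)
    have h7 : 0 < Nat.card K₂ := Nat.card_pos
    omega
  by_contra hne
  have hf : 2 ≤ Module.finrank K₂ K := by
    by_contra hlt
    have hf1 : Module.finrank K₂ K = 1 := by omega
    rw [hf1, pow_one] at hcard
    apply hne
    have hbij : Function.Bijective (Subtype.val : K₂ → K) :=
      (Subtype.val_injective).bijective_of_nat_card_le (le_of_eq hcard)
    rw [eq_top_iff]
    intro x _
    obtain ⟨y, hy⟩ := hbij.2 x
    rw [← hy]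
    exact y.2
  have h3 : Nat.card K₂ ^ 2 ≤ Nat.card K := by
    rw [hcard]
    exact Nat.pow_le_pow_right Nat.card_pos hf
  exact tk_num hq ht hQ h1 hκ h3

/-- (tk, size 5) Finite fields. `Γ` is a group of automorphisms of the finite field `K`, a non-trivial
`r`-group; `A'` is a group of units which is invariant under `Γ`, of order prime to `r`, `N` is the
group generated by the `σ(a) a⁻¹`; `g` is a generator of the group of units, and `g k⁻¹` is fixed by `Γ`
for some `k ∈ A'`.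
PROOF. Let `E` be the subfield of the elements fixed by `Γ`. `K/E` is finite, `|K| = |E| ^ t`,
`|E| = p ^ m`, `t ≥ 2` (`Γ ≠ 1`). `g ∈ A' E^*`, so `K^* = A' E^*`. Coprime action (`cp_split` for the group
`A'`; or the norm over `Γ`): `A' = N (A' ∩ E^*)`, `N ∩ E^* = 1`. So `|K^*| = |N| |E^*|`.
`t ≠ 2`: if `t = 2` then the group of the automorphisms of `K` over `E` has at most 2 elements, so `r = 2`
(`Γ ≠ 1` is an `r`-group), `|N| = |E| + 1`, which is even as `p ≠ 2` (`hodd`), but `|A'|` is odd.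
A subring `K₁` of `K` which contains `N` is a subfield; if `K₁ ≠ K` then `|K₁| ^ 2 ≤ |K|` and, with
`q = |E|`, `n = |N| ≤ |K₁| - 1`: `n (q - 1) = |K| - 1 ≥ (|K₁| - 1) (|K₁| + 1) ≥ n (|K₁| + 1)`, so
`q - 1 ≥ |K₁| + 1 > n`; but `n (q - 1) = q ^ t - 1` gives `n > q`. Contradiction. -/
theorem fld {K : Type} [Field K] [Finite K] [CharP K p] (r : ℕ) (hr : r.Prime)
    (Γ : Subgroup (RingAut K)) (hΓ : IsPGroup r Γ) (hΓ1 : Γ ≠ ⊥) (A' N : Subgroup Kˣ)
    (hN : N = Subgroup.closure {u : Kˣ | ∃ σ ∈ Γ, ∃ a ∈ A', (u : K) = σ (a : K) * ((a⁻¹ : Kˣ) : K)})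
    (hA' : ¬ r ∣ Nat.card A') (hinv : ∀ σ ∈ Γ, ∀ a ∈ A', ∃ b ∈ A', (b : K) = σ (a : K))
    (hodd : r = 2 → p ≠ 2) (g : Kˣ) (hg : ∀ x : Kˣ, x ∈ Subgroup.zpowers g) (k : Kˣ)
    (hk : k ∈ A') (hgk : ∀ σ ∈ Γ, σ ((g * k⁻¹ : Kˣ) : K) = ((g * k⁻¹ : Kˣ) : K)) :
    ∃ m t : ℕ, 0 < m ∧ 3 ≤ t ∧ Nat.card K = p ^ (m * t) ∧
      Nat.card N * (p ^ m - 1) = p ^ (m * t) - 1 ∧
      ∀ K₁ : Subring K, (∀ x ∈ N, (x : K) ∈ K₁) → K₁ = ⊤ := by
  classical
  haveI : Fintype K := Fintype.ofFinite K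
  haveI hfr : Finite (RingAut K) :=
    Finite.of_injective (fun σ : RingAut K => (σ : K → K)) DFunLike.coe_injective
  haveI : Fintype Γ := Fintype.ofFinite Γ
  haveI : Fact r.Prime := ⟨hr⟩
  have hpp : p.Prime := Fact.out
  -- the action on units
  let sg : RingAut K → (Kˣ →* Kˣ) := fun σ => Units.map (σ : K →* K)
  have hsg : ∀ (σ : RingAut K) (u : Kˣ), ((sg σ u : Kˣ) : K) = σ (u : K) := fun σ u => rfl
  let E' : Subgroup Kˣ :=
    { carrier := {u | ∀ σ ∈ Γ, σ (u : K) = u}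
      mul_mem' := by
        intro a b ha hb σ hσ
        rw [Units.val_mul, map_mul, ha σ hσ, hb σ hσ]
      one_mem' := by
        intro σ hσ
        rw [Units.val_one, map_one]
      inv_mem' := by
        intro a ha σ hσ
        rw [Units.val_inv_eq_inv_val, map_inv₀, ha σ hσ] }
  have hE' : ∀ u : Kˣ, u ∈ E' ↔ ∀ σ ∈ Γ, σ (u : K) = u := fun u => Iff.rfl
  have hNA : N ≤ A' := by
    rw [hN, Subgroup.closure_le]
    rintro u ⟨σ, hσ, a, ha, hu⟩
    obtain ⟨b, hb, hbu⟩ := hinv σ hσ a ha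
    have : u = b * a⁻¹ := by
      apply Units.ext
      rw [hu, Units.val_mul, hbu]
    rw [this]
    exact A'.mul_mem hb (A'.inv_mem ha)
  have hgen : ∀ (σ : RingAut K) (_ : σ ∈ Γ) (a : Kˣ) (_ : a ∈ A'), sg σ a * a⁻¹ ∈ N := by
    intro σ hσ a ha
    rw [hN]
    apply Subgroup.subset_closure
    exact ⟨σ, hσ, a, ha, by rw [Units.val_mul, hsg]⟩
  let ν : Kˣ →* Kˣ := ∏ σ : Γ, sg (σ : RingAut K)
  have hν : ∀ u : Kˣ, ν u = ∏ σ : Γ, sg (σ : RingAut K) u := fun u => by
    simp only [ν, MonoidHom.finset_prod_apply]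
  have hνσ : ∀ (σ : Γ) (u : Kˣ), ν (sg (σ : RingAut K) u) = ν u := by
    intro σ u
    rw [hν, hν]
    refine Fintype.prod_equiv (Equiv.mulRight σ) _ _ fun τ => ?_
    apply Units.ext
    rfl
  have hσν : ∀ (σ : Γ) (u : Kˣ), sg (σ : RingAut K) (ν u) = ν u := by
    intro σ u
    rw [hν, map_prod]
    refine Fintype.prod_equiv (Equiv.mulLeft σ) _ _ fun τ => ?_
    apply Units.ext
    rfl
  have hνE : ∀ u, ν u ∈ E' := by
    intro u σ hσ
    have := congrArg (fun z : Kˣ => (z : K)) (hσν ⟨σ, hσ⟩ u)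
    exact this
  have hνN : ∀ u ∈ N, ν u = 1 := by
    intro u hu
    have hle : N ≤ ν.ker := by
      rw [hN, Subgroup.closure_le]
      rintro u ⟨σ, hσ, a, ha, hu⟩
      have : u = sg σ a * a⁻¹ := by
        apply Units.ext
        rw [hu, Units.val_mul, hsg]
      rw [this]
      show ν (sg σ a * a⁻¹) = 1
      rw [map_mul, map_inv, hνσ ⟨σ, hσ⟩ a, mul_inv_cancel]
    exact hle hu
  obtain ⟨j, hj⟩ := IsPGroup.iff_card.1 hΓ
  have hcop : (Nat.card Γ).Coprime (Nat.card A') := by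
    rw [hj]
    exact Nat.Coprime.pow_left _ ((Nat.Prime.coprime_iff_not_dvd hr).2 hA')
  have hcardΓ : Fintype.card Γ = Nat.card Γ := (Nat.card_eq_fintype_card).symm
  have hpowA : ∀ a ∈ A', a ^ Nat.card A' = 1 := by
    intro a ha
    have h1 : (⟨a, ha⟩ : A') ^ Nat.card A' = 1 := pow_card_eq_one'
    have h2 := congrArg (fun z : A' => (z : Kˣ)) h1
    exact h2
  have hdisj : Disjoint N E' := by
    rw [Subgroup.disjoint_def]
    intro u hu hE
    have h1 : u ^ Nat.card Γ = 1 := by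
      have h2 : ν u = u ^ Nat.card Γ := by
        rw [hν, ← hcardΓ, ← Finset.card_univ, ← Finset.prod_const]
        refine Finset.prod_congr rfl fun σ _ => Units.ext ?_
        rw [hsg]
        exact hE σ σ.2
      rw [← h2]
      exact hνN u hu
    have h3 := pow_gcd_eq_one.2 ⟨h1, hpowA u (hNA hu)⟩
    rw [hcop, pow_one] at h3
    exact h3
  have hAle : A' ≤ N ⊔ E' := by
    intro a ha
    refine tk_cop _ a hcop ?_ ?_
    · have h1 : ∏ σ : Γ, (sg (σ : RingAut K) a * a⁻¹) = ν a * (a ^ Nat.card Γ)⁻¹ := by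
        rw [Finset.prod_mul_distrib, ← hν, Finset.prod_const, Finset.card_univ, hcardΓ, inv_pow]
      have h2 : a ^ Nat.card Γ = (∏ σ : Γ, (sg (σ : RingAut K) a * a⁻¹))⁻¹ * ν a := by
        rw [h1]
        group
      rw [h2]
      refine Subgroup.mul_mem_sup (N.inv_mem (N.prod_mem fun σ _ => hgen σ σ.2 a ha)) (hνE a)
    · rw [hpowA a ha]
      exact Subgroup.one_mem _
  have hgE : g * k⁻¹ ∈ E' := hgk
  have htop : N ⊔ E' = ⊤ := by
    rw [eq_top_iff]
    intro x _
    have hgm : g ∈ N ⊔ E' := by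
      have : g = k * (g * k⁻¹) := by
        rw [mul_comm g, mul_inv_cancel_left]
      rw [this]
      exact Subgroup.mul_mem _ (hAle hk) (Subgroup.mem_sup_right hgE)
    exact (Subgroup.zpowers_le.2 hgm) (hg x)
  have hcompl : N.IsComplement' E' := by
    refine Subgroup.isComplement'_of_disjoint_and_mul_eq_univ hdisj ?_
    rw [← Subgroup.mul_normal, htop]
    rfl
  have hprod : Nat.card N * Nat.card E' = Nat.card Kˣ := hcompl.card_mul_card
  -- the fixed field
  let E := FixedPoints.subfield Γ K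
  have hE : ∀ x : K, x ∈ E ↔ ∀ σ ∈ Γ, σ x = x := by
    intro x
    constructor
    · intro h σ hσ
      exact h ⟨σ, hσ⟩
    · intro h σ
      exact h σ σ.2
  have hcE : Nat.card E' = Nat.card E - 1 := by
    rw [← Nat.card_units E]
    have h4 : ∀ u : E', ((u : Kˣ) : K) ∈ E := fun u => (hE _).2 ((hE' _).1 u.2)
    have h5 : ∀ u : E', (((u : Kˣ)⁻¹ : Kˣ) : K) ∈ E := fun u => (hE _).2 ((hE' _).1 (E'.inv_mem u.2))
    refine Nat.card_congr (Equiv.ofBijective (fun u : E' => (⟨⟨_, h4 u⟩, ⟨_, h5 u⟩,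
        Subtype.ext (by simp), Subtype.ext (by simp)⟩ : Eˣ)) ⟨?_, ?_⟩)
    · intro u w huw
      have h6 := congrArg (fun z : Eˣ => ((z : E) : K)) huw
      exact Subtype.ext (Units.ext h6)
    · intro z
      refine ⟨⟨Units.map (E.subtype : E →* K) z, ?_⟩, ?_⟩
      · rw [hE']
        exact (hE _).1 (z : E).2
      · apply Units.ext
        apply Subtype.ext
        rfl
  have hfin : Nat.card K = Nat.card E ^ Nat.card Γ := by
    have h1 : Nat.card K = Nat.card E ^ Module.finrank E K := Module.natCard_eq_pow_finrank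
    rw [FixedPoints.finrank_eq_card Γ K, hcardΓ] at h1
    exact h1
  have hΓ2 : 2 ≤ Nat.card Γ := by
    have h1 : 1 < Nat.card Γ := (Subgroup.one_lt_card_iff_ne_bot Γ).2 hΓ1
    omega
  have hEge : 2 ≤ Nat.card E := by
    have : 1 < Nat.card E := Finite.one_lt_card
    omega
  obtain ⟨l, -, hl⟩ := FiniteField.card K p
  rw [← Nat.card_eq_fintype_card] at hl
  obtain ⟨m, hm1, hm⟩ : ∃ m, m ≤ (l : ℕ) ∧ Nat.card E = p ^ m := by
    apply (Nat.dvd_prime_pow hpp).1
    rw [← hl, hfin]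
    exact dvd_pow_self _ (by omega)
  have hm0 : 0 < m := by
    rcases Nat.eq_zero_or_pos m with h0 | h0
    · rw [h0, pow_zero] at hm
      omega
    · exact h0
  have hmul : Nat.card N * (Nat.card E - 1) = Nat.card K - 1 := by
    rw [← hcE, hprod, Nat.card_units]
  have hKpow : Nat.card K = p ^ (m * Nat.card Γ) := by
    rw [hfin, hm, pow_mul]
  have ht3 : 3 ≤ Nat.card Γ := by
    by_contra hlt
    have ht2 : Nat.card Γ = 2 := by omega
    have hr2 : r = 2 := by
      have h1 : r ∣ 2 := by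
        rw [← ht2, hj]
        apply dvd_pow_self
        rintro rfl
        rw [pow_zero] at hj
        omega
      exact (Nat.prime_dvd_prime_iff_eq hr Nat.prime_two).1 h1
    have hp2 := hodd hr2
    have hoddp : Odd (Nat.card E) := by
      rw [hm]
      exact (hpp.odd_of_ne_two hp2).pow
    rw [hfin, ht2] at hmul
    obtain ⟨a, ha⟩ := hoddp
    have hN2 : Nat.card N = 2 * a + 2 := by
      have ha0 : 0 < a := by omega
      rw [ha] at hmul
      have h2 : 2 * a + 1 - 1 = 2 * a := by omega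
      have h3 : (2 * a + 1) ^ 2 - 1 = (2 * a + 2) * (2 * a) := by
        have : (2 * a + 1) ^ 2 = (2 * a + 2) * (2 * a) + 1 := by ring
        omega
      rw [h2, h3] at hmul
      exact Nat.eq_of_mul_eq_mul_right (by omega) hmul
    apply hA'
    rw [hr2]
    refine dvd_trans ?_ (Subgroup.card_dvd_of_le hNA)
    rw [hN2]
    exact ⟨a + 1, by ring⟩
  refine ⟨m, Nat.card Γ, hm0, ht3, hKpow, ?_, fun K₁ hK₁ => ?_⟩
  · rw [← hm, hmul, hKpow]
  · exact tk_sub K₁ N hK₁ hEge (by omega) hfin hmul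

private theorem tl_field (hA : Ab A) (he : Pid ρ A (1 : Module.End (ZMod p) X)) :
    ∃ (K : Type) (_ : Field K) (ι : K →+* Module.End (ZMod p) X), Finite K ∧ CharP K p ∧
      Function.Injective ι ∧ ∀ z, z ∈ AA ρ A ↔ ∃ a, ι a = z := by
  haveI hnt : Nontrivial (Module.End (ZMod p) X) := ⟨1, 0, he.ne⟩
  haveI hfe : Finite (Module.End (ZMod p) X) :=
    Finite.of_injective (fun f : Module.End (ZMod p) X => (f : X → X)) DFunLike.coe_injective
  have hF : IsField (AA ρ A) :=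
    { exists_pair_ne := ⟨1, 0, fun h => he.ne (congrArg Subtype.val h)⟩
      mul_comm := fun a b => Subtype.ext (aa_comm hA _ _ a.2 b.2)
      mul_inv_cancel := by
        intro a ha
        have h0 : (a : Module.End (ZMod p) X) * 1 ≠ 0 := by
          rw [mul_one]
          exact fun h => ha (Subtype.ext h)
        obtain ⟨w, hw, hwe⟩ := he.inv a a.2 h0
        refine ⟨⟨w, hw⟩, Subtype.ext ?_⟩
        show (a : Module.End (ZMod p) X) * w = 1
        rw [aa_comm hA _ _ a.2 hw]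
        rwa [mul_one] at hwe }
  letI : Field (AA ρ A) := hF.toField
  let ι : (AA ρ A) →+* Module.End (ZMod p) X :=
    { toFun := fun a => (a : Module.End (ZMod p) X)
      map_one' := rfl
      map_mul' := fun _ _ => rfl
      map_zero' := rfl
      map_add' := fun _ _ => rfl }
  have hι : Function.Injective ι := Subtype.val_injective
  haveI : CharP (Module.End (ZMod p) X) p :=
    charP_of_injective_algebraMap (algebraMap (ZMod p) (Module.End (ZMod p) X)).injective p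
  exact ⟨AA ρ A, inferInstance, ι, inferInstance, ι.charP hι p, hι,
    fun z => ⟨fun hz => ⟨⟨z, hz⟩, rfl⟩, fun ⟨a, ha⟩ => ha ▸ a.2⟩⟩

private theorem tl_cj1 (s : H) : cj ρ s 1 = 1 := by
  unfold cj
  rw [mul_one, ← map_mul, mul_inv_cancel, map_one]

private theorem tl_aut {K : Type} [Field K] (ι : K →+* Module.End (ZMod p) X)
    (hinj : Function.Injective ι) (hcl : ∀ (h : H) (a : K), ∃ b, ι b = cj ρ h (ι a)) :
    ∃ θ : H →* RingAut K, ∀ h a, ι (θ h a) = cj ρ h (ι a) := by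
  choose f hf using hcl
  have hff : ∀ g h a, f g (f h a) = f (g * h) a := fun g h a => hinj (by
    rw [hf, hf, hf, cj_mul])
  have hf1 : ∀ a, f 1 a = a := fun a => hinj (by rw [hf, cj_one])
  let θ : H → RingAut K := fun h =>
    { toFun := f h
      invFun := f h⁻¹
      left_inv := fun a => by rw [hff, inv_mul_cancel, hf1]
      right_inv := fun a => by rw [hff, mul_inv_cancel, hf1]
      map_mul' := fun a b => hinj (by rw [hf, map_mul, map_mul, hf, hf, cj_hom])
      map_add' := fun a b => hinj (by rw [hf, map_add, map_add, hf, hf, cj_add]) }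
  refine ⟨MonoidHom.mk' θ fun g h => ?_, fun h a => hf h a⟩
  apply RingEquiv.ext
  intro a
  exact (hff g h a).symm

/-- (tl, size 5) The field case, `X` of dimension one. PROOF. `K = AA ρ A` is a finite field
(`Pid.inv` for `e = 1`), `K → X`, `z ↦ z v` is bijective (`fl_ann`). `g` a generator of the group of units
(`pid_gen`), `x = g v`. `ρ a x = x` gives `ρ a = 1`. Let `r ∈ S`, `k ∈ A`, `ρ (k s k⁻¹) x = x` for all
`s ∈ R r`. Then `ρ k * ρ (s k⁻¹ s⁻¹) * cj ρ s g = g`, i.e. (`ρ (s k⁻¹ s⁻¹) = cj ρ s (ρ k⁻¹)`)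
`cj ρ s (g * ρ k⁻¹) = g * ρ k⁻¹`. Apply `fld` to the field `K`, `Γ` = the group of the automorphisms `cj ρ s`
of `K`, `s ∈ R r` (an `r`-group, non-trivial: otherwise `ti` gives `ρ s = 1` for all `s ∈ R r`, against
`T3.nt`), `A'` = the image of `A` in the group of units, `N` = the image of `⁅A, R r⁆` (it is generated by
the images of `s a s⁻¹ a⁻¹`), `k`; `hodd`: `2 ∣ |R r|` (it is a non-trivial 2-group) divides `|H|`. Then
`|X| = |K| = p ^ (m t)`; `|⁅A, R r⁆|` = `|N|` times the number of the elements of `⁅A, R r⁆` which act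
trivially; an `⁅A, R r⁆`-invariant subspace `W` of `X`: `K₁ = {z ∈ K | z W ≤ W}` is a subring which
contains `N`, so `K₁ = K`, so `W` is an ideal of `K = X`, so it is 0 or everything. -/
theorem t_field1 [Nontrivial X] {C : Subgroup H} {S : Finset ℕ} {R : ℕ → Subgroup H}
    (h : TH ρ A C S R) (h3 : T3 ρ A S R) (he : Pid ρ A (1 : Module.End (ZMod p) X)) (v : X)
    (hv : v ≠ 0) (hvT : ∀ s ∈ (⨆ r ∈ S, R r : Subgroup H), ρ s v = v)
    (hW : ∀ x : X, ∃ z ∈ AA ρ A, z v = x) :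
    ∃ x : X, (∀ a ∈ A, ρ a x = x → ∀ y, ρ a y = y) ∧
      ∀ r ∈ S, (∃ a ∈ A, ∀ s ∈ R r, ρ (a * s * a⁻¹) x = x) → Full ρ ⁅A, R r⁆ := by
  have hA := h.ab
  obtain ⟨K, instK, ι, hfin, hchar, hinj, hmem⟩ := tl_field hA he
  have hcjm : ∀ (h : H) (a : K), ∃ b, ι b = cj ρ h (ι a) := fun h a =>
    (hmem _).1 (aa_cj hA h _ ((hmem _).2 ⟨a, rfl⟩))
  obtain ⟨θ, hθ⟩ := tl_aut ι hinj hcjm
  have hαm : ∀ a : A, ∃ b, ι b = ρ (a : H) := fun a =>
    (hmem _).1 (Algebra.subset_adjoin ⟨a, a.2, rfl⟩)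
  choose f hf using hαm
  let α0 : A →* K :=
    { toFun := f
      map_one' := hinj (by rw [hf, map_one]; exact map_one ρ)
      map_mul' := fun a b => hinj (by rw [hf, map_mul, hf, hf]; exact map_mul ρ _ _) }
  let α : A →* Kˣ := α0.toHomUnits
  have hα : ∀ a : A, ι (α a : K) = ρ (a : H) := fun a => hf a
  have hαi : ∀ a : A, ι (((α a)⁻¹ : Kˣ) : K) = ρ ((a : H)⁻¹) := fun a => by
    rw [← map_inv]
    exact hα a⁻¹
  have hev : ∀ z : K, ι z v = 0 → z = 0 := by
    intro z hz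
    have h1 : ι z = 0 := fl_ann hA h.irr he v (fun h' => by rw [tl_cj1]; exact hv) (ι z)
      ((hmem _).2 ⟨z, rfl⟩) hz
    exact hinj (by rw [h1, map_zero])
  have heq : ∀ z w : K, ι z v = ι w v → z = w := by
    intro z w hzw
    rw [← sub_eq_zero]
    apply hev
    rw [map_sub, LinearMap.sub_apply, hzw, sub_self]
  obtain ⟨g, hg⟩ := IsCyclic.exists_generator (α := Kˣ)
  refine ⟨ι (g : K) v, fun a ha hax y => ?_, fun r hr => ?_⟩
  · have h1 : ((α ⟨a, ha⟩ : Kˣ) : K) * g = g := by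
      apply heq
      rw [map_mul, hα, Module.End.mul_apply]
      exact hax
    have h2 : ((α ⟨a, ha⟩ : Kˣ) : K) = 1 := by
      have h3 : (α ⟨a, ha⟩) * g = g := Units.ext h1
      rw [mul_eq_right] at h3
      rw [h3]
      rfl
    have h4 := hα ⟨a, ha⟩
    rw [h2, map_one] at h4
    show ρ ((⟨a, ha⟩ : A) : H) y = y
    rw [← h4]
    rfl
  rintro ⟨k, hk, hks⟩
  have hsT : ∀ s ∈ R r, s ∈ (⨆ r ∈ S, R r : Subgroup H) := fun s hs =>
    Subgroup.mem_iSup_of_mem r (Subgroup.mem_iSup_of_mem hr hs)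
  have hΓ1 : (R r).map θ ≠ ⊥ := by
    intro hbot
    obtain ⟨s, hs, x0, hsx⟩ := h3.nt r hr
    apply hsx
    refine ti h h3 he s (hsT s hs) (tl_cj1 s) (fun z hz => ?_) x0
    have h1 : θ s = 1 := by
      have h2 : θ s ∈ (R r).map θ := ⟨s, hs, rfl⟩
      rw [hbot] at h2
      exact h2
    obtain ⟨a, ha⟩ := (hmem z).1 hz
    rw [mul_one, ← ha, ← hθ, h1]
    rfl
  have hle : ⁅A, R r⁆ ≤ A := (h.AC r hr).trans h.CA
  let ψ : (⁅A, R r⁆ : Subgroup H) →* Kˣ := α.comp (Subgroup.inclusion hle)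
  have hψ : ∀ c, ι ((ψ c : Kˣ) : K) = ρ (c : H) := fun c => hα _
  have hnorA : ∀ s, ∀ a ∈ A, s * a * s⁻¹ ∈ A := fun s a ha => hA.nor.conj_mem a ha s
  obtain ⟨N, hN⟩ : ∃ N : Subgroup Kˣ, N = Subgroup.closure {u : Kˣ | ∃ σ ∈ (R r).map θ, ∃ a ∈ α.range,
      (u : K) = σ (a : K) * ((a⁻¹ : Kˣ) : K)} := ⟨_, rfl⟩
  have hNψ : N = ψ.range := by
    apply le_antisymm
    · rw [hN, Subgroup.closure_le]
      rintro u ⟨_, ⟨s, hs, rfl⟩, _, ⟨a, rfl⟩, hu⟩
      have hc : ((a : H) * s * (a : H)⁻¹ * s⁻¹)⁻¹ ∈ ⁅A, R r⁆ :=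
        Subgroup.inv_mem _ (Subgroup.commutator_mem_commutator a.2 hs)
      refine ⟨⟨_, hc⟩, Units.ext (hinj ?_)⟩
      rw [hψ, hu, map_mul]
      have e1 : ι ((θ s) ((α a : Kˣ) : K)) = cj ρ s (ρ (a : H)) := by
        rw [hθ, hα]
      have e2 : ((a : H) * s * (a : H)⁻¹ * s⁻¹)⁻¹ = s * a * s⁻¹ * (a : H)⁻¹ := by group
      rw [hαi]
      show ρ ((a : H) * s * (a : H)⁻¹ * s⁻¹)⁻¹ = ι ((θ s) ((α a : Kˣ) : K)) * ρ (a : H)⁻¹
      rw [e1, e2]
      unfold cj
      rw [map_mul, map_mul, map_mul]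
    · have hM : ⁅A, R r⁆ ≤ (N.comap α).map A.subtype := by
        rw [Subgroup.commutator_le]
        intro a ha s hs
        have hm : a * (s * a⁻¹ * s⁻¹) ∈ A := A.mul_mem ha (hnorA s _ (A.inv_mem ha))
        refine ⟨⟨_, hm⟩, ?_, ?_⟩
        · show α ⟨a * (s * a⁻¹ * s⁻¹), hm⟩ ∈ N
          rw [hN]
          apply Subgroup.subset_closure
          refine ⟨θ s, ⟨s, hs, rfl⟩, (α ⟨a, ha⟩)⁻¹, ⟨⟨a, ha⟩⁻¹, map_inv _ _⟩, hinj ?_⟩
          rw [hα, map_mul ι, hθ, inv_inv, hαi, hα]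
          show ρ (a * (s * a⁻¹ * s⁻¹)) = cj ρ s (ρ a⁻¹) * ρ a
          have hcA := aa_cj (ρ := ρ) hA s (ρ a⁻¹) (Algebra.subset_adjoin ⟨a⁻¹, A.inv_mem ha, rfl⟩)
          have haA : ρ a ∈ AA ρ A := Algebra.subset_adjoin ⟨a, ha, rfl⟩
          rw [aa_comm hA _ _ hcA haA]
          unfold cj
          rw [map_mul, map_mul, map_mul]
        · exact (by group : a * (s * a⁻¹ * s⁻¹) = a * s * a⁻¹ * s⁻¹)
      rintro _ ⟨c, rfl⟩
      obtain ⟨b, hb, hbc⟩ := hM c.2
      have h5 : b = Subgroup.inclusion hle c := Subtype.ext hbc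
      show α (Subgroup.inclusion hle c) ∈ N
      rw [← h5]
      exact hb
  have hAr : ¬ r ∣ Nat.card α.range := fun h1 => h.ndvd r hr (h1.trans (Subgroup.card_range_dvd α))
  have hinv : ∀ σ ∈ (R r).map θ, ∀ a ∈ α.range, ∃ b ∈ α.range, (b : K) = σ (a : K) := by
    rintro _ ⟨s, hs, rfl⟩ _ ⟨a, rfl⟩
    refine ⟨α ⟨s * a * s⁻¹, hnorA s a a.2⟩, ⟨_, rfl⟩, hinj ?_⟩
    rw [hα]
    show ρ (s * (a : H) * s⁻¹) = ι ((θ s) ((α a : Kˣ) : K))
    rw [hθ, hα]
    unfold cj
    rw [map_mul, map_mul]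
  have hodd : r = 2 → p ≠ 2 := by
    rintro hr2 hp2
    obtain ⟨s, hs, x0, hsx⟩ := h3.nt r hr
    haveI : Fact r.Prime := ⟨h.prime r hr⟩
    obtain ⟨j, hj⟩ := (IsPGroup.iff_orderOf.1 (h.pgr r hr)) ⟨s, hs⟩
    have hj' : orderOf s = r ^ j := by
      rw [← hj]
      exact (Subgroup.orderOf_mk (a := s) hs).symm
    have hj0 : j ≠ 0 := by
      rintro rfl
      rw [pow_zero, orderOf_eq_one_iff] at hj'
      apply hsx
      rw [hj', map_one]
      rfl
    apply h.pH
    rw [hp2, ← hr2]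
    exact (dvd_pow_self r hj0).trans (hj' ▸ orderOf_dvd_natCard s)
  have hgk : ∀ σ ∈ (R r).map θ, σ ((g * (α ⟨k, hk⟩)⁻¹ : Kˣ) : K) = ((g * (α ⟨k, hk⟩)⁻¹ : Kˣ) : K) := by
    rintro _ ⟨s, hs, rfl⟩
    have h1 : ((α ⟨k, hk⟩ : Kˣ) : K) * θ s ((g * (α ⟨k, hk⟩)⁻¹ : Kˣ) : K) = g := by
      apply heq
      rw [map_mul, hα, Module.End.mul_apply, hθ]
      have h2 : cj ρ s (ι ((g * (α ⟨k, hk⟩)⁻¹ : Kˣ) : K)) v = ρ s (ι ((g * (α ⟨k, hk⟩)⁻¹ : Kˣ) : K) v) := by
        rw [cj_app, hvT s (hsT s hs)]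
      rw [h2, Units.val_mul, mul_comm (g : K), map_mul, hαi, Module.End.mul_apply]
      have h4 := hks s hs
      rw [map_mul, map_mul, Module.End.mul_apply, Module.End.mul_apply] at h4
      exact h4
    have h3' : θ s ((g * (α ⟨k, hk⟩)⁻¹ : Kˣ) : K) = (((α ⟨k, hk⟩)⁻¹ : Kˣ) : K) * g := by
      rw [← h1, ← mul_assoc, Units.inv_mul, one_mul]
    have h5 : θ s ((g * (α ⟨k, hk⟩)⁻¹ : Kˣ) : K) = ((g * (α ⟨k, hk⟩)⁻¹ : Kˣ) : K) := by
      rw [h3', Units.val_mul, mul_comm]
    exact h5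
  obtain ⟨m, t, hm0, ht3, hK, hNc, hsub⟩ := fld (p := p) r (h.prime r hr) ((R r).map θ)
    ((h.pgr r hr).map θ) hΓ1 α.range N hN hAr hinv hodd g hg (α ⟨k, hk⟩) ⟨_, rfl⟩ hgk
  have hcardX : Nat.card X = Nat.card K := by
    refine (Nat.card_congr (Equiv.ofBijective (fun a : K => ι a v) ⟨fun a b hab => heq a b hab, fun x => ?_⟩)).symm
    obtain ⟨z, hz, hzx⟩ := hW x
    obtain ⟨a, ha⟩ := (hmem z).1 hz
    exact ⟨a, by rw [← hzx, ← ha]⟩
  refine ⟨fun W hWi => ?_, m, t, hm0, ht3, by rw [hcardX, hK], ?_⟩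
  · let K₁ : Subring K :=
      { carrier := {z | ∀ w ∈ W, ι z w ∈ W}
        mul_mem' := by
          intro a b ha hb w hw
          rw [map_mul, Module.End.mul_apply]
          exact ha _ (hb _ hw)
        one_mem' := by
          intro w hw
          rw [map_one]
          exact hw
        add_mem' := by
          intro a b ha hb w hw
          rw [map_add, LinearMap.add_apply]
          exact W.add_mem (ha _ hw) (hb _ hw)
        zero_mem' := by
          intro w hw
          rw [map_zero]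
          exact W.zero_mem
        neg_mem' := by
          intro a ha w hw
          rw [map_neg, LinearMap.neg_apply]
          exact W.neg_mem (ha _ hw) }
    have hK₁ : K₁ = ⊤ := by
      apply hsub
      intro x hx
      rw [hNψ] at hx
      obtain ⟨c, rfl⟩ := hx
      intro w hw
      rw [hψ]
      exact hWi c c.2 w hw
    have hall : ∀ (z : K), ∀ w ∈ W, ι z w ∈ W := by
      intro z
      have h1 : z ∈ K₁ := by
        rw [hK₁]
        exact Subring.mem_top z
      exact h1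
    by_cases hW0 : W = ⊥
    · exact Or.inl hW0
    · right
      obtain ⟨w, hw, hw0⟩ := (Submodule.ne_bot_iff W).1 hW0
      rw [eq_top_iff]
      intro y _
      obtain ⟨z, hz, hzw⟩ := hW w
      obtain ⟨a, ha⟩ := (hmem z).1 hz
      obtain ⟨z', hz', hzy⟩ := hW y
      obtain ⟨b, hb⟩ := (hmem z').1 hz'
      have ha0 : a ≠ 0 := by
        rintro rfl
        apply hw0
        rw [← hzw, ← ha, map_zero]
        rfl
      have h2 : y = ι (b * a⁻¹) w := by
        rw [← hzw, ← ha, ← Module.End.mul_apply, ← map_mul, mul_assoc, inv_mul_cancel₀ ha0, mul_one, hb, hzy]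
      rw [h2]
      exact hall _ w hw
  · have h1 : Nat.card ψ.ker * Nat.card N = Nat.card (⁅A, R r⁆ : Subgroup H) := by
      rw [hNψ, ← Subgroup.index_ker ψ]
      exact Subgroup.card_mul_index ψ.ker
    have h2 : Nat.card ψ.ker = Nat.card {c : (⁅A, R r⁆ : Subgroup H) // ∀ x : X, ρ (c : H) x = x} := by
      refine Nat.card_congr (Equiv.subtypeEquivRight fun c => ?_)
      rw [MonoidHom.mem_ker]
      constructor
      · intro h1 x
        rw [← hψ, h1, Units.val_one, map_one]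
        rfl
      · intro h1
        apply Units.ext
        apply hinj
        rw [hψ, Units.val_one, map_one]
        exact LinearMap.ext h1
    rw [← h1, h2, mul_assoc, hNc]

theorem t_three [Nontrivial X] {C : Subgroup H} {S : Finset ℕ} {R : ℕ → Subgroup H}
    (h : TH ρ A C S R) (h3 : T3 ρ A S R) :
    ∃ x : X, (∀ a ∈ A, ρ a x = x → ∀ y, ρ a y = y) ∧
      ∀ r ∈ S, (∃ a ∈ A, ∀ s ∈ R r, ρ (a * s * a⁻¹) x = x) → Full ρ ⁅A, R r⁆ := by
  obtain ⟨e, he⟩ := pid_ex (ρ := ρ) h.ab h.pH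
  by_cases hne : ∃ k, cj ρ k e ≠ e
  · obtain ⟨x, h1, h2⟩ := t_nonfield h h3 he hne
    exact ⟨x, h1, fun r hr hx => absurd hx (h2 r hr)⟩
  · push Not at hne
    have h1 : e = 1 := pid_one h.irr he hne
    rw [h1] at he
    have hT : ¬ p ∣ Nat.card (⨆ r ∈ S, R r : Subgroup H) := fun hd =>
      h.pH (hd.trans (Subgroup.card_subgroup_dvd_card _))
    obtain ⟨v, hv, hv'⟩ := fullv h.ab he (⨆ r ∈ S, R r) hT fun k s hs h4 h5 =>
      ti h h3 (pid_cj h.ab he k) s hs h4 h5
    have hv0 : v ≠ 0 := by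
      intro h0
      apply hv' 1
      rw [h0, map_zero]
    by_cases hW : ∃ x : X, ∀ z ∈ AA ρ A, z v ≠ x
    · obtain ⟨x, h6, h7⟩ := t_field2 h h3 he v hv0 hv hW
      exact ⟨x, h6, fun r hr hx => absurd hx (h7 r hr)⟩
    · push Not at hW
      exact t_field1 h h3 he v hv0 hv hW

/-- the elements of `K` which commute with `A` on `X` -/
private def tn_Q (ρ : Representation (ZMod p) H X) (A K : Subgroup H) : Subgroup H where
  carrier := {s | s ∈ K ∧ ∀ a ∈ A, ∀ x, ρ s (ρ a x) = ρ a (ρ s x)}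
  one_mem' := ⟨one_mem _, fun a _ x => by rw [map_one, Module.End.one_apply, Module.End.one_apply]⟩
  mul_mem' := by
    rintro s t ⟨hs, hs'⟩ ⟨ht, ht'⟩
    refine ⟨mul_mem hs ht, fun a ha x => ?_⟩
    rw [map_mul, Module.End.mul_apply, Module.End.mul_apply, ht' a ha, hs' a ha]
  inv_mem' := by
    rintro s ⟨hs, hs'⟩
    refine ⟨inv_mem hs, fun a ha x => ?_⟩
    have h1 : ∀ y, ρ s (ρ s⁻¹ y) = y := fun y => by
      rw [← Module.End.mul_apply, ← map_mul, mul_inv_cancel, map_one, Module.End.one_apply]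
    have h2 : ∀ y, ρ s⁻¹ (ρ s y) = y := fun y => by
      rw [← Module.End.mul_apply, ← map_mul, inv_mul_cancel, map_one, Module.End.one_apply]
    calc ρ s⁻¹ (ρ a x) = ρ s⁻¹ (ρ a (ρ s (ρ s⁻¹ x))) := by rw [h1]
      _ = ρ s⁻¹ (ρ s (ρ a (ρ s⁻¹ x))) := by rw [hs' a ha]
      _ = ρ a (ρ s⁻¹ x) := h2 _

/-- (tn, size 5) The selection theorem. PROOF. For `r ∈ S` let `Q r` be the set of the `s ∈ R r` which
commute with `A` on `X` (a normal subgroup of `R r`: `A` is normal). `S3` = the set of the `r ∈ S` for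
which `Q r` acts trivially and `R r` does not; `S2` = the set of the `r ∈ S` for which `Q r` acts
non-trivially. `t_three` for `S3` gives a vector with the property `P x`: (`a ∈ A` fixes `x` → `ρ a = 1`)
and for `r ∈ S3` (a conjugate of `R r` under `A` fixes `x` → `Full`). Among the `x` with `P x` take one for which
the number of the `r ∈ S2` such that `Q r` moves `x` is maximal. Suppose `r ∈ S2` and `Q r` fixes `x`.
`avg_ex` gives `y ≠ 0` with `∑ s ∈ Q r, ρ s y = 0`; `x' = x + y`. The operator `E = ∑ s ∈ Q r, ρ s`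
commutes with `A`, with `R r'` for `r' ≠ r`, and with `R r`; `E x' = |Q r| x`. So an element of
`A`, or of `a (R r') a⁻¹` (`a ∈ A`, all `r' ∈ S`), or of `Q r'`, which fixes `x'`, fixes `x` (`p` does not divide
`|Q r|`). So `P x'`, and `Q r'` moves `x'` if it moves `x`; `Q r` moves `x'` (otherwise `E y = |Q r| y ≠ 0`).
Contradiction. So all `Q r`, `r ∈ S2`, move `x`. If `a (R r) a⁻¹` fixes `x`, `r ∈ S2`: for `s ∈ Q r`
`ρ (a s a⁻¹) = ρ s`, so `Q r` fixes `x`, a contradiction. For `r ∈ S` not in `S2 ∪ S3`: `R r` acts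
trivially. -/
theorem tlem [Nontrivial X] {C : Subgroup H} {S : Finset ℕ} {R : ℕ → Subgroup H}
    (h : TH ρ A C S R) : ∃ x : X, Sel ρ A S R x := by
  classical
  obtain ⟨Q, hQ⟩ : ∃ Q : ℕ → Subgroup H, ∀ r s, s ∈ Q r ↔ s ∈ R r ∧
      ∀ a ∈ A, ∀ x, ρ s (ρ a x) = ρ a (ρ s x) := ⟨fun r => tn_Q ρ A (R r), fun _ _ => Iff.rfl⟩
  obtain ⟨S3, hS3⟩ : ∃ S3 : Finset ℕ, ∀ r, r ∈ S3 ↔ r ∈ S ∧ (∀ s ∈ Q r, ∀ x, ρ s x = x) ∧
      ∃ s ∈ R r, ∃ x, ρ s x ≠ x :=
    ⟨S.filter fun r => (∀ s ∈ Q r, ∀ x, ρ s x = x) ∧ ∃ s ∈ R r, ∃ x, ρ s x ≠ x,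
      fun r => Finset.mem_filter⟩
  obtain ⟨S2, hS2⟩ : ∃ S2 : Finset ℕ, ∀ r, r ∈ S2 ↔ r ∈ S ∧ ∃ s ∈ Q r, ∃ x, ρ s x ≠ x :=
    ⟨S.filter fun r => ∃ s ∈ Q r, ∃ x, ρ s x ≠ x, fun r => Finset.mem_filter⟩
  have h3 : TH ρ A C S3 R :=
    { ab := h.ab
      pH := h.pH
      irr := h.irr
      prime := fun r hr => h.prime r ((hS3 r).1 hr).1
      ndvd := fun r hr => h.ndvd r ((hS3 r).1 hr).1
      pgr := fun r hr => h.pgr r ((hS3 r).1 hr).1
      com := fun r hr r' hr' => h.com r ((hS3 r).1 hr).1 r' ((hS3 r').1 hr').1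
      Cn := h.Cn
      CA := h.CA
      AC := fun r hr => h.AC r ((hS3 r).1 hr).1
      fpf := h.fpf }
  have h33 : T3 ρ A S3 R :=
    { h0 := fun r hr s hs hc => ((hS3 r).1 hr).2.1 s ((hQ r s).2 ⟨hs, hc⟩)
      nt := fun r hr => ((hS3 r).1 hr).2.2 }
  obtain ⟨x0, hx0⟩ := t_three h3 h33
  obtain ⟨x, hxP, hmax⟩ := Set.exists_max_image {x : X | (∀ a ∈ A, ρ a x = x → ∀ y, ρ a y = y) ∧
      ∀ r ∈ S3, (∃ a ∈ A, ∀ s ∈ R r, ρ (a * s * a⁻¹) x = x) → Full ρ ⁅A, R r⁆}
    (fun x => (S2.filter fun r => ∃ s ∈ Q r, ρ s x ≠ x).card) (Set.toFinite _) ⟨x0, hx0⟩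
  have hmul : ∀ (g k : H) (z : X), ρ (g * k) z = ρ g (ρ k z) := fun g k z => by
    rw [map_mul, Module.End.mul_apply]
  have hall : ∀ r ∈ S2, ∃ s ∈ Q r, ρ s x ≠ x := by
    intro r hr
    by_contra hcon
    have hfix : ∀ s ∈ Q r, ρ s x = x := by
      intro s hs
      by_contra h1
      exact hcon ⟨s, hs, h1⟩
    obtain ⟨hrS, hrne⟩ := (hS2 r).1 hr
    have hpQ : ¬ p ∣ Nat.card (Q r) := fun h1 =>
      h.pH (h1.trans (Subgroup.card_subgroup_dvd_card _))
    have hc : ((Nat.card (Q r) : ℕ) : ZMod p) ≠ 0 := by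
      rw [Ne, ZMod.natCast_eq_zero_iff]
      exact hpQ
    let _ : Fintype (Q r) := Fintype.ofFinite _
    obtain ⟨y, hy, hsum⟩ := avg_ex ρ (Q r) hpQ hrne
    have hE : ∀ z : X, (∀ s ∈ Q r, ρ s z = z) →
        ∑ k : Q r, ρ (k : H) z = ((Nat.card (Q r) : ℕ) : ZMod p) • z := by
      intro z hz
      rw [Finset.sum_congr rfl fun (k : Q r) _ => hz k k.2, Finset.sum_const, Finset.card_univ,
        ← Nat.card_eq_fintype_card, Nat.cast_smul_eq_nsmul]
    have hEx : ∑ k : Q r, ρ (k : H) (x + y) = ((Nat.card (Q r) : ℕ) : ZMod p) • x := by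
      simp only [map_add]
      rw [Finset.sum_add_distrib, hsum, add_zero, hE x hfix]
    have hcancel : ∀ z w : X, ((Nat.card (Q r) : ℕ) : ZMod p) • z =
        ((Nat.card (Q r) : ℕ) : ZMod p) • w → z = w := fun z w hzw =>
      smul_right_injective X hc hzw
    have hback : ∀ g : H, (∀ k ∈ Q r, ∀ z, ρ g (ρ k z) = ρ k (ρ g z)) →
        ρ g (x + y) = x + y → ρ g x = x := by
      intro g hg hgx
      apply hcancel
      rw [← map_smul, ← hEx, map_sum]
      exact Finset.sum_congr rfl fun k _ => by rw [hg k k.2, hgx]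
    have hA1 : ∀ a ∈ A, ∀ k ∈ Q r, ∀ z, ρ a (ρ k z) = ρ k (ρ a z) := fun a ha k hk z =>
      (((hQ r k).1 hk).2 a ha z).symm
    have hR1 : ∀ r' ∈ S, r' ≠ r → ∀ s ∈ R r', ∀ k ∈ Q r, ∀ z, ρ s (ρ k z) = ρ k (ρ s z) := by
      intro r' hr' hne s hs k hk z
      rw [← hmul, ← hmul, h.com r' hr' r hrS hne s hs k ((hQ r k).1 hk).1]
    have hP' : (x + y) ∈ {x : X | (∀ a ∈ A, ρ a x = x → ∀ y, ρ a y = y) ∧
        ∀ r ∈ S3, (∃ a ∈ A, ∀ s ∈ R r, ρ (a * s * a⁻¹) x = x) → Full ρ ⁅A, R r⁆} := by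
      refine ⟨fun a ha hax => hxP.1 a ha (hback a (hA1 a ha) hax), fun r' hr' hex => ?_⟩
      refine hxP.2 r' hr' ?_
      obtain ⟨a, ha, has⟩ := hex
      have hne : r' ≠ r := by
        intro h1
        obtain ⟨s, hs, z, hz⟩ := hrne
        rw [h1] at hr'
        exact hz (((hS3 r).1 hr').2.1 s hs z)
      refine ⟨a, ha, fun s hs => hback _ (fun k hk z => ?_) (has s hs)⟩
      rw [hmul, hmul, hA1 a⁻¹ (inv_mem ha) k hk, hR1 r' ((hS3 r').1 hr').1 hne s hs k hk,
        hA1 a ha k hk, hmul, hmul]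
    have hlt : (S2.filter fun r => ∃ s ∈ Q r, ρ s x ≠ x).card <
        (S2.filter fun r => ∃ s ∈ Q r, ρ s (x + y) ≠ x + y).card := by
      apply Finset.card_lt_card
      rw [Finset.ssubset_iff_of_subset]
      · refine ⟨r, Finset.mem_filter.2 ⟨hr, ?_⟩, fun h1 => ?_⟩
        · by_contra h1
          apply hy
          have h2 : ∀ s ∈ Q r, ρ s (x + y) = x + y := by
            intro s hs
            by_contra h3
            exact h1 ⟨s, hs, h3⟩
          have h4 := hcancel _ _ ((hE (x + y) h2).symm.trans hEx)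
          simpa using h4
        · obtain ⟨s, hs, h2⟩ := (Finset.mem_filter.1 h1).2
          exact h2 (hfix s hs)
      · intro r' hr'
        obtain ⟨h1, s, hs, h2⟩ := Finset.mem_filter.1 hr'
        refine Finset.mem_filter.2 ⟨h1, s, hs, fun h3 => h2 ?_⟩
        have hne : r' ≠ r := by
          intro h4
          rw [h4] at hs
          exact h2 (hfix s hs)
        exact hback s (hR1 r' ((hS2 r').1 h1).1 hne s ((hQ r' s).1 hs).1) h3
    exact absurd (hmax _ hP') (not_le.2 hlt)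
  refine ⟨x, hxP.1, fun r hr hex => ?_⟩
  by_cases h1 : ∀ s ∈ R r, ∀ y, ρ s y = y
  · exact Or.inl h1
  · right
    have h1' : ∃ s ∈ R r, ∃ y, ρ s y ≠ y := by
      by_contra h2
      exact h1 fun s hs y => by
        by_contra h4
        exact h2 ⟨s, hs, y, h4⟩
    by_cases h2 : ∀ s ∈ Q r, ∀ y, ρ s y = y
    · exact hxP.2 r ((hS3 r).2 ⟨hr, h2, h1'⟩) hex
    · exfalso
      have h2' : ∃ s ∈ Q r, ∃ y, ρ s y ≠ y := by
        by_contra h4
        exact h2 fun s hs y => by
          by_contra h5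
          exact h4 ⟨s, hs, y, h5⟩
      obtain ⟨s, hs, hsx⟩ := hall r ((hS2 r).2 ⟨hr, h2'⟩)
      obtain ⟨a, ha, has⟩ := hex
      apply hsx
      have h6 := has s ((hQ r s).1 hs).1
      rw [hmul, hmul, ← ((hQ r s).1 hs).2 a ha, ← hmul a, mul_inv_cancel, map_one,
        Module.End.one_apply] at h6
      exact h6

omit [Finite H] [Finite X] in
private theorem to_app (g : H) (f : Module.Dual (ZMod p) X) (x : X) :
    ρ.dual g f x = f (ρ g⁻¹ x) := rfl

omit [Finite H] [Finite X] in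
private theorem to_triv (g : H) : (∀ f, ρ.dual g f = f) ↔ ∀ x, ρ g x = x := by
  have h1 : ∀ y, ρ g (ρ g⁻¹ y) = y := fun y => by
    rw [← Module.End.mul_apply, ← map_mul, mul_inv_cancel, map_one, Module.End.one_apply]
  have h2 : ∀ y, ρ g⁻¹ (ρ g y) = y := fun y => by
    rw [← Module.End.mul_apply, ← map_mul, inv_mul_cancel, map_one, Module.End.one_apply]
  constructor
  · intro h x
    have h3 : ρ g⁻¹ x = x := by
      rw [← sub_eq_zero, ← Module.forall_dual_apply_eq_zero_iff (ZMod p)]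
      intro f
      rw [map_sub, ← to_app, h f, sub_self]
    rw [← h3, h1, h3]
  · intro h f
    refine LinearMap.ext fun x => ?_
    have h3 : ρ g⁻¹ x = x := by
      rw [← h (ρ g⁻¹ x), h1]
    rw [to_app, h3]

/-- (to, size 2) PROOF. A subspace `W` of the dual space: its annihilator in `X`. -/
theorem irrd_dual (N : Subgroup H) : Irrd ρ.dual N ↔ Irrd ρ N := by
  constructor
  · intro h W hW
    have h1 : ∀ n ∈ N, ∀ f ∈ W.dualAnnihilator, ρ.dual n f ∈ W.dualAnnihilator := by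
      intro n hn f hf
      rw [Submodule.mem_dualAnnihilator] at hf ⊢
      intro w hw
      rw [to_app]
      exact hf _ (hW n⁻¹ (inv_mem hn) w hw)
    rcases h _ h1 with h2 | h2
    · right
      rw [← Submodule.dualAnnihilator_top] at h2
      exact Subspace.dualAnnihilator_inj.1 h2
    · left
      rw [← Submodule.dualAnnihilator_bot] at h2
      exact Subspace.dualAnnihilator_inj.1 h2
  · intro h W hW
    have h1 : ∀ n ∈ N, ∀ x ∈ W.dualCoannihilator, ρ n x ∈ W.dualCoannihilator := by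
      intro n hn x hx
      rw [Submodule.mem_dualCoannihilator] at hx ⊢
      intro f hf
      have h2 := hx _ (hW n⁻¹ (inv_mem hn) f hf)
      rwa [to_app, inv_inv] at h2
    have h3 : W.dualCoannihilator.dualAnnihilator = W :=
      Subspace.dualCoannihilator_dualAnnihilator_eq
    rcases h _ h1 with h2 | h2
    · right
      rw [← h3, h2, Submodule.dualAnnihilator_bot]
    · left
      rw [← h3, h2, Submodule.dualAnnihilator_top]

/-- (to, size 2) PROOF. `irrd_dual`; `|X| = |X^*|`; an element acts trivially on `X^*` iff it acts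
trivially on `X`. -/
theorem full_dual (N : Subgroup H) : Full ρ.dual N ↔ Full ρ N := by
  have h1 : Nat.card (Module.Dual (ZMod p) X) = Nat.card X :=
    (Nat.card_congr (Module.finBasis (ZMod p) X).toDualEquiv.toEquiv).symm
  have h2 : Nat.card {c : N // ∀ f, ρ.dual (c : H) f = f} =
      Nat.card {c : N // ∀ x : X, ρ (c : H) x = x} :=
    Nat.card_congr (Equiv.subtypeEquivRight fun c => to_triv (c : H))
  unfold Full
  rw [irrd_dual, h1, h2]

omit [Finite H] [Finite X] in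
private theorem tp_fix (g : H) (t : Module.Dual (ZMod p) X) : ρ.dual g t = t ↔ FixL ρ t g := by
  have h1 : ∀ y, ρ g (ρ g⁻¹ y) = y := fun y => by
    rw [← Module.End.mul_apply, ← map_mul, mul_inv_cancel, map_one, Module.End.one_apply]
  have h2 : ∀ y, ρ g⁻¹ (ρ g y) = y := fun y => by
    rw [← Module.End.mul_apply, ← map_mul, inv_mul_cancel, map_one, Module.End.one_apply]
  constructor
  · intro h x
    have h3 := LinearMap.congr_fun h (ρ g x)
    rw [to_app, h2] at h3
    exact h3.symm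
  · intro h
    refine LinearMap.ext fun x => ?_
    have h3 := h (ρ g⁻¹ x)
    rw [h1] at h3
    rw [to_app]
    exact h3.symm

/-- (tp, size 3) The selection theorem for linear forms. PROOF. `TH ρ.dual A C S R` holds: `irrd_dual`;
`fpf`: if `c ∈ C` fixes a non-zero form then `c` fixes a non-zero vector (the fixed space of `c` on `X^*` is the
annihilator of the range of `ρ c - 1`; if `ρ c - 1` is injective then it is surjective), so it is trivial.
`tlem`; `(ρ.dual h t) x = t (ρ h⁻¹ x)`; replace `s` by `s⁻¹`; `full_dual`. -/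
theorem tprime [Nontrivial X] {C : Subgroup H} {S : Finset ℕ} {R : ℕ → Subgroup H}
    (h : TH ρ A C S R) : ∃ t : Module.Dual (ZMod p) X,
      (∀ a ∈ A, FixL ρ t a → ∀ y, ρ a y = y) ∧
      ∀ r ∈ S, (∃ a ∈ A, ∀ s ∈ R r, FixL ρ t (a * s * a⁻¹)) →
        (∀ s ∈ R r, ∀ y, ρ s y = y) ∨ Full ρ ⁅A, R r⁆ := by
  have hfin : Finite (Module.Dual (ZMod p) X) :=
    Finite.of_injective (fun f : Module.Dual (ZMod p) X => (f : X → ZMod p)) DFunLike.coe_injective
  have hnt : Nontrivial (Module.Dual (ZMod p) X) := by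
    obtain ⟨x, hx⟩ := exists_ne (0 : X)
    by_contra hcon
    rw [not_nontrivial_iff_subsingleton] at hcon
    apply hx
    rw [← Module.forall_dual_apply_eq_zero_iff (ZMod p)]
    intro f
    rw [Subsingleton.elim f 0, LinearMap.zero_apply]
  have hd : TH ρ.dual A C S R :=
    { ab := h.ab
      pH := h.pH
      irr := (irrd_dual ⊤).2 h.irr
      prime := h.prime
      ndvd := h.ndvd
      pgr := h.pgr
      com := h.com
      Cn := h.Cn
      CA := h.CA
      AC := h.AC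
      fpf := by
        intro c hc f hf hcf
        rw [tp_fix] at hcf
        apply (to_triv c).2
        -- `ρ c - 1` is not surjective
        have h1 : ¬ Function.Injective (fun x : X => ρ c x - x) := by
          intro hinj
          have hsur := Finite.surjective_of_injective hinj
          apply hf
          refine LinearMap.ext fun x => ?_
          obtain ⟨z, hz⟩ := hsur x
          have hz' : ρ c z - z = x := hz
          rw [← hz', map_sub, hcf z, sub_self, LinearMap.zero_apply]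
        have h2 : ∃ x : X, x ≠ 0 ∧ ρ c x = x := by
          by_contra hcon
          apply h1
          intro x y hxy
          have hxy' : ρ c x - x = ρ c y - y := hxy
          by_contra hne
          apply hcon
          refine ⟨x - y, sub_ne_zero.2 hne, ?_⟩
          rw [map_sub]
          have h3 : ρ c x - ρ c y = x - y := by
            rw [sub_eq_iff_eq_add] at hxy'
            rw [hxy']
            abel
          exact h3
        obtain ⟨x, hx, hcx⟩ := h2
        exact h.fpf c hc x hx hcx }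
  obtain ⟨t, ht1, ht2⟩ := tlem hd
  refine ⟨t, fun a ha hf => (to_triv a).1 (ht1 a ha ((tp_fix a t).2 hf)), ?_⟩
  rintro r hr ⟨a, ha, has⟩
  rcases ht2 r hr ⟨a, ha, fun s hs => (tp_fix _ t).2 (has s hs)⟩ with h1 | h1
  · exact Or.inl fun s hs => (to_triv s).1 (h1 s hs)
  · exact Or.inr ((full_dual _).1 h1)

theorem tsub {C : Subgroup H} {S : Finset ℕ} {R : ℕ → Subgroup H} (hA : Ab A)
    (hpH : ¬ p ∣ Nat.card H) (W W' : Submodule (ZMod p) X) (hW : Ivt ρ ⊤ W) (hne : W ≠ ⊥)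
    (hc : IsCompl W W') (hirr : ∀ W₁ ≤ W, Ivt ρ ⊤ W₁ → W₁ = ⊥ ∨ W₁ = W)
    (hprime : ∀ r ∈ S, r.Prime) (hndvd : ∀ r ∈ S, ¬ r ∣ Nat.card A)
    (hpgr : ∀ r ∈ S, IsPGroup r (R r))
    (hcom : ∀ r ∈ S, ∀ r' ∈ S, r ≠ r' → ∀ x ∈ R r, ∀ y ∈ R r', x * y = y * x)
    (hCn : C.Normal) (hCA : C ≤ A) (hAC : ∀ r ∈ S, ⁅A, R r⁆ ≤ C)
    (hfpf : ∀ c ∈ C, ∀ x ∈ W, x ≠ 0 → ρ c x = x → ∀ y ∈ W, ρ c y = y) :
    ∃ t : Module.Dual (ZMod p) X, (∀ w ∈ W', t w = 0) ∧
      (∀ a ∈ A, (∀ w ∈ W, t (ρ a w) = t w) → ∀ w ∈ W, ρ a w = w) ∧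
      ∀ r ∈ S, (∃ a ∈ A, ∀ s ∈ R r, ∀ w ∈ W, t (ρ (a * s * a⁻¹) w) = t w) →
        (∀ s ∈ R r, ∀ w ∈ W, ρ s w = w) ∨ FullS ρ W ⁅A, R r⁆ := by
  have hnt : Nontrivial W := (Submodule.nontrivial_iff_ne_bot).2 hne
  have key : ∀ (N : Subgroup H) (W₁ : Submodule (ZMod p) W), Ivt (rs ρ W hW) N W₁ →
      Ivt ρ N (W₁.map W.subtype) := by
    rintro N W₁ h1 n hn _ ⟨w, hw, rfl⟩
    exact ⟨rs ρ W hW n w, h1 n hn w hw, rfl⟩
  have hle : ∀ W₁ : Submodule (ZMod p) W, W₁.map W.subtype ≤ W := by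
    rintro W₁ _ ⟨w, -, rfl⟩
    exact w.2
  have hback : ∀ W₁ : Submodule (ZMod p) W,
      (W₁.map W.subtype = ⊥ ∨ W₁.map W.subtype = W) → W₁ = ⊥ ∨ W₁ = ⊤ := by
    rintro W₁ (h1 | h1)
    · left
      rw [eq_bot_iff]
      intro w hw
      have h2 : (w : X) ∈ W₁.map W.subtype := ⟨w, hw, rfl⟩
      rw [h1, Submodule.mem_bot] at h2
      exact (Submodule.mem_bot _).2 (Subtype.ext h2)
    · right
      rw [eq_top_iff]
      intro w _
      have h2 : (w : X) ∈ W₁.map W.subtype := by rw [h1]; exact w.2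
      obtain ⟨w', hw', e⟩ := h2
      have h3 : w' = w := Subtype.ext e
      exact h3 ▸ hw'
  have hTH : TH (rs ρ W hW) A C S R :=
    { ab := hA
      pH := hpH
      irr := fun W₁ h1 => hback W₁ (hirr _ (hle W₁) (key ⊤ W₁ h1))
      prime := hprime
      ndvd := hndvd
      pgr := hpgr
      com := hcom
      Cn := hCn
      CA := hCA
      AC := hAC
      fpf := fun c hc x hx h1 y => Subtype.ext (hfpf c hc x x.2 (fun h2 => hx (Subtype.ext h2))
        (congrArg Subtype.val h1) y y.2) }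
  obtain ⟨t, h1, h2⟩ := tprime hTH
  refine ⟨t ∘ₗ Submodule.projectionOnto W W' hc, ?_, ?_, ?_⟩
  · intro w hw
    rw [LinearMap.comp_apply, Submodule.projectionOnto_apply_right hc ⟨w, hw⟩, map_zero]
  · intro a ha h3 w hw
    have h4 : ∀ w : W, (t ∘ₗ Submodule.projectionOnto W W' hc) w = t w := fun w => by
      rw [LinearMap.comp_apply, Submodule.projectionOnto_apply_left]
    have h5 : FixL (rs ρ W hW) t a := fun w => by
      have h6 := h3 w w.2
      rw [← rs_apply ρ W hW a w, h4, h4] at h6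
      exact h6
    exact congrArg Subtype.val (h1 a ha h5 ⟨w, hw⟩)
  · rintro r hr ⟨a, ha, h3⟩
    have h4 : ∀ w : W, (t ∘ₗ Submodule.projectionOnto W W' hc) w = t w := fun w => by
      rw [LinearMap.comp_apply, Submodule.projectionOnto_apply_left]
    have h5 : ∀ s ∈ R r, FixL (rs ρ W hW) t (a * s * a⁻¹) := fun s hs w => by
      have h6 := h3 s hs w w.2
      rw [← rs_apply ρ W hW (a * s * a⁻¹) w, h4, h4] at h6
      exact h6
    rcases h2 r hr ⟨a, ha, h5⟩ with h6 | ⟨h6, m, t', hm, ht, h7, h8⟩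
    · left
      intro s hs w hw
      exact congrArg Subtype.val (h6 s hs ⟨w, hw⟩)
    · right
      refine ⟨?_, m, t', hm, ht, h7, ?_⟩
      · intro W₁ hW₁ h9
        have h10 : (W₁.comap W.subtype).map W.subtype = W₁ := by
          rw [Submodule.map_comap_subtype, inf_eq_right.2 hW₁]
        rcases h6 (W₁.comap W.subtype) (fun n hn w hw => h9 n hn w hw) with h11 | h11
        · left
          rw [← h10, h11, Submodule.map_bot]
        · right
          rw [← h10, h11, Submodule.map_top, Submodule.range_subtype]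
      · rw [h8]
        congr 1
        refine Nat.card_congr (Equiv.subtypeEquivRight fun c => ?_)
        constructor
        · intro h9 w hw
          exact congrArg Subtype.val (h9 ⟨w, hw⟩)
        · intro h9 w
          exact Subtype.ext (h9 w w.2)

end

end Pool.Agent.Nan
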